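import Pool.Agent.H857.PD.Core

/-! Project OddPrimeDimension (helper857), statement O10 (helper44), after w10 of helper628. -/

set_option autoImplicit false

namespace Pool.Agent.H44.PDO10

open Module Polynomial Pool.Agent.W521.Descent Pool.Agent.W521.Density Pool.Agent.W521.Count
  Pool.Agent.X297.UB Pool.Agent.H857.PB Pool.Agent.H857.PA Pool.Agent.H857.HK Pool.Agent.H857.EF
  Pool.Agent.H857.WT Pool.Agent.H857.SG Pool.Agent.H857.PD

/-- no two roots have the product `s ^ 2` -/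
theorem ne_q {r s : ℕ} (hr : 1 ≤ r) (hs : 1 < s) {z : Fin (2 * r + 1) → QB} (hG : GenO r s z)
    (i j : Fin (2 * r + 1)) : (z i : ℂ) * (z j : ℂ) ≠ ((s ^ 2 : ℕ) : ℂ) := by
  intro h
  classical
  obtain ⟨l, hli, hlj⟩ : ∃ l : Fin (2 * r + 1), l ≠ i ∧ l ≠ j := by
    have h1 : ({i, j} : Finset (Fin (2 * r + 1))).card < Fintype.card (Fin (2 * r + 1)) := by
      rw [Fintype.card_fin]
      have := Finset.card_le_two (a := i) (b := j)
      omega
    obtain ⟨l, hl⟩ := Finset.exists_mem_notMem_of_card_lt_card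
      (s := ({i, j} : Finset (Fin (2 * r + 1)))) (t := Finset.univ) (by
        rw [Finset.card_univ]
        exact h1)
    refine ⟨l, fun h => hl.2 ?_, fun h => hl.2 ?_⟩
    · rw [h]
      exact Finset.mem_insert_self _ _
    · rw [h]
      exact Finset.mem_insert_of_mem (Finset.mem_singleton_self _)
  set e : Fin (2 * r + 1) → ℤ :=
    fun m => (if m = i then 1 else 0) + (if m = j then 1 else 0) with he
  have hsum : ∑ m, e m = 2 := by
    rw [he]
    simp [Finset.sum_add_distrib]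
  have hprod : ∏ m, (z m : ℂ) ^ (2 * e m) = ((s ^ 2 : ℕ) : ℂ) ^ (2 : ℤ) := by
    have hz0 : ∀ m, (z m : ℂ) ≠ 0 := by
      intro m hm
      have h1 := hG.norm m
      rw [hm, norm_zero] at h1
      have h2 : ((s ^ 2 : ℕ) : ℝ) ≠ 0 := by
        have h3 : s ^ 2 ≠ 0 := by positivity
        exact_mod_cast h3
      apply h2
      rw [← h1]
      norm_num
    have h1 : ∀ m, (z m : ℂ) ^ (2 * e m) = (if m = i then (z m : ℂ) ^ (2 : ℤ) else 1) *
        (if m = j then (z m : ℂ) ^ (2 : ℤ) else 1) := by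
      intro m
      rw [he]
      simp only [mul_add]
      rw [zpow_add₀ (hz0 m)]
      congr 1
      · split_ifs
        · rw [mul_one]
        · rw [mul_zero, zpow_zero]
      · split_ifs
        · rw [mul_one]
        · rw [mul_zero, zpow_zero]
    rw [Finset.prod_congr rfl (fun m _ => h1 m), Finset.prod_mul_distrib, Finset.prod_ite_eq',
      Finset.prod_ite_eq', if_pos (Finset.mem_univ _), if_pos (Finset.mem_univ _), ← mul_zpow, h]
  have h2 := hG.rel e ⟨1, one_pos, by rw [pow_one, pow_one, hsum, hprod]⟩ l i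
  rw [he] at h2
  simp only [if_neg hli, if_neg hlj, if_true] at h2
  split_ifs at h2 <;> omega

theorem conj_eq {q : ℕ} {z : ℂ} (h : ‖z‖ ^ 2 = (q : ℝ)) : z * (starRingEnd ℂ) z = (q : ℂ) := by
  rw [Complex.mul_conj, Complex.normSq_eq_norm_sq, h]
  simp

theorem ne_conj {r s : ℕ} (hr : 1 ≤ r) (hs : 1 < s) {z : Fin (2 * r + 1) → QB}
    (hG : GenO r s z) (i j : Fin (2 * r + 1)) :
    (z i : ℂ) ≠ (starRingEnd ℂ) (z j : ℂ) := by
  intro h
  apply ne_q hr hs hG i j
  rw [h, mul_comm]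
  exact conj_eq (hG.norm j)

/-- the field `ℚ(√-D)` -/
def KK (D : ℕ) : Subring ℂ where
  carrier := quadField D
  mul_mem' := by
    rintro _ _ ⟨x, y, rfl⟩ ⟨u, v, rfl⟩
    refine ⟨x * u - D * (y * v), x * v + y * u, ?_⟩
    have h1 : ((Real.sqrt D : ℝ) : ℂ) * ((Real.sqrt D : ℝ) : ℂ) = (D : ℂ) := by
      rw [← Complex.ofReal_mul, Real.mul_self_sqrt (Nat.cast_nonneg D)]
      simp
    push_cast
    linear_combination (-(y : ℂ) * v) * h1 + ((y : ℂ) * v * ((Real.sqrt D : ℝ) : ℂ) *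
      ((Real.sqrt D : ℝ) : ℂ)) * Complex.I_mul_I
  one_mem' := ⟨1, 0, by simp⟩
  add_mem' := by
    rintro _ _ ⟨x, y, rfl⟩ ⟨u, v, rfl⟩
    refine ⟨x + u, y + v, ?_⟩
    push_cast
    ring
  zero_mem' := ⟨0, 0, by simp⟩
  neg_mem' := by
    rintro _ ⟨x, y, rfl⟩
    refine ⟨-x, -y, ?_⟩
    push_cast
    ring

theorem al_mem {k : ℕ} (d : ℕ) (x y : Fin k → ℤ) (j : Fin k) : al d x y j ∈ KK d :=
  ⟨x j, y j, by unfold al; push_cast; rfl⟩

theorem al_conj_mem {k : ℕ} (d : ℕ) (x y : Fin k → ℤ) (j : Fin k) :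
    (starRingEnd ℂ) (al d x y j) ∈ KK d := by
  refine ⟨x j, -y j, ?_⟩
  unfold al
  simp

theorem C_lift {D : ℕ} {c : ℂ} (h : c ∈ KK D) : C c ∈ lifts (KK D).subtype := by
  have := C_mem_lifts (KK D).subtype ⟨c, h⟩
  exact this

theorem X_lift (D n : ℕ) : (X ^ n : ℂ[X]) ∈ lifts (KK D).subtype :=
  (lifts (KK D).subtype).pow_mem (X_mem_lifts _) n

theorem o10 : O10 := by
  intro r s d x y f z hr hs hd hN hf hG
  refine ⟨d, hO r s d x y, hd, ?_, ?_, hN.map, ?_, 1, one_pos, ?_⟩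
  · rw [← hN.prod]
    exact monic_prod_of_monic _ _ (fun i _ => monic_X_sub_C _)
  · have h1 : hO r s d x y ∈ lifts (KK d).subtype := by
      unfold hO hpolyO
      refine (lifts (KK d).subtype).add_mem ((lifts (KK d).subtype).add_mem (X_lift _ _) ?_) ?_
      · refine (lifts (KK d).subtype).sum_mem (fun j _ => (lifts (KK d).subtype).add_mem ?_ ?_)
        · exact (lifts (KK d).subtype).mul_mem (C_lift (al_mem d x y j)) (X_lift _ _)
        · refine (lifts (KK d).subtype).mul_mem (C_lift ?_) (X_lift _ _)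
          exact (KK d).mul_mem ((KK d).pow_mem (natCast_mem _ s) _) (al_conj_mem d x y j)
      · exact C_lift ((KK d).pow_mem (natCast_mem _ s) _)
    intro j
    obtain ⟨c, hc⟩ := (lifts_iff_coeff_lifts _).1 h1 j
    rw [← hc]
    exact c.2
  · rw [← hN.prod, Polynomial.map_prod]
    refine IsCoprime.prod_left (fun i _ => IsCoprime.prod_right (fun j _ => ?_))
    rw [Polynomial.map_sub, Polynomial.map_X, Polynomial.map_C]
    exact isCoprime_X_sub_C_of_isUnit_sub
      ((sub_ne_zero.2 (ne_conj hr hs hG i j)).isUnit)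
  · have h0 : (hO r s d x y).coeff 0 = (s : ℂ) ^ (2 * r + 1) := by
      rw [← hN.prod, coeff_zero_eq_eval_zero, eval_prod]
      have h1 : ∀ i : Fin (2 * r + 1), (X - C (z i : ℂ)).eval 0 = -1 * (z i : ℂ) := by
        intro i
        rw [eval_sub, eval_X, eval_C]
        ring
      rw [Finset.prod_congr rfl (fun i _ => h1 i), Finset.prod_mul_distrib, Finset.prod_const,
        Finset.card_univ, Fintype.card_fin, hG.prod]
      have e : ((-1 : ℂ)) ^ (2 * r + 1) = -1 := Odd.neg_one_pow ⟨r, rfl⟩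
      rw [e]
      ring
    rw [h0]
    push_cast
    ring

end Pool.Agent.H44.PDO10
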