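import Pool.Agent.H857.PD.Core

/-!
# Exotic classes on the square (statement O11E of the project of helper857)

The lemmas `alt`, `fn`, `fn_apply`, `pow_apply`, `eig`, `diag`, `diag_inj` are those of
`Pool/Agent/H857/WT/P/W11.lean`.
-/

set_option autoImplicit false

namespace Pool.Agent.H548.PD

open Module Polynomial Pool.Agent.H857.HK Pool.Agent.H857.EF Pool.Agent.H857.WT
  Pool.Agent.H857.SG Pool.Agent.H857.PD

variable {V : Type} [AddCommGroup V] [Module ℂ V]

/-- the determinant of the values of `n` functionals -/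
noncomputable def alt {n : ℕ} (φ : Fin n → V →ₗ[ℂ] ℂ) : V [⋀^Fin n]→ₗ[ℂ] ℂ :=
  (Matrix.detRowAlternating (n := Fin n) (R := ℂ)).compLinearMap (LinearMap.pi φ)

/-- the same as a functional on the exterior algebra -/
noncomputable def fn {n : ℕ} (φ : Fin n → V →ₗ[ℂ] ℂ) : ExteriorAlgebra ℂ V →ₗ[ℂ] ℂ :=
  ExteriorAlgebra.liftAlternating (Function.update (0 : ∀ i, V [⋀^Fin i]→ₗ[ℂ] ℂ) n (alt φ))

theorem fn_apply {n : ℕ} (φ : Fin n → V →ₗ[ℂ] ℂ) (v : Fin n → V) :
    fn φ (ExteriorAlgebra.ιMulti ℂ n v) = Matrix.det (Matrix.of fun a b => φ b (v a)) := by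
  unfold fn
  rw [ExteriorAlgebra.liftAlternating_apply_ιMulti, Function.update_self]
  rfl

theorem pow_apply {F : V →ₗ[ℂ] V} {α : V →ₗ[ℂ] ℂ} {a : ℂ} (hα : ∀ u, α (F u) = a * α u)
    (t : ℕ) (u : V) : α ((F ^ t) u) = a ^ t * α u := by
  induction t generalizing u with
  | zero => simp
  | succ t ih =>
    rw [pow_succ', Module.End.mul_apply, hα, ih, pow_succ']
    ring

theorem eig [FiniteDimensional ℂ V] {F : V →ₗ[ℂ] V}
    (hF : Submodule.span ℂ {v : V | ∃ z : ℂ, F v = z • v} = ⊤) {z : ℂ}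
    (hz : F.charpoly.IsRoot z) :
    ∃ (v : V) (φ : V →ₗ[ℂ] ℂ), F v = z • v ∧ φ v = 1 ∧ ∀ u, φ (F u) = z * φ u := by
  have h1 : Module.End.HasEigenvalue F z :=
    (Module.End.hasEigenvalue_iff_isRoot_charpoly F z).2 hz
  have h2 : LinearMap.range (F - z • (LinearMap.id : V →ₗ[ℂ] V)) < ⊤ := by
    rw [lt_top_iff_ne_top]
    intro h
    have h3 := LinearMap.ker_eq_bot_iff_range_eq_top.2 h
    obtain ⟨v, hv⟩ := h1.exists_hasEigenvector
    have h4 : v ∈ LinearMap.ker (F - z • (LinearMap.id : V →ₗ[ℂ] V)) := by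
      rw [LinearMap.mem_ker, LinearMap.sub_apply, LinearMap.smul_apply, LinearMap.id_apply,
        hv.apply_eq_smul, sub_self]
    rw [h3] at h4
    exact hv.2 ((Submodule.mem_bot ℂ).1 h4)
  obtain ⟨φ, hφ0, hφ⟩ := Submodule.exists_le_ker_of_lt_top _ h2
  have hφ1 : ∀ u, φ (F u) = z * φ u := by
    intro u
    have h3 : (F - z • (LinearMap.id : V →ₗ[ℂ] V)) u ∈ LinearMap.ker φ := hφ ⟨u, rfl⟩
    rw [LinearMap.mem_ker, LinearMap.sub_apply, LinearMap.smul_apply, LinearMap.id_apply,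
      map_sub, map_smul, smul_eq_mul, sub_eq_zero] at h3
    exact h3
  obtain ⟨v, ⟨μ, hμ⟩, hv⟩ : ∃ v : V, (∃ z : ℂ, F v = z • v) ∧ φ v ≠ 0 := by
    by_contra hcon
    push Not at hcon
    apply hφ0
    have h5 : Submodule.span ℂ {v : V | ∃ z : ℂ, F v = z • v} ≤ LinearMap.ker φ := by
      rw [Submodule.span_le]
      rintro v ⟨μ, hμ⟩
      exact hcon v ⟨μ, hμ⟩
    rw [hF, top_le_iff] at h5
    exact LinearMap.ker_eq_top.1 h5
  have hμz : μ = z := by
    have h6 := hφ1 v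
    rw [hμ, map_smul, smul_eq_mul] at h6
    exact mul_right_cancel₀ hv h6
  refine ⟨(φ v)⁻¹ • v, φ, ?_, ?_, hφ1⟩
  · rw [map_smul, hμ, hμz, smul_comm]
  · rw [map_smul, smul_eq_mul, inv_mul_cancel₀ hv]

/-- the diagonal map with the entries `a i` -/
noncomputable def diag {n : ℕ} (a : Fin n → ℂ) : (Fin n → ℂ) →ₗ[ℂ] (Fin n → ℂ) :=
  LinearMap.pi fun i => a i • LinearMap.proj i

theorem diag_single {n : ℕ} (a : Fin n → ℂ) (i : Fin n) :
    diag a (Pi.single i 1) = a i • (Pi.single i 1 : Fin n → ℂ) := by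
  funext j
  by_cases h : j = i
  · subst h; simp [diag]
  · simp [diag, h]

theorem map_mem {W : Type} [AddCommGroup W] [Module ℂ W] (Φ : V →ₗ[ℂ] W)
    {y : ExteriorAlgebra ℂ V} (hy : y ∈ ⋀[ℂ]^2 V) : ExteriorAlgebra.map Φ y ∈ ⋀[ℂ]^2 W := by
  rw [ExteriorAlgebra.exteriorPower, pow_two] at hy ⊢
  refine Submodule.mul_induction_on hy ?_ fun x y hx hy => ?_
  · rintro _ ⟨u, rfl⟩ _ ⟨w, rfl⟩
    rw [map_mul, ExteriorAlgebra.map_apply_ι, ExteriorAlgebra.map_apply_ι]
    exact Submodule.mul_mem_mul ⟨_, rfl⟩ ⟨_, rfl⟩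
  · rw [map_add]
    exact Submodule.add_mem _ hx hy

/-- the diagonal map has no eigenvalue `c` on the second exterior power -/
theorem diag_inj {n : ℕ} (a : Fin n → ℂ) (c : ℂ) (h : ∀ i j, i ≠ j → a i * a j ≠ c)
    {y : ExteriorAlgebra ℂ (Fin n → ℂ)} (hy : y ∈ ⋀[ℂ]^2 (Fin n → ℂ))
    (hyc : ExteriorAlgebra.map (diag a) y = c • y) : y = 0 := by
  classical
  set M : Submodule ℂ (ExteriorAlgebra ℂ (Fin n → ℂ)) := ⋀[ℂ]^2 (Fin n → ℂ) with hM
  set T : ExteriorAlgebra ℂ (Fin n → ℂ) →ₗ[ℂ] ExteriorAlgebra ℂ (Fin n → ℂ) :=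
    (ExteriorAlgebra.map (diag a)).toLinearMap - c • LinearMap.id with hT
  have hTa : ∀ x, T x = ExteriorAlgebra.map (diag a) x - c • x := fun x => rfl
  have hTM : ∀ x ∈ M, T x ∈ M := by
    intro x hx
    rw [hTa]
    exact Submodule.sub_mem _ (map_mem _ hx) (Submodule.smul_mem _ _ hx)
  have hgen : ∀ i j : Fin n, ExteriorAlgebra.ι ℂ (Pi.single i 1 : Fin n → ℂ) *
      ExteriorAlgebra.ι ℂ (Pi.single j 1 : Fin n → ℂ) ∈ M.map T := by
    intro i j
    by_cases hij : i = j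
    · subst hij
      rw [ExteriorAlgebra.ι_sq_zero]
      exact Submodule.zero_mem _
    · have hne : a i * a j - c ≠ 0 := sub_ne_zero.2 (h i j hij)
      refine ⟨(a i * a j - c)⁻¹ • (ExteriorAlgebra.ι ℂ (Pi.single i 1 : Fin n → ℂ) *
        ExteriorAlgebra.ι ℂ (Pi.single j 1 : Fin n → ℂ)), ?_, ?_⟩
      · refine Submodule.smul_mem _ _ ?_
        rw [hM, ExteriorAlgebra.exteriorPower, pow_two]
        exact Submodule.mul_mem_mul ⟨_, rfl⟩ ⟨_, rfl⟩
      · rw [map_smul, hTa, map_mul, ExteriorAlgebra.map_apply_ι, ExteriorAlgebra.map_apply_ι,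
          diag_single, diag_single, map_smul, map_smul, smul_mul_smul_comm, ← sub_smul, smul_smul,
          inv_mul_cancel₀ hne, one_smul]
  have hsum : ∀ u : Fin n → ℂ, ExteriorAlgebra.ι ℂ u =
      ∑ i, u i • ExteriorAlgebra.ι ℂ (Pi.single i 1 : Fin n → ℂ) := by
    intro u
    conv_lhs => rw [pi_eq_sum_univ' u]
    rw [map_sum]
    exact Finset.sum_congr rfl fun i _ => by rw [map_smul]
  have hle : M ≤ M.map T := by
    conv_lhs => rw [hM, ExteriorAlgebra.exteriorPower, pow_two]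
    rw [Submodule.mul_le]
    rintro _ ⟨u, rfl⟩ _ ⟨w, rfl⟩
    rw [hsum u, hsum w, Finset.sum_mul_sum]
    refine Submodule.sum_mem _ fun i _ => Submodule.sum_mem _ fun j _ => ?_
    rw [smul_mul_smul_comm]
    exact Submodule.smul_mem _ _ (hgen i j)
  have hsurj : Function.Surjective (T.restrict hTM) := by
    rintro ⟨x, hx⟩
    obtain ⟨y, hy, hyx⟩ := hle hx
    exact ⟨⟨y, hy⟩, Subtype.ext hyx⟩
  have hinj : Function.Injective (T.restrict hTM) := LinearMap.injective_iff_surjective.2 hsurj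
  have h0 : (T.restrict hTM) ⟨y, hy⟩ = 0 := by
    apply Subtype.ext
    change T y = 0
    rw [hTa, hyc, sub_self]
  have h1 := hinj (h0.trans (map_zero _).symm)
  exact congrArg Subtype.val h1

/-- two independent eigenvectors with dual eigenfunctionals -/
theorem eig2 [FiniteDimensional ℂ V] {F : V →ₗ[ℂ] V}
    (hF : Submodule.span ℂ {v : V | ∃ z : ℂ, F v = z • v} = ⊤) {z : ℂ}
    (hz : (X - C z) ^ 2 ∣ F.charpoly) :
    ∃ (v w : V) (φ ψ : V →ₗ[ℂ] ℂ), F v = z • v ∧ F w = z • w ∧ φ v = 1 ∧ φ w = 0 ∧ ψ v = 0 ∧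
      ψ w = 1 ∧ (∀ u, φ (F u) = z * φ u) ∧ ∀ u, ψ (F u) = z * ψ u := by
  have hroot : F.charpoly.IsRoot z := by
    rw [← dvd_iff_isRoot]
    exact (dvd_pow_self _ two_ne_zero).trans hz
  obtain ⟨v, φ, hv, hφv, hφ⟩ := eig hF hroot
  have hK : ∀ k ∈ LinearMap.ker φ, F k ∈ LinearMap.ker φ := by
    intro k hk
    rw [LinearMap.mem_ker] at hk ⊢
    rw [hφ, hk, mul_zero]
  set F' : LinearMap.ker φ →ₗ[ℂ] LinearMap.ker φ := F.restrict hK with hF'
  have hF'a : ∀ k : LinearMap.ker φ, ((F' k : LinearMap.ker φ) : V) = F k := fun k => rfl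
  let π : V →ₗ[ℂ] LinearMap.ker φ := LinearMap.codRestrict (LinearMap.ker φ)
    (LinearMap.id - φ.smulRight v) (fun u => by
      rw [LinearMap.mem_ker, LinearMap.sub_apply, LinearMap.id_apply, LinearMap.smulRight_apply,
        map_sub, map_smul, hφv, smul_eq_mul, mul_one, sub_self])
  have hπ : ∀ u, ((π u : LinearMap.ker φ) : V) = u - φ u • v := fun u => rfl
  have hπF : ∀ u, π (F u) = F' (π u) := by
    intro u
    apply Subtype.ext
    rw [hF'a, hπ, hπ, hφ, map_sub, map_smul, hv, smul_smul, mul_comm]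
  have hπk : ∀ k : LinearMap.ker φ, π (k : V) = k := by
    intro k
    apply Subtype.ext
    rw [hπ, LinearMap.mem_ker.1 k.2, zero_smul, sub_zero]
  have hπv : π v = 0 := by
    apply Subtype.ext
    rw [hπ, hφv, one_smul, sub_self]
    rfl
  let e : V ≃ₗ[ℂ] ℂ × LinearMap.ker φ :=
    { toFun := fun u => (φ u, π u)
      map_add' := fun x y => by rw [map_add, map_add]; rfl
      map_smul' := fun c x => by rw [map_smul, map_smul]; rfl
      invFun := fun p => p.1 • v + (p.2 : V)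
      left_inv := fun u => by
        show φ u • v + ((π u : LinearMap.ker φ) : V) = u
        rw [hπ, add_sub_cancel]
      right_inv := fun p => by
        obtain ⟨a, k⟩ := p
        show (φ (a • v + (k : V)), π (a • v + (k : V))) = (a, k)
        rw [map_add, map_add, map_smul, map_smul, hφv, hπv, hπk, LinearMap.mem_ker.1 k.2,
          smul_eq_mul, mul_one, add_zero, smul_zero, zero_add] }
  have hconj : e.conj F = (z • (LinearMap.id : ℂ →ₗ[ℂ] ℂ)).prodMap F' := by
    apply LinearMap.ext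
    rintro ⟨a, k⟩
    rw [LinearEquiv.conj_apply_apply, LinearMap.prodMap_apply]
    show (φ (F (a • v + (k : V))), π (F (a • v + (k : V)))) = _
    rw [hφ, hπF, map_add, map_add, map_smul, map_smul, hφv, hπv, hπk, LinearMap.mem_ker.1 k.2,
      smul_zero, zero_add, smul_eq_mul, mul_one, add_zero]
    rfl
  have hcp : F.charpoly = (z • (LinearMap.id : ℂ →ₗ[ℂ] ℂ)).charpoly * F'.charpoly := by
    rw [← LinearMap.charpoly_prodMap, ← hconj, LinearEquiv.charpoly_conj]
  have hroot' : F'.charpoly.IsRoot z := by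
    by_contra hcon
    have h1 : IsCoprime (X - C z) F'.charpoly := by
      rw [(irreducible_X_sub_C z).coprime_iff_not_dvd, dvd_iff_isRoot]
      exact hcon
    rw [hcp] at hz
    have h2 : (X - C z) ^ 2 ∣ (z • (LinearMap.id : ℂ →ₗ[ℂ] ℂ)).charpoly :=
      (h1.pow_left (m := 2)).dvd_of_dvd_mul_right hz
    have h3 := natDegree_le_of_dvd h2 (LinearMap.charpoly_monic _).ne_zero
    rw [LinearMap.charpoly_natDegree, natDegree_pow, natDegree_X_sub_C, Module.finrank_self] at h3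
    omega
  have hspan' : Submodule.span ℂ {k : LinearMap.ker φ | ∃ μ : ℂ, F' k = μ • k} = ⊤ := by
    rw [eq_top_iff]
    rintro k -
    have h1 : (k : V) ∈ Submodule.span ℂ {v : V | ∃ z : ℂ, F v = z • v} := by
      rw [hF]
      exact Submodule.mem_top
    have h2 : π (k : V) ∈ (Submodule.span ℂ {v : V | ∃ z : ℂ, F v = z • v}).map π :=
      Submodule.mem_map_of_mem h1
    rw [hπk, Submodule.map_span] at h2
    refine Submodule.span_mono ?_ h2
    rintro _ ⟨u, ⟨μ, hμ⟩, rfl⟩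
    refine ⟨μ, ?_⟩
    rw [← hπF, hμ, map_smul]
  obtain ⟨w, ψ, hw, hψw, hψ⟩ := eig hspan' hroot'
  refine ⟨v, (w : V), φ, ψ ∘ₗ π, hv, ?_, hφv, LinearMap.mem_ker.1 w.2, ?_, ?_, hφ, fun u => ?_⟩
  · rw [← hF'a, hw]
    rfl
  · rw [LinearMap.comp_apply, hπv, map_zero]
  · rw [LinearMap.comp_apply, hπk, hψw]
  · rw [LinearMap.comp_apply, LinearMap.comp_apply, hπF, hψ]

/-- the product of the values of two roots -/
theorem pair_ne {r s : ℕ} {z : Fin (2 * r + 1) → QB} (hr : 1 ≤ r) (hG : GenO r s z) (t : ℕ)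
    (ht : 0 < t) (i j : Fin (2 * r + 1)) :
    (z i : ℂ) ^ t * (z j : ℂ) ^ t ≠ ((s ^ 2 : ℕ) : ℂ) ^ t := by
  intro he
  have hrel : RelZ (s ^ 2) (fun i => (z i : ℂ)) (fun l => (if l = i then 1 else 0) +
      (if l = j then 1 else 0)) := by
    refine ⟨t, ht, ?_⟩
    have h1 : ∏ l, (z l : ℂ) ^ (2 * ((if l = i then (1 : ℤ) else 0) +
        (if l = j then 1 else 0))) = ((z i : ℂ) * z j) ^ 2 := by
      have h2 : ∀ l, (z l : ℂ) ^ (2 * ((if l = i then (1 : ℤ) else 0) +
          (if l = j then 1 else 0))) = (if l = i then (z l : ℂ) ^ 2 else 1) *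
          (if l = j then (z l : ℂ) ^ 2 else 1) := by
        intro l
        by_cases h3 : l = i
        · by_cases h4 : l = j
          · rw [if_pos h3, if_pos h4, if_pos h3, if_pos h4, ← pow_add]
            norm_cast
          · simp only [if_pos h3, if_neg h4, add_zero, mul_one]
            norm_cast
        · by_cases h4 : l = j
          · simp only [if_neg h3, if_pos h4, zero_add, mul_one, one_mul]
            norm_cast
          · simp [h3, h4]
      rw [Finset.prod_congr rfl fun l _ => h2 l, Finset.prod_mul_distrib,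
        Finset.prod_ite_eq' Finset.univ i, Finset.prod_ite_eq' Finset.univ j,
        if_pos (Finset.mem_univ _), if_pos (Finset.mem_univ _), mul_pow]
    have h5 : ∑ l, ((if l = i then (1 : ℤ) else 0) + (if l = j then 1 else 0)) = 2 := by
      rw [Finset.sum_add_distrib, Finset.sum_ite_eq' Finset.univ i,
        Finset.sum_ite_eq' Finset.univ j, if_pos (Finset.mem_univ _),
        if_pos (Finset.mem_univ _)]
      norm_num
    rw [h1, h5]
    have h6 : ((z i : ℂ) * z j) ^ t = ((s ^ 2 : ℕ) : ℂ) ^ t := by rw [mul_pow, he]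
    have h7 : (((s ^ 2 : ℕ) : ℂ) ^ (2 : ℤ)) = ((s ^ 2 : ℕ) : ℂ) ^ 2 := by norm_cast
    rw [h7, ← pow_mul, ← pow_mul, mul_comm 2 t, pow_mul, h6, pow_mul]
  have hall := hG.rel _ hrel
  -- there is a third index
  obtain ⟨l, hl1, hl2⟩ : ∃ l : Fin (2 * r + 1), l ≠ i ∧ l ≠ j := by
    by_contra hcon
    push Not at hcon
    have hsub : (Finset.univ : Finset (Fin (2 * r + 1))) ⊆ {i, j} := by
      intro l _
      rw [Finset.mem_insert, Finset.mem_singleton]
      by_cases h : l = i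
      · exact Or.inl h
      · exact Or.inr (hcon l h)
    have h1 := Finset.card_le_card hsub
    rw [Finset.card_univ, Fintype.card_fin] at h1
    have h2 : ({i, j} : Finset (Fin (2 * r + 1))).card ≤ 2 := Finset.card_le_two
    omega
  have h8 := hall i l
  simp only [if_true, if_neg hl1, if_neg hl2] at h8
  by_cases hij : i = j
  · rw [if_pos hij] at h8
    norm_num at h8
  · rw [if_neg hij] at h8
    norm_num at h8

/-- **Exotic classes on the square.** -/
theorem o11e : O11E := by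
  intro r s f z hr hs hz hG V _ _ _ F hF
  obtain ⟨hspan, hch⟩ := hF
  have hroot : ∀ i, (X - C (z i : ℂ)) ^ 2 ∣ F.charpoly := by
    intro i
    have h1 := hz i
    rw [hch, Polynomial.map_pow]
    refine pow_dvd_pow_of_dvd ?_ 2
    rw [dvd_iff_isRoot, Polynomial.IsRoot.def, Polynomial.eval_map]
    rw [Polynomial.aeval_def, algebraMap_int_eq] at h1
    exact h1
  choose v w φ ψ hv hw hφv hφw hψv hψw hφ hψ using fun i => eig2 hspan (hroot i)
  -- the families
  let ix : Fin (2 * (2 * r + 1)) ≃ Fin 2 × Fin (2 * r + 1) := finProdFinEquiv.symm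
  let ve : Fin (2 * (2 * r + 1)) → V := fun k => if (ix k).1 = 0 then v (ix k).2 else w (ix k).2
  let fu : Fin (2 * (2 * r + 1)) → V →ₗ[ℂ] ℂ :=
    fun k => if (ix k).1 = 0 then φ (ix k).2 else ψ (ix k).2
  let zz : Fin (2 * (2 * r + 1)) → ℂ := fun k => (z (ix k).2 : ℂ)
  have hve : ∀ k, F (ve k) = zz k • ve k := by
    intro k
    show F (if (ix k).1 = 0 then v (ix k).2 else w (ix k).2) =
      (z (ix k).2 : ℂ) • (if (ix k).1 = 0 then v (ix k).2 else w (ix k).2)
    split_ifs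
    · exact hv _
    · exact hw _
  have hfu : ∀ k u, fu k (F u) = zz k * fu k u := by
    intro k u
    show (if (ix k).1 = 0 then φ (ix k).2 else ψ (ix k).2) (F u) =
      (z (ix k).2 : ℂ) * (if (ix k).1 = 0 then φ (ix k).2 else ψ (ix k).2) u
    split_ifs
    · exact hφ _ u
    · exact hψ _ u
  have hdual : ∀ k l, fu k (ve l) = if k = l then 1 else 0 := by
    intro k l
    by_cases hi : (ix k).2 = (ix l).2
    · show (if (ix k).1 = 0 then φ (ix k).2 else ψ (ix k).2)
        (if (ix l).1 = 0 then v (ix l).2 else w (ix l).2) = _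
      rw [← hi]
      by_cases h1 : (ix k).1 = 0
      · by_cases h2 : (ix l).1 = 0
        · have h3 : k = l := ix.injective (Prod.ext (h1.trans h2.symm) hi)
          rw [if_pos h1, if_pos h2, if_pos h3, hφv]
        · have h3 : k ≠ l := fun h => h2 (h ▸ h1)
          rw [if_pos h1, if_neg h2, if_neg h3, hφw]
      · by_cases h2 : (ix l).1 = 0
        · have h3 : k ≠ l := fun h => h1 (h ▸ h2)
          rw [if_neg h1, if_pos h2, if_neg h3, hψv]
        · have h3 : k = l := by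
            refine ix.injective (Prod.ext ?_ hi)
            have e1 : (ix k).1 = 1 := Fin.eq_one_of_ne_zero _ h1
            have e2 : (ix l).1 = 1 := Fin.eq_one_of_ne_zero _ h2
            rw [e1, e2]
          rw [if_neg h1, if_neg h2, if_pos h3, hψw]
    · have h3 : k ≠ l := fun h => hi (h ▸ rfl)
      rw [if_neg h3]
      have h1 := hfu k (ve l)
      rw [hve, map_smul, smul_eq_mul] at h1
      have h2 : ((z (ix l).2 : ℂ) - z (ix k).2) * fu k (ve l) = 0 := by
        rw [sub_mul]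
        exact sub_eq_zero.2 h1
      rcases mul_eq_zero.1 h2 with h4 | h4
      · exact absurd (hG.inj (Subtype.ext (sub_eq_zero.1 h4))).symm hi
      · exact h4
  have hprod : ∏ k, zz k = (((s ^ 2 : ℕ) : ℂ)) ^ (2 * r + 1) := by
    have h1 : ∏ k, zz k = ∏ p : Fin 2 × Fin (2 * r + 1), (z p.2 : ℂ) :=
      Equiv.prod_comp ix (fun p => (z p.2 : ℂ))
    rw [h1, Fintype.prod_prod_type]
    show ∏ _x : Fin 2, ∏ y, (z y : ℂ) = _
    rw [Finset.prod_const, Finset.card_univ, Fintype.card_fin, hG.prod, neg_sq, ← pow_mul]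
    push_cast
    rw [← pow_mul, mul_comm (2 * r + 1) 2]
  have hpair : ∀ (t : ℕ), 0 < t → ∀ k l, k ≠ l → zz k ^ t * zz l ^ t ≠ ((s ^ 2 : ℕ) : ℂ) ^ t :=
    fun t ht k l _ => pair_ne hr hG t ht _ _
  refine ⟨ExteriorAlgebra.ιMulti ℂ (2 * (2 * r + 1)) ve, ?_, ?_, ?_⟩
  · exact ExteriorAlgebra.ιMulti_range ℂ (2 * (2 * r + 1)) ⟨ve, rfl⟩
  · rw [pow_one, pow_one, ExteriorAlgebra.map_apply_ιMulti]
    have h1 : F ∘ ve = fun i => zz i • ve i := by
      funext i
      exact hve i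
    rw [h1, AlternatingMap.map_smul_univ, hprod]
  · intro t ht hmem
    rw [one_mul] at hmem
    -- the projection
    set Φ : V →ₗ[ℂ] (Fin (2 * (2 * r + 1)) → ℂ) := LinearMap.pi fu with hΦ
    have hcomm : Φ ∘ₗ (F ^ t) = diag (fun i => zz i ^ t) ∘ₗ Φ := by
      ext u i
      exact pow_apply (hfu i) t u
    have hdiv : ∀ y : ExteriorAlgebra ℂ V, y ∈ ⋀[ℂ]^2 V →
        ExteriorAlgebra.map (F ^ t) y = (((s ^ 2 : ℕ) : ℂ) ^ t) • y →
        ExteriorAlgebra.map Φ y = 0 := by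
      intro y hy hyq
      refine diag_inj (fun i => zz i ^ t) (((s ^ 2 : ℕ) : ℂ) ^ t) (hpair t ht) (map_mem Φ hy) ?_
      have h1 : ExteriorAlgebra.map (diag (fun i => zz i ^ t)) (ExteriorAlgebra.map Φ y) =
          ExteriorAlgebra.map Φ (ExteriorAlgebra.map (F ^ t) y) := by
        rw [← AlgHom.comp_apply, ← AlgHom.comp_apply, ExteriorAlgebra.map_comp_map,
          ExteriorAlgebra.map_comp_map, hcomm]
      rw [h1, hyq, map_smul]
    have hS : ∀ y ∈ Submodule.span ℂ {y : ExteriorAlgebra ℂ V | y ∈ ⋀[ℂ]^2 V ∧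
        ExteriorAlgebra.map (F ^ t) y = (((s ^ 2 : ℕ) : ℂ) ^ t) • y},
        ExteriorAlgebra.map Φ y = 0 := by
      intro y hy
      refine Submodule.span_induction (fun y hy => hdiv y hy.1 hy.2) (map_zero _)
        (fun x y _ _ hx hy => by rw [map_add, hx, hy, add_zero])
        (fun a x _ hx => by rw [map_smul, hx, smul_zero]) hy
    have hzero : ExteriorAlgebra.map Φ (ExteriorAlgebra.ιMulti ℂ (2 * (2 * r + 1)) ve) = 0 := by
      rw [divisorProducts, pow_succ] at hmem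
      refine Submodule.mul_induction_on hmem (fun y₁ _ y₂ h₂ => ?_) (fun x y hx hy => ?_)
      · rw [map_mul, hS y₂ h₂, mul_zero]
      · rw [map_add, hx, hy, add_zero]
    have hone : fn (fun i => (LinearMap.proj i : (Fin (2 * (2 * r + 1)) → ℂ) →ₗ[ℂ] ℂ))
        (ExteriorAlgebra.map Φ (ExteriorAlgebra.ιMulti ℂ (2 * (2 * r + 1)) ve)) = 1 := by
      rw [ExteriorAlgebra.map_apply_ιMulti, fn_apply]
      have h1 : (Matrix.of fun a b =>
          (LinearMap.proj b : (Fin (2 * (2 * r + 1)) → ℂ) →ₗ[ℂ] ℂ) ((Φ ∘ ve) a)) =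
          (1 : Matrix (Fin (2 * (2 * r + 1))) (Fin (2 * (2 * r + 1))) ℂ) := by
        ext a b
        rw [Matrix.of_apply, Matrix.one_apply]
        change fu b (ve a) = _
        rw [hdual]
        by_cases h : a = b
        · rw [if_pos h, if_pos h.symm]
        · rw [if_neg h, if_neg (Ne.symm h)]
      rw [h1, Matrix.det_one]
    rw [hzero, map_zero] at hone
    exact zero_ne_one hone

end Pool.Agent.H548.PD
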