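import Pool.Agent.H857.PD.Core

/-!
# The roots without relations give an exotic list
-/

set_option autoImplicit false

namespace Pool.Agent.H591.PD

open Module Polynomial Pool.Agent.W521.Descent Pool.Agent.W521.Density Pool.Agent.W521.Count
  Pool.Agent.X297.UB Pool.Agent.H857.PB Pool.Agent.H857.PA Pool.Agent.H857.HK Pool.Agent.H857.EF
  Pool.Agent.H857.WT Pool.Agent.H857.SG Pool.Agent.H857.PD

/-- A product of the powers with the exponents twice a unit vector. -/
theorem prod_single {n : ℕ} (w : Fin n → ℂ) (i : Fin n) :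
    ∏ k, w k ^ (2 * (Pi.single i (1 : ℤ) : Fin n → ℤ) k) = w i ^ 2 := by
  rw [Finset.prod_eq_single i]
  · rw [Pi.single_eq_same]
    have : (2 * 1 : ℤ) = ((2 : ℕ) : ℤ) := by norm_num
    rw [this, zpow_natCast]
  · intro b _ hb
    rw [Pi.single_eq_of_ne hb]
    simp
  · intro h
    exact absurd (Finset.mem_univ i) h

theorem o11l_pair {r s : ℕ} (hr : 1 ≤ r) (hs : 1 < s) {z : Fin (2 * r + 1) → QB}
    (h : GenO r s z) (i j : Fin (2 * r + 1)) : ¬ PairRel (s ^ 2) (z i : ℂ) (z j : ℂ) := by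
  rintro ⟨N, hN, hNe⟩
  have hz : ∀ k, (z k : ℂ) ≠ 0 := by
    intro k hk
    have h1 := h.norm k
    rw [hk, norm_zero] at h1
    have h2 : (0 : ℝ) < ((s ^ 2 : ℕ) : ℝ) := by
      exact_mod_cast pow_pos (by omega : 0 < s) 2
    rw [← h1] at h2
    norm_num at h2
  have hrel : RelZ (s ^ 2) (fun k => (z k : ℂ))
      ((Pi.single i (1 : ℤ) : Fin (2 * r + 1) → ℤ) +
        (Pi.single j (1 : ℤ) : Fin (2 * r + 1) → ℤ)) := by
    refine ⟨N, hN, ?_⟩
    have e1 : ∏ k, (z k : ℂ) ^ (2 * ((Pi.single i (1 : ℤ) : Fin (2 * r + 1) → ℤ) +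
        (Pi.single j (1 : ℤ) : Fin (2 * r + 1) → ℤ)) k) = ((z i : ℂ) * z j) ^ 2 := by
      have : ∀ k, (z k : ℂ) ^ (2 * ((Pi.single i (1 : ℤ) : Fin (2 * r + 1) → ℤ) +
          (Pi.single j (1 : ℤ) : Fin (2 * r + 1) → ℤ)) k) =
          (z k : ℂ) ^ (2 * (Pi.single i (1 : ℤ) : Fin (2 * r + 1) → ℤ) k) *
          (z k : ℂ) ^ (2 * (Pi.single j (1 : ℤ) : Fin (2 * r + 1) → ℤ) k) := by
        intro k
        rw [← zpow_add₀ (hz k), Pi.add_apply, mul_add]
      rw [Finset.prod_congr rfl fun k _ => this k, Finset.prod_mul_distrib,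
        prod_single (fun k => (z k : ℂ)), prod_single (fun k => (z k : ℂ)), mul_pow]
    have e2 : ∑ k, ((Pi.single i (1 : ℤ) : Fin (2 * r + 1) → ℤ) +
        (Pi.single j (1 : ℤ) : Fin (2 * r + 1) → ℤ)) k = 2 := by
      simp only [Pi.add_apply, Finset.sum_add_distrib]
      rw [Finset.sum_pi_single', Finset.sum_pi_single']
      simp
    rw [e1, e2, ← pow_mul, mul_comm 2 N, pow_mul, hNe]
    have : ((((s ^ 2 : ℕ) : ℂ)) ^ (2 : ℤ)) = (((s ^ 2 : ℕ) : ℂ)) ^ 2 := by
      exact_mod_cast rfl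
    rw [this, ← pow_mul, ← pow_mul, mul_comm]
  have hcard : ({i, j} : Finset (Fin (2 * r + 1))).card < Fintype.card (Fin (2 * r + 1)) := by
    rw [Fintype.card_fin]
    have := Finset.card_le_two (a := i) (b := j)
    omega
  obtain ⟨n, hn⟩ : ∃ n, n ∉ ({i, j} : Finset (Fin (2 * r + 1))) := by
    by_contra hcon
    push Not at hcon
    have : ({i, j} : Finset (Fin (2 * r + 1))) = Finset.univ :=
      Finset.eq_univ_iff_forall.2 hcon
    rw [this, Finset.card_univ] at hcard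
    exact lt_irrefl _ hcard
  have hni : n ≠ i := by
    rintro rfl
    simp at hn
  have hnj : n ≠ j := by
    rintro rfl
    simp at hn
  have h3 := h.rel _ hrel i n
  rw [Pi.add_apply, Pi.add_apply, Pi.single_eq_same, Pi.single_eq_of_ne hni,
    Pi.single_eq_of_ne hnj] at h3
  have h4 : (0 : ℤ) ≤ (Pi.single j (1 : ℤ) : Fin (2 * r + 1) → ℤ) i := by
    by_cases hij : i = j
    · subst hij
      rw [Pi.single_eq_same]
      norm_num
    · rw [Pi.single_eq_of_ne hij]
  omega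

theorem o11l : O11L := by
  intro r s f z hr hs hf h
  have hnp := fun i j => o11l_pair hr hs h i j
  refine ⟨List.ofFn (fun i => (z i : ℂ)) ++ List.ofFn (fun i => (z i : ℂ)), ?_, ?_, ?_, ?_⟩
  · intro hcon
    have := congrArg List.length hcon
    simp at this
  · intro y hy
    rw [List.mem_append, or_self, List.mem_ofFn] at hy
    obtain ⟨i, rfl⟩ := hy
    exact hf i
  · refine ⟨1, one_pos, ((2 * r + 1 : ℕ) : ℤ), ?_⟩
    rw [List.prod_append, List.prod_ofFn, h.prod, pow_one]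
    have : (((s ^ 2 : ℕ) : ℂ)) ^ (((2 * r + 1 : ℕ) : ℤ) * ((1 : ℕ) : ℤ)) =
        (((s ^ 2 : ℕ) : ℂ)) ^ (2 * r + 1) := by
      rw [Nat.cast_one, mul_one, zpow_natCast]
    rw [this]
    push_cast
    ring
  · have hf1 : (List.ofFn (fun i => (z i : ℂ))).Pairwise fun y z => ¬ PairRel (s ^ 2) y z := by
      rw [List.pairwise_ofFn]
      intro i j _
      exact hnp i j
    rw [List.pairwise_append]
    refine ⟨hf1, hf1, ?_⟩
    intro a ha b hb
    rw [List.mem_ofFn] at ha hb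
    obtain ⟨i, rfl⟩ := ha
    obtain ⟨j, rfl⟩ := hb
    exact hnp i j

end Pool.Agent.H591.PD
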