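import Pool.Agent.H857.PD.Core

/-!
# O12: the relations between the roots in the generic case (odd prime dimension)
-/

set_option autoImplicit false

namespace Pool.Agent.H42.PD12

open Module Polynomial Pool.Agent.W521.Descent Pool.Agent.W521.Density Pool.Agent.W521.Count
  Pool.Agent.X297.UB Pool.Agent.H857.PB Pool.Agent.H857.PA Pool.Agent.H857.HK Pool.Agent.H857.EF
  Pool.Agent.H857.WT Pool.Agent.H857.SG Pool.Agent.H857.PD

/-- the number of occurrences -/
def cn {α : Type} [DecidableEq α] (p : α) (L : List α) : ℕ := L.count p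

theorem cn_pos {α : Type} [DecidableEq α] {p : α} {L : List α} : 0 < cn p L ↔ p ∈ L :=
  List.count_pos_iff

theorem prod_cn {α : Type} [DecidableEq α] [Fintype α] (L : List α) (g : α → ℂ) :
    (L.map g).prod = ∏ p, g p ^ cn p L := by
  rw [Finset.prod_list_map_count, Finset.prod_subset (Finset.subset_univ _)]
  · rfl
  · intro p _ hp
    rw [List.count_eq_zero_of_not_mem (fun h => hp (List.mem_toFinset.2 h)), pow_zero]

theorem sum_cn {α : Type} [DecidableEq α] [Fintype α] (L : List α) :
    L.length = ∑ p, cn p L := by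
  rw [← List.sum_toFinset_count_eq_length L]
  refine Finset.sum_subset (Finset.subset_univ _) ?_
  intro p _ hp
  exact List.count_eq_zero_of_not_mem (fun h => hp (List.mem_toFinset.2 h))

/-- the labelled roots -/
noncomputable def gg (q : ℕ) {n : ℕ} (z : Fin n → QB) (p : Fin n × Bool) : ℂ :=
  if p.2 then (z p.1 : ℂ) else (q : ℂ) / (z p.1 : ℂ)

section

variable {n : ℕ} {z : Fin n → QB} {q : ℕ}

theorem norm_gg (hn : ∀ i, ‖(z i : ℂ)‖ ^ 2 = (q : ℝ)) (hq : 0 < q)
    (p : Fin n × Bool) : ‖gg q z p‖ ^ 2 = q := by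
  have hq' : (q : ℝ) ≠ 0 := by exact_mod_cast hq.ne'
  unfold gg
  split_ifs
  · exact hn _
  · rw [norm_div, div_pow, hn]
    simp only [Complex.norm_natCast]
    field_simp

theorem norm_prod (hn : ∀ i, ‖(z i : ℂ)‖ ^ 2 = (q : ℝ)) (hq : 0 < q)
    (L : List (Fin n × Bool)) : ‖(L.map (gg q z)).prod‖ ^ 2 = (q : ℝ) ^ L.length := by
  induction L with
  | nil => simp
  | cons a L ih =>
    rw [List.map_cons, List.prod_cons, norm_mul, mul_pow, ih, norm_gg hn hq, List.length_cons,
      pow_succ]
    ring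

theorem len_eq {M : ℕ} (hn : ∀ i, ‖(z i : ℂ)‖ ^ 2 = (q : ℝ)) (hq : 1 < q) (hM : 0 < M)
    (L : List (Fin n × Bool)) (c : ℤ)
    (h : ((L.map (gg q z)).prod) ^ M = ((q : ℂ) ^ c) ^ M) : (L.length : ℤ) = 2 * c := by
  have h1 := congrArg (fun w : ℂ => ‖w‖ ^ 2) h
  simp only [norm_pow, norm_zpow, Complex.norm_natCast] at h1
  have h2 : ((q : ℝ) ^ L.length) ^ M = ((q : ℝ) ^ c) ^ (M * 2) := by
    rw [← norm_prod hn (by omega) L]
    rw [← pow_mul, mul_comm 2 M, pow_mul, h1, ← pow_mul]
  have hq1 : (1 : ℝ) < q := by exact_mod_cast hq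
  have h3 : (q : ℝ) ^ ((L.length : ℤ) * M) = (q : ℝ) ^ (c * (M * 2)) := by
    have e1 : (q : ℝ) ^ ((L.length : ℤ) * M) = ((q : ℝ) ^ L.length) ^ M := by
      rw [zpow_mul, zpow_natCast, zpow_natCast]
    have e2 : (q : ℝ) ^ (c * (M * 2)) = ((q : ℝ) ^ c) ^ (M * 2) := by
      rw [zpow_mul]
      exact_mod_cast rfl
    rw [e1, e2, h2]
  have h4 := (zpow_right_injective₀ (by linarith) hq1.ne') h3
  have hM' : (M : ℤ) ≠ 0 := by exact_mod_cast hM.ne'
  have h5 : ((L.length : ℤ) - 2 * c) * M = 0 := by linear_combination h4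
  rcases mul_eq_zero.mp h5 with h6 | h6
  · linarith
  · exact absurd h6 hM'

theorem ne_zero_z (hn : ∀ i, ‖(z i : ℂ)‖ ^ 2 = (q : ℝ)) (hq : 1 < q) (i : Fin n) :
    (z i : ℂ) ≠ 0 := by
  intro h0
  have := hn i
  rw [h0, norm_zero] at this
  have h1 : (q : ℝ) = 0 := by rw [← this]; norm_num
  exact (by omega : q ≠ 0) (by exact_mod_cast h1)

theorem rel_of {M : ℕ} (hnm : ∀ i, ‖(z i : ℂ)‖ ^ 2 = (q : ℝ)) (hq : 1 < q) (hM : 0 < M)
    (L : List (Fin n × Bool)) (c : ℤ)
    (h : ((L.map (gg q z)).prod) ^ M = ((q : ℂ) ^ c) ^ M) :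
    RelZ q (fun i => (z i : ℂ)) (fun i => (cn (i, true) L : ℤ) - cn (i, false) L) := by
  have hq0 : (q : ℂ) ≠ 0 := by exact_mod_cast (by omega : q ≠ 0)
  have hz0 : ∀ i, (z i : ℂ) ≠ 0 := ne_zero_z hnm hq
  have hlen := len_eq hnm hq hM L c h
  have hprod : (L.map (gg q z)).prod =
      ∏ i, ((z i : ℂ) ^ (cn (i, true) L) * ((q : ℂ) / z i) ^ (cn (i, false) L)) := by
    rw [prod_cn, ← Finset.univ_product_univ, Finset.prod_product]
    refine Finset.prod_congr rfl fun i _ => ?_
    simp [gg]
  have hcount : L.length = ∑ i, (cn (i, true) L + cn (i, false) L) := by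
    rw [sum_cn, ← Finset.univ_product_univ, Finset.sum_product]
    refine Finset.sum_congr rfl fun i _ => ?_
    simp
  set m : Fin n → ℤ := fun i => cn (i, true) L with hm
  set m' : Fin n → ℤ := fun i => cn (i, false) L with hm'
  have hprod2 : (L.map (gg q z)).prod = (∏ i, (z i : ℂ) ^ (m i - m' i)) * (q : ℂ) ^ (∑ i, m' i) := by
    rw [hprod, Finset.prod_mul_distrib]
    have e1 : ∏ i, ((q : ℂ) / z i) ^ (cn (i, false) L) =
        (q : ℂ) ^ (∑ i, m' i) * ∏ i, (z i : ℂ) ^ (- m' i) := by
      have e3 : (q : ℂ) ^ (∑ i, m' i) = ∏ i, (q : ℂ) ^ (m' i) := by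
        rw [hm']
        have : ∀ s : Finset (Fin n), (q : ℂ) ^ (∑ i ∈ s, ((cn (i, false) L : ℕ) : ℤ)) =
            ∏ i ∈ s, (q : ℂ) ^ ((cn (i, false) L : ℕ) : ℤ) := by
          intro s
          induction s using Finset.induction_on with
          | empty => simp
          | insert a s ha ih => rw [Finset.sum_insert ha, Finset.prod_insert ha, zpow_add₀ hq0, ih]
        exact this _
      rw [e3, ← Finset.prod_mul_distrib]
      refine Finset.prod_congr rfl fun i _ => ?_
      rw [div_pow, zpow_neg, hm']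
      simp only [zpow_natCast]
      rfl
    rw [e1, mul_comm ((q : ℂ) ^ _), ← mul_assoc, ← Finset.prod_mul_distrib]
    congr 1
    refine Finset.prod_congr rfl fun i _ => ?_
    rw [sub_eq_add_neg, zpow_add₀ (hz0 i)]
    simp [hm]
  refine ⟨M, hM, ?_⟩
  have hsum : ∑ i, (m i - m' i) = 2 * c - 2 * ∑ i, m' i := by
    have h1 : (L.length : ℤ) = ∑ i, (m i + m' i) := by
      rw [hcount]; push_cast; rfl
    rw [Finset.sum_sub_distrib]
    rw [Finset.sum_add_distrib] at h1
    linarith
  show (∏ i, (z i : ℂ) ^ (2 * (m i - m' i))) ^ M = ((q : ℂ) ^ (∑ i, (m i - m' i))) ^ M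
  have e5 : ∏ i, (z i : ℂ) ^ (2 * (m i - m' i)) = (∏ i, (z i : ℂ) ^ (m i - m' i)) ^ 2 := by
    rw [← Finset.prod_pow]
    refine Finset.prod_congr rfl fun i _ => ?_
    rw [mul_comm, zpow_mul]
    exact_mod_cast rfl
  rw [e5, hsum]
  have hqs : (q : ℂ) ^ (∑ i, m' i) ≠ 0 := zpow_ne_zero _ hq0
  have e6 : (q : ℂ) ^ (2 * c - 2 * ∑ i, m' i) = ((q : ℂ) ^ c) ^ 2 / ((q : ℂ) ^ (∑ i, m' i)) ^ 2 := by
    rw [zpow_sub₀ hq0, mul_comm 2 c, mul_comm 2 (∑ i, m' i), zpow_mul, zpow_mul]
    exact_mod_cast rfl
  rw [e6, div_pow, eq_div_iff (pow_ne_zero _ (pow_ne_zero _ hqs)), ← pow_mul, ← pow_mul, ← pow_mul,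
    mul_comm 2 M, pow_mul, pow_mul, pow_mul, ← mul_pow, ← mul_pow, ← hprod2, h]

end

theorem perm_of_mem {α : Type} [DecidableEq α] {a b : α} {L : List α} (hab : a ≠ b) (ha : a ∈ L)
    (hb : b ∈ L) : ∃ L', L.Perm (a :: b :: L') := by
  refine ⟨(L.erase a).erase b, ?_⟩
  have h1 := List.perm_cons_erase ha
  have h2 : b ∈ L.erase a := (List.mem_erase_of_ne hab.symm).2 hb
  exact h1.trans ((List.perm_cons_erase h2).cons a)

theorem perm_of_block {α : Type} {B L : List α} (hB : B.Nodup) (h : B ⊆ L) :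
    ∃ L', L.Perm (B ++ L') := by
  obtain ⟨l, hl1, hl2⟩ := List.subperm_of_subset hB h
  obtain ⟨l', hl'⟩ := hl2.exists_perm_append
  exact ⟨l', hl'.trans (hl1.append_right _)⟩

theorem perm_of_block2 {α : Type} [DecidableEq α] {B L : List α} (hB : B.Nodup)
    (h : ∀ b ∈ B, 2 ≤ cn b L) : ∃ L', L.Perm ((B ++ B) ++ L') := by
  obtain ⟨L1, h1⟩ := perm_of_block hB (L := L) fun b hb => cn_pos.1 (by have := h b hb; omega)
  have h2 : B ⊆ L1 := by
    intro b hb
    have h3 : cn b L = cn b B + cn b L1 := by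
      unfold cn
      rw [h1.count_eq, List.count_append]
    have h4 : cn b B ≤ 1 := List.nodup_iff_count_le_one.1 hB b
    have h5 := h b hb
    exact cn_pos.1 (by omega)
  obtain ⟨L2, h6⟩ := perm_of_block hB h2
  refine ⟨L2, ?_⟩
  rw [List.append_assoc]
  exact h1.trans (h6.append_left B)

theorem matched_aux {r s q M : ℕ} {z : Fin (2 * r + 1) → QB} (hz : GenO r s z) (hqs : q = s ^ 2)
    (hq : 1 < q) (hM : 0 < M) : ∀ (len : ℕ) (L : List (Fin (2 * r + 1) × Bool)),
      L.length ≤ len → ∀ c : ℤ, ((L.map (gg q z)).prod) ^ M = ((q : ℂ) ^ c) ^ M →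
      MatchedM (2 * r + 1) (q : ℂ) (L.map (gg q z)) := by
  have hnm : ∀ i, ‖(z i : ℂ)‖ ^ 2 = (q : ℝ) := by
    intro i; rw [hqs]; exact hz.norm i
  have hq0 : (q : ℂ) ≠ 0 := by exact_mod_cast (by omega : q ≠ 0)
  have hz0 : ∀ i, (z i : ℂ) ≠ 0 := ne_zero_z hnm hq
  have hqc : (q : ℂ) = (s : ℂ) ^ 2 := by rw [hqs]; push_cast; rfl
  intro len
  induction len with
  | zero =>
    intro L hL c _
    have : L = [] := List.eq_nil_of_length_eq_zero (by omega)
    subst this
    exact MatchedM.nil
  | succ len ih =>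
    intro L hL c hc
    by_cases hA : ∃ i, (i, true) ∈ L ∧ (i, false) ∈ L
    · obtain ⟨i, h1, h2⟩ := hA
      obtain ⟨L', hL'⟩ := perm_of_mem (by simp) h1 h2
      have hab : gg q z (i, true) * gg q z (i, false) = (q : ℂ) := by
        simp only [gg]
        simp only [if_true, Bool.false_eq_true, if_false]
        exact mul_div_cancel₀ _ (hz0 i)
      refine MatchedM.pair hab (ih L' ?_ (c - 1) ?_) (hL'.map _)
      · have := hL'.length_eq
        simp only [List.length_cons] at this
        omega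
      · have e := (hL'.map (gg q z)).prod_eq
        rw [List.map_cons, List.map_cons, List.prod_cons, List.prod_cons, ← mul_assoc, hab] at e
        rw [e, mul_pow] at hc
        have e2 : (q : ℂ) ^ c = (q : ℂ) * (q : ℂ) ^ (c - 1) := by
          rw [← zpow_one_add₀ hq0]; congr 1; ring
        rw [e2, mul_pow] at hc
        exact mul_left_cancel₀ (pow_ne_zero _ hq0) hc
    · have hA' : ∀ i, cn (i, true) L = 0 ∨ cn (i, false) L = 0 := by
        intro i
        by_contra hcon
        push Not at hcon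
        exact hA ⟨i, cn_pos.1 (Nat.pos_of_ne_zero hcon.1),
          cn_pos.1 (Nat.pos_of_ne_zero hcon.2)⟩
      have hrel0 : RelZ q (fun i => (z i : ℂ))
        (fun i => (cn (i, true) L : ℤ) - cn (i, false) L) := rel_of hnm hq hM L c hc
      have hrel := hz.rel _ (hqs ▸ hrel0)
      -- parity
      have hpar : ∃ t : ℤ, (cn ((0 : Fin (2 * r + 1)), true) L : ℤ) -
          cn ((0 : Fin (2 * r + 1)), false) L = 2 * t := by
        have hlen := len_eq hnm hq hM L c hc
        have hcount : (L.length : ℤ) = ∑ i, ((cn (i, true) L : ℤ) + cn (i, false) L) := by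
          have : L.length = ∑ i, (cn (i, true) L + cn (i, false) L) := by
            rw [sum_cn, ← Finset.univ_product_univ, Finset.sum_product]
            refine Finset.sum_congr rfl fun i _ => ?_
            simp
          rw [this]; push_cast; rfl
        have h1 : ∑ i, ((cn (i, true) L : ℤ) - cn (i, false) L) =
            (2 * r + 1) * ((cn ((0 : Fin (2 * r + 1)), true) L : ℤ) -
              cn ((0 : Fin (2 * r + 1)), false) L) := by
          rw [Finset.sum_congr rfl (fun i _ => hrel i 0), Finset.sum_const, Finset.card_univ,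
            Fintype.card_fin, nsmul_eq_mul]
          push_cast
          ring
        rw [Finset.sum_sub_distrib] at h1
        rw [Finset.sum_add_distrib] at hcount
        set S : ℤ := ∑ i : Fin (2 * r + 1), (cn (i, false) L : ℤ) with hS
        set e0 : ℤ := (cn ((0 : Fin (2 * r + 1)), true) L : ℤ) -
          cn ((0 : Fin (2 * r + 1)), false) L with he0
        refine ⟨c - S - r * e0, ?_⟩
        linarith
      -- removing a block
      have hblock : ∀ β : Bool, (∀ i, 2 ≤ cn (i, β) L) →
          (∏ i, gg q z (i, β)) ^ 2 = (q : ℂ) ^ (2 * r + 1) →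
          MatchedM (2 * r + 1) (q : ℂ) (L.map (gg q z)) := by
        intro β hβ hp
        obtain ⟨L', hL'⟩ := perm_of_block2
          (B := (List.finRange (2 * r + 1)).map fun i => (i, β))
          (L := L) ((List.nodup_finRange _).map fun i j h => (Prod.mk.inj h).1) (by
            intro p hp
            obtain ⟨i, _, rfl⟩ := List.mem_map.1 hp
            exact hβ i)
        set B : List (Fin (2 * r + 1) × Bool) :=
          (List.finRange (2 * r + 1)).map fun i => (i, β) with hB
        have hBl : B.length = 2 * r + 1 := by simp [hB]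
        have hBp1 : (B.map (gg q z)).prod = ∏ i, gg q z (i, β) := by
          rw [hB, List.map_map, ← List.prod_ofFn]
          congr 1
          rw [List.ofFn_eq_map]
          rfl
        have hBp : ((B ++ B).map (gg q z)).prod = (q : ℂ) ^ (2 * r + 1) := by
          rw [List.map_append, List.prod_append, hBp1, ← hp, sq]
        refine MatchedM.block (B := (B ++ B).map (gg q z))
          (L := L'.map (gg q z)) ?_ hBp (ih L' ?_ (c - (2 * r + 1)) ?_) ?_
        · rw [List.length_map, List.length_append, hBl]; ring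
        · have := hL'.length_eq
          simp only [List.length_append, hBl] at this
          omega
        · have e := (hL'.map (gg q z)).prod_eq
          rw [List.map_append, List.prod_append, hBp] at e
          rw [e, mul_pow] at hc
          have e2 : (q : ℂ) ^ c = (q : ℂ) ^ (2 * r + 1) * (q : ℂ) ^ (c - (2 * r + 1)) := by
            have : (q : ℂ) ^ (2 * r + 1) = (q : ℂ) ^ ((2 * r + 1 : ℕ) : ℤ) := by
              rw [zpow_natCast]
            rw [this, ← zpow_add₀ hq0]; congr 1; push_cast; ring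
          rw [e2, mul_pow] at hc
          exact mul_left_cancel₀ (pow_ne_zero _ (pow_ne_zero _ hq0)) hc
        · rw [← List.map_append]
          exact hL'.map _
      have hsq : ((∏ i, (z i : ℂ)) ^ 2) = (q : ℂ) ^ (2 * r + 1) := by
        rw [hz.prod, neg_sq, ← pow_mul, mul_comm _ 2, pow_mul, ← hqc]
      obtain ⟨t, ht⟩ := hpar
      rcases lt_trichotomy ((cn ((0 : Fin (2 * r + 1)), true) L : ℤ) -
          cn ((0 : Fin (2 * r + 1)), false) L) 0 with h0 | h0 | h0
      · -- negative
        refine hblock false (fun i => ?_) ?_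
        · have h1 : (cn (i, true) L : ℤ) - cn (i, false) L =
            (cn ((0 : Fin (2 * r + 1)), true) L : ℤ) - cn ((0 : Fin (2 * r + 1)), false) L :=
            hrel i 0
          omega
        · simp only [gg, Bool.false_eq_true, if_false]
          rw [Finset.prod_div_distrib, div_pow, hsq, Finset.prod_const, Finset.card_univ,
            Fintype.card_fin, div_eq_iff (pow_ne_zero _ hq0), ← pow_add, ← pow_mul]
          congr 1; ring
      · -- zero
        have hnil : L = [] := by
          by_contra hne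
          obtain ⟨⟨i, β⟩, hi⟩ := List.exists_mem_of_ne_nil L hne
          have h1 : (cn (i, true) L : ℤ) - cn (i, false) L =
            (cn ((0 : Fin (2 * r + 1)), true) L : ℤ) - cn ((0 : Fin (2 * r + 1)), false) L :=
            hrel i 0
          rw [h0] at h1
          have h2 : cn (i, β) L ≠ 0 := (cn_pos.2 hi).ne'
          rcases hA' i with h3 | h3
          · rw [h3] at h1
            have h4 : cn (i, false) L = 0 := by omega
            cases β
            · exact h2 h4
            · exact h2 h3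
          · rw [h3] at h1
            have h4 : cn (i, true) L = 0 := by omega
            cases β
            · exact h2 h3
            · exact h2 h4
        subst hnil
        exact MatchedM.nil
      · -- positive
        refine hblock true (fun i => ?_) ?_
        · have h1 : (cn (i, true) L : ℤ) - cn (i, false) L =
            (cn ((0 : Fin (2 * r + 1)), true) L : ℤ) - cn ((0 : Fin (2 * r + 1)), false) L :=
            hrel i 0
          omega
        · simp only [gg, if_true]
          exact hsq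

theorem o12 : O12 := by
  intro r s d x y f z hr hs hd hn hf hz
  refine ⟨hf.1, ?_⟩
  intro u hu L hL c N hN h
  have hq1 : 1 < s ^ 2 := Nat.one_lt_pow two_ne_zero hs
  obtain ⟨q, hqs⟩ : ∃ q : ℕ, q = s ^ 2 := ⟨_, rfl⟩
  rw [← hqs] at h ⊢
  have hq : 1 < q := by rw [hqs]; exact hq1
  have hq0 : (q : ℂ) ≠ 0 := by exact_mod_cast (by omega : q ≠ 0)
  -- the roots
  have hroot : ∀ w : ℂ, aeval w f = 0 → ∃ p : Fin (2 * r + 1) × Bool, gg q z p = w := by
    intro w hw
    have h1 : (f.map (Int.castRingHom ℂ)).eval w = 0 := by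
      rw [eval_map, ← algebraMap_int_eq, ← aeval_def]; exact hw
    rw [hn.map, eval_mul, ← hn.prod, Polynomial.map_prod, eval_prod, eval_prod] at h1
    rcases mul_eq_zero.mp h1 with h2 | h2
    · obtain ⟨i, _, hi⟩ := Finset.prod_eq_zero_iff.mp h2
      refine ⟨(i, true), ?_⟩
      simp only [gg, if_true]
      simp only [eval_sub, eval_X, eval_C] at hi
      exact (sub_eq_zero.mp hi).symm
    · obtain ⟨i, _, hi⟩ := Finset.prod_eq_zero_iff.mp h2
      refine ⟨(i, false), ?_⟩
      simp only [gg, Bool.false_eq_true, if_false]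
      simp only [Polynomial.map_sub, map_X, map_C, eval_sub, eval_X, eval_C] at hi
      have h3 : w = (starRingEnd ℂ) (z i : ℂ) := sub_eq_zero.mp hi
      have h4 : (z i : ℂ) * (starRingEnd ℂ) (z i : ℂ) = q := by
        rw [Complex.mul_conj, Complex.normSq_eq_norm_sq, hn.norm i, hqs]
        simp
      have h5 : (z i : ℂ) ≠ 0 := by
        intro h0
        rw [h0, zero_mul] at h4
        exact hq0 h4.symm
      rw [h3, div_eq_iff h5, ← h4]; ring
  have hex : ∃ L0 : List (Fin (2 * r + 1) × Bool), L0.map (gg q z) = L := by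
    have : L ∈ Set.range (List.map (gg q z)) := by
      rw [Set.range_list_map]
      intro w hw
      exact hroot w (hL w hw)
    exact this
  obtain ⟨L0, rfl⟩ := hex
  refine matched_aux hz hqs hq (Nat.mul_pos hu hN) L0.length L0 le_rfl c ?_
  have e1 : ((L0.map (gg q z)).map (· ^ u)).prod = (L0.map (gg q z)).prod ^ u := by
    have := map_list_prod (powMonoidHom u : ℂ →* ℂ) (L0.map (gg q z))
    exact this.symm
  rw [e1, ← pow_mul] at h
  rw [h, pow_mul]
  congr 1
  rw [← zpow_natCast, ← zpow_natCast, ← zpow_mul, ← zpow_mul, mul_comm]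

end Pool.Agent.H42.PD12
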