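import Pool.Agent.H857.PD.Core

/-!
# O14: numbers without `p`-adic square roots
-/

set_option autoImplicit false

namespace Pool.Agent.H196.PDO14

open Module Polynomial Pool.Agent.W521.Descent Pool.Agent.W521.Density Pool.Agent.W521.Count
  Pool.Agent.X297.UB Pool.Agent.H857.PB Pool.Agent.H857.PA Pool.Agent.H857.HK Pool.Agent.H857.EF
  Pool.Agent.H857.WT Pool.Agent.H857.SG Pool.Agent.H857.PD

theorem lift (p : ℕ) [Fact p.Prime] (d : ℕ) (w : ℚ_[p]) (hw : w ^ 2 = -(d : ℚ_[p])) :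
    ∃ x : ℤ_[p], x ^ 2 = -(d : ℤ_[p]) := by
  have h1 : ‖w‖ ^ 2 ≤ 1 := by
    rw [← norm_pow, hw, norm_neg]
    have h := PadicInt.norm_le_one ((d : ℕ) : ℤ_[p])
    have h2 : ‖((d : ℤ_[p]) : ℚ_[p])‖ ≤ 1 := h
    rw [PadicInt.coe_natCast] at h2
    exact h2
  have h3 : ‖w‖ ≤ 1 := by
    by_contra hc
    push Not at hc
    have : 1 < ‖w‖ ^ 2 := one_lt_pow₀ hc (by norm_num)
    linarith
  obtain ⟨x, hx⟩ : ∃ x : ℤ_[p], (x : ℚ_[p]) = w := ⟨⟨w, h3⟩, rfl⟩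
  refine ⟨x, ?_⟩
  have h4 : ((x ^ 2 : ℤ_[p]) : ℚ_[p]) = ((-(d : ℤ_[p]) : ℤ_[p]) : ℚ_[p]) := by
    rw [PadicInt.coe_pow, PadicInt.coe_neg, PadicInt.coe_natCast, hx]
    exact hw
  exact PadicInt.ext h4

theorem no8 : ∀ x : ZMod 8, x ^ 2 ≠ -(3 : ZMod 8) := by decide

theorem o14 : O14 := by
  intro p hp d hd w hw
  obtain ⟨x, hx⟩ := lift p d w hw
  rcases hd with ⟨h2, hd8⟩ | ⟨hp2, hd⟩
  · subst h2
    have h4 := congrArg (PadicInt.toZModPow (p := 2) 3) hx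
    rw [map_pow, map_neg, map_natCast] at h4
    have h5 : ((d : ℕ) : ZMod (2 ^ 3)) = (3 : ℕ) := by
      rw [ZMod.natCast_eq_natCast_iff]
      exact hd8
    rw [h5] at h4
    exact no8 _ h4
  · have h4 := congrArg (PadicInt.toZMod (p := p)) hx
    rw [map_pow, map_neg, map_natCast] at h4
    exact hd _ h4

end Pool.Agent.H196.PDO14
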