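import Pool.Agent.H857.PD.Core

/-!
# O16: the number of the monic divisors of a complex polynomial
-/

set_option autoImplicit false

namespace Pool.Agent.H370.PDO16

open Polynomial Pool.Agent.H857.PD

/-- A monic divisor is the product of the `X - a` over a part of the roots. -/
lemma mem_image {g h : ℂ[X]} (hg : g ≠ 0) (hm : h.Monic) (hd : h ∣ g) :
    h ∈ (fun s : Multiset ℂ => (s.map fun a => X - C a).prod) ''
      (g.roots.powerset.toFinset : Set (Multiset ℂ)) := by
  refine ⟨h.roots, ?_, ?_⟩
  · rw [Finset.mem_coe, Multiset.mem_toFinset, Multiset.mem_powerset]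
    exact Polynomial.roots.le_of_dvd hg hd
  · exact ((IsAlgClosed.splits h).eq_prod_roots_of_monic hm).symm

/-- O16 -/
theorem o16 : O16 := by
  classical
  intro n f hf0 hf
  have hinj : Function.Injective (Int.castRingHom ℂ) := Int.cast_injective
  have hg0 : f.map (Int.castRingHom ℂ) ≠ 0 := (Polynomial.map_ne_zero_iff hinj).2 hf0
  set g := f.map (Int.castRingHom ℂ) with hg
  have hsub : {h : ℂ[X] | h.Monic ∧ h ∣ g} ⊆
      (fun s : Multiset ℂ => (s.map fun a => X - C a).prod) ''
        (g.roots.powerset.toFinset : Set (Multiset ℂ)) := by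
    rintro h ⟨hm, hd⟩
    exact mem_image hg0 hm hd
  have hfin : ((fun s : Multiset ℂ => (s.map fun a => X - C a).prod) ''
        (g.roots.powerset.toFinset : Set (Multiset ℂ))).Finite :=
    (Finset.finite_toSet _).image _
  refine ⟨hfin.subset hsub, (Set.ncard_le_ncard hsub hfin).trans ?_⟩
  refine (Set.ncard_image_le (Finset.finite_toSet _)).trans ?_
  rw [Set.ncard_coe_finset]
  refine (Multiset.toFinset_card_le _).trans ?_
  rw [Multiset.card_powerset]
  refine Nat.pow_le_pow_right (by norm_num) ?_
  refine (Polynomial.card_roots' g).trans ?_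
  rw [hg, ← hf]
  exact Polynomial.natDegree_map_le

end Pool.Agent.H370.PDO16
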