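import Pool.Agent.H857.PD.Core

/-!
# O17a: the condition of Honda and Tate for almost ordinary Weil polynomials (helper628)
-/

set_option autoImplicit false

namespace Pool.Agent.H628.PD

open Module Polynomial Pool.Agent.W521.Descent Pool.Agent.W521.Density Pool.Agent.W521.Count
  Pool.Agent.X297.UB Pool.Agent.H857.PB Pool.Agent.H857.PA Pool.Agent.H857.HK Pool.Agent.H857.EF
  Pool.Agent.H857.WT Pool.Agent.H857.SG Pool.Agent.H857.PD

/-- the constant term of an irreducible polynomial and the absolute value of a root -/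
theorem norm_coeff_zero {p : ℕ} [Fact p.Prime] {h : ℚ_[p][X]} (hm : h.Monic)
    (hi : Irreducible h) {α : PadicAlgCl p} (hα : aeval α h = 0) :
    ‖h.coeff 0‖ = ‖α‖ ^ h.natDegree := by
  have e1 : h = minpoly ℚ_[p] α := minpoly.eq_of_irreducible_of_monic hi hα hm
  have e2 : ‖α‖ = ‖h.coeff 0‖ ^ (1 / h.natDegree : ℝ) := by
    rw [e1]
    exact spectralNorm.spectralNorm_eq_norm_coeff_zero_rpow ℚ_[p] _ α
  have hd : (h.natDegree : ℝ) ≠ 0 := by
    exact_mod_cast hi.natDegree_pos.ne'
  rw [e2, ← Real.rpow_natCast, ← Real.rpow_mul (norm_nonneg _), one_div_mul_cancel hd,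
    Real.rpow_one]

/-- the roots of an irreducible polynomial have the same absolute value -/
theorem norm_root_eq {p : ℕ} [Fact p.Prime] {h : ℚ_[p][X]} (hm : h.Monic) (hi : Irreducible h)
    {α β : PadicAlgCl p} (hα : aeval α h = 0) (hβ : aeval β h = 0) : ‖α‖ = ‖β‖ := by
  have e1 := norm_coeff_zero hm hi hα
  have e2 := norm_coeff_zero hm hi hβ
  have hd : h.natDegree ≠ 0 := hi.natDegree_pos.ne'
  exact (pow_left_inj₀ (norm_nonneg _) (norm_nonneg _) hd).1 (e1.symm.trans e2)

/-- all roots are counted by three disjoint conditions -/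
theorem mem_of_count {α : Type} (M : Multiset α) (P0 P1 P2 : α → Prop) [DecidablePred P0]
    [DecidablePred P1] [DecidablePred P2] (h01 : ∀ x, P0 x → P1 x → False)
    (h02 : ∀ x, P0 x → P2 x → False) (h12 : ∀ x, P1 x → P2 x → False)
    (hc : M.card ≤ M.countP P0 + M.countP P1 + M.countP P2) :
    ∀ x ∈ M, P0 x ∨ P1 x ∨ P2 x := by
  induction M using Multiset.induction_on with
  | empty => intro x hx; simp at hx
  | cons a M ih =>
    have hle : M.countP P0 + M.countP P1 + M.countP P2 ≤ M.card := by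
      clear ih hc
      induction M using Multiset.induction_on with
      | empty => simp
      | cons b M ih =>
        rw [Multiset.countP_cons, Multiset.countP_cons, Multiset.countP_cons,
          Multiset.card_cons]
        have k01 := h01 b
        have k02 := h02 b
        have k12 := h12 b
        by_cases b0 : P0 b <;> by_cases b1 : P1 b <;> by_cases b2 : P2 b <;>
          simp only [b0, b1, b2, if_true, if_false, forall_true_left] at * <;> omega
    rw [Multiset.countP_cons, Multiset.countP_cons, Multiset.countP_cons,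
      Multiset.card_cons] at hc
    have k01 := h01 a
    have k02 := h02 a
    have k12 := h12 a
    have hstep : M.card ≤ M.countP P0 + M.countP P1 + M.countP P2 ∧ (P0 a ∨ P1 a ∨ P2 a) := by
      by_cases b0 : P0 a <;> by_cases b1 : P1 a <;> by_cases b2 : P2 a <;>
        simp only [b0, b1, b2, if_true, if_false, forall_true_left, or_true, and_true,
          or_false, and_false] at * <;> omega
    intro x hx
    rcases Multiset.mem_cons.1 hx with rfl | hx
    · exact hstep.2
    · exact ih hstep.1 x hx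

theorem o17a (hO : O3r) : O17a := by
  intro p _ b g f hb hg hf h1 h2 hroot h hm hi hdvd
  classical
  obtain ⟨s0, s1, s2⟩ := hO p b g f hb hg hf h1 h2
  obtain ⟨fm, fdeg, -, -⟩ := hf
  have hp1 : (1 : ℝ) < p := by exact_mod_cast (Fact.out : p.Prime).one_lt
  have hq1 : (1 : ℝ) < (p : ℝ) ^ (2 * b) := one_lt_pow₀ hp1 (by omega)
  set q : ℝ := (p : ℝ) ^ (2 * b) with hq
  have hq0 : 0 < q := by linarith
  have e0 : q ^ (-(0 : ℝ)) = 1 := by rw [neg_zero, Real.rpow_zero]
  have e2 : q ^ (-(1 : ℝ)) = q⁻¹ := Real.rpow_neg_one q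
  have e1 : (q ^ (-(1 / 2 : ℝ))) ^ 2 = q⁻¹ := by
    rw [← Real.rpow_natCast, ← Real.rpow_mul hq0.le]
    norm_num
    rw [Real.rpow_neg_one]
  have l1 : q ^ (-(1 / 2 : ℝ)) < q ^ (-(0 : ℝ)) := by
    apply Real.rpow_lt_rpow_of_exponent_lt hq1
    norm_num
  have l2 : q ^ (-(1 : ℝ)) < q ^ (-(1 / 2 : ℝ)) := by
    apply Real.rpow_lt_rpow_of_exponent_lt hq1
    norm_num
  unfold slopeCount at s0 s1 s2
  have hcard : (f.aroots (PadicAlgCl p)).card = 2 * g := by
    rw [aroots_def, IsAlgClosed.card_roots_eq_natDegree, fm.natDegree_map, fdeg]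
  have hall := mem_of_count (f.aroots (PadicAlgCl p)) (fun x => ‖x‖ = q ^ (-(0 : ℝ)))
    (fun x => ‖x‖ = q ^ (-(1 / 2 : ℝ))) (fun x => ‖x‖ = q ^ (-(1 : ℝ)))
    (fun x hx hy => by rw [hx] at hy; exact l1.ne' hy)
    (fun x hx hy => by rw [hx] at hy; exact (l2.trans l1).ne' hy)
    (fun x hx hy => by rw [hx] at hy; exact l2.ne' hy)
    (by
      rw [hcard]
      have t0 : Multiset.countP (fun x : PadicAlgCl p => ‖x‖ = q ^ (-(0 : ℝ)))
        (f.aroots (PadicAlgCl p)) = g - 1 := by convert s0
      have t1 : Multiset.countP (fun x : PadicAlgCl p => ‖x‖ = q ^ (-(1 / 2 : ℝ)))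
        (f.aroots (PadicAlgCl p)) = 2 := by convert s1
      have t2 : Multiset.countP (fun x : PadicAlgCl p => ‖x‖ = q ^ (-(1 : ℝ)))
        (f.aroots (PadicAlgCl p)) = g - 1 := by convert s2
      rw [t0, t1, t2]
      omega)
  -- the roots of `h` are roots of `f`
  have hmap : (f.map (Int.castRingHom ℚ_[p])).map (algebraMap ℚ_[p] (PadicAlgCl p)) =
      f.map (algebraMap ℤ (PadicAlgCl p)) := by
    rw [Polynomial.map_map]
    exact congrArg (fun e => f.map e) (RingHom.ext_int _ _)
  have hne : f.map (algebraMap ℤ (PadicAlgCl p)) ≠ 0 := (fm.map _).ne_zero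
  have hle : h.aroots (PadicAlgCl p) ≤ f.aroots (PadicAlgCl p) := by
    rw [aroots_def, aroots_def]
    apply Polynomial.roots.le_of_dvd hne
    rw [← hmap]
    exact Polynomial.map_dvd _ hdvd
  have hhcard : (h.aroots (PadicAlgCl p)).card = h.natDegree := by
    rw [aroots_def, IsAlgClosed.card_roots_eq_natDegree, hm.natDegree_map]
  have hdpos : 0 < h.natDegree := hi.natDegree_pos
  obtain ⟨α, hα⟩ : ∃ α, α ∈ h.aroots (PadicAlgCl p) := by
    apply Multiset.exists_mem_of_ne_zero
    intro h0
    rw [h0, Multiset.card_zero] at hhcard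
    omega
  have hα0 : aeval α h = 0 := (mem_aroots.1 hα).2
  have hnorm := norm_coeff_zero hm hi hα0
  rcases hall α (Multiset.mem_of_le hle hα) with hc | hc | hc
  · refine ⟨0, ?_⟩
    rw [hnorm, hc, e0]
    simp
  · refine ⟨1, ?_⟩
    have hcnt : (h.aroots (PadicAlgCl p)).countP (fun x => ‖x‖ = q ^ (-(1 / 2 : ℝ))) =
        (h.aroots (PadicAlgCl p)).card := by
      rw [Multiset.countP_eq_card]
      intro x hx
      rw [norm_root_eq hm hi (mem_aroots.1 hx).2 hα0]
      exact hc
    have hcnt2 : (h.aroots (PadicAlgCl p)).countP (fun x => ‖x‖ = q ^ (-(1 / 2 : ℝ))) ≤ 2 := by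
      have t1 : Multiset.countP (fun x : PadicAlgCl p => ‖x‖ = q ^ (-(1 / 2 : ℝ)))
        (f.aroots (PadicAlgCl p)) = 2 := by convert s1
      rw [← t1]
      exact Multiset.countP_le_of_le _ hle
    have hd1 : h.natDegree ≠ 1 := by
      intro hd
      apply hroot (-(h.coeff 0))
      have hX : h = X + C (h.coeff 0) := hm.eq_X_add_C hd
      have hr : h.eval (-(h.coeff 0)) = 0 := by
        conv_lhs => rw [hX]
        simp
      have : (f.map (Int.castRingHom ℚ_[p])).eval (-(h.coeff 0)) = 0 :=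
        eval_eq_zero_of_dvd_of_eval_eq_zero hdvd hr
      rw [aeval_def, ← eval_map]
      exact this
    have hd2 : h.natDegree = 2 := by omega
    rw [hnorm, hc, hd2, e1, pow_one]
  · refine ⟨h.natDegree, ?_⟩
    rw [hnorm, hc, e2]

end Pool.Agent.H628.PD
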