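import Pool.Agent.H857.PD.Core

/-!
# O17b: no roots in the field of `p`-adic numbers (helper628)
-/

set_option autoImplicit false

namespace Pool.Agent.H628.PD

open Module Polynomial Pool.Agent.W521.Descent Pool.Agent.W521.Density Pool.Agent.W521.Count
  Pool.Agent.X297.UB Pool.Agent.H857.PB Pool.Agent.H857.PA Pool.Agent.H857.HK Pool.Agent.H857.EF
  Pool.Agent.H857.WT Pool.Agent.H857.SG Pool.Agent.H857.PD

/-- the rational part of `hO` -/
noncomputable def pA (r s : ℕ) (x : Fin r → ℤ) : ℤ[X] :=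
  X ^ (2 * r + 1) + ∑ j : Fin r, (C (x j) * X ^ (2 * r - (j : ℕ)) +
    C ((s : ℤ) ^ (2 * (r - (j : ℕ)) - 1) * x j) * X ^ ((j : ℕ) + 1)) + C ((s : ℤ) ^ (2 * r + 1))

/-- the irrational part of `hO` -/
noncomputable def pB (r s : ℕ) (y : Fin r → ℤ) : ℤ[X] :=
  ∑ j : Fin r, (C (y j) * X ^ (2 * r - (j : ℕ)) -
    C ((s : ℤ) ^ (2 * (r - (j : ℕ)) - 1) * y j) * X ^ ((j : ℕ) + 1))

theorem hO_eq (r s d : ℕ) (x y : Fin r → ℤ) :
    hO r s d x y = (pA r s x).map (Int.castRingHom ℂ) +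
      C (Real.sqrt d * Complex.I) * (pB r s y).map (Int.castRingHom ℂ) := by
  unfold hO hpolyO pA pB
  simp only [Polynomial.map_add, Polynomial.map_pow, Polynomial.map_X, Polynomial.map_sum,
    Polynomial.map_mul, Polynomial.map_C, Polynomial.map_sub, map_mul, map_pow, Finset.mul_sum]
  have e : ∀ j : Fin r, C (al d x y j) * X ^ (2 * r - (j : ℕ)) +
      C (s : ℂ) ^ (2 * (r - (j : ℕ)) - 1) * C ((starRingEnd ℂ) (al d x y j)) *
        X ^ ((j : ℕ) + 1) =
      (C ((Int.castRingHom ℂ) (x j)) * X ^ (2 * r - (j : ℕ)) +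
        C ((Int.castRingHom ℂ) (s : ℤ)) ^ (2 * (r - (j : ℕ)) - 1) *
          C ((Int.castRingHom ℂ) (x j)) * X ^ ((j : ℕ) + 1)) +
      C ((Real.sqrt d : ℝ) : ℂ) * C Complex.I *
        (C ((Int.castRingHom ℂ) (y j)) * X ^ (2 * r - (j : ℕ)) -
          C ((Int.castRingHom ℂ) (s : ℤ)) ^ (2 * (r - (j : ℕ)) - 1) *
            C ((Int.castRingHom ℂ) (y j)) * X ^ ((j : ℕ) + 1)) := by
    intro j
    unfold al
    simp only [map_add, map_mul, Complex.conj_ofReal, Complex.conj_I, map_intCast,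
      eq_intCast, map_neg, Int.cast_natCast]
    ring
  rw [Finset.sum_congr rfl (fun j _ => e j), Finset.sum_add_distrib]
  simp only [eq_intCast, Int.cast_natCast]
  ring

theorem hO_conj (r s d : ℕ) (x y : Fin r → ℤ) :
    (hO r s d x y).map (starRingEnd ℂ) = (pA r s x).map (Int.castRingHom ℂ) -
      C (Real.sqrt d * Complex.I) * (pB r s y).map (Int.castRingHom ℂ) := by
  rw [hO_eq, Polynomial.map_add, Polynomial.map_mul, Polynomial.map_map, Polynomial.map_map,
    Polynomial.map_C]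
  have e : (starRingEnd ℂ).comp (Int.castRingHom ℂ) = Int.castRingHom ℂ := RingHom.ext_int _ _
  rw [e]
  simp only [map_mul, Complex.conj_ofReal, Complex.conj_I, map_neg]
  ring

theorem f_eq {r s d : ℕ} {x y : Fin r → ℤ} {f : ℤ[X]}
    (h : f.map (Int.castRingHom ℂ) = hO r s d x y * (hO r s d x y).map (starRingEnd ℂ)) :
    f = pA r s x ^ 2 + C (d : ℤ) * pB r s y ^ 2 := by
  apply Polynomial.map_injective (Int.castRingHom ℂ) Int.cast_injective
  rw [h, hO_conj, hO_eq]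
  have e : C ((Real.sqrt d : ℂ) * Complex.I) * C ((Real.sqrt d : ℂ) * Complex.I) =
      -C (d : ℂ) := by
    rw [← C_mul, ← C_neg]
    congr 1
    have h1 : ((Real.sqrt d : ℝ) : ℂ) * ((Real.sqrt d : ℝ) : ℂ) = (d : ℂ) := by
      rw [← Complex.ofReal_mul, Real.mul_self_sqrt (Nat.cast_nonneg d)]
      simp
    linear_combination (Complex.I * Complex.I) * h1 + (d : ℂ) * Complex.I_mul_I
  have e2 : (C (d : ℤ) : ℤ[X]).map (Int.castRingHom ℂ) = C (d : ℂ) := by
    rw [Polynomial.map_C]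
    simp
  rw [Polynomial.map_add, Polynomial.map_mul, Polynomial.map_pow, Polynomial.map_pow, e2]
  linear_combination (-((pB r s y).map (Int.castRingHom ℂ)) ^ 2) * e

theorem o17b : O17b := by
  intro r s d x y f z p _ hd hN hfm hfi hnr w hw
  have hf := f_eq hN.map
  have h1 : aeval w (pA r s x) ^ 2 + (d : ℚ_[p]) * aeval w (pB r s y) ^ 2 = 0 := by
    rw [hf] at hw
    simpa using hw
  have hB : aeval w (pB r s y) = 0 := by
    by_contra hB
    apply hnr (aeval w (pA r s x) / aeval w (pB r s y))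
    rw [div_pow, div_eq_iff (pow_ne_zero 2 hB)]
    linear_combination h1
  have hA : aeval w (pA r s x) = 0 := by
    rw [hB] at h1
    simpa using h1
  -- Gauss
  have hQ : Irreducible (f.map (algebraMap ℤ ℚ)) :=
    (hfm.irreducible_iff_irreducible_map_fraction_map (K := ℚ)).1 hfi
  have hQm : (f.map (algebraMap ℤ ℚ)).Monic := hfm.map _
  have hQw : aeval w (f.map (algebraMap ℤ ℚ)) = 0 := by
    rw [aeval_map_algebraMap]; exact hw
  have hmin : f.map (algebraMap ℤ ℚ) = minpoly ℚ w :=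
    minpoly.eq_of_irreducible_of_monic hQ hQw hQm
  have dA : f.map (algebraMap ℤ ℚ) ∣ (pA r s x).map (algebraMap ℤ ℚ) := by
    rw [hmin]
    apply minpoly.dvd
    rw [aeval_map_algebraMap]; exact hA
  have dB : f.map (algebraMap ℤ ℚ) ∣ (pB r s y).map (algebraMap ℤ ℚ) := by
    rw [hmin]
    apply minpoly.dvd
    rw [aeval_map_algebraMap]; exact hB
  have dd : f.map (algebraMap ℤ ℚ) ^ 2 ∣ f.map (algebraMap ℤ ℚ) := by
    conv_rhs => rw [hf]
    rw [Polynomial.map_add, Polynomial.map_mul, Polynomial.map_pow, Polynomial.map_pow]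
    exact dvd_add (pow_dvd_pow_of_dvd dA 2) (Dvd.dvd.mul_left (pow_dvd_pow_of_dvd dB 2) _)
  obtain ⟨k, hk⟩ := dd
  have hne : f.map (algebraMap ℤ ℚ) ≠ 0 := hQm.ne_zero
  apply hQ.not_isUnit
  refine IsUnit.of_mul_eq_one k ?_
  apply mul_left_cancel₀ hne
  rw [← mul_assoc, ← pow_two, ← hk, mul_one]

end Pool.Agent.H628.PD
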