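import Pool.Agent.H857.PD.Core

/-!
# The norm of `hO` has integral coefficients (O2)
-/

set_option autoImplicit false

namespace Pool.Agent.H162.PD

open Module Polynomial Pool.Agent.H857.WT Pool.Agent.H857.PD

theorem coeff_sq (P : ℤ[X]) (n : ℕ) (q : ℤ) (h : ∀ i < n, q ∣ P.coeff i) :
    q ∣ (P ^ 2).coeff (2 * n) - P.coeff n ^ 2 := by
  have hn : (n, n) ∈ Finset.HasAntidiagonal.antidiagonal (2 * n) := by
    rw [Finset.HasAntidiagonal.mem_antidiagonal]
    omega
  have h1 : (P ^ 2).coeff (2 * n) - P.coeff n ^ 2 =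
      ∑ t ∈ (Finset.HasAntidiagonal.antidiagonal (2 * n)).erase (n, n),
        P.coeff t.1 * P.coeff t.2 := by
    rw [sq P, coeff_mul, ← Finset.add_sum_erase _ _ hn]
    ring
  rw [h1]
  refine Finset.dvd_sum fun t ht => ?_
  rw [Finset.mem_erase, Finset.HasAntidiagonal.mem_antidiagonal] at ht
  obtain ⟨h2, h3⟩ := ht
  by_cases h4 : t.1 < n
  · exact Dvd.dvd.mul_right (h _ h4) _
  · by_cases h5 : t.2 < n
    · exact Dvd.dvd.mul_left (h _ h5) _
    · exfalso
      refine h2 (Prod.ext ?_ ?_)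
      · show t.1 = n
        omega
      · show t.2 = n
        omega

theorem coeff_sq_odd (P : ℤ[X]) (n : ℕ) (q : ℤ) (h : ∀ i < n + 1, q ∣ P.coeff i) :
    q ∣ (P ^ 2).coeff (2 * n + 1) := by
  rw [sq P, coeff_mul]
  refine Finset.dvd_sum fun t ht => ?_
  rw [Finset.HasAntidiagonal.mem_antidiagonal] at ht
  by_cases h4 : t.1 < n + 1
  · exact Dvd.dvd.mul_right (h _ h4) _
  · exact Dvd.dvd.mul_left (h _ (by omega)) _

/-- The rational part. -/
noncomputable def pA (r s : ℕ) (x : Fin r → ℤ) : ℤ[X] := hpolyO r (s : ℤ) x x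

/-- The irrational part. -/
noncomputable def pB (r s : ℕ) (y : Fin r → ℤ) : ℤ[X] :=
  ∑ j : Fin r, (C (y j) * X ^ (2 * r - (j : ℕ)) -
    C ((s : ℤ) ^ (2 * (r - (j : ℕ)) - 1) * y j) * X ^ ((j : ℕ) + 1))

theorem coeff_pA (r s : ℕ) (x : Fin r → ℤ) (i : ℕ) :
    (pA r s x).coeff i = (if i = 2 * r + 1 then 1 else 0) +
      ∑ j : Fin r, ((if i = 2 * r - (j : ℕ) then x j else 0) +
        (if i = (j : ℕ) + 1 then (s : ℤ) ^ (2 * (r - (j : ℕ)) - 1) * x j else 0)) +
      (if i = 0 then (s : ℤ) ^ (2 * r + 1) else 0) := by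
  unfold pA hpolyO
  simp only [coeff_add, coeff_X_pow, finsetSum_coeff, coeff_C_mul, mul_ite, mul_one, mul_zero,
    coeff_C]

theorem coeff_pB (r s : ℕ) (y : Fin r → ℤ) (i : ℕ) :
    (pB r s y).coeff i =
      ∑ j : Fin r, ((if i = 2 * r - (j : ℕ) then y j else 0) -
        (if i = (j : ℕ) + 1 then (s : ℤ) ^ (2 * (r - (j : ℕ)) - 1) * y j else 0)) := by
  unfold pB
  simp only [coeff_sub, coeff_X_pow, finsetSum_coeff, coeff_C_mul, mul_ite, mul_one, mul_zero]

theorem pA_low (r s : ℕ) (hr : 1 ≤ r) (x : Fin r → ℤ) (i : ℕ) (hi : i < r + 1) :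
    (s : ℤ) ∣ (pA r s x).coeff i := by
  rw [coeff_pA, if_neg (by omega : ¬ i = 2 * r + 1)]
  refine dvd_add (dvd_add (dvd_zero _) ?_) ?_
  · refine Finset.dvd_sum fun j _ => ?_
    have hj := j.2
    rw [if_neg (by omega : ¬ i = 2 * r - (j : ℕ)), zero_add]
    split_ifs
    · exact Dvd.dvd.mul_right (dvd_pow_self _ (by omega)) _
    · exact dvd_zero _
  · split_ifs
    · exact dvd_pow_self _ (by omega)
    · exact dvd_zero _

theorem pB_low (r s : ℕ) (y : Fin r → ℤ) (i : ℕ) (hi : i < r + 1) :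
    (s : ℤ) ∣ (pB r s y).coeff i := by
  rw [coeff_pB]
  refine Finset.dvd_sum fun j _ => ?_
  have hj := j.2
  rw [if_neg (by omega : ¬ i = 2 * r - (j : ℕ)), zero_sub]
  split_ifs
  · exact (Dvd.dvd.mul_right (dvd_pow_self _ (by omega)) _).neg_right
  · simp

theorem pA_mid (r s : ℕ) (x : Fin r → ℤ) (j : Fin r) (hj : (j : ℕ) + 1 = r) :
    (pA r s x).coeff (r + 1) = x j := by
  rw [coeff_pA, if_neg (by omega : ¬ r + 1 = 2 * r + 1), if_neg (by omega : ¬ r + 1 = 0),
    Finset.sum_eq_single j]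
  · rw [if_pos (by omega : r + 1 = 2 * r - (j : ℕ)), if_neg (by omega : ¬ r + 1 = (j : ℕ) + 1)]
    ring
  · intro i _ hi
    have hi1 := i.2
    have hi2 : (i : ℕ) ≠ j := fun h => hi (Fin.ext h)
    rw [if_neg (by omega : ¬ r + 1 = 2 * r - (i : ℕ)),
      if_neg (by omega : ¬ r + 1 = (i : ℕ) + 1), add_zero]
  · exact fun h => absurd (Finset.mem_univ _) h

theorem pB_mid (r s : ℕ) (y : Fin r → ℤ) (j : Fin r) (hj : (j : ℕ) + 1 = r) :
    (pB r s y).coeff (r + 1) = y j := by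
  rw [coeff_pB, Finset.sum_eq_single j]
  · rw [if_pos (by omega : r + 1 = 2 * r - (j : ℕ)), if_neg (by omega : ¬ r + 1 = (j : ℕ) + 1)]
    ring
  · intro i _ hi
    have hi1 := i.2
    have hi2 : (i : ℕ) ≠ j := fun h => hi (Fin.ext h)
    rw [if_neg (by omega : ¬ r + 1 = 2 * r - (i : ℕ)),
      if_neg (by omega : ¬ r + 1 = (i : ℕ) + 1), sub_zero]
  · exact fun h => absurd (Finset.mem_univ _) h

theorem pA_zero (r s : ℕ) (x : Fin r → ℤ) :
    (pA r s x).coeff 0 = (s : ℤ) ^ (2 * r + 1) := by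
  rw [coeff_pA, if_neg (by omega : ¬ 0 = 2 * r + 1), if_pos rfl, Finset.sum_eq_zero]
  · ring
  · intro j _
    have hj := j.2
    rw [if_neg (by omega : ¬ 0 = 2 * r - (j : ℕ)),
      if_neg (by omega : ¬ 0 = (j : ℕ) + 1), add_zero]

theorem pB_zero (r s : ℕ) (y : Fin r → ℤ) : (pB r s y).coeff 0 = 0 := by
  rw [coeff_pB, Finset.sum_eq_zero]
  intro j _
  have hj := j.2
  rw [if_neg (by omega : ¬ 0 = 2 * r - (j : ℕ)),
    if_neg (by omega : ¬ 0 = (j : ℕ) + 1), sub_zero]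

theorem pA_high (r s : ℕ) (x : Fin r → ℤ) (i : ℕ) (hi : 2 * r + 1 < i) :
    (pA r s x).coeff i = 0 := by
  rw [coeff_pA, if_neg (by omega : ¬ i = 2 * r + 1), if_neg (by omega : ¬ i = 0),
    Finset.sum_eq_zero]
  · ring
  · intro j _
    have hj := j.2
    rw [if_neg (by omega : ¬ i = 2 * r - (j : ℕ)),
      if_neg (by omega : ¬ i = (j : ℕ) + 1), add_zero]

theorem pA_top (r s : ℕ) (x : Fin r → ℤ) : (pA r s x).coeff (2 * r + 1) = 1 := by
  rw [coeff_pA, if_pos rfl, if_neg (by omega : ¬ 2 * r + 1 = 0), Finset.sum_eq_zero]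
  · ring
  · intro j _
    have hj := j.2
    rw [if_neg (by omega : ¬ 2 * r + 1 = 2 * r - (j : ℕ)),
      if_neg (by omega : ¬ 2 * r + 1 = (j : ℕ) + 1), add_zero]

theorem pB_high (r s : ℕ) (y : Fin r → ℤ) (i : ℕ) (hi : 2 * r + 1 ≤ i) :
    (pB r s y).coeff i = 0 := by
  rw [coeff_pB, Finset.sum_eq_zero]
  intro j _
  have hj := j.2
  rw [if_neg (by omega : ¬ i = 2 * r - (j : ℕ)),
    if_neg (by omega : ¬ i = (j : ℕ) + 1), sub_zero]

theorem pA_deg (r s : ℕ) (x : Fin r → ℤ) : (pA r s x).natDegree = 2 * r + 1 := by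
  refine le_antisymm (natDegree_le_iff_coeff_eq_zero.2 fun i hi => pA_high r s x i hi) ?_
  refine le_natDegree_of_ne_zero ?_
  rw [pA_top]
  exact one_ne_zero

theorem pA_monic (r s : ℕ) (x : Fin r → ℤ) : (pA r s x).Monic := by
  rw [Monic, leadingCoeff, pA_deg, pA_top]

theorem hO_eq (r s d : ℕ) (x y : Fin r → ℤ) :
    hO r s d x y = (pA r s x).map (Int.castRingHom ℂ) +
      C ((Real.sqrt d : ℂ) * Complex.I) * (pB r s y).map (Int.castRingHom ℂ) := by
  have h1 : ∀ S S' T V W : ℂ[X], S = S' + W → T + S + V = T + S' + V + W := by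
    intro S S' T V W h
    rw [h]
    ring
  have hA : (pA r s x).map (Int.castRingHom ℂ) = X ^ (2 * r + 1) +
      ∑ j : Fin r, (C (x j : ℂ) * X ^ (2 * r - (j : ℕ)) +
        C ((s : ℂ) ^ (2 * (r - (j : ℕ)) - 1) * x j) * X ^ ((j : ℕ) + 1)) +
      C ((s : ℂ) ^ (2 * r + 1)) := by
    unfold pA hpolyO
    rw [Polynomial.map_add, Polynomial.map_add, Polynomial.map_pow, map_X,
      Polynomial.map_sum, Polynomial.map_C, eq_intCast, Int.cast_pow, Int.cast_natCast]
    congr 2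
    refine Finset.sum_congr rfl fun j _ => ?_
    rw [Polynomial.map_add, Polynomial.map_mul, Polynomial.map_mul, Polynomial.map_pow,
      Polynomial.map_pow, map_X, Polynomial.map_C, Polynomial.map_C, eq_intCast, eq_intCast,
      Int.cast_mul, Int.cast_pow, Int.cast_natCast]
  have hB : (pB r s y).map (Int.castRingHom ℂ) =
      ∑ j : Fin r, (C (y j : ℂ) * X ^ (2 * r - (j : ℕ)) -
        C ((s : ℂ) ^ (2 * (r - (j : ℕ)) - 1) * y j) * X ^ ((j : ℕ) + 1)) := by
    unfold pB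
    rw [Polynomial.map_sum]
    refine Finset.sum_congr rfl fun j _ => ?_
    rw [Polynomial.map_sub, Polynomial.map_mul, Polynomial.map_mul, Polynomial.map_pow,
      Polynomial.map_pow, map_X, Polynomial.map_C, Polynomial.map_C, eq_intCast, eq_intCast,
      Int.cast_mul, Int.cast_pow, Int.cast_natCast]
  rw [hA, hB]
  unfold hO hpolyO
  refine h1 _ _ _ _ _ ?_
  rw [Finset.mul_sum, ← Finset.sum_add_distrib]
  refine Finset.sum_congr rfl fun j _ => ?_
  have h2 : (starRingEnd ℂ) (al d x y j) = x j - y j * (Real.sqrt d * Complex.I) := by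
    unfold al
    rw [map_add, map_mul, map_mul, Complex.conj_I, Complex.conj_ofReal, map_intCast, map_intCast]
    ring
  beta_reduce
  rw [h2]
  unfold al
  generalize (Real.sqrt d : ℂ) * Complex.I = s
  rw [C_add, C_mul, C_mul, C_mul, C_mul, C_sub, C_mul]
  ring

theorem hO_conj (r s d : ℕ) (x y : Fin r → ℤ) :
    (hO r s d x y).map (starRingEnd ℂ) = (pA r s x).map (Int.castRingHom ℂ) -
      C ((Real.sqrt d : ℂ) * Complex.I) * (pB r s y).map (Int.castRingHom ℂ) := by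
  rw [hO_eq, Polynomial.map_add, Polynomial.map_mul, Polynomial.map_map, Polynomial.map_map,
    map_C, map_mul, Complex.conj_I, Complex.conj_ofReal]
  have h1 : (starRingEnd ℂ).comp (Int.castRingHom ℂ) = Int.castRingHom ℂ := RingHom.ext_int _ _
  rw [h1, mul_neg, map_neg]
  ring

theorem o2 : O2 := by
  intro r s d x y hr
  have hA := pA_monic r s x
  have hd : (C (d : ℤ) * (pB r s y) ^ 2).degree < ((pA r s x) ^ 2).degree := by
    have h1 : ((pA r s x) ^ 2).degree = (2 * (2 * r + 1) : ℕ) := by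
      rw [degree_pow, degree_eq_natDegree hA.ne_zero, pA_deg]
      rw [nsmul_eq_mul]
      rfl
    rw [h1, degree_lt_iff_coeff_zero]
    intro i hi
    rw [coeff_C_mul, sq, coeff_mul, Finset.sum_eq_zero, mul_zero]
    intro t ht
    rw [Finset.HasAntidiagonal.mem_antidiagonal] at ht
    by_cases h4 : 2 * r + 1 ≤ t.1
    · rw [pB_high r s y _ h4, zero_mul]
    · rw [pB_high r s y _ (by omega : 2 * r + 1 ≤ t.2), mul_zero]
  refine ⟨(pA r s x) ^ 2 + C (d : ℤ) * (pB r s y) ^ 2, ?_, ?_, ?_, ?_, ?_, ?_⟩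
  · exact (hA.pow 2).add_of_left hd
  · rw [natDegree_add_eq_left_of_degree_lt hd, hA.natDegree_pow, pA_deg]
  · rw [coeff_add, coeff_C_mul, sq, sq, coeff_zero_eq_eval_zero, coeff_zero_eq_eval_zero,
      eval_mul, eval_mul, ← coeff_zero_eq_eval_zero, ← coeff_zero_eq_eval_zero, pA_zero, pB_zero]
    push_cast
    ring
  · rw [coeff_add, coeff_C_mul]
    exact dvd_add (coeff_sq_odd _ r s fun i hi => pA_low r s hr x i hi)
      (Dvd.dvd.mul_left (coeff_sq_odd _ r s fun i hi => pB_low r s y i hi) _)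
  · intro j hj
    have h1 := coeff_sq (pA r s x) (r + 1) s fun i hi => pA_low r s hr x i hi
    have h2 := coeff_sq (pB r s y) (r + 1) s fun i hi => pB_low r s y i hi
    rw [pA_mid r s x j hj] at h1
    rw [pB_mid r s y j hj] at h2
    have h3 : ((pA r s x) ^ 2 + C (d : ℤ) * (pB r s y) ^ 2).coeff (2 * r + 2) -
        (x j ^ 2 + d * y j ^ 2) =
        (((pA r s x) ^ 2).coeff (2 * (r + 1)) - x j ^ 2) +
        d * (((pB r s y) ^ 2).coeff (2 * (r + 1)) - y j ^ 2) := by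
      rw [coeff_add, coeff_C_mul]
      rw [show 2 * r + 2 = 2 * (r + 1) by ring]
      ring
    rw [h3]
    exact dvd_add h1 (Dvd.dvd.mul_left h2 _)
  · rw [hO_conj, hO_eq, Polynomial.map_add, Polynomial.map_mul, Polynomial.map_pow,
      Polynomial.map_pow, map_C, eq_intCast, Int.cast_natCast]
    have h1 : (C ((Real.sqrt d : ℂ) * Complex.I) : ℂ[X]) * C ((Real.sqrt d : ℂ) * Complex.I) =
        -C (d : ℂ) := by
      rw [← C_mul, ← C_neg]
      congr 1
      have h2 : (Real.sqrt d : ℂ) * (Real.sqrt d : ℂ) = (d : ℂ) := by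
        rw [← Complex.ofReal_mul, Real.mul_self_sqrt (Nat.cast_nonneg d), Complex.ofReal_natCast]
      calc (Real.sqrt d : ℂ) * Complex.I * ((Real.sqrt d : ℂ) * Complex.I)
          = ((Real.sqrt d : ℂ) * (Real.sqrt d : ℂ)) * (Complex.I * Complex.I) := by ring
        _ = -(d : ℂ) := by rw [h2, Complex.I_mul_I]; ring
    linear_combination (((pB r s y).map (Int.castRingHom ℂ)) ^ 2) * h1

end Pool.Agent.H162.PD
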