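import Pool.Agent.H857.PD.Core
import Pool.Agent.H857.PA.Low

/-!
# The slopes of almost ordinary Weil polynomials (O3r, O3n of the project PD of helper857)
-/

set_option autoImplicit false
set_option linter.unusedSectionVars false

namespace Pool.Agent.H494.PDO3

open Module Polynomial Pool.Agent.W521.Descent Pool.Agent.W521.Density Pool.Agent.W521.Count
  Pool.Agent.X297.UB Pool.Agent.H857.PB Pool.Agent.H857.PA Pool.Agent.H857.HK Pool.Agent.H857.EF
  Pool.Agent.H857.WT Pool.Agent.H857.SG Pool.Agent.H857.PD Pool.Agent.W521.Frob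
  Pool.Agent.W521.Lower

theorem weil_coeff_gen (q : ℕ) (h : ℤ[X]) (i : ℕ) :
    (q : ℤ) ∣ (weil q h).coeff (h.natDegree + i) - h.coeff i := by
  have h1 : (weil q h).map (Int.castRingHom (ZMod q)) =
      ∑ j ∈ Finset.range (h.natDegree + 1),
        C ((h.coeff j : ℤ) : ZMod q) * X ^ (h.natDegree + j) := by
    unfold weil
    rw [Polynomial.map_sum]
    refine Finset.sum_congr rfl fun j hj => ?_
    have hj' : j ≤ h.natDegree := by
      have := Finset.mem_range.1 hj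
      omega
    rw [Polynomial.map_mul, Polynomial.map_mul, Polynomial.map_pow, Polynomial.map_add,
      Polynomial.map_pow, Polynomial.map_pow, map_X, map_C, map_C]
    have h2 : (Int.castRingHom (ZMod q)) (q : ℤ) = 0 := by simp
    rw [h2, C_0, add_zero, ← pow_mul, ← pow_add]
    congr 2
    omega
  have h2 : (((weil q h).coeff (h.natDegree + i) : ℤ) : ZMod q) = ((h.coeff i : ℤ) : ZMod q) := by
    have h3 := congrArg (fun p => p.coeff (h.natDegree + i)) h1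
    simp only [coeff_map, finsetSum_coeff, coeff_C_mul_X_pow] at h3
    by_cases hi : i ≤ h.natDegree
    · rw [Finset.sum_eq_single i] at h3
      · simpa using h3
      · intro j _ hj
        rw [if_neg (by omega)]
      · intro h4
        exact absurd (Finset.mem_range.2 (by omega)) h4
    · rw [Finset.sum_eq_zero] at h3
      · rw [coeff_eq_zero_of_natDegree_lt (by omega : h.natDegree < i)]
        simpa using h3
      · intro j hj
        have := Finset.mem_range.1 hj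
        rw [if_neg (by omega)]
  rw [← ZMod.intCast_zmod_eq_zero_iff_dvd _ q]
  push_cast
  rw [h2, sub_self]

section

variable {p : ℕ} [hp : Fact p.Prime]

lemma norm_int (n : ℤ) : ‖(n : PadicAlgCl p)‖ = ‖(n : ℚ_[p])‖ := by
  have h4 : (n : PadicAlgCl p) = algebraMap ℚ_[p] (PadicAlgCl p) (n : ℚ_[p]) := by
    rw [map_intCast]
  rw [h4, PadicAlgCl.norm_extends]

/-- All the slopes. -/
theorem slopes (b g : ℕ) (f : ℤ[X]) (hb : 0 < b) (hg : 2 ≤ g)
    (hf : f ∈ weilPolys (p ^ (2 * b)) g) (h1 : (p : ℤ) ^ b ∣ f.coeff g)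
    (h2 : ¬ (p : ℤ) ∣ f.coeff (g + 1)) (r : ℝ) :
    slopeCount p f ((p : ℝ) ^ (2 * b)) r =
      (if r = 1 / 2 then 2 else 0) +
        (g - 1) * ((if r = 0 then 1 else 0) + if r = 1 then 1 else 0) := by
  classical
  have ha : 0 < 2 * b := by omega
  have hq : p ^ (2 * b) ≠ 0 := pow_ne_zero _ hp.out.ne_zero
  have hp1 : (1 : ℝ) < p := one_lt_p
  have hp0 : (0 : ℝ) < p := by linarith
  have hq1 : (1 : ℝ) < (p : ℝ) ^ (2 * b) := one_lt_pow₀ hp1 ha.ne'
  have hq0 : (0 : ℝ) < (p : ℝ) ^ (2 * b) := by linarith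
  obtain ⟨x, hfx, -⟩ := exists_point hq hf
  have hdeg : (mkPoly g x).natDegree = g := mkPoly_natDegree g x
  -- the coefficients of the real polynomial
  have c0 : (p : ℤ) ^ b ∣ (mkPoly g x).coeff 0 := by
    have h3 := weil_coeff_gen (p ^ (2 * b)) (mkPoly g x) 0
    rw [hdeg, add_zero, ← hfx] at h3
    have h4 : (p : ℤ) ^ b ∣ ((p ^ (2 * b) : ℕ) : ℤ) := by
      push_cast
      exact pow_dvd_pow _ (by omega)
    have h5 := dvd_sub h1 (h4.trans h3)
    rwa [sub_sub_cancel] at h5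
  have c1 : ¬ (p : ℤ) ∣ (mkPoly g x).coeff 1 := by
    intro hc
    have h3 := weil_coeff_gen (p ^ (2 * b)) (mkPoly g x) 1
    rw [hdeg, ← hfx] at h3
    have h4 : (p : ℤ) ∣ ((p ^ (2 * b) : ℕ) : ℤ) := by
      push_cast
      exact dvd_pow_self _ (by omega)
    have h5 := dvd_add (h4.trans h3) hc
    rw [sub_add_cancel] at h5
    exact h2 h5
  obtain ⟨A, B, hab, hx'⟩ := exists_hp (K := PadicAlgCl p) (q := p ^ (2 * b)) x
  have hroot := root_iff_of_hp hq hab hx'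
  have hA : ∀ j, ‖A j‖ ≤ 1 := fun j =>
    norm_le_one_of_integral p (wp_monic _ _ _) ((hroot (A j)).2 ⟨j, Or.inl rfl⟩)
  have hB : ∀ j, ‖B j‖ ≤ 1 := fun j =>
    norm_le_one_of_integral p (wp_monic _ _ _) ((hroot (B j)).2 ⟨j, Or.inr rfl⟩)
  have hθ : ∀ j, ‖A j + B j‖ ≤ 1 := fun j =>
    (IsUltrametricDist.norm_add_le_max _ _).trans (max_le (hA j) (hB j))
  have hmap := (hp_eq_map (K := PadicAlgCl p) x).symm.trans hx'
  -- the constant coefficient
  have n0 : ∏ j, ‖A j + B j‖ ≤ ((p : ℝ) ^ b)⁻¹ := by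
    have h3 := congrArg (fun P => P.coeff 0) hmap
    simp only [coeff_zero_eq_eval_zero, eval_prod, eval_sub, eval_X, eval_C, zero_sub] at h3
    rw [← coeff_zero_eq_eval_zero, coeff_map, eq_intCast] at h3
    have h4 := congrArg (fun z => ‖z‖) h3
    rw [norm_prod] at h4
    simp only [norm_neg] at h4
    rw [← h4, norm_int]
    have h5 := (Padic.norm_int_le_pow_iff_dvd (p := p) ((mkPoly g x).coeff 0) b).2
      (by exact_mod_cast c0)
    rw [zpow_neg, zpow_natCast] at h5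
    exact h5
  -- the next coefficient
  have n1 : ∃ j₀, ∀ i, i ≠ j₀ → ‖A i + B i‖ = 1 := by
    have h3 := congrArg (fun P => (derivative P).coeff 0) hmap
    simp only [derivative_prod_finset] at h3
    rw [coeff_derivative, coeff_map, eq_intCast] at h3
    simp only [coeff_zero_eq_eval_zero, eval_finsetSum, eval_prod, eval_sub, eval_X,
      eval_C, zero_sub, derivative_sub, derivative_X, derivative_C, sub_zero, mul_one] at h3
    have h4 : ‖(((mkPoly g x).coeff (0 + 1) : ℤ) : PadicAlgCl p) *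
        (((0 : ℕ) : PadicAlgCl p) + 1)‖ = 1 := by
      rw [Nat.cast_zero, zero_add, zero_add, mul_one, norm_int]
      have h5 := Padic.norm_int_le_one (p := p) ((mkPoly g x).coeff 1)
      have h6 : ¬ ‖(((mkPoly g x).coeff 1 : ℤ) : ℚ_[p])‖ < 1 := by
        rw [Padic.norm_intCast_lt_one_iff]
        exact_mod_cast c1
      push Not at h6
      exact le_antisymm h5 h6
    rw [h3] at h4
    have hne : (Finset.univ : Finset (Fin g)).Nonempty := ⟨⟨0, by omega⟩, Finset.mem_univ _⟩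
    obtain ⟨j₀, -, hj₀⟩ := IsUltrametricDist.exists_norm_finsetSum_le_of_nonempty hne
      (fun i : Fin g => ∏ j ∈ Finset.univ.erase i, -(A j + B j))
    rw [h4, norm_prod] at hj₀
    simp only [norm_neg] at hj₀
    refine ⟨j₀, fun i hi => ?_⟩
    by_contra hne'
    have h5 : ‖A i + B i‖ < 1 := lt_of_le_of_ne (hθ i) hne'
    have h6 : ∏ j ∈ Finset.univ.erase j₀, ‖A j + B j‖ ≤ ‖A i + B i‖ := by
      rw [← Finset.mul_prod_erase (Finset.univ.erase j₀) _
        (Finset.mem_erase.2 ⟨hi, Finset.mem_univ i⟩)]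
      refine mul_le_of_le_one_right (norm_nonneg _) ?_
      exact Finset.prod_le_one (fun _ _ => norm_nonneg _) fun j _ => hθ j
    linarith
  obtain ⟨j₀, hj₀⟩ := n1
  have n2 : ‖A j₀ + B j₀‖ ≤ ((p : ℝ) ^ b)⁻¹ := by
    rw [← Finset.mul_prod_erase Finset.univ _ (Finset.mem_univ j₀), Finset.prod_eq_one,
      mul_one] at n0
    · exact n0
    · intro i hi
      exact hj₀ i (Finset.mem_erase.1 hi).1
  have hab' : ∀ j, ‖A j‖ * ‖B j‖ = ((p : ℝ) ^ (2 * b))⁻¹ := by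
    intro j
    rw [← norm_mul, hab j, norm_q]
  have hother : ∀ j, j ≠ j₀ → (‖A j‖ = 1 ∧ ‖B j‖ = ((p : ℝ) ^ (2 * b))⁻¹) ∨
      (‖A j‖ = ((p : ℝ) ^ (2 * b))⁻¹ ∧ ‖B j‖ = 1) := by
    intro j hj
    have h3 := hab' j
    have h4 : 1 ≤ max ‖A j‖ ‖B j‖ := by
      rw [← hj₀ j hj]
      exact IsUltrametricDist.norm_add_le_max _ _
    rcases le_max_iff.1 h4 with h5 | h5
    · have h6 := le_antisymm (hA j) h5
      rw [h6, one_mul] at h3
      exact Or.inl ⟨h6, h3⟩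
    · have h6 := le_antisymm (hB j) h5
      rw [h6, mul_one] at h3
      exact Or.inr ⟨h3, h6⟩
  have hpb : (0 : ℝ) < ((p : ℝ) ^ b)⁻¹ := by positivity
  have hsq : ((p : ℝ) ^ (2 * b))⁻¹ = ((p : ℝ) ^ b)⁻¹ * ((p : ℝ) ^ b)⁻¹ := by
    rw [← mul_inv, ← pow_add, two_mul]
  have hmid : ‖A j₀‖ = ((p : ℝ) ^ b)⁻¹ ∧ ‖B j₀‖ = ((p : ℝ) ^ b)⁻¹ := by
    have h3 := hab' j₀
    rw [hsq] at h3
    have h4 : ‖A j₀‖ = ‖B j₀‖ := by
      by_contra hne
      have h5 : ‖A j₀ + B j₀‖ = max ‖A j₀‖ ‖B j₀‖ :=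
        IsUltrametricDist.norm_add_eq_max_of_norm_ne_norm hne
      rw [h5] at n2
      have h6 := max_le_iff.1 n2
      rcases lt_or_gt_of_ne hne with h7 | h7
      · have h8 : ‖A j₀‖ * ‖B j₀‖ < ((p : ℝ) ^ b)⁻¹ * ((p : ℝ) ^ b)⁻¹ := by
          have h9 : ‖A j₀‖ < ((p : ℝ) ^ b)⁻¹ := lt_of_lt_of_le h7 h6.2
          calc ‖A j₀‖ * ‖B j₀‖ ≤ ‖A j₀‖ * ((p : ℝ) ^ b)⁻¹ :=
                mul_le_mul_of_nonneg_left h6.2 (norm_nonneg _)
            _ < ((p : ℝ) ^ b)⁻¹ * ((p : ℝ) ^ b)⁻¹ := mul_lt_mul_of_pos_right h9 hpb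
        linarith
      · have h8 : ‖A j₀‖ * ‖B j₀‖ < ((p : ℝ) ^ b)⁻¹ * ((p : ℝ) ^ b)⁻¹ := by
          have h9 : ‖B j₀‖ < ((p : ℝ) ^ b)⁻¹ := lt_of_lt_of_le h7 h6.1
          calc ‖A j₀‖ * ‖B j₀‖ ≤ ((p : ℝ) ^ b)⁻¹ * ‖B j₀‖ :=
                mul_le_mul_of_nonneg_right h6.1 (norm_nonneg _)
            _ < ((p : ℝ) ^ b)⁻¹ * ((p : ℝ) ^ b)⁻¹ := mul_lt_mul_of_pos_left h9 hpb
        linarith
    rw [← h4] at h3 ⊢
    have h5 : ‖A j₀‖ = ((p : ℝ) ^ b)⁻¹ := by
      rw [← pow_two, ← pow_two] at h3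
      exact (pow_left_inj₀ (norm_nonneg _) hpb.le two_ne_zero).1 h3
    exact ⟨h5, h5⟩
  have e0 : ((1 : ℝ) = ((p : ℝ) ^ (2 * b)) ^ (-r)) ↔ r = 0 := by
    constructor
    · intro h
      have h4 : ((p : ℝ) ^ (2 * b)) ^ (0 : ℝ) = ((p : ℝ) ^ (2 * b)) ^ (-r) := by
        rw [Real.rpow_zero, h]
      have h5 := (Real.rpow_right_inj hq0 hq1.ne').1 h4
      linarith
    · rintro rfl
      rw [neg_zero, Real.rpow_zero]
  have e1 : (((p : ℝ) ^ (2 * b))⁻¹ = ((p : ℝ) ^ (2 * b)) ^ (-r)) ↔ r = 1 := by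
    constructor
    · intro h
      rw [← Real.rpow_neg_one] at h
      have h5 := (Real.rpow_right_inj hq0 hq1.ne').1 h
      linarith
    · rintro rfl
      rw [Real.rpow_neg_one]
  have hhalf : ((p : ℝ) ^ b)⁻¹ = ((p : ℝ) ^ (2 * b)) ^ (-(1 / 2) : ℝ) := by
    rw [Real.rpow_neg hq0.le, ← Real.sqrt_eq_rpow]
    congr 1
    rw [mul_comm 2 b, pow_mul, Real.sqrt_sq (by positivity)]
  have e2 : (((p : ℝ) ^ b)⁻¹ = ((p : ℝ) ^ (2 * b)) ^ (-r)) ↔ r = 1 / 2 := by
    constructor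
    · intro h
      rw [hhalf] at h
      have h5 := (Real.rpow_right_inj hq0 hq1.ne').1 h
      linarith
    · rintro rfl
      exact hhalf
  have hfw : f = wp (p ^ (2 * b)) g x := hfx
  rw [hfw, slopeCount_wp hab hx', ← Finset.add_sum_erase Finset.univ _ (Finset.mem_univ j₀)]
  have h5 : ∀ j ∈ Finset.univ.erase j₀,
      ((if ‖A j‖ = ((p : ℝ) ^ (2 * b)) ^ (-r) then 1 else 0) +
      (if ‖B j‖ = ((p : ℝ) ^ (2 * b)) ^ (-r) then 1 else 0) : ℕ) =
      ((if r = 0 then 1 else 0) + if r = 1 then 1 else 0) := by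
    intro j hj
    rcases hother j (Finset.mem_erase.1 hj).1 with ⟨h6, h7⟩ | ⟨h6, h7⟩
    · rw [h6, h7, if_congr e0 rfl rfl, if_congr e1 rfl rfl]
    · rw [h6, h7, if_congr e0 rfl rfl, if_congr e1 rfl rfl, add_comm]
  rw [Finset.sum_congr rfl h5, Finset.sum_const, Finset.card_erase_of_mem (Finset.mem_univ _),
    Finset.card_univ, Fintype.card_fin, smul_eq_mul, hmid.1, hmid.2, if_congr e2 rfl rfl]
  congr 1
  split_ifs <;> rfl

end

theorem o3r : O3r := by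
  intro p _ b g f hb hg hf h1 h2
  refine ⟨?_, ?_, ?_⟩
  · rw [slopes b g f hb hg hf h1 h2]
    norm_num
  · rw [slopes b g f hb hg hf h1 h2]
    norm_num
  · rw [slopes b g f hb hg hf h1 h2]
    norm_num

theorem o3n' : O3n := by
  intro p _ b g f hb hg hf h1 h2
  refine ⟨hf, fun r => ?_⟩
  rw [slopes b g f hb hg hf h1 h2]
  by_cases hr0 : r = 0
  · exact ⟨0, by rw [hr0]; simp⟩
  by_cases hr1 : r = 1
  · exact ⟨((g - 1 : ℕ) : ℤ), by rw [hr1]; norm_num⟩
  by_cases hr2 : r = 1 / 2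
  · exact ⟨1, by rw [hr2]; norm_num⟩
  · exact ⟨0, by simp only [hr0, hr1, hr2, if_false]; simp⟩

theorem o3n (_h : O3r) : O3n := o3n'

end Pool.Agent.H494.PDO3
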