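import Pool.Agent.H857.PD.Core

/-!
# O4I: irreducible self-reciprocal polynomials of odd prime degree
-/

set_option autoImplicit false

namespace Pool.Agent.H947.PD

open Module Polynomial Pool.Agent.W521.Descent Pool.Agent.W521.Density Pool.Agent.W521.Count
  Pool.Agent.X297.UB Pool.Agent.H857.PB Pool.Agent.H857.PA Pool.Agent.H857.HK Pool.Agent.H857.EF
  Pool.Agent.H857.WT Pool.Agent.H857.SG Pool.Agent.H857.PD

theorem hpolyO_coeff {R : Type} [CommRing R] (r : ℕ) (s : R) (u v : Fin r → R) (n : ℕ) :
    (hpolyO r s u v).coeff n = (if n = 2 * r + 1 then 1 else 0) +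
      ∑ j : Fin r, ((if n = 2 * r - (j : ℕ) then u j else 0) +
        (if n = (j : ℕ) + 1 then s ^ (2 * (r - (j : ℕ)) - 1) * v j else 0)) +
      (if n = 0 then s ^ (2 * r + 1) else 0) := by
  unfold hpolyO
  rw [coeff_add, coeff_add, coeff_X_pow, finsetSum_coeff, coeff_C]
  simp only [coeff_add, coeff_C_mul_X_pow]

/-- a monic polynomial of degree `2 r + 1` with constant coefficient `s ^ (2 r + 1)` -/
theorem hpolyO_eq {F : Type} [Field F] {r : ℕ} {s : F} (hs : s ≠ 0) {P : F[X]} (hP : P.Monic)
    (hd : P.natDegree = 2 * r + 1) (h0 : P.coeff 0 = s ^ (2 * r + 1)) :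
    hpolyO r s (fun j => P.coeff (2 * r - (j : ℕ)))
      (fun j => P.coeff ((j : ℕ) + 1) / s ^ (2 * (r - (j : ℕ)) - 1)) = P := by
  ext n
  rw [hpolyO_coeff, Finset.sum_add_distrib]
  have h1 : ∑ j : Fin r, (if n = 2 * r - (j : ℕ) then P.coeff (2 * r - (j : ℕ)) else 0) =
      if r + 1 ≤ n ∧ n ≤ 2 * r then P.coeff n else 0 := by
    split_ifs with hc
    · rw [Finset.sum_eq_single (⟨2 * r - n, by omega⟩ : Fin r)]
      · have e : 2 * r - (2 * r - n) = n := by omega
        show (if n = 2 * r - (2 * r - n) then P.coeff (2 * r - (2 * r - n)) else 0) =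
          P.coeff n
        rw [e, if_pos rfl]
      · intro j _ hj
        rw [if_neg]
        intro hn
        apply hj
        ext
        show (j : ℕ) = 2 * r - n
        have := j.2
        omega
      · intro h
        exact absurd (Finset.mem_univ _) h
    · refine Finset.sum_eq_zero fun j _ => ?_
      rw [if_neg]
      intro hn
      have := j.2
      omega
  have h2 : ∑ j : Fin r, (if n = (j : ℕ) + 1 then
      s ^ (2 * (r - (j : ℕ)) - 1) * (P.coeff ((j : ℕ) + 1) / s ^ (2 * (r - (j : ℕ)) - 1)) else 0) =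
      if 1 ≤ n ∧ n ≤ r then P.coeff n else 0 := by
    have h3 : ∀ j : Fin r, s ^ (2 * (r - (j : ℕ)) - 1) *
        (P.coeff ((j : ℕ) + 1) / s ^ (2 * (r - (j : ℕ)) - 1)) =
        P.coeff ((j : ℕ) + 1) := fun j => mul_div_cancel₀ _ (pow_ne_zero _ hs)
    simp only [h3]
    split_ifs with hc
    · rw [Finset.sum_eq_single (⟨n - 1, by omega⟩ : Fin r)]
      · have e : n - 1 + 1 = n := by omega
        show (if n = n - 1 + 1 then P.coeff (n - 1 + 1) else 0) = P.coeff n
        rw [e, if_pos rfl]
      · intro j _ hj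
        rw [if_neg]
        intro hn
        apply hj
        ext
        show (j : ℕ) = n - 1
        omega
      · intro h
        exact absurd (Finset.mem_univ _) h
    · refine Finset.sum_eq_zero fun j _ => ?_
      rw [if_neg]
      intro hn
      have := j.2
      omega
  rw [h1, h2]
  have hlead : P.coeff (2 * r + 1) = 1 := by
    have := hP.coeff_natDegree
    rwa [hd] at this
  have hbig : 2 * r + 1 < n → P.coeff n = 0 := fun h =>
    coeff_eq_zero_of_natDegree_lt (by rw [hd]; exact h)
  rcases Nat.lt_trichotomy n (2 * r + 1) with h | h | h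
  · rcases Nat.eq_zero_or_pos n with h'' | h''
    · subst h''
      rw [if_neg (by omega), if_neg (by omega), if_neg (by omega), if_pos rfl, h0]
      ring
    · rcases Nat.lt_or_ge r n with h' | h'
      · rw [if_neg (by omega), if_pos (by omega), if_neg (by omega), if_neg (by omega)]
        ring
      · rw [if_neg (by omega), if_neg (by omega), if_pos (by omega), if_neg (by omega)]
        ring
  · subst h
    rw [if_pos rfl, if_neg (by omega), if_neg (by omega), if_neg (by omega), hlead]
    ring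
  · rw [if_neg (by omega), if_neg (by omega), if_neg (by omega), if_neg (by omega), hbig h]
    ring

/-- an element of prime degree with a given norm -/
theorem exists_irr_const (l : ℕ) [Fact l.Prime] (g : ℕ) (hg : g.Prime) (c : ZMod l) (hc : c ≠ 0) :
    ∃ P : (ZMod l)[X], P.Monic ∧ Irreducible P ∧ P.natDegree = g ∧
      P.coeff 0 = (-1) ^ g * c ^ g := by
  have hl : l.Prime := Fact.out
  have hg0 : g ≠ 0 := hg.ne_zero
  have hfin : finrank (ZMod l) (GaloisField l g) = g := GaloisField.finrank l hg0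
  have hfd : FiniteDimensional (ZMod l) (GaloisField l g) :=
    FiniteDimensional.of_finrank_pos (by rw [hfin]; exact hg.pos)
  obtain ⟨w, hw⟩ := IsCyclic.exists_generator (α := (GaloisField l g)ˣ)
  have hord : orderOf w = l ^ g - 1 := by
    rw [orderOf_eq_card_of_forall_mem_zpowers hw, Nat.card_units, GaloisField.card l g hg0]
  -- the power is not in the prime field
  have hnot : ∀ t : ZMod l, algebraMap (ZMod l) (GaloisField l g) t ≠
      (w : GaloisField l g) ^ (l - 1) := by
    intro t ht
    have ht0 : t ≠ 0 := by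
      intro h
      rw [h, map_zero] at ht
      exact pow_ne_zero _ w.ne_zero ht.symm
    have h1 : (w : GaloisField l g) ^ ((l - 1) * (l - 1)) = 1 := by
      rw [pow_mul, ← ht, ← map_pow, ZMod.pow_card_sub_one_eq_one ht0, map_one]
    have h2 : w ^ ((l - 1) * (l - 1)) = 1 := by
      apply Units.ext
      rw [Units.val_pow_eq_pow_val, h1, Units.val_one]
    have h3 := orderOf_dvd_of_pow_eq_one h2
    rw [hord] at h3
    have hl2 := hl.two_le
    have h4 : 0 < (l - 1) * (l - 1) := Nat.mul_pos (by omega) (by omega)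
    have h5 := Nat.le_of_dvd h4 h3
    have h6 : l ^ 2 ≤ l ^ g := Nat.pow_le_pow_right hl.pos hg.two_le
    obtain ⟨m, rfl⟩ : ∃ m, l = m + 2 := ⟨l - 2, by omega⟩
    have h7 : m + 2 - 1 = m + 1 := by omega
    rw [h7] at h5
    have h8 : (m + 2) ^ 2 ≤ (m + 1) * (m + 1) + 1 := by omega
    nlinarith
  obtain ⟨z, hz⟩ : ∃ z : GaloisField l g,
      z = algebraMap (ZMod l) (GaloisField l g) c * (w : GaloisField l g) ^ (l - 1) := ⟨_, rfl⟩
  have hznot : ∀ t : ZMod l, algebraMap (ZMod l) (GaloisField l g) t ≠ z := by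
    intro t ht
    apply hnot (c⁻¹ * t)
    rw [map_mul, ht, hz, ← mul_assoc, ← map_mul, inv_mul_cancel₀ hc, map_one, one_mul]
  have hint : IsIntegral (ZMod l) z := Algebra.IsIntegral.isIntegral z
  have hmul := Module.finrank_mul_finrank (ZMod l) (IntermediateField.adjoin (ZMod l) {z})
    (GaloisField l g)
  rw [hfin] at hmul
  have hne : finrank (ZMod l) (IntermediateField.adjoin (ZMod l) {z}) ≠ 1 := by
    intro h
    rw [IntermediateField.finrank_adjoin_simple_eq_one_iff] at h
    obtain ⟨t, ht⟩ := IntermediateField.mem_bot.1 h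
    exact hznot t ht
  have hdeg : finrank (ZMod l) (IntermediateField.adjoin (ZMod l) {z}) = g :=
    ((Nat.dvd_prime hg).1 (Dvd.intro _ hmul)).resolve_left hne
  have hone : finrank (IntermediateField.adjoin (ZMod l) {z}) (GaloisField l g) = 1 := by
    rw [hdeg] at hmul
    exact Nat.eq_of_mul_eq_mul_left hg.pos (by rw [hmul, mul_one])
  have hnat : (minpoly (ZMod l) z).natDegree = g := by
    rw [← IntermediateField.adjoin.finrank hint, hdeg]
  refine ⟨minpoly (ZMod l) z, minpoly.monic hint, minpoly.irreducible hint, hnat, ?_⟩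
  have hnorm1 : Algebra.norm (ZMod l) z = c ^ g := by
    rw [hz, map_mul, map_pow, Algebra.norm_algebraMap, hfin]
    have h1 : Algebra.norm (ZMod l) (w : GaloisField l g) ≠ 0 :=
      Algebra.norm_ne_zero_iff.2 w.ne_zero
    rw [ZMod.pow_card_sub_one_eq_one h1, mul_one]
  have hnorm2 := Algebra.norm_eq_norm_adjoin (ZMod l) z
  rw [hone, pow_one] at hnorm2
  have hnorm3 := Algebra.PowerBasis.norm_gen_eq_coeff_zero_minpoly
    (IntermediateField.adjoin.powerBasis hint)
  rw [IntermediateField.adjoin.powerBasis_gen, ← hnorm2, hnorm1,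
    IntermediateField.adjoin.powerBasis_dim, hnat, IntermediateField.minpoly_gen] at hnorm3
  rw [hnorm3, ← mul_assoc, ← mul_pow]
  norm_num

/-- **O4I.** -/
theorem o4i : O4I := by
  intro l _ _ r _ hr s hs
  obtain ⟨P, hP1, hP2, hP3, hP4⟩ := exists_irr_const l (2 * r + 1) hr (-s) (neg_ne_zero.2 hs)
  have h0 : P.coeff 0 = s ^ (2 * r + 1) := by
    rw [hP4, ← mul_pow]
    ring
  refine ⟨fun j => P.coeff (2 * r - (j : ℕ)),
    fun j => P.coeff ((j : ℕ) + 1) / s ^ (2 * (r - (j : ℕ)) - 1), ?_⟩
  rw [hpolyO_eq hs hP1 hP3 h0]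
  exact hP2

end Pool.Agent.H947.PD
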