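import Pool.Agent.H857.PD.Core

/-!
# O4S: explicit irreducible polynomials modulo three and five
-/

set_option autoImplicit false

namespace Pool.Agent.H263.PD

open Module Polynomial Pool.Agent.H857.PD

section

variable {F : Type} [Field F]

/-- cubics without roots -/
theorem irr3 (p2 p1 p0 : F) (h : ∀ t : F, t * t * t + p2 * (t * t) + p1 * t + p0 ≠ 0) :
    (X ^ 3 + C p2 * X ^ 2 + C p1 * X + C p0 : F[X]).Monic ∧
    Irreducible (X ^ 3 + C p2 * X ^ 2 + C p1 * X + C p0 : F[X]) ∧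
    (X ^ 3 + C p2 * X ^ 2 + C p1 * X + C p0 : F[X]).natDegree = 3 := by
  have hm : (X ^ 3 + C p2 * X ^ 2 + C p1 * X + C p0 : F[X]).Monic := by monicity!
  have hd : (X ^ 3 + C p2 * X ^ 2 + C p1 * X + C p0 : F[X]).natDegree = 3 := by compute_degree!
  refine ⟨hm, ?_, hd⟩
  rw [hm.irreducible_iff_roots_eq_zero_of_degree_le_three (by rw [hd]; norm_num) (by rw [hd])]
  rw [Multiset.eq_zero_iff_forall_notMem]
  intro t ht
  rw [mem_roots hm.ne_zero, IsRoot.def] at ht
  apply h t
  rw [← ht]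
  simp
  ring

/-- quintics without linear and quadratic factors -/
theorem irr5 (p4 p3 p2 p1 p0 : F)
    (h1 : ∀ t : F, t * t * t * t * t + p4 * (t * t * t * t) + p3 * (t * t * t) + p2 * (t * t) +
      p1 * t + p0 ≠ 0)
    (h2 : ∀ a b : F, ¬ (a * (p2 - a * (p3 - b - a * (p4 - a)) - b * (p4 - a)) +
      b * (p3 - b - a * (p4 - a)) = p1 ∧
      b * (p2 - a * (p3 - b - a * (p4 - a)) - b * (p4 - a)) = p0)) :
    (X ^ 5 + C p4 * X ^ 4 + C p3 * X ^ 3 + C p2 * X ^ 2 + C p1 * X + C p0 : F[X]).Monic ∧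
    Irreducible (X ^ 5 + C p4 * X ^ 4 + C p3 * X ^ 3 + C p2 * X ^ 2 + C p1 * X + C p0 : F[X]) ∧
    (X ^ 5 + C p4 * X ^ 4 + C p3 * X ^ 3 + C p2 * X ^ 2 + C p1 * X + C p0 : F[X]).natDegree =
      5 := by
  obtain ⟨P, hP⟩ : ∃ P : F[X],
    P = X ^ 5 + C p4 * X ^ 4 + C p3 * X ^ 3 + C p2 * X ^ 2 + C p1 * X + C p0 := ⟨_, rfl⟩
  rw [← hP]
  have hm : P.Monic := by
    rw [hP]
    monicity!
  have hd : P.natDegree = 5 := by
    rw [hP]
    compute_degree!
  refine ⟨hm, ?_, hd⟩
  rw [hm.irreducible_iff_natDegree']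
  constructor
  · intro h
    rw [h, natDegree_one] at hd
    omega
  · intro f g hf hg hfg hmem
    rw [hd, Finset.mem_Ioc] at hmem
    have hdeg : f.natDegree + g.natDegree = 5 := by
      rw [← hd, ← hfg, hf.natDegree_mul hg]
    have hc : ∀ n, P.coeff n = ∑ k ∈ Finset.range (n + 1), f.coeff k * g.coeff (n - k) := by
      intro n
      rw [← hfg, coeff_mul, Finset.Nat.sum_antidiagonal_eq_sum_range_succ_mk]
    rcases (by omega : g.natDegree = 1 ∨ g.natDegree = 2) with h | h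
    · have hgX := hg.eq_X_add_C h
      have he : P.eval (-(g.coeff 0)) = 0 := by
        rw [← hfg, eval_mul, hgX]
        simp
      apply h1 (-(g.coeff 0))
      rw [← he, hP]
      simp
      ring
    · have hf3 : f.natDegree = 3 := by omega
      have f3 : f.coeff 3 = 1 := by
        have := hf.coeff_natDegree
        rwa [hf3] at this
      have f4 : f.coeff 4 = 0 := coeff_eq_zero_of_natDegree_lt (by omega)
      have g2 : g.coeff 2 = 1 := by
        have := hg.coeff_natDegree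
        rwa [h] at this
      have g3 : g.coeff 3 = 0 := coeff_eq_zero_of_natDegree_lt (by omega)
      have g4 : g.coeff 4 = 0 := coeff_eq_zero_of_natDegree_lt (by omega)
      have c0 := hc 0
      have c1 := hc 1
      have c2 := hc 2
      have c3 := hc 3
      have c4 := hc 4
      simp only [Finset.sum_range_succ, Finset.sum_range_zero, zero_add, Nat.sub_zero, Nat.sub_self,
        Nat.reduceSub, Nat.reduceAdd, f3, f4, g2, g3, g4, mul_zero, zero_mul, add_zero, mul_one,
        one_mul] at c0 c1 c2 c3 c4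
      have e0 : P.coeff 0 = p0 := by rw [hP]; simp
      have e1 : P.coeff 1 = p1 := by rw [hP]; simp [coeff_C]
      have e2 : P.coeff 2 = p2 := by rw [hP]; simp [coeff_X_pow]
      have e3 : P.coeff 3 = p3 := by rw [hP]; simp [coeff_X_pow]
      have e4 : P.coeff 4 = p4 := by rw [hP]; simp [coeff_X_pow]
      rw [e0] at c0
      rw [e1] at c1
      rw [e2] at c2
      rw [e3] at c3
      rw [e4] at c4
      have k1 : f.coeff 2 = p4 - g.coeff 1 := by
        rw [c4]
        ring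
      have k2 : f.coeff 1 = p3 - g.coeff 0 - g.coeff 1 * (p4 - g.coeff 1) := by
        rw [← k1, c3]
        ring
      have k3 : f.coeff 0 = p2 - g.coeff 1 * (p3 - g.coeff 0 - g.coeff 1 * (p4 - g.coeff 1)) -
          g.coeff 0 * (p4 - g.coeff 1) := by
        rw [← k2, ← k1, c2]
        ring
      apply h2 (g.coeff 1) (g.coeff 0)
      rw [← k3, ← k2, c1, c0]
      constructor
      · ring
      · ring


/-- the polynomial for `r = 1` -/
theorem pat1 (s : F) (u v : Fin 1 → F) (p2 p1 p0 : F) (e2 : u 0 = p2) (e1 : s * v 0 = p1)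
    (e0 : s * s * s = p0) (h : ∀ t : F, t * t * t + p2 * (t * t) + p1 * t + p0 ≠ 0) :
    Irreducible (hpolyO 1 s u v) := by
  obtain ⟨hm, hi, hd⟩ := irr3 p2 p1 p0 h
  have hh : hpolyO 1 s u v = X ^ 3 + C p2 * X ^ 2 + C p1 * X + C p0 := by
    unfold hpolyO
    rw [Fin.sum_univ_one]
    have e1' : s ^ (2 * (1 - ((0 : Fin 1) : ℕ)) - 1) * v 0 = p1 := by
      rw [← e1]
      simp
    have e0' : s ^ (2 * 1 + 1) = p0 := by
      rw [← e0]
      ring
    rw [e1', e0', e2]
    simp only [Fin.val_zero]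
    ring
  rw [hh]
  exact hi

/-- the polynomial for `r = 2` -/
theorem pat2 (s : F) (u v : Fin 2 → F) (p4 p3 p2 p1 p0 : F) (e4 : u 0 = p4) (e3 : u 1 = p3)
    (e2 : s * v 1 = p2) (e1 : s * s * s * v 0 = p1) (e0 : s * s * s * s * s = p0)
    (h1 : ∀ t : F, t * t * t * t * t + p4 * (t * t * t * t) + p3 * (t * t * t) + p2 * (t * t) +
      p1 * t + p0 ≠ 0)
    (h2 : ∀ a b : F, ¬ (a * (p2 - a * (p3 - b - a * (p4 - a)) - b * (p4 - a)) +
      b * (p3 - b - a * (p4 - a)) = p1 ∧
      b * (p2 - a * (p3 - b - a * (p4 - a)) - b * (p4 - a)) = p0)) :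
    Irreducible (hpolyO 2 s u v) := by
  obtain ⟨hm, hi, hd⟩ := irr5 p4 p3 p2 p1 p0 h1 h2
  have hh : hpolyO 2 s u v =
      X ^ 5 + C p4 * X ^ 4 + C p3 * X ^ 3 + C p2 * X ^ 2 + C p1 * X + C p0 := by
    unfold hpolyO
    rw [Fin.sum_univ_two]
    have e1' : s ^ (2 * (2 - ((0 : Fin 2) : ℕ)) - 1) * v 0 = p1 := by
      rw [← e1]
      have : 2 * (2 - ((0 : Fin 2) : ℕ)) - 1 = 3 := rfl
      rw [this]
      ring
    have e2' : s ^ (2 * (2 - ((1 : Fin 2) : ℕ)) - 1) * v 1 = p2 := by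
      rw [← e2]
      simp
    have e0' : s ^ (2 * 2 + 1) = p0 := by
      rw [← e0]
      ring
    rw [e1', e2', e0', e3, e4]
    simp only [Fin.val_zero, Fin.val_one]
    ring
  rw [hh]
  exact hi

end

theorem s3 (q : ZMod 3) (hq : q ≠ 0) : q = 1 ∨ q = 2 := by
  revert q
  decide

theorem s5 (q : ZMod 5) (hq : q ≠ 0) : q = 1 ∨ q = 2 ∨ q = 3 ∨ q = 4 := by
  revert q
  decide

theorem prime_five : Fact (Nat.Prime 5) := ⟨by norm_num⟩

attribute [local instance] prime_five

theorem o31 (s : ZMod 3) (hs : s ≠ 0) : ∃ (t : ZMod 3) (x : Fin 1 → ZMod 3), t ≠ 0 ∧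
    Irreducible (hpolyO 1 s (fun j => x j + t * (if (j : ℕ) + 1 = 1 then 1 else 0))
      (fun j => x j - t * (if (j : ℕ) + 1 = 1 then 1 else 0))) := by
  rcases s3 s hs with rfl | rfl
  · refine ⟨1, fun _ => 0, by decide, ?_⟩
    exact pat1 1 _ _ 1 2 1 (by decide) (by decide) (by decide) (by decide)
  · refine ⟨1, fun _ => 0, by decide, ?_⟩
    exact pat1 2 _ _ 1 1 2 (by decide) (by decide) (by decide) (by decide)

theorem o51 (s : ZMod 5) (hs : s ≠ 0) : ∃ (t : ZMod 5) (x : Fin 1 → ZMod 5), t ≠ 0 ∧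
    Irreducible (hpolyO 1 s (fun j => x j + t * (if (j : ℕ) + 1 = 1 then 1 else 0))
      (fun j => x j - t * (if (j : ℕ) + 1 = 1 then 1 else 0))) := by
  rcases s5 s hs with rfl | rfl | rfl | rfl
  · refine ⟨1, fun _ => 0, by decide, ?_⟩
    exact pat1 1 _ _ 1 4 1 (by decide) (by decide) (by decide) (by decide)
  · refine ⟨1, fun _ => 1, by decide, ?_⟩
    exact pat1 2 _ _ 2 0 3 (by decide) (by decide) (by decide) (by decide)
  · refine ⟨1, fun _ => 3, by decide, ?_⟩
    exact pat1 3 _ _ 4 1 2 (by decide) (by decide) (by decide) (by decide)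
  · refine ⟨1, fun _ => 0, by decide, ?_⟩
    exact pat1 4 _ _ 1 1 4 (by decide) (by decide) (by decide) (by decide)

theorem o32 (s : ZMod 3) (hs : s ≠ 0) : ∃ (t : ZMod 3) (x : Fin 2 → ZMod 3), t ≠ 0 ∧
    Irreducible (hpolyO 2 s (fun j => x j + t * (if (j : ℕ) + 1 = 2 then 1 else 0))
      (fun j => x j - t * (if (j : ℕ) + 1 = 2 then 1 else 0))) := by
  rcases s3 s hs with rfl | rfl
  · refine ⟨1, ![0, 0], by decide, ?_⟩
    exact pat2 1 _ _ 0 1 2 0 1 (by decide) (by decide) (by decide) (by decide)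
      (by decide) (by decide) (by decide)
  · refine ⟨1, ![0, 0], by decide, ?_⟩
    exact pat2 2 _ _ 0 1 1 0 2 (by decide) (by decide) (by decide) (by decide)
      (by decide) (by decide) (by decide)

theorem o52 (s : ZMod 5) (hs : s ≠ 0) : ∃ (t : ZMod 5) (x : Fin 2 → ZMod 5), t ≠ 0 ∧
    Irreducible (hpolyO 2 s (fun j => x j + t * (if (j : ℕ) + 1 = 2 then 1 else 0))
      (fun j => x j - t * (if (j : ℕ) + 1 = 2 then 1 else 0))) := by
  rcases s5 s hs with rfl | rfl | rfl | rfl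
  · refine ⟨1, ![0, 0], by decide, ?_⟩
    exact pat2 1 _ _ 0 1 4 0 1 (by decide) (by decide) (by decide) (by decide)
      (by decide) (by decide) (by decide)
  · refine ⟨1, ![0, 0], by decide, ?_⟩
    exact pat2 2 _ _ 0 1 3 0 2 (by decide) (by decide) (by decide) (by decide)
      (by decide) (by decide) (by decide)
  · refine ⟨1, ![0, 0], by decide, ?_⟩
    exact pat2 3 _ _ 0 1 2 0 3 (by decide) (by decide) (by decide) (by decide)
      (by decide) (by decide) (by decide)
  · refine ⟨1, ![0, 0], by decide, ?_⟩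
    exact pat2 4 _ _ 0 1 1 0 4 (by decide) (by decide) (by decide) (by decide)
      (by decide) (by decide) (by decide)

theorem o4s : O4S := by
  intro r hr l _ hl s hs
  rcases hr with rfl | rfl <;> rcases hl with rfl | rfl
  · exact o31 s hs
  · exact o51 s hs
  · exact o32 s hs
  · exact o52 s hs

end Pool.Agent.H263.PD
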