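import Pool.Agent.H857.PD.Core
import Pool.Graph.R_seed8.W521.Frob

/-!
Project OddPrimeDimension (helper857), statement O5: Frobenius elements, by helper977
(a variation of W5 by helper870)
-/

set_option autoImplicit false

namespace Pool.Agent.H977.PDO5

open Polynomial NumberField
open Pool.Agent.H857.WT (al)
open Pool.Agent.H857.PD (hpolyO hO IsNormO GoodI O5)
open Pool.Agent.H857.EF (QB)

theorem mem_prime {l : ℕ} [Fact l.Prime] {K : Type*} [Field K] [CharP K l] (ψ : ZMod l →+* K)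
    {x : K} (hx : x ^ l = x) : ∃ t : ZMod l, ψ t = x := by
  have h1 : x ∈ (⊥ : Subfield K) := (Subfield.mem_bot_iff_pow_eq_self K l).2 hx
  rw [← ZMod.fieldRange_castHom_eq_bot l, RingHom.mem_fieldRange] at h1
  obtain ⟨t, ht⟩ := h1
  refine ⟨t, ?_⟩
  rw [← ht]
  exact congrArg (fun f : ZMod l →+* K => f t) (RingHom.ext_zmod _ _)

/-- if the polynomial is irreducible then the Frobenius permutation is a cycle -/
theorem fin_I {l : ℕ} [Fact l.Prime] {K : Type*} [Field K] [CharP K l] (ψ : ZMod l →+* K)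
    {n : ℕ} (a : Fin n → K) (π : Equiv.Perm (Fin n)) (ha : ∀ i, a (π i) = a i ^ l)
    (r : (ZMod l)[X]) (hr : Irreducible r) (hP : ∏ i, (X - C (a i)) = r.map ψ) :
    ∀ i j, ∃ m : ℕ, (π ^ m) i = j := by
  classical
  intro i j
  -- the orbit
  set O : Finset (Fin n) := Finset.univ.filter fun j => ∃ m : ℕ, (π ^ m) i = j with hO
  have hmem : ∀ j, j ∈ O ↔ ∃ m : ℕ, (π ^ m) i = j := fun j => by simp [hO]
  have hπO : ∀ j ∈ O, π j ∈ O := by
    intro j hj
    obtain ⟨m, hm⟩ := (hmem j).1 hj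
    refine (hmem _).2 ⟨m + 1, ?_⟩
    rw [pow_succ', Equiv.Perm.mul_apply, hm]
  have himg : O.image π = O := by
    apply Finset.eq_of_subset_of_card_le
    · intro j hj
      obtain ⟨j', hj', rfl⟩ := Finset.mem_image.1 hj
      exact hπO j' hj'
    · rw [Finset.card_image_of_injective _ π.injective]
  -- the polynomial of the orbit
  set g : K[X] := ∏ j ∈ O, (X - C (a j)) with hg
  have hgl : ∀ m, g.coeff m ^ l = g.coeff m := by
    intro m
    have h3 : g.map (frobenius K l) = g := by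
      rw [hg, Polynomial.map_prod]
      have h4 : ∀ j ∈ O, (X - C (a j)).map (frobenius K l) = X - C (a (π j)) := by
        intro j _
        rw [Polynomial.map_sub, map_X, map_C, frobenius_def, ha]
      rw [Finset.prod_congr rfl h4]
      conv_rhs => rw [← himg]
      rw [Finset.prod_image fun x _ y _ h => π.injective h]
    have h5 := congrArg (fun f => coeff f m) h3
    simp only [coeff_map, frobenius_def] at h5
    exact h5
  have hlift : g ∈ lifts ψ := by
    rw [lifts_iff_coeff_lifts]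
    intro m
    obtain ⟨t, ht⟩ := mem_prime ψ (hgl m)
    exact ⟨t, ht⟩
  obtain ⟨G, hG⟩ := (mem_lifts g).1 hlift
  have hgm : g.Monic := monic_prod_of_monic _ _ fun j _ => monic_X_sub_C _
  have hgd : g.natDegree = O.card := by
    rw [hg, natDegree_prod_of_monic _ _ fun j _ => monic_X_sub_C _]
    simp
  have hrd : r.natDegree = n := by
    have h6 := congrArg Polynomial.natDegree hP
    rw [natDegree_map, natDegree_prod_of_monic _ _ fun j _ => monic_X_sub_C _] at h6
    simpa using h6.symm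
  have hG0 : G ≠ 0 := by
    rintro rfl
    rw [Polynomial.map_zero] at hG
    exact hgm.ne_zero hG.symm
  have hiO : i ∈ O := (hmem i).2 ⟨0, rfl⟩
  -- divisibility
  have hdvd : r ∣ G := by
    by_contra hnd
    have hco : IsCoprime r G := (hr.coprime_iff_not_dvd).2 hnd
    obtain ⟨u, v, huv⟩ := hco
    have hra : (r.map ψ).eval (a i) = 0 := by
      rw [← hP, eval_prod]
      refine Finset.prod_eq_zero (Finset.mem_univ i) ?_
      simp
    have hGa : (G.map ψ).eval (a i) = 0 := by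
      rw [hG, hg, eval_prod]
      refine Finset.prod_eq_zero hiO ?_
      simp
    have h8 := congrArg (fun f => (f.map ψ).eval (a i)) huv
    simp only [Polynomial.map_add, Polynomial.map_mul, eval_add, eval_mul, hra, hGa, mul_zero,
      add_zero, Polynomial.map_one, eval_one] at h8
    exact zero_ne_one h8
  have hcard : r.natDegree ≤ O.card := by
    have h9 := natDegree_le_of_dvd hdvd hG0
    rw [← hgd, ← hG, natDegree_map]
    exact h9
  have hOe : O = Finset.univ := by
    apply Finset.eq_of_subset_of_card_le (Finset.subset_univ _)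
    rw [Finset.card_univ, Fintype.card_fin]
    exact hrd.symm.le.trans hcard
  have hjO : j ∈ O := by
    rw [hOe]
    exact Finset.mem_univ _
  exact (hmem j).1 hjO

/-! ### The Frobenius element -/

theorem icQB : IsAlgClosure ℚ QB := algebraicClosure.isAlgClosure ℚ ℂ

theorem acQB : IsAlgClosed QB :=
  have := icQB
  IsAlgClosure.isAlgClosed ℚ

theorem norQB : Normal ℚ QB :=
  have := icQB
  IsAlgClosure.normal ℚ QB

theorem exL (P : ℚ[X]) : ∃ L : IntermediateField ℚ QB, FiniteDimensional ℚ L ∧ Normal ℚ L ∧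
    (P ≠ 0 → ∀ x : QB, aeval x P = 0 → x ∈ L) := by
  have hac := acQB
  have hsp : (P.map (algebraMap ℚ QB)).Splits := IsAlgClosed.splits _
  have h1 : IsSplittingField ℚ (IntermediateField.adjoin ℚ (P.rootSet QB)) P :=
    IntermediateField.adjoin_rootSet_isSplittingField hsp
  refine ⟨IntermediateField.adjoin ℚ (P.rootSet QB), IsSplittingField.finiteDimensional _ P,
    Normal.of_isSplittingField P, fun hP x hx => ?_⟩
  exact IntermediateField.subset_adjoin _ _ (mem_rootSet.2 ⟨hP, hx⟩)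

theorem frob (P : ℚ[X]) (hP : P ≠ 0) (l : ℕ) (hl : l.Prime) :
    ∃ (K : Type) (_ : Field K) (_ : CharP K l) (O : Subring QB) (φ : O →+* K) (σ : QB ≃ₐ[ℚ] QB),
      (∀ x : QB, IsIntegral ℤ x → aeval x P = 0 → x ∈ O) ∧
      (∀ (x : O), (σ (x : QB)) ∈ O) ∧
      ∀ (x x' : O), (x' : QB) = σ (x : QB) → φ x' = φ x ^ l := by
  have hnQ := norQB
  obtain ⟨L, hfd, hnor, hL⟩ := exL P
  have hnf : NumberField L := ⟨⟩
  have hgal : IsGalois ℚ L := ⟨⟩
  obtain ⟨K, hK, hchar, φ, τ, hτ⟩ := Pool.Agent.W521.Frob.exists_frob L l hl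
  let j : 𝓞 L →+* QB := (algebraMap L QB).comp (algebraMap (𝓞 L) L)
  have hj : Function.Injective j :=
    (algebraMap L QB).injective.comp RingOfIntegers.coe_injective
  have hj' : Function.Injective j.rangeRestrict := fun a b h => by
    have h1 := Subtype.ext_iff.1 h
    exact hj h1
  let e : 𝓞 L ≃+* j.range := RingEquiv.ofBijective j.rangeRestrict
    ⟨hj', j.rangeRestrict_surjective⟩
  have he : ∀ y : 𝓞 L, ((e y : j.range) : QB) = j y := fun y => rfl
  have hστ : ∀ y : 𝓞 L, (τ.liftNormal QB) (j y) = j (τ • y) := by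
    intro y
    exact AlgEquiv.liftNormal_commutes τ QB (algebraMap (𝓞 L) L y)
  refine ⟨K, hK, hchar, j.range, φ.comp (e.symm : j.range →+* 𝓞 L), τ.liftNormal QB,
    fun x hx hxP => ?_, fun x => ?_, fun x x' h => ?_⟩
  · have hxL := hL hP x hxP
    have hint : IsIntegral ℤ (⟨x, hxL⟩ : L) := by
      have h1 : IsIntegral ℤ (algebraMap L QB ⟨x, hxL⟩) := hx
      exact (isIntegral_algebraMap_iff (algebraMap L QB).injective).1 h1
    exact ⟨⟨⟨x, hxL⟩, hint⟩, rfl⟩
  · obtain ⟨y, hy⟩ := e.surjective x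
    rw [← hy, he, hστ]
    exact ⟨_, rfl⟩
  · obtain ⟨y, hy⟩ := e.surjective x
    obtain ⟨y', hy'⟩ := e.surjective x'
    have h1 : y' = τ • y := by
      apply hj
      rw [← hστ, ← he, ← he, hy, hy', h]
    show φ (e.symm x') = φ (e.symm x) ^ l
    rw [← hy, ← hy', e.symm_apply_apply, e.symm_apply_apply, h1, hτ]

/-! ### The polynomial -/

section
variable {r : ℕ} (s : ℕ) (x y : Fin r → ℤ)

/-- the polynomial with the parameter `ω` for `√-d` -/
noncomputable def HH {R : Type} [CommRing R] (ω : R) : R[X] :=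
  hpolyO r (s : R) (fun j => (x j : R) + y j * ω) (fun j => (x j : R) - y j * ω)

theorem HH_map {R S : Type} [CommRing R] [CommRing S] (ψ : R →+* S) (ω : R) :
    (HH s x y ω).map ψ = HH s x y (ψ ω) := by
  unfold HH hpolyO
  simp only [Polynomial.map_add, Polynomial.map_pow, map_X, Polynomial.map_sum,
    Polynomial.map_mul, Polynomial.map_sub, Polynomial.map_intCast, Polynomial.map_natCast,
    map_C, map_add, map_sub, map_mul, map_pow, map_intCast, map_natCast]

theorem HH_hC (d : ℕ) : hO r s d x y = HH s x y ((Real.sqrt d : ℂ) * Complex.I) := by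
  unfold HH hO
  congr 1
  funext j
  unfold al
  rw [map_add, map_mul, map_mul, Complex.conj_I, Complex.conj_ofReal, map_intCast, map_intCast]
  ring

theorem HH_zmod {l : ℕ} (t : ZMod l) : hpolyO r (s : ZMod l) (fun j => (x j : ZMod l) + t * y j)
    (fun j => (x j : ZMod l) - t * y j) = HH s x y t := by
  unfold HH
  simp only [mul_comm t]

end

/-- the Frobenius permutation -/
theorem main (r s₀ d : ℕ) (x y : Fin r → ℤ) (f : ℤ[X]) (z : Fin (2 * r + 1) → QB)
    (hs₀ : 0 < s₀) (hN : IsNormO r s₀ d x y f z) (l : ℕ) [Fact l.Prime] (s : ZMod l)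
    (hl2 : l ≠ 2) (hs : s ≠ 0) (hs2 : s ^ 2 = -(d : ZMod l)) :
    ∃ (π : Equiv.Perm (Fin (2 * r + 1))) (σ : QB ≃ₐ[ℚ] QB) (K : Type) (_ : Field K)
      (_ : CharP K l) (ψ : ZMod l →+* K) (a : Fin (2 * r + 1) → K), (∀ i, σ (z i) = z (π i)) ∧
      (∀ i, a (π i) = a i ^ l) ∧ ∏ i, (X - C (a i)) = (HH s₀ x y s).map ψ := by
  classical
  have hl : l.Prime := Fact.out
  obtain ⟨q, hqs⟩ : ∃ q : ℕ, q = s₀ ^ 2 := ⟨_, rfl⟩
  have hq : 0 < q := by rw [hqs]; positivity
  have hNnorm : ∀ i, ‖(z i : ℂ)‖ ^ 2 = (q : ℝ) := by rw [hqs]; exact hN.norm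
  -- the roots
  have hz0 : ∀ i, (z i : ℂ) ≠ 0 := by
    intro i h0
    have h1 := hNnorm i
    rw [h0, norm_zero] at h1
    have h2 : (q : ℝ) ≠ 0 := by exact_mod_cast hq.ne'
    apply h2
    rw [← h1]
    norm_num
  have hz0' : ∀ i, z i ≠ 0 := by
    intro i h0
    exact hz0 i (by rw [h0]; rfl)
  have hconj : ∀ i, (starRingEnd ℂ) (z i : ℂ) = (q : ℂ) / (z i : ℂ) := by
    intro i
    rw [eq_div_iff (hz0 i), mul_comm, Complex.mul_conj, Complex.normSq_eq_norm_sq, hNnorm i]
    simp
  set z' : Fin (2 * r + 1) → QB := fun i => (q : QB) / z i with hz'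
  have hz'c : ∀ i, (z' i : ℂ) = (starRingEnd ℂ) (z i : ℂ) := by
    intro i
    rw [hconj]
    show algebraMap QB ℂ ((q : QB) / z i) = (q : ℂ) / algebraMap QB ℂ (z i)
    rw [map_div₀, map_natCast]
  -- the number `w`
  have hw2 : ((Real.sqrt d : ℂ) * Complex.I) ^ 2 = -(d : ℂ) := by
    rw [mul_pow, Complex.I_sq, ← Complex.ofReal_pow, Real.sq_sqrt (Nat.cast_nonneg d)]
    simp
  have hwalg : ((Real.sqrt d : ℂ) * Complex.I) ∈ algebraicClosure ℚ ℂ := by
    rw [mem_algebraicClosure_iff]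
    refine ⟨X ^ 2 + C (d : ℚ), (monic_X_pow_add_C _ two_ne_zero).ne_zero, ?_⟩
    rw [map_add, map_pow, aeval_X, aeval_C, hw2]
    simp
  set w : QB := ⟨_, hwalg⟩ with hw
  have hwc : (w : ℂ) = (Real.sqrt d : ℂ) * Complex.I := rfl
  have hwq : w ^ 2 = -(d : QB) := by
    apply (algebraMap QB ℂ).injective
    rw [map_pow, map_neg, map_natCast]
    exact hw2
  -- the polynomial of all the roots
  have hcm : (hO r s₀ d x y).Monic := by
    rw [← hN.prod]
    exact monic_prod_of_monic _ _ fun i _ => monic_X_sub_C _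
  have hfm : f.Monic := by
    have h1 : (f.map (Int.castRingHom ℂ)).Monic := by
      rw [hN.map]
      exact hcm.mul (hcm.map _)
    exact (Function.Injective.monic_map_iff (RingHom.injective_int _)).2 h1
  have hev : ∀ u : QB, (f.map (Int.castRingHom ℂ)).eval (u : ℂ) = 0 → aeval u f = 0 := by
    intro u hu
    apply (algebraMap QB ℂ).injective
    rw [map_zero, ← hu, eval_map, ← aeval_algebraMap_apply]
    rfl
  have hfz : ∀ i, aeval (z i) f = 0 := by
    intro i
    apply hev
    rw [hN.map, eval_mul, ← hN.prod, eval_prod, Finset.prod_eq_zero (Finset.mem_univ i) (by simp),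
      zero_mul]
  have hfz' : ∀ i, aeval (z' i) f = 0 := by
    intro i
    apply hev
    have h1 : ((∏ j, (X - C (z j : ℂ))).map (starRingEnd ℂ)).eval (z' i : ℂ) = 0 := by
      rw [Polynomial.map_prod, eval_prod]
      refine Finset.prod_eq_zero (Finset.mem_univ i) ?_
      rw [Polynomial.map_sub, map_X, map_C, eval_sub, eval_X, eval_C, hz'c, sub_self]
    rw [hN.map, ← hN.prod, eval_mul, h1, mul_zero]
  set P : ℚ[X] := (X ^ 2 + C (d : ℚ)) * f.map (Int.castRingHom ℚ) with hP
  have hP0 : P ≠ 0 := ((monic_X_pow_add_C _ two_ne_zero).mul (hfm.map _)).ne_zero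
  have hPw : aeval w P = 0 := by
    rw [hP, map_mul, map_add, map_pow, aeval_X, aeval_C, hwq]
    simp
  have hPf : ∀ u : QB, aeval u f = 0 → aeval u P = 0 := by
    intro u hu
    have h1 : aeval u (f.map (Int.castRingHom ℚ)) = aeval u f := by
      rw [aeval_def, aeval_def, eval₂_map]
      congr 1
    rw [hP, map_mul, h1, hu, mul_zero]
  obtain ⟨K, hK, hchar, O, φ, σ, hO, hσO, hφ⟩ := frob P hP0 l hl
  have hintf : ∀ u : QB, aeval u f = 0 → IsIntegral ℤ u := fun u hu => ⟨f, hfm, hu⟩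
  have hintw : IsIntegral ℤ w := by
    refine ⟨X ^ 2 + C (d : ℤ), monic_X_pow_add_C _ two_ne_zero, ?_⟩
    rw [eval₂_add, eval₂_pow, eval₂_X, eval₂_C, hwq]
    simp
  let W : O := ⟨w, hO w hintw hPw⟩
  let Z : Fin (2 * r + 1) → O := fun i => ⟨z i, hO _ (hintf _ (hfz i)) (hPf _ (hfz i))⟩
  let Z' : Fin (2 * r + 1) → O := fun i => ⟨z' i, hO _ (hintf _ (hfz' i)) (hPf _ (hfz' i))⟩
  let ι : O →+* ℂ := (algebraMap QB ℂ).comp O.subtype
  have hι : Function.Injective ι := (algebraMap QB ℂ).injective.comp Subtype.val_injective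
  have hιW : ι W = (Real.sqrt d : ℂ) * Complex.I := rfl
  have hιZ : ∀ i, ι (Z i) = (z i : ℂ) := fun i => rfl
  have hιZ' : ∀ i, ι (Z' i) = (starRingEnd ℂ) (z i : ℂ) := fun i => hz'c i
  have hprod : ∏ i, (X - C (Z i)) = HH s₀ x y W := by
    apply Polynomial.map_injective ι hι
    rw [HH_map, hιW, ← HH_hC, ← hN.prod, Polynomial.map_prod]
    refine Finset.prod_congr rfl fun i _ => ?_
    rw [Polynomial.map_sub, map_X, map_C, hιZ]
  have hprod' : ∏ i, (X - C (Z' i)) = HH s₀ x y (-W) := by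
    apply Polynomial.map_injective ι hι
    have h1 : ι (-W) = (starRingEnd ℂ) ((Real.sqrt d : ℂ) * Complex.I) := by
      rw [map_neg, hιW, map_mul, Complex.conj_I, Complex.conj_ofReal]
      ring
    rw [HH_map, h1, ← HH_map, ← HH_hC, ← hN.prod, Polynomial.map_prod, Polynomial.map_prod]
    refine Finset.prod_congr rfl fun i _ => ?_
    rw [Polynomial.map_sub, map_X, map_C, hιZ', Polynomial.map_sub, map_X, map_C]
  -- the image of `w`
  let ψ : ZMod l →+* K := ZMod.castHom dvd_rfl K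
  have hψl : ∀ u : ZMod l, ψ u ^ l = ψ u := by
    intro u
    rw [← map_pow, ZMod.pow_card]
  have hφW2 : φ W ^ 2 = ψ s ^ 2 := by
    have h1 : W ^ 2 = -(d : O) := Subtype.ext (by
      show w ^ 2 = ((-(d : O) : O) : QB)
      rw [hwq]
      push_cast
      rfl)
    rw [← map_pow, h1, ← map_pow, hs2, map_neg, map_neg, map_natCast, map_natCast]
  have hφW : φ W = ψ s ∨ φ W = -ψ s := sq_eq_sq_iff_eq_or_eq_neg.1 hφW2
  have hφWl : φ W ^ l = φ W := by
    rcases hφW with h1 | h1
    · rw [h1, hψl]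
    · rw [h1, ← map_neg, hψl]
  have hψs : ψ s ≠ 0 := by
    rw [Ne, map_eq_zero ψ]
    exact hs
  have hφW0 : φ W ≠ 0 := by
    rcases hφW with h1 | h1
    · rw [h1]; exact hψs
    · rw [h1]; exact neg_ne_zero.2 hψs
  have h2K : (2 : K) ≠ 0 := by
    have h1 : ((2 : ℕ) : K) ≠ 0 := by
      rw [Ne, CharP.cast_eq_zero_iff K l]
      intro h1
      exact hl2 ((Nat.prime_dvd_prime_iff_eq hl Nat.prime_two).1 h1)
    exact_mod_cast h1
  have hσw : σ w = w := by
    have h1 : σ w ^ 2 = w ^ 2 := by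
      rw [← map_pow, hwq, map_neg, map_natCast]
    rcases sq_eq_sq_iff_eq_or_eq_neg.1 h1 with h2 | h2
    · exact h2
    · exfalso
      have h3 := hφ W (-W) (by
        show ((-W : O) : QB) = σ w
        rw [h2]
        rfl)
      rw [map_neg, hφWl] at h3
      have h4 : (2 : K) * φ W = 0 := by linear_combination -h3
      exact (mul_ne_zero h2K hφW0) h4
  -- the permutation
  have hQB : ∏ i, (X - C (z i)) = HH s₀ x y w := by
    apply Polynomial.map_injective (algebraMap QB ℂ) (algebraMap QB ℂ).injective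
    have h1 : algebraMap QB ℂ w = (Real.sqrt d : ℂ) * Complex.I := rfl
    rw [HH_map, h1, ← HH_hC, ← hN.prod, Polynomial.map_prod]
    refine Finset.prod_congr rfl fun i _ => ?_
    rw [Polynomial.map_sub, map_X, map_C]
    rfl
  have hσprod : ∏ i, (X - C (σ (z i))) = ∏ i, (X - C (z i)) := by
    have h1 := congrArg (Polynomial.map (σ : QB →+* QB)) hQB
    have h2 : (σ : QB →+* QB) w = w := hσw
    rw [HH_map, h2, ← hQB, Polynomial.map_prod] at h1
    rw [← h1]
    refine Finset.prod_congr rfl fun i _ => ?_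
    rw [Polynomial.map_sub, map_X, map_C]
    rfl
  have hex : ∀ i, ∃ j, σ (z i) = z j := by
    intro i
    have h1 : (∏ j, (X - C (z j))).eval (σ (z i)) = 0 := by
      rw [← hσprod, eval_prod]
      exact Finset.prod_eq_zero (Finset.mem_univ i) (by simp)
    rw [eval_prod, Finset.prod_eq_zero_iff] at h1
    obtain ⟨j, -, hj⟩ := h1
    refine ⟨j, ?_⟩
    rw [eval_sub, eval_X, eval_C, sub_eq_zero] at hj
    exact hj
  choose p hp using hex
  have hpi : Function.Injective p := by
    intro i j hij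
    apply hN.inj
    apply σ.injective
    rw [hp, hp, hij]
  let π : Equiv.Perm (Fin (2 * r + 1)) := Equiv.ofBijective p (Finite.injective_iff_bijective.1 hpi)
  have hπ : ∀ i, π i = p i := fun i => rfl
  have hσZ : ∀ i, φ (Z (π i)) = φ (Z i) ^ l := by
    intro i
    refine hφ (Z i) (Z (π i)) ?_
    show z (π i) = σ (z i)
    rw [hπ, hp]
  have hσZ' : ∀ i, φ (Z' (π i)) = φ (Z' i) ^ l := by
    intro i
    refine hφ (Z' i) (Z' (π i)) ?_
    show z' (π i) = σ (z' i)
    rw [hz']
    show (q : QB) / z (π i) = σ ((q : QB) / z i)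
    rw [map_div₀, map_natCast, hπ, ← hp]
  rcases hφW with h1 | h1
  · refine ⟨π, σ, K, hK, hchar, ψ, fun i => φ (Z i), fun i => by rw [hπ, hp], hσZ, ?_⟩
    rw [HH_map, ← h1, ← HH_map, ← hprod, Polynomial.map_prod]
    refine Finset.prod_congr rfl fun i _ => ?_
    rw [Polynomial.map_sub, map_X, map_C]
  · refine ⟨π, σ, K, hK, hchar, ψ, fun i => φ (Z' i), fun i => by rw [hπ, hp], hσZ', ?_⟩
    have h2 : ψ s = φ (-W) := by rw [map_neg, h1, neg_neg]
    rw [HH_map, h2, ← HH_map, ← hprod', Polynomial.map_prod]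
    refine Finset.prod_congr rfl fun i _ => ?_
    rw [Polynomial.map_sub, map_X, map_C]

/-- **O5**: Frobenius elements. -/
theorem o5 : O5 := by
  intro r s d x y f z hs _hd hN hG
  obtain ⟨l, _, t, hl2, _hs0, ht, ht2, hirr⟩ := hG
  obtain ⟨π, σ, K, _, _, ψ, a, h1, h2, h3⟩ := main r s d x y f z hs hN l t hl2 ht ht2
  refine ⟨π, σ, h1, fin_I ψ a π h2 _ hirr ?_⟩
  rw [h3, ← HH_zmod]

end Pool.Agent.H977.PDO5
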