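import Pool.Agent.H857.PD.Core

/-!
# Task PD O6 for helper857: groups of relations which are invariant under a cycle of prime length
-/

set_option autoImplicit false

open Polynomial Pool.Agent.H857.PD

namespace Pool.Agent.H721.PDo6

variable {g : ℕ}

/-- the translation operator -/
noncomputable def tau (π : Equiv.Perm (Fin g)) : Module.End ℚ (Fin g → ℚ) :=
  LinearMap.funLeft ℚ ℚ π

theorem tau_apply (π : Equiv.Perm (Fin g)) (v : Fin g → ℚ) (i : Fin g) :
    tau π v i = v (π i) := rfl

theorem tau_pow (π : Equiv.Perm (Fin g)) (k : ℕ) (v : Fin g → ℚ) (i : Fin g) :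
    ((tau π) ^ k) v i = v ((π ^ k) i) := by
  induction k generalizing i with
  | zero => simp
  | succ k ih =>
    rw [pow_succ', Module.End.mul_apply, tau_apply, ih, pow_succ, Equiv.Perm.mul_apply]

/-- the rational span of `R` -/
def SS (R : AddSubgroup (Fin g → ℤ)) : Submodule ℚ (Fin g → ℚ) where
  carrier := {v | ∃ N : ℤ, N ≠ 0 ∧ ∃ r ∈ R, ∀ i, (N : ℚ) * v i = r i}
  add_mem' := by
    rintro v w ⟨N, hN, r, hr, h⟩ ⟨M, hM, s, hs, h'⟩
    refine ⟨N * M, mul_ne_zero hN hM, M • r + N • s,
      R.add_mem (R.zsmul_mem hr M) (R.zsmul_mem hs N), fun i => ?_⟩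
    have h1 := h i
    have h2 := h' i
    simp only [Pi.add_apply, Pi.smul_apply, smul_eq_mul]
    push_cast
    rw [← h1, ← h2]
    ring
  zero_mem' := ⟨1, one_ne_zero, 0, R.zero_mem, fun i => by simp⟩
  smul_mem' := by
    rintro q v ⟨N, hN, r, hr, h⟩
    refine ⟨N * q.den, mul_ne_zero hN (by exact_mod_cast q.den_nz), q.num • r,
      R.zsmul_mem hr _, fun i => ?_⟩
    have h1 := h i
    have h2 : q * q.den = q.num := Rat.mul_den_eq_num q
    simp only [Pi.smul_apply, smul_eq_mul]
    push_cast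
    rw [← h1, ← h2]
    ring

theorem tau_mem {R : AddSubgroup (Fin g → ℤ)} {π : Equiv.Perm (Fin g)}
    (hR : ∀ e ∈ R, (fun i => e (π i)) ∈ R) {v : Fin g → ℚ} (hv : v ∈ SS R) :
    tau π v ∈ SS R := by
  obtain ⟨N, hN, r, hr, h⟩ := hv
  exact ⟨N, hN, _, hR r hr, fun i => h (π i)⟩

theorem tau_pow_mem {R : AddSubgroup (Fin g → ℤ)} {π : Equiv.Perm (Fin g)}
    (hR : ∀ e ∈ R, (fun i => e (π i)) ∈ R) {v : Fin g → ℚ} (hv : v ∈ SS R) (k : ℕ) :
    ((tau π) ^ k) v ∈ SS R := by
  induction k with
  | zero => simpa using hv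
  | succ k ih =>
    rw [pow_succ', Module.End.mul_apply]
    exact tau_mem hR ih

theorem aeval_mem {R : AddSubgroup (Fin g → ℤ)} {π : Equiv.Perm (Fin g)}
    (hR : ∀ e ∈ R, (fun i => e (π i)) ∈ R) {v : Fin g → ℚ} (hv : v ∈ SS R) (p : ℚ[X]) :
    (aeval (tau π) p) v ∈ SS R := by
  rw [Polynomial.aeval_eq_sum_range, LinearMap.sum_apply]
  refine Submodule.sum_mem _ fun k _ => ?_
  rw [LinearMap.smul_apply]
  exact Submodule.smul_mem _ _ (tau_pow_mem hR hv k)

/-- a transitive permutation of `g` points: facts about the powers -/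
theorem pow_eq_one_of_fix {π : Equiv.Perm (Fin g)} (hπ : ∀ i j, ∃ n : ℕ, (π ^ n) i = j)
    {n : ℕ} {z : Fin g} (h : (π ^ n) z = z) : π ^ n = 1 := by
  ext i
  obtain ⟨k, hk⟩ := hπ z i
  rw [← hk, ← Equiv.Perm.mul_apply, ← pow_add, Nat.add_comm n k, pow_add,
    Equiv.Perm.mul_apply, h, Equiv.Perm.one_apply]

theorem order_eq {π : Equiv.Perm (Fin g)} (hπ : ∀ i j, ∃ n : ℕ, (π ^ n) i = j)
    (z : Fin g) : orderOf π = g := by
  have hpos : 0 < orderOf π := orderOf_pos π
  let F : Fin (orderOf π) → Fin g := fun k => (π ^ (k : ℕ)) z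
  have hsur : Function.Surjective F := by
    intro i
    obtain ⟨n, hn⟩ := hπ z i
    refine ⟨⟨n % orderOf π, Nat.mod_lt _ hpos⟩, ?_⟩
    change (π ^ (n % orderOf π)) z = i
    rw [pow_mod_orderOf, hn]
  have key : ∀ a b : ℕ, a ≤ b → b < orderOf π → (π ^ a) z = (π ^ b) z → a = b := by
    intro a b hab hb h
    have h1 : (π ^ (b - a)) z = z := by
      have h2 : (π ^ a) ((π ^ (b - a)) z) = (π ^ a) z := by
        rw [← Equiv.Perm.mul_apply, ← pow_add, Nat.add_sub_cancel' hab, h]
      exact (π ^ a).injective h2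
    have h3 := pow_eq_one_of_fix hπ h1
    have h4 := orderOf_dvd_of_pow_eq_one h3
    have h5 : b - a < orderOf π := by omega
    have h6 := Nat.eq_zero_of_dvd_of_lt h4 h5
    omega
  have hinj : Function.Injective F := by
    intro a b hab
    rcases le_total (a : ℕ) b with h | h
    · exact Fin.ext (key a b h b.2 hab)
    · exact (Fin.ext (key b a h a.2 hab.symm)).symm
  have h1 := Fintype.card_of_bijective ⟨hinj, hsur⟩
  simpa using h1

theorem exists_unique_pow {π : Equiv.Perm (Fin g)} (hπ : ∀ i j, ∃ n : ℕ, (π ^ n) i = j)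
    (z i : Fin g) : ∃ k, k < g ∧ (π ^ k) i = z ∧ ∀ n, n < g → (π ^ n) i = z → n = k := by
  have hord := order_eq hπ z
  have hpos : 0 < g := hord ▸ orderOf_pos π
  obtain ⟨n, hn⟩ := hπ i z
  refine ⟨n % g, Nat.mod_lt _ hpos, ?_, ?_⟩
  · have h1 : π ^ (n % g) = π ^ n := by
      have h0 := pow_mod_orderOf π n
      rwa [hord] at h0
    rw [h1, hn]
  · intro m hm hmz
    have h1 : π ^ (n % g) = π ^ n := by
      have h0 := pow_mod_orderOf π n
      rwa [hord] at h0
    have h2 : (π ^ (n % g)) i = z := by rw [h1, hn]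
    have h3 : n % g < g := Nat.mod_lt _ hpos
    have key : ∀ a b : ℕ, a ≤ b → b < g → (π ^ a) i = z → (π ^ b) i = z → a = b := by
      intro a b hab hb ha hb'
      have h4 : (π ^ (b - a)) z = z := by
        have h5 : (π ^ (b - a)) ((π ^ a) i) = (π ^ b) i := by
          rw [← Equiv.Perm.mul_apply, ← pow_add, Nat.sub_add_cancel hab]
        rw [ha, hb'] at h5
        exact h5
      have h6 := orderOf_dvd_of_pow_eq_one (pow_eq_one_of_fix hπ h4)
      rw [hord] at h6
      have h7 : b - a < g := by omega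
      have h8 := Nat.eq_zero_of_dvd_of_lt h6 h7
      omega
    rcases le_total m (n % g) with h | h
    · exact key _ _ h h3 hmz h2
    · exact (key _ _ h hm h2 hmz).symm

theorem o6 : O6 := by
  intro g hg R π hπ hR e he hne
  have hg0 : 0 < g := hg.pos
  have hfact : Fact g.Prime := ⟨hg⟩
  let z : Fin g := ⟨0, hg0⟩
  have hord := order_eq hπ z
  -- the vector and the polynomial
  let c : ℕ → ℤ := fun k => e ((π ^ k)⁻¹ z)
  let E : ℚ[X] := ∑ k ∈ Finset.range g, C ((c k : ℤ) : ℚ) * X ^ k
  let d : Fin g → ℚ := Pi.single z 1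
  let ev : Fin g → ℚ := fun i => (e i : ℚ)
  have hev : ev ∈ SS R := ⟨1, one_ne_zero, e, he, fun i => by simp [ev]⟩
  have hEd : (aeval (tau π) E) d = ev := by
    have h1 : aeval (tau π) E = ∑ k ∈ Finset.range g, ((c k : ℤ) : ℚ) • (tau π) ^ k := by
      simp only [E, map_sum, map_mul, aeval_C, map_pow, aeval_X]
      refine Finset.sum_congr rfl fun k _ => ?_
      rw [Algebra.smul_def]
    rw [h1, LinearMap.sum_apply]
    funext i
    rw [Finset.sum_apply]
    obtain ⟨k, hk, hkz, huniq⟩ := exists_unique_pow hπ z i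
    rw [Finset.sum_eq_single k]
    · rw [LinearMap.smul_apply, Pi.smul_apply, tau_pow, hkz, smul_eq_mul]
      have h2 : (π ^ k)⁻¹ z = i := by
        rw [← hkz]
        exact (π ^ k).symm_apply_apply i
      simp only [d, c, ev, Pi.single_eq_same, mul_one, h2]
    · intro n hn hnk
      rw [LinearMap.smul_apply, Pi.smul_apply, tau_pow, smul_eq_mul]
      have h3 : (π ^ n) i ≠ z := fun h => hnk (huniq n (Finset.mem_range.1 hn) h)
      simp only [d, Pi.single_eq_of_ne h3, mul_zero]
    · intro h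
      exact absurd (Finset.mem_range.2 hk) h
  -- the polynomial is prime to the cyclotomic polynomial
  have hcoefE : ∀ k, k < g → E.coeff k = c k := by
    intro k hk
    simp only [E, finsetSum_coeff, coeff_C_mul, coeff_X_pow]
    rw [Finset.sum_eq_single k]
    · simp
    · intro n _ hnk
      rw [if_neg (Ne.symm hnk), mul_zero]
    · intro h
      exact absurd (Finset.mem_range.2 hk) h
  have hcoefP : ∀ k, k < g → (cyclotomic g ℚ).coeff k = 1 := by
    intro k hk
    rw [cyclotomic_prime]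
    simp only [finsetSum_coeff, coeff_X_pow]
    rw [Finset.sum_eq_single k]
    · simp
    · intro n _ hnk
      rw [if_neg (Ne.symm hnk)]
    · intro h
      exact absurd (Finset.mem_range.2 hk) h
  have hnd : ¬ cyclotomic g ℚ ∣ E := by
    rintro ⟨q, hq⟩
    have hall : ∃ a : ℚ, ∀ k, k < g → ((c k : ℤ) : ℚ) = a := by
      by_cases hE : E = 0
      · exact ⟨0, fun k hk => by rw [← hcoefE k hk, hE, coeff_zero]⟩
      · have hq0 : q ≠ 0 := by
          rintro rfl
          exact hE (by rw [hq, mul_zero])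
        have hc0 : cyclotomic g ℚ ≠ 0 := cyclotomic_ne_zero g ℚ
        have hdE : E.natDegree ≤ g - 1 := by
          refine natDegree_sum_le_of_forall_le _ _ fun k hk => ?_
          refine (natDegree_C_mul_X_pow_le _ _).trans ?_
          have := Finset.mem_range.1 hk
          omega
        have hdeg : E.natDegree = (cyclotomic g ℚ).natDegree + q.natDegree := by
          rw [hq, natDegree_mul hc0 hq0]
        rw [natDegree_cyclotomic, Nat.totient_prime hg] at hdeg
        have hq1 : q.natDegree = 0 := by omega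
        obtain ⟨a, ha⟩ := natDegree_eq_zero.1 hq1
        refine ⟨a, fun k hk => ?_⟩
        rw [← hcoefE k hk, hq, ← ha, coeff_mul_C, hcoefP k hk, one_mul]
    obtain ⟨a, ha⟩ := hall
    obtain ⟨i, j, hij⟩ := hne
    apply hij
    have hval : ∀ i, ((e i : ℤ) : ℚ) = a := by
      intro i
      obtain ⟨k, hk, hkz, -⟩ := exists_unique_pow hπ z i
      have h2 : (π ^ k)⁻¹ z = i := by
        rw [← hkz]
        exact (π ^ k).symm_apply_apply i
      have h3 := ha k hk
      simp only [c, h2] at h3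
      exact h3
    have h4 : ((e i : ℤ) : ℚ) = ((e j : ℤ) : ℚ) := by rw [hval i, hval j]
    exact_mod_cast h4
  have hcop : IsCoprime (cyclotomic g ℚ) E :=
    ((cyclotomic.irreducible_rat hg0).coprime_iff_not_dvd).2 hnd
  obtain ⟨u, v, huv⟩ := hcop
  -- the difference of two neighbours
  have hτg : (aeval (tau π) ((X : ℚ[X]) ^ g - 1)) d = 0 := by
    rw [map_sub, map_pow, aeval_X, map_one, LinearMap.sub_apply]
    funext i
    rw [Pi.sub_apply, tau_pow]
    have h1 : π ^ g = 1 := by
      have h0 := pow_orderOf_eq_one π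
      rwa [hord] at h0
    rw [h1]
    simp
  have hstep : (tau π) d - d ∈ SS R := by
    have h1 : (X : ℚ[X]) - 1 = u * (X ^ g - 1) + ((X - 1) * v) * E := by
      rw [← cyclotomic_prime_mul_X_sub_one ℚ g]
      linear_combination (-(X - 1) : ℚ[X]) * huv
    have h2 : (aeval (tau π) ((X : ℚ[X]) - 1)) d = (tau π) d - d := by
      rw [map_sub, aeval_X, map_one, LinearMap.sub_apply, Module.End.one_apply]
    have h4 : aeval (tau π) ((X : ℚ[X]) - 1) =
        aeval (tau π) u * aeval (tau π) ((X : ℚ[X]) ^ g - 1) +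
        aeval (tau π) (((X : ℚ[X]) - 1) * v) * aeval (tau π) E := by
      rw [← map_mul, ← map_mul, ← map_add, ← h1]
    have h3 : (aeval (tau π) ((X : ℚ[X]) - 1)) d = (aeval (tau π) ((X - 1) * v)) ev := by
      rw [h4, LinearMap.add_apply, Module.End.mul_apply, hτg, map_zero,
        zero_add, Module.End.mul_apply, hEd]
    rw [← h2, h3]
    exact aeval_mem hR hev _
  have hpow : ∀ k : ℕ, ((tau π) ^ k) d - d ∈ SS R := by
    intro k
    induction k with
    | zero =>
      rw [pow_zero, Module.End.one_apply, sub_self]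
      exact Submodule.zero_mem _
    | succ k ih =>
      have h1 := tau_pow_mem hR hstep k
      rw [map_sub, ← Module.End.mul_apply, ← pow_succ] at h1
      have h2 := Submodule.add_mem _ h1 ih
      rwa [sub_add_sub_cancel] at h2
  have hsingle : ∀ i : Fin g, (Pi.single i 1 - d : Fin g → ℚ) ∈ SS R := by
    intro i
    obtain ⟨k, hk, hkz, -⟩ := exists_unique_pow hπ z i
    have h1 : ((tau π) ^ k) d = Pi.single i 1 := by
      funext j
      rw [tau_pow]
      by_cases hj : j = i
      · subst hj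
        rw [hkz]
        simp [d]
      · have h2 : (π ^ k) j ≠ z := by
          rw [← hkz]
          exact fun h => hj ((π ^ k).injective h)
        simp only [d, Pi.single_eq_of_ne h2, Pi.single_eq_of_ne hj]
    rw [← h1]
    exact hpow k
  have hij : ∀ i j : Fin g, ∃ N : ℤ, N ≠ 0 ∧
      (Pi.single i N - Pi.single j N : Fin g → ℤ) ∈ R := by
    intro i j
    have h1 := Submodule.sub_mem _ (hsingle i) (hsingle j)
    rw [sub_sub_sub_cancel_right] at h1
    obtain ⟨N, hN, r, hr, h⟩ := h1
    refine ⟨N, hN, ?_⟩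
    have h2 : (Pi.single i N - Pi.single j N : Fin g → ℤ) = r := by
      funext k
      have h3 := h k
      rw [Pi.sub_apply] at h3 ⊢
      have h4 : (((Pi.single i N : Fin g → ℤ) k - (Pi.single j N : Fin g → ℤ) k : ℤ) : ℚ) =
          (r k : ℚ) := by
        rw [← h3]
        push_cast
        simp only [Pi.single_apply]
        split_ifs <;> simp
      exact_mod_cast h4
    rw [h2]
    exact hr
  choose N hN hNR using hij
  refine ⟨∏ p : Fin g × Fin g, N p.1 p.2,
    Finset.prod_ne_zero_iff.2 fun p _ => hN p.1 p.2, fun i j => ?_⟩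
  obtain ⟨M, hM⟩ := Finset.dvd_prod_of_mem (fun p : Fin g × Fin g => N p.1 p.2)
    (Finset.mem_univ (i, j))
  rw [hM]
  have h1 := R.zsmul_mem (hNR i j) M
  have h2 : M • (Pi.single i (N i j) - Pi.single j (N i j) : Fin g → ℤ) =
      Pi.single i (N i j * M) - Pi.single j (N i j * M) := by
    funext k
    simp only [Pi.smul_apply, Pi.sub_apply, smul_eq_mul, Pi.single_apply]
    split_ifs <;> ring
  rw [h2] at h1
  exact h1

end Pool.Agent.H721.PDo6
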