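import Pool.Agent.H857.PD.Core

/-! Project OddPrimeDimension (helper857), statement O7 (helper236); adapted from W7 (helper628). -/

set_option autoImplicit false

namespace Pool.Agent.H236.PDo7

open Module Polynomial Pool.Agent.W521.Descent Pool.Agent.H857.PD

theorem int_of {c : ℤ} {q g : ℕ} (hq : q ≠ 0) {E s : ℂ} (hs : s ^ 2 = (q : ℂ))
    (hE : IsIntegral ℤ E) (h : (c : ℂ) = (-1) ^ g * (s ^ g * E)) :
    ∃ n : ℤ, c ^ 2 = (q : ℤ) ^ g * n := by
  have h1 : ((c : ℂ)) ^ 2 = (q : ℂ) ^ g * E ^ 2 := by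
    rw [h, mul_pow, mul_pow, ← pow_mul, mul_comm g 2, pow_mul, ← pow_mul s, mul_comm g 2,
      pow_mul, hs]
    norm_num
  have hq0 : ((q : ℂ)) ^ g ≠ 0 := pow_ne_zero _ (by exact_mod_cast hq)
  have h2 : E ^ 2 = algebraMap ℚ ℂ ((c : ℚ) ^ 2 / (q : ℚ) ^ g) := by
    have : algebraMap ℚ ℂ ((c : ℚ) ^ 2 / (q : ℚ) ^ g) = (c : ℂ) ^ 2 / (q : ℂ) ^ g := by
      simp
    rw [this, h1, mul_div_cancel_left₀ _ hq0]
  have h3 : IsIntegral ℤ (algebraMap ℚ ℂ ((c : ℚ) ^ 2 / (q : ℚ) ^ g)) := by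
    rw [← h2]
    exact hE.pow 2
  have h4 : IsIntegral ℤ ((c : ℚ) ^ 2 / (q : ℚ) ^ g) :=
    (isIntegral_algebraMap_iff (algebraMap ℚ ℂ).injective).1 h3
  obtain ⟨n, hn⟩ := IsIntegrallyClosed.isIntegral_iff.1 h4
  refine ⟨n, ?_⟩
  have hq0' : ((q : ℚ)) ^ g ≠ 0 := pow_ne_zero _ (by exact_mod_cast hq)
  have h5 : (n : ℚ) = (c : ℚ) ^ 2 / (q : ℚ) ^ g := hn
  rw [eq_div_iff hq0'] at h5
  have h6 : ((c ^ 2 : ℤ) : ℚ) = (((q : ℤ) ^ g * n : ℤ) : ℚ) := by
    push_cast
    rw [← h5]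
    ring
  exact_mod_cast h6

theorem o7 : O7 := by
  intro p q g f hp hpq hg hf hcop
  obtain ⟨hm, hdeg, h0, hroot⟩ := hf
  by_contra hcon
  push Not at hcon
  set F := f.map (Int.castRingHom ℂ) with hF
  have hFm : F.Monic := hm.map _
  have hFd : F.natDegree = 2 * g := by rw [hF, hm.natDegree_map, hdeg]
  have hcard : F.roots.card = F.natDegree := (splits_iff_card_roots.1 (IsAlgClosed.splits F))
  have haev : ∀ z ∈ F.roots, aeval z f = 0 := by
    intro z hz
    have h2 := isRoot_of_mem_roots hz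
    rw [IsRoot, hF, eval_map] at h2
    exact h2
  have hcoef := coeff_eq_esymm_roots_of_card hcard (k := g + 1) (by omega)
  rw [hFd, hFm.leadingCoeff, one_mul, show 2 * g - (g + 1) = g - 1 by omega] at hcoef
  have hc : F.coeff (g + 1) = ((f.coeff (g + 1) : ℤ) : ℂ) := by
    rw [hF, coeff_map]
    rfl
  rw [hc] at hcoef
  rcases eq_or_ne q 0 with hq | hq
  · have hz0 : ∀ z ∈ F.roots, z = 0 := by
      intro z hz
      have h1 := hroot z (haev z hz)
      rw [hq, Nat.cast_zero] at h1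
      exact norm_eq_zero.1 (pow_eq_zero_iff (two_ne_zero) |>.1 h1)
    have hE : F.roots.esymm (g - 1) = 0 := by
      unfold Multiset.esymm
      refine Multiset.sum_eq_zero (fun y hy => ?_)
      obtain ⟨t, ht, rfl⟩ := Multiset.mem_map.1 hy
      obtain ⟨h1, h2⟩ := Multiset.mem_powersetCard.1 ht
      have h3 : 0 < Multiset.card t := by omega
      obtain ⟨z, hz⟩ := Multiset.card_pos_iff_exists_mem.1 h3
      have h4 : z = 0 := hz0 z (Multiset.mem_of_le h1 hz)
      exact Multiset.prod_eq_zero (h4 ▸ hz)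
    rw [hE, mul_zero] at hcoef
    have h5 : f.coeff (g + 1) = 0 := by exact_mod_cast hcoef
    rw [h5] at hcop
    exact hcop (dvd_zero _)
  obtain ⟨s, hs⟩ : ∃ s : ℂ, s ^ 2 = (q : ℂ) :=
    IsAlgClosed.exists_pow_nat_eq (q : ℂ) (by norm_num)
  have hq0 : (q : ℂ) ≠ 0 := by exact_mod_cast hq
  have hs0 : s ≠ 0 := by
    rintro rfl
    apply hq0
    rw [← hs]
    norm_num
  have hz : ∀ z ∈ F.roots, IsIntegral ℤ (z / s) := by
    intro z hz
    obtain ⟨M, hM, h3⟩ := hcon z (haev z hz)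
    refine IsIntegral.of_pow (n := 2 * M) (by omega) ?_
    have h4 : (z / s) ^ (2 * M) = 1 := by
      rw [div_pow, h3, pow_mul s, hs, div_self (pow_ne_zero _ hq0)]
    rw [h4]
    exact isIntegral_one
  have hE : IsIntegral ℤ (F.roots.esymm (g - 1) / s ^ (g - 1)) := by
    have h1 : F.roots.esymm (g - 1) / s ^ (g - 1) =
        ((F.roots.powersetCard (g - 1)).map (fun t => (t.map (fun z => z / s)).prod)).sum := by
      unfold Multiset.esymm
      rw [div_eq_mul_inv, ← Multiset.sum_map_mul_right]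
      congr 1
      refine Multiset.map_congr rfl (fun t ht => ?_)
      have hct := (Multiset.mem_powersetCard.1 ht).2
      rw [Multiset.prod_map_div, Multiset.map_id', Multiset.map_const',
        Multiset.prod_replicate, hct, div_eq_mul_inv]
    rw [h1]
    refine IsIntegral.multiset_sum (fun y hy => ?_)
    obtain ⟨t, ht, rfl⟩ := Multiset.mem_map.1 hy
    refine IsIntegral.multiset_prod (fun y hy => ?_)
    obtain ⟨z, hzt, rfl⟩ := Multiset.mem_map.1 hy
    exact hz z (Multiset.mem_of_le (Multiset.mem_powersetCard.1 ht).1 hzt)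
  obtain ⟨n, hn⟩ := int_of (g := g - 1) hq hs hE (by
    rw [hcoef, mul_div_cancel₀ _ (pow_ne_zero _ hs0)])
  have hpq' : (p : ℤ) ∣ (q : ℤ) := by exact_mod_cast hpq
  have h1 : (p : ℤ) ∣ f.coeff (g + 1) ^ 2 := by
    rw [hn]
    exact (hpq'.trans (dvd_pow_self _ (by omega))).mul_right _
  exact hcop ((Nat.prime_iff_prime_int.1 hp).dvd_of_dvd_pow h1)

end Pool.Agent.H236.PDo7
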