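import Pool.Agent.H857.PD.Core

/-!
# The relations between the roots in the generic case, odd prime dimension
-/

set_option autoImplicit false

namespace Pool.Agent.H335.PDo8

open Module Polynomial Pool.Agent.W521.Descent Pool.Agent.H857.EF Pool.Agent.H857.WT
  Pool.Agent.H857.PD

section

variable {n q : ℕ} (z : Fin n → QB)

/-- The quotient of the two sides of a relation. -/
noncomputable def phi (q : ℕ) (e : Fin n → ℤ) : QB :=
  (∏ i, z i ^ (2 * e i)) * ((q : QB) ^ (∑ i, e i))⁻¹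

lemma phi_zero : phi z q 0 = 1 := by
  simp [phi]

lemma phi_add (hz : ∀ i, z i ≠ 0) (hq : (q : QB) ≠ 0) (e e' : Fin n → ℤ) :
    phi z q (e + e') = phi z q e * phi z q e' := by
  have h1 : ∏ i, z i ^ (2 * (e + e') i) = (∏ i, z i ^ (2 * e i)) * ∏ i, z i ^ (2 * e' i) := by
    rw [← Finset.prod_mul_distrib]
    refine Finset.prod_congr rfl fun i _ => ?_
    rw [← zpow_add₀ (hz i), Pi.add_apply, mul_add]
  have h2 : (q : QB) ^ (∑ i, (e + e') i) = (q : QB) ^ (∑ i, e i) * (q : QB) ^ (∑ i, e' i) := by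
    rw [← zpow_add₀ hq, ← Finset.sum_add_distrib]
    rfl
  rw [phi, phi, phi, h1, h2, mul_inv]
  ring

lemma phi_neg (hz : ∀ i, z i ≠ 0) (hq : (q : QB) ≠ 0) (e : Fin n → ℤ) :
    phi z q (-e) = (phi z q e)⁻¹ := by
  have h1 := phi_add z hz hq (-e) e
  rw [neg_add_cancel, phi_zero] at h1
  exact eq_inv_of_mul_eq_one_left h1.symm

lemma rel_iff (hq : (q : QB) ≠ 0) (e : Fin n → ℤ) :
    RelZ q (fun i => (z i : ℂ)) e ↔ ∃ N : ℕ, 0 < N ∧ phi z q e ^ N = 1 := by
  have h0 : (q : ℂ) ≠ 0 := by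
    intro h
    apply hq
    apply Subtype.coe_injective
    push_cast
    exact h
  have h1 : ∀ N : ℕ, (phi z q e ^ N = 1) ↔
      (∏ i, (z i : ℂ) ^ (2 * e i)) ^ N = ((q : ℂ) ^ (∑ i, e i)) ^ N := by
    intro N
    have h2 : ((phi z q e ^ N : QB) : ℂ) =
        (∏ i, (z i : ℂ) ^ (2 * e i)) ^ N * (((q : ℂ) ^ (∑ i, e i)) ^ N)⁻¹ := by
      change algebraMap QB ℂ (phi z q e ^ N) = _
      rw [phi, map_pow, map_mul, map_prod, map_inv₀, map_zpow₀, map_natCast, mul_pow, inv_pow]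
      have h4 : ∀ i, algebraMap QB ℂ (z i ^ (2 * e i)) = (z i : ℂ) ^ (2 * e i) := fun i =>
        map_zpow₀ (algebraMap QB ℂ) _ _
      rw [Finset.prod_congr rfl fun i _ => h4 i]
    have h3 : (((q : ℂ) ^ (∑ i, e i)) ^ N) ≠ 0 := pow_ne_zero _ (zpow_ne_zero _ h0)
    constructor
    · intro h
      rw [h] at h2
      have h4 : (1 : ℂ) = (∏ i, (z i : ℂ) ^ (2 * e i)) ^ N * (((q : ℂ) ^ (∑ i, e i)) ^ N)⁻¹ := by
        rw [← h2]
        rfl
      rw [eq_comm, ← div_eq_mul_inv, div_eq_one_iff_eq h3] at h4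
      exact h4
    · intro h
      rw [h, mul_inv_cancel₀ h3] at h2
      apply Subtype.coe_injective
      show ((phi z q e ^ N : QB) : ℂ) = ((1 : QB) : ℂ)
      rw [h2]
      rfl
  unfold RelZ
  constructor
  · rintro ⟨N, hN, h⟩
    exact ⟨N, hN, (h1 N).2 h⟩
  · rintro ⟨N, hN, h⟩
    exact ⟨N, hN, (h1 N).1 h⟩

/-- The group of the relations. -/
noncomputable def RR (hz : ∀ i, z i ≠ 0) (hq : (q : QB) ≠ 0) : AddSubgroup (Fin n → ℤ) where
  carrier := {e | ∃ N : ℕ, 0 < N ∧ phi z q e ^ N = 1}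
  zero_mem' := ⟨1, one_pos, by rw [phi_zero, one_pow]⟩
  add_mem' := by
    rintro e e' ⟨N, hN, h⟩ ⟨N', hN', h'⟩
    refine ⟨N * N', Nat.mul_pos hN hN', ?_⟩
    rw [phi_add z hz hq, mul_pow, pow_mul, h, one_pow, mul_comm N, pow_mul, h', one_pow, one_mul]
  neg_mem' := by
    rintro e ⟨N, hN, h⟩
    exact ⟨N, hN, by rw [phi_neg z hz hq, inv_pow, h, inv_one]⟩

lemma mem_RR (hz : ∀ i, z i ≠ 0) (hq : (q : QB) ≠ 0) (e : Fin n → ℤ) :
    e ∈ RR z hz hq ↔ ∃ N : ℕ, 0 < N ∧ phi z q e ^ N = 1 := Iff.rfl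

lemma perm_mem (hz : ∀ i, z i ≠ 0) (hq : (q : QB) ≠ 0) (π : Equiv.Perm (Fin n))
    (σ : QB ≃ₐ[ℚ] QB) (hσ : ∀ i, σ (z i) = z (π i)) (e : Fin n → ℤ) (he : e ∈ RR z hz hq) :
    (fun i => e (π i)) ∈ RR z hz hq := by
  rw [mem_RR] at he ⊢
  obtain ⟨N, hN, h⟩ := he
  refine ⟨N, hN, ?_⟩
  have h1 : σ (phi z q (fun i => e (π i))) = phi z q e := by
    rw [phi, phi, map_mul, map_prod, map_inv₀, map_zpow₀, map_natCast]
    have h2 : ∏ i, σ (z i ^ (2 * e (π i))) = ∏ i, z i ^ (2 * e i) := by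
      rw [← Equiv.prod_comp π (fun i => z i ^ (2 * e i))]
      refine Finset.prod_congr rfl fun i _ => ?_
      rw [map_zpow₀, hσ]
    rw [h2, Equiv.sum_comp π e]
  apply σ.injective
  rw [map_pow, h1, h, map_one]

end

lemma hO_zero (r s d : ℕ) (x y : Fin r → ℤ) :
    (hO r s d x y).eval 0 = (s : ℂ) ^ (2 * r + 1) := by
  rw [hO, hpolyO]
  simp only [eval_add, eval_pow, eval_X, eval_C, eval_mul, eval_finsetSum]
  have h1 : ∀ j : Fin r, (0 : ℂ) ^ (2 * r - (j : ℕ)) = 0 := by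
    intro j
    have := j.2
    exact zero_pow (by omega)
  simp only [h1, mul_zero, pow_succ, add_zero, zero_add, Finset.sum_const_zero]

theorem prod_eq {r s d : ℕ} {x y : Fin r → ℤ} {f : ℤ[X]} {z : Fin (2 * r + 1) → QB}
    (hI : IsNormO r s d x y f z) : ∏ i, (z i : ℂ) = -(s : ℂ) ^ (2 * r + 1) := by
  have h1 := congrArg (eval 0) hI.prod
  rw [hO_zero, eval_prod] at h1
  rw [← h1]
  have h2 : ∀ i : Fin (2 * r + 1), eval 0 (X - C (z i : ℂ)) = (-1) * (z i : ℂ) := by
    intro i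
    simp
  rw [Finset.prod_congr rfl fun i _ => h2 i, Finset.prod_mul_distrib, Finset.prod_const,
    Finset.card_univ, Fintype.card_fin]
  have h3 : Odd (2 * r + 1) := ⟨r, rfl⟩
  rw [h3.neg_one_pow, neg_one_mul, neg_neg]

theorem o8 (h5 : O5) (h6 : O6) (h7 : O7) : O8 := by
  intro r s d x y f z hr hpr hs hd hI hf hcop hG
  have hprod := prod_eq hI
  obtain ⟨π, σ, hσ, hπ⟩ := h5 r s d x y f z (by omega) hd hI hG
  obtain ⟨p, hp, hps, hpf⟩ := hcop
  have hprod2 : (∏ i, (z i : ℂ)) ^ 2 = ((s ^ 2 : ℕ) : ℂ) ^ (2 * r + 1) := by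
    rw [hprod, neg_sq, Nat.cast_pow, ← pow_mul, ← pow_mul, mul_comm]
  have hpq : p ∣ s ^ 2 := dvd_pow hps two_ne_zero
  have hq1 : 1 < s ^ 2 := Nat.one_lt_pow two_ne_zero hs
  have hnorm := hI.norm
  refine ⟨hI.norm, hI.inj, hprod, ?_, ?_⟩
  · -- relations
    clear hprod hps
    obtain ⟨q, hq⟩ : ∃ q, q = s ^ 2 := ⟨_, rfl⟩
    rw [← hq] at hprod2 hpq hq1 hnorm hf ⊢
    have hq0 : (q : ℂ) ≠ 0 := by
      have : q ≠ 0 := by omega
      exact_mod_cast this
    have hqQ : (q : QB) ≠ 0 := by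
      intro h
      apply hq0
      have := congrArg (fun t : QB => (t : ℂ)) h
      simpa using this
    have hz0 : ∀ i, (z i : ℂ) ≠ 0 := by
      intro i hi
      have h1 := hnorm i
      rw [hi, norm_zero] at h1
      have h2 : (q : ℝ) ≠ 0 := by
        have : q ≠ 0 := by omega
        exact_mod_cast this
      apply h2
      rw [← h1]
      norm_num
    have hzQ : ∀ i, z i ≠ 0 := by
      intro i hi
      apply hz0 i
      rw [hi]
      rfl
    by_contra hcon
    push Not at hcon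
    obtain ⟨e, he, i, j, hij⟩ := hcon
    have he' : e ∈ RR z hzQ hqQ := (rel_iff z hqQ e).1 he
    obtain ⟨N, hN0, hN⟩ := h6 (2 * r + 1) hpr (RR z hzQ hqQ) π hπ
      (fun e he => perm_mem z hzQ hqQ π σ hσ e he) e he' ⟨i, j, hij⟩
    -- the constant vector
    have h1 : (fun _ => 1 : Fin (2 * r + 1) → ℤ) ∈ RR z hzQ hqQ := by
      rw [mem_RR, ← rel_iff z hqQ]
      refine ⟨1, one_pos, ?_⟩
      rw [pow_one, pow_one]
      have h2 : ∏ i, (z i : ℂ) ^ (2 * (1 : ℤ)) = (∏ i, (z i : ℂ)) ^ 2 := by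
        rw [← Finset.prod_pow]
        refine Finset.prod_congr rfl fun i _ => ?_
        norm_cast
      rw [h2, hprod2, Finset.sum_const, Finset.card_univ, Fintype.card_fin]
      have h3 : ((2 * r + 1) • (1 : ℤ)) = ((2 * r + 1 : ℕ) : ℤ) := by
        push_cast
        ring
      rw [h3, zpow_natCast]
    have h2 : ∀ i, (Pi.single i (((2 * r + 1 : ℕ) : ℤ) * N) : Fin (2 * r + 1) → ℤ) ∈
        RR z hzQ hqQ := by
      intro i
      have h3 : (∑ j, (Pi.single i N - Pi.single j N : Fin (2 * r + 1) → ℤ)) ∈ RR z hzQ hqQ :=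
        AddSubgroup.sum_mem _ fun j _ => hN i j
      have h4 := (RR z hzQ hqQ).add_mem h3 ((RR z hzQ hqQ).zsmul_mem h1 N)
      have h5 : (∑ j, (Pi.single i N - Pi.single j N : Fin (2 * r + 1) → ℤ)) +
          N • (fun _ => 1 : Fin (2 * r + 1) → ℤ) = Pi.single i (((2 * r + 1 : ℕ) : ℤ) * N) := by
        funext t
        rw [Pi.add_apply, Finset.sum_apply, Pi.smul_apply]
        simp only [Pi.sub_apply]
        rw [Finset.sum_sub_distrib, Finset.sum_const, Finset.card_univ, Fintype.card_fin]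
        have h6 : ∑ j : Fin (2 * r + 1), (Pi.single j N : Fin (2 * r + 1) → ℤ) t = N := by
          have h7 : ∀ j : Fin (2 * r + 1), (Pi.single j N : Fin (2 * r + 1) → ℤ) t =
              if t = j then N else 0 := fun j => by
            rw [Pi.single_apply]
          rw [Finset.sum_congr rfl fun j _ => h7 j, Finset.sum_ite_eq]
          simp
        rw [h6, Pi.single_apply, Pi.single_apply]
        split_ifs
        · simp
        · simp
      rw [h5] at h4
      exact h4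
    have h3 : ∀ i, ∃ M : ℕ, 0 < M ∧ (z i : ℂ) ^ (2 * M) = (q : ℂ) ^ M := by
      intro i
      -- pass to the absolute value
      have h4 : (Pi.single i (((2 * r + 1 : ℕ) : ℤ) * |N|) : Fin (2 * r + 1) → ℤ) ∈
          RR z hzQ hqQ := by
        rcases abs_choice N with h | h
        · rw [h]
          exact h2 i
        · rw [h, mul_neg, Pi.single_neg]
          exact (RR z hzQ hqQ).neg_mem (h2 i)
      rw [mem_RR, ← rel_iff z hqQ] at h4
      obtain ⟨M, hM, h5⟩ := h4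
      have hNn : 0 < N.natAbs := Int.natAbs_pos.2 hN0
      have h6 : (((2 * r + 1 : ℕ) : ℤ) * |N|) = (((2 * r + 1) * N.natAbs : ℕ) : ℤ) := by
        rw [Nat.cast_mul, Int.natCast_natAbs]
      rw [h6] at h5
      have h7 : ∏ t, (z t : ℂ) ^ (2 * (Pi.single i (((2 * r + 1) * N.natAbs : ℕ) : ℤ) :
          Fin (2 * r + 1) → ℤ) t) = (z i : ℂ) ^ (2 * ((2 * r + 1) * N.natAbs)) := by
        rw [Finset.prod_eq_single i]
        · rw [Pi.single_eq_same]
          norm_cast
        · intro t _ ht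
          rw [Pi.single_eq_of_ne ht, mul_zero, zpow_zero]
        · intro h
          exact absurd (Finset.mem_univ i) h
      rw [h7, Finset.sum_pi_single', if_pos (Finset.mem_univ i), zpow_natCast, ← pow_mul,
        ← pow_mul] at h5
      refine ⟨(2 * r + 1) * N.natAbs * M, by positivity, ?_⟩
      rw [← h5]
      congr 1
      ring
    obtain ⟨ζ, hζ, hζM⟩ := h7 p q (2 * r + 1) f hp hpq (by omega) hf hpf
    have h4 : (f.map (Int.castRingHom ℂ)).eval ζ = 0 := by
      rw [eval_map]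
      exact hζ
    rw [hI.map, eval_mul, mul_eq_zero] at h4
    rcases h4 with h4 | h4
    · rw [← hI.prod, eval_prod, Finset.prod_eq_zero_iff] at h4
      obtain ⟨i, -, h5⟩ := h4
      rw [eval_sub, eval_X, eval_C, sub_eq_zero] at h5
      obtain ⟨M, hM, h6⟩ := h3 i
      rw [← h5] at h6
      exact hζM M hM h6
    · have h5 : (hO r s d x y).eval ((starRingEnd ℂ) ζ) = 0 := by
        have h6 : ((hO r s d x y).map (starRingEnd ℂ)).eval
            ((starRingEnd ℂ) ((starRingEnd ℂ) ζ)) = 0 := by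
          rw [Complex.conj_conj]
          exact h4
        rw [eval_map_apply] at h6
        exact (map_eq_zero _).1 h6
      rw [← hI.prod, eval_prod, Finset.prod_eq_zero_iff] at h5
      obtain ⟨i, -, h6⟩ := h5
      rw [eval_sub, eval_X, eval_C, sub_eq_zero] at h6
      obtain ⟨M, hM, h7⟩ := h3 i
      rw [← h6, ← map_pow] at h7
      apply hζM M hM
      have h8 := congrArg (starRingEnd ℂ) h7
      rw [Complex.conj_conj, map_pow, map_natCast] at h8
      exact h8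
  · -- transitivity
    have hTp : ∀ (m : ℕ) (i : Fin (2 * r + 1)),
        ∃ τ : QB ≃ₐ[ℚ] QB, τ (z i) = z ((π ^ m) i) := by
      intro m
      induction m with
      | zero =>
        intro i
        rw [pow_zero]
        exact ⟨AlgEquiv.refl, rfl⟩
      | succ m ih =>
        intro i
        obtain ⟨τ, hτ⟩ := ih i
        refine ⟨τ.trans σ, ?_⟩
        rw [AlgEquiv.trans_apply, hτ, hσ, pow_succ', Equiv.Perm.mul_apply]
    intro i j
    obtain ⟨m, hm⟩ := hπ i j
    rw [← hm]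
    exact hTp m i

end Pool.Agent.H335.PDo8
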