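import Pool.Agent.H857.PD.Core

/-! Project PD (helper857), statement O9 (helper719, after W9 of helper628). -/

set_option autoImplicit false

namespace Pool.Agent.H719.PDo9

open Module Polynomial Pool.Agent.W521.Descent Pool.Agent.W521.Density Pool.Agent.W521.Count
  Pool.Agent.X297.UB Pool.Agent.H857.PB Pool.Agent.H857.PA Pool.Agent.H857.HK Pool.Agent.H857.EF
  Pool.Agent.H857.WT Pool.Agent.H857.SG Pool.Agent.H857.PD

/-- no two roots have the product `q` -/
theorem ne_q {r s : ℕ} (hr : 1 ≤ r) (hs : 1 < s) {z : Fin (2 * r + 1) → QB}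
    (hG : GenO r s z) (i j : Fin (2 * r + 1)) :
    (z i : ℂ) * (z j : ℂ) ≠ ((s ^ 2 : ℕ) : ℂ) := by
  intro h
  classical
  obtain ⟨l, hli, hlj⟩ : ∃ l : Fin (2 * r + 1), l ≠ i ∧ l ≠ j := by
    have h1 : ({i, j} : Finset (Fin (2 * r + 1))).card < Fintype.card (Fin (2 * r + 1)) := by
      rw [Fintype.card_fin]
      have := Finset.card_le_two (a := i) (b := j)
      omega
    obtain ⟨l, hl⟩ := Finset.exists_mem_notMem_of_card_lt_card
      (s := ({i, j} : Finset (Fin (2 * r + 1)))) (t := Finset.univ) (by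
        rw [Finset.card_univ]
        exact h1)
    refine ⟨l, fun h => hl.2 ?_, fun h => hl.2 ?_⟩
    · rw [h]
      exact Finset.mem_insert_self _ _
    · rw [h]
      exact Finset.mem_insert_of_mem (Finset.mem_singleton_self _)
  set e : Fin (2 * r + 1) → ℤ :=
    fun m => (if m = i then 1 else 0) + (if m = j then 1 else 0) with he
  have hsum : ∑ m, e m = 2 := by
    rw [he]
    simp [Finset.sum_add_distrib]
  have hprod : ∏ m, (z m : ℂ) ^ (2 * e m) = ((s ^ 2 : ℕ) : ℂ) ^ (2 : ℤ) := by
    have hz0 : ∀ m, (z m : ℂ) ≠ 0 := by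
      intro m hm
      have h1 := hG.norm m
      rw [hm, norm_zero] at h1
      have h2 : ((s ^ 2 : ℕ) : ℝ) ≠ 0 := by exact_mod_cast (by positivity : s ^ 2 ≠ 0)
      apply h2
      rw [← h1]
      norm_num
    have h1 : ∀ m, (z m : ℂ) ^ (2 * e m) = (if m = i then (z m : ℂ) ^ (2 : ℤ) else 1) *
        (if m = j then (z m : ℂ) ^ (2 : ℤ) else 1) := by
      intro m
      rw [he]
      simp only [mul_add]
      rw [zpow_add₀ (hz0 m)]
      congr 1
      · split_ifs
        · rw [mul_one]
        · rw [mul_zero, zpow_zero]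
      · split_ifs
        · rw [mul_one]
        · rw [mul_zero, zpow_zero]
    rw [Finset.prod_congr rfl (fun m _ => h1 m), Finset.prod_mul_distrib, Finset.prod_ite_eq',
      Finset.prod_ite_eq', if_pos (Finset.mem_univ _), if_pos (Finset.mem_univ _), ← mul_zpow, h]
  have h2 := hG.rel e ⟨1, one_pos, by rw [pow_one, pow_one, hsum, hprod]⟩ l i
  rw [he] at h2
  simp only [if_neg hli, if_neg hlj, if_true] at h2
  split_ifs at h2 <;> omega

theorem conj_eq {q : ℕ} {z : ℂ} (h : ‖z‖ ^ 2 = q) : z * (starRingEnd ℂ) z = q := by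
  rw [Complex.mul_conj, Complex.normSq_eq_norm_sq, h]
  simp

theorem ne_conj {r s : ℕ} (hr : 1 ≤ r) (hs : 1 < s) {z : Fin (2 * r + 1) → QB}
    (hG : GenO r s z) (i j : Fin (2 * r + 1)) : (z i : ℂ) ≠ (starRingEnd ℂ) (z j : ℂ) := by
  intro h
  apply ne_q hr hs hG i j
  rw [h, mul_comm]
  exact conj_eq (hG.norm j)

theorem o9 : O9 := by
  intro r s d x y f z hr hs hd hN hf hG
  obtain ⟨hm, hdeg, h0, hroot⟩ := hf
  classical
  -- the minimal polynomial
  have hint : IsIntegral ℚ (z 0) :=
    (isIntegral_algebraMap_iff (algebraMap QB ℂ).injective).1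
      (isAlgebraic_iff_isIntegral.1 (mem_algebraicClosure_iff.1 (z 0).2))
  set g := minpoly ℚ (z 0) with hg
  have hgm : g.Monic := minpoly.monic hint
  have hgi : Irreducible g := minpoly.irreducible hint
  have hg1 : ∀ i, aeval (z i) g = 0 := by
    intro i
    obtain ⟨σ, hσ⟩ := hG.trans 0 i
    have h1 := Polynomial.aeval_algHom_apply (σ : QB →ₐ[ℚ] QB) (z 0) g
    rw [minpoly.aeval, map_zero] at h1
    rw [← hσ]
    exact h1
  have hg2 : ∀ i, aeval (z i : ℂ) g = 0 := by
    intro i
    have h1 := Polynomial.aeval_algebraMap_apply ℂ (z i) g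
    rw [hg1 i, map_zero] at h1
    exact h1
  have hg3 : ∀ i, aeval ((starRingEnd ℂ) (z i : ℂ)) g = 0 := by
    intro i
    have h1 := Polynomial.aeval_algHom_apply
      ((Complex.conjAe.toAlgHom).restrictScalars ℚ) (z i : ℂ) g
    rw [hg2 i, map_zero] at h1
    exact h1
  -- the roots
  set w : Fin (2 * r + 1) ⊕ Fin (2 * r + 1) → ℂ :=
    Sum.elim (fun i => (z i : ℂ)) (fun i => (starRingEnd ℂ) (z i : ℂ)) with hw
  have hwi : Function.Injective w := by
    rintro (i | i) (j | j) h
    · exact congrArg _ (hG.inj (Subtype.ext h))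
    · exact absurd h (ne_conj hr hs hG i j)
    · exact absurd h.symm (ne_conj hr hs hG j i)
    · exact congrArg _ (hG.inj (Subtype.ext ((starRingEnd ℂ).injective h)))
  have hwr : ∀ u, w u ∈ (g.map (algebraMap ℚ ℂ)).roots := by
    intro u
    rw [mem_roots (hgm.map _).ne_zero, IsRoot, eval_map]
    rcases u with i | i
    · exact hg2 i
    · exact hg3 i
  have hcard : 2 * (2 * r + 1) ≤ g.natDegree := by
    have h1 := Polynomial.card_le_degree_of_subset_roots (p := g.map (algebraMap ℚ ℂ))
      (Z := Finset.univ.image w) (by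
        intro t ht
        have ht' : t ∈ Finset.univ.image w := ht
        obtain ⟨u, _, rfl⟩ := Finset.mem_image.1 ht'
        exact hwr u)
    rw [Finset.card_image_of_injective _ hwi, Finset.card_univ, Fintype.card_sum,
      Fintype.card_fin, hgm.natDegree_map] at h1
    omega
  -- `g` divides `f`
  have hfz : aeval (z 0) (f.map (algebraMap ℤ ℚ)) = 0 := by
    have h1 : aeval (z 0 : ℂ) f = 0 := by
      have h2 : (hO r s d x y).eval (z 0 : ℂ) = 0 := by
        rw [← hN.prod, eval_prod]
        apply Finset.prod_eq_zero (Finset.mem_univ 0)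
        rw [eval_sub, eval_X, eval_C, sub_self]
      have h3 : (f.map (Int.castRingHom ℂ)).eval (z 0 : ℂ) = 0 := by
        rw [hN.map, eval_mul, h2, zero_mul]
      rw [eval_map] at h3
      exact h3
    rw [aeval_map_algebraMap]
    have h2 := Polynomial.aeval_algebraMap_apply ℂ (z 0) f
    have h3 : algebraMap QB ℂ (aeval (z 0) f) = 0 := by
      rw [← h2]
      exact h1
    exact (map_eq_zero_iff _ (algebraMap QB ℂ).injective).1 h3
  have hdvd : g ∣ f.map (algebraMap ℤ ℚ) := minpoly.dvd ℚ (z 0) hfz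
  have hfm : (f.map (algebraMap ℤ ℚ)).Monic := hm.map _
  have heq : f.map (algebraMap ℤ ℚ) = g := by
    refine Polynomial.eq_of_monic_of_dvd_of_natDegree_le hgm hfm hdvd ?_
    rw [hm.natDegree_map, hdeg]
    exact hcard
  rw [hm.irreducible_iff_irreducible_map_fraction_map (K := ℚ), heq]
  exact hgi


end Pool.Agent.H719.PDo9
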