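import Pool.Agent.H857.PD.Core

/-!
# P1: roots of an irreducible Weil polynomial of degree `2 g` (project PD of helper857)
-/

set_option autoImplicit false

namespace Pool.Agent.H738.PDP1

open Module Polynomial Pool.Agent.W521.Descent Pool.Agent.W521.Density Pool.Agent.W521.Count
  Pool.Agent.X297.UB Pool.Agent.H857.PB Pool.Agent.H857.PA Pool.Agent.H857.HK Pool.Agent.H857.EF
  Pool.Agent.H857.WT Pool.Agent.H857.SG Pool.Agent.H857.PD

lemma closedQB : IsAlgClosed QB := by
  have h := algebraicClosure.isAlgClosure ℚ ℂ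
  exact @IsAlgClosure.isAlgClosed ℚ (algebraicClosure ℚ ℂ) _ _ (algebraicClosure ℚ ℂ).algebra' _ h

lemma normalQB : Normal ℚ QB := by
  have h := algebraicClosure.isAlgClosure ℚ ℂ
  exact @IsAlgClosure.normal ℚ (algebraicClosure ℚ ℂ) _ _ (algebraicClosure ℚ ℂ).algebra' h

theorem p1 : P1 := by
  rintro q g f hq hg hf hirr
  have hq0 : q ≠ 0 := hq.ne'
  have hclosed : IsAlgClosed QB := closedQB
  have hnorm : Normal ℚ QB := normalQB
  obtain ⟨x, rfl, -⟩ := exists_point hq0 hf
  obtain ⟨a, b, hab, hx⟩ := exists_hp (K := QB) (q := q) x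
  have hqQ : (q : QB) ≠ 0 := by exact_mod_cast hq0
  have ha0 : ∀ i, a i ≠ 0 := by
    intro i h0
    have h1 := hab i
    rw [h0, zero_mul] at h1
    exact hqQ h1.symm
  have hb : ∀ i, b i = (q : QB) / a i := by
    intro i
    rw [eq_div_iff (ha0 i), mul_comm]
    exact hab i
  have hmap := wp_map_eq hab hx
  have hmapC : (wp q g x).map (Int.castRingHom ℂ) =
      ∏ i, ((X - C (a i : ℂ)) * (X - C ((q : ℂ) / (a i : ℂ)))) := by
    have h1 := congrArg (Polynomial.map (algebraMap QB ℂ)) hmap
    rw [Polynomial.map_map, RingHom.ext_int ((algebraMap QB ℂ).comp (algebraMap ℤ QB))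
      (Int.castRingHom ℂ), Polynomial.map_prod] at h1
    rw [h1]
    refine Finset.prod_congr rfl fun i _ => ?_
    rw [Polynomial.map_mul, Polynomial.map_sub, Polynomial.map_sub, map_X, map_C, map_C, hb i,
      map_div₀, map_natCast]
    rfl
  have hmon : (wp q g x).Monic := wp_monic q g x
  have hirr' : Irreducible (wp q g x) := hirr
  have hirrQ : Irreducible ((wp q g x).map (Int.castRingHom ℚ)) :=
    (Polynomial.IsPrimitive.Int.irreducible_iff_irreducible_map_cast hmon.isPrimitive).1 hirr'
  have hmonQ : ((wp q g x).map (Int.castRingHom ℚ)).Monic := hmon.map _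
  have hQQ : ((wp q g x).map (Int.castRingHom ℚ)).map (algebraMap ℚ QB) =
      ∏ j, ((X - C (a j)) * (X - C (b j))) := by
    rw [Polynomial.map_map, RingHom.ext_int ((algebraMap ℚ QB).comp (Int.castRingHom ℚ))
      (algebraMap ℤ QB)]
    exact hmap
  -- the roots are distinct
  have hinj : Function.Injective (Sum.elim a b) := by
    have h1 : (((wp q g x).map (Int.castRingHom ℚ)).map (algebraMap ℚ QB)).Separable :=
      hirrQ.separable.map
    rw [hQQ] at h1
    have h2 : ∏ s : Fin g ⊕ Fin g, (X - C (Sum.elim a b s)) =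
        ∏ j, ((X - C (a j)) * (X - C (b j))) := by
      rw [Fintype.prod_sum_type, Finset.prod_mul_distrib]
      rfl
    rw [← h2] at h1
    exact separable_prod_X_sub_C_iff.1 h1
  have hθ : (fun i => a i + (q : QB) / a i) = fun i => a i + b i := by
    funext i
    rw [hb i]
  refine ⟨a, ⟨fun i => ?_, hmapC⟩, ?_, ?_⟩
  · apply hf.2.2.2
    have h1 : (Pool.Agent.W521.Frob.weil q (mkPoly g x)) = wp q g x := rfl
    rw [h1, aeval_def, ← eval_map]
    have h2 : (wp q g x).map (algebraMap ℤ ℂ) = (wp q g x).map (Int.castRingHom ℂ) := rfl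
    rw [h2, hmapC, eval_prod]
    exact Finset.prod_eq_zero (Finset.mem_univ i) (by simp)
  · rw [hθ]
    intro i j hij
    have hij' : a i + b i = a j + b j := hij
    have h1 : (a i - a j) * (a i - b j) = 0 := by
      have e1 := hab i
      have e2 := hab j
      linear_combination e2 - e1 + a i * hij'
    rcases mul_eq_zero.1 h1 with h | h
    · have h2 : Sum.elim a b (Sum.inl i) = Sum.elim a b (Sum.inl j) := sub_eq_zero.1 h
      exact Sum.inl_injective (hinj h2)
    · have h2 : Sum.elim a b (Sum.inl i) = Sum.elim a b (Sum.inr j) := sub_eq_zero.1 h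
      exact absurd (hinj h2) Sum.inl_ne_inr
  · intro i j
    have hmin : ∀ k, minpoly ℚ (a k) = (wp q g x).map (Int.castRingHom ℚ) := by
      intro k
      refine (minpoly.eq_of_irreducible_of_monic hirrQ ?_ hmonQ).symm
      rw [aeval_def, ← eval_map, hQQ, eval_prod]
      exact Finset.prod_eq_zero (Finset.mem_univ k) (by simp)
    have hc : IsConjRoot ℚ (a i) (a j) := by
      unfold IsConjRoot
      rw [hmin i, hmin j]
    obtain ⟨σ, hσ⟩ := isConjRoot_iff_exists_algEquiv.1 hc
    refine ⟨σ.symm, ?_⟩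
    have hσ' : σ.symm (a i) = a j := by
      rw [← hσ, AlgEquiv.symm_apply_apply]
    rw [map_add, map_div₀, map_natCast, hσ']

end Pool.Agent.H738.PDP1
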