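import Pool.Agent.H857.PD.Core

/-!
# P10 of project OddPrimeDimension (helper857), by helper722: no exotic relations for irreducible
real quadratic polynomials

The lemmas on the relations up to `eq_or` are copied from `Pool/Agent/H857/SG/P/B3.lean`
(helper294) and `Pool/Agent/H857/SG/P/B1.lean` (helper337).
-/

set_option autoImplicit false

namespace Pool.Agent.H722.PDP10

open Module Polynomial Pool.Agent.W521.Descent Pool.Agent.W521.Density Pool.Agent.W521.Count
  Pool.Agent.X297.UB Pool.Agent.H857.PB Pool.Agent.H857.PA Pool.Agent.H857.HK Pool.Agent.H857.EF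
  Pool.Agent.H857.WT Pool.Agent.H857.SG Pool.Agent.H857.PD

/-- `a` for `s = 1`, `q / a` for `s = -1` -/
noncomputable def ac (q : ℕ) (s : ℤ) (a : QB) : QB := if s = 1 then a else (q : QB) / a

/-- `a² / q` -/
noncomputable def gm (q : ℕ) (a : QB) : QB := a ^ 2 / (q : QB)

/-- the exponent vectors of the products of finite order -/
def Rl {g : ℕ} (q : ℕ) (α : Fin g → QB) (x : Fin g → ℤ) : Prop :=
  ∃ N : ℕ, 0 < N ∧ (∏ i, gm q (α i) ^ x i) ^ N = 1

variable {g q : ℕ}

theorem qne (hq : 1 < q) : (q : QB) ≠ 0 := by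
  have h : q ≠ 0 := by omega
  exact_mod_cast h

theorem ac_one (a : QB) : ac q 1 a = a := if_pos rfl

theorem ac_neg (a : QB) : ac q (-1) a = (q : QB) / a := if_neg (by decide)

theorem gm_ne (hq : 1 < q) {a : QB} (ha : a ≠ 0) : gm q a ≠ 0 :=
  div_ne_zero (pow_ne_zero _ ha) (qne hq)

theorem gm_ac (hq : 1 < q) {s : ℤ} (hs : s = 1 ∨ s = -1) {a : QB} (ha : a ≠ 0) :
    gm q (ac q s a) = gm q a ^ s := by
  have h0 := qne hq
  rcases hs with rfl | rfl
  · rw [ac_one, zpow_one]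
  · rw [ac_neg, zpow_neg_one]
    unfold gm
    field_simp

theorem gm_map (σ : QB ≃ₐ[ℚ] QB) (a : QB) : σ (gm q a) = gm q (σ a) := by
  unfold gm
  rw [map_div₀, map_pow, map_natCast]

/-- relations in terms of the elements `gm q (α i)` -/
theorem relZ_iff (hq : 1 < q) (α : Fin g → QB) (x : Fin g → ℤ) :
    RelZ q (fun i => (α i : ℂ)) x ↔ Rl q α x := by
  have hq0 : (q : ℂ) ≠ 0 := by
    have h : q ≠ 0 := by omega
    exact_mod_cast h
  have key : ∏ i, (α i : ℂ) ^ (2 * x i) =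
      (algebraMap QB ℂ (∏ i, gm q (α i) ^ x i)) * (q : ℂ) ^ (∑ i, x i) := by
    rw [map_prod, zpow_sum₀ hq0, ← Finset.prod_mul_distrib]
    refine Finset.prod_congr rfl fun i _ => ?_
    rw [map_zpow₀]
    unfold gm
    rw [map_div₀, map_pow, map_natCast, ← mul_zpow, div_mul_cancel₀ _ hq0, zpow_mul]
    rfl
  unfold RelZ Rl
  rw [key]
  have hN : ∀ N : ℕ, ((algebraMap QB ℂ (∏ i, gm q (α i) ^ x i)) * (q : ℂ) ^ (∑ i, x i)) ^ N =
      ((q : ℂ) ^ (∑ i, x i)) ^ N ↔ (∏ i, gm q (α i) ^ x i) ^ N = 1 := by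
    intro N
    rw [mul_pow]
    have h1 : ((q : ℂ) ^ (∑ i, x i)) ^ N ≠ 0 := pow_ne_zero _ (zpow_ne_zero _ hq0)
    constructor
    · intro h
      have h2 := mul_right_cancel₀ h1 (h.trans (one_mul _).symm)
      rw [← map_pow] at h2
      exact (algebraMap QB ℂ).injective (h2.trans (map_one _).symm)
    · intro h
      rw [← map_pow, h, map_one, one_mul]
  simp only [hN]

/-- the subgroup of the relations -/
def RG (_hq : 1 < q) (α : Fin g → QB) (hα : ∀ i, α i ≠ 0) : AddSubgroup (Fin g → ℤ) where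
  carrier := {x | Rl q α x}
  zero_mem' := ⟨1, one_pos, by simp⟩
  add_mem' := by
    rintro x y ⟨N, hN, hx⟩ ⟨M, hM, hy⟩
    refine ⟨N * M, Nat.mul_pos hN hM, ?_⟩
    have h1 : ∏ i, gm q (α i) ^ (x + y) i = (∏ i, gm q (α i) ^ x i) * ∏ i, gm q (α i) ^ y i := by
      rw [← Finset.prod_mul_distrib]
      refine Finset.prod_congr rfl fun i _ => ?_
      rw [Pi.add_apply, zpow_add₀ (gm_ne _hq (hα i))]
    rw [h1, mul_pow, pow_mul, hx, one_pow, mul_comm N M, pow_mul, hy, one_pow, one_mul]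
  neg_mem' := by
    rintro x ⟨N, hN, hx⟩
    refine ⟨N, hN, ?_⟩
    have h1 : ∏ i, gm q (α i) ^ (-x) i = (∏ i, gm q (α i) ^ x i)⁻¹ := by
      rw [← Finset.prod_inv_distrib]
      refine Finset.prod_congr rfl fun i _ => ?_
      rw [Pi.neg_apply, zpow_neg]
    rw [h1, inv_pow, hx, inv_one]

/-- `a + q / a = b + q / b` -/
theorem eq_or {a b : QB} (ha : a ≠ 0) (hb : b ≠ 0)
    (h : a + (q : QB) / a = b + (q : QB) / b) : a = b ∨ a = (q : QB) / b := by
  have h0 : (a - b) * (a * b - q) = 0 := by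
    have h1 : (a + (q : QB) / a) * (a * b) = a ^ 2 * b + q * b := by field_simp
    have h2 : (b + (q : QB) / b) * (a * b) = a * b ^ 2 + q * a := by field_simp
    rw [h, h2] at h1
    linear_combination -h1
  rcases mul_eq_zero.1 h0 with h1 | h1
  · exact Or.inl (sub_eq_zero.1 h1)
  · exact Or.inr ((eq_div_iff hb).2 (sub_eq_zero.1 h1))

theorem mem_RG (hq : 1 < q) (α : Fin g → QB) (hα : ∀ i, α i ≠ 0) (x : Fin g → ℤ) :
    x ∈ RG hq α hα ↔ Rl q α x := Iff.rfl

/-- the action of an automorphism -/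
theorem act_mem (hq : 1 < q) (α : Fin g → QB) (hα : ∀ i, α i ≠ 0) (σ : QB ≃ₐ[ℚ] QB)
    (π : Equiv.Perm (Fin g)) (s : Fin g → ℤ) (hs : ∀ i, s i = 1 ∨ s i = -1)
    (hσ : ∀ i, σ (α i) = ac q (s i) (α (π i))) {x : Fin g → ℤ} (hx : x ∈ RG hq α hα) :
    (fun i => s i * x (π i)) ∈ RG hq α hα := by
  obtain ⟨N, hN, hx⟩ := hx
  refine ⟨N, hN, ?_⟩
  apply σ.injective
  have h1 : σ (∏ i, gm q (α i) ^ (s i * x (π i))) = ∏ i, gm q (α i) ^ x i := by
    rw [map_prod, ← Equiv.prod_comp π (fun i => gm q (α i) ^ x i)]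
    refine Finset.prod_congr rfl fun i _ => ?_
    rw [map_zpow₀, gm_map, hσ, gm_ac hq (hs i) (hα _), ← zpow_mul, ← mul_assoc]
    rcases hs i with h | h <;> rw [h] <;> norm_num
  rw [map_pow, h1, hx, map_one]

/-- the group of the relations is saturated -/
theorem sat (hq : 1 < q) (α : Fin g → QB) (hα : ∀ i, α i ≠ 0) {n : ℤ} {x : Fin g → ℤ}
    (hn : n ≠ 0) (h : n • x ∈ RG hq α hα) : x ∈ RG hq α hα := by
  obtain ⟨N, hN, hx⟩ := h
  have h1 : ∏ i, gm q (α i) ^ (n • x) i = (∏ i, gm q (α i) ^ x i) ^ n := by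
    rw [← Finset.prod_zpow]
    refine Finset.prod_congr rfl fun i _ => ?_
    rw [← zpow_mul, Pi.smul_apply, smul_eq_mul, mul_comm]
  rw [h1] at hx
  have h3 : (∏ i, gm q (α i) ^ x i) ^ (n * (N : ℤ)) = 1 := by
    rw [zpow_mul, zpow_natCast]
    exact hx
  refine ⟨(n * (N : ℤ)).natAbs, Int.natAbs_pos.2 (mul_ne_zero hn (by exact_mod_cast hN.ne')),
    ?_⟩
  rcases Int.natAbs_eq (n * (N : ℤ)) with h | h
  · rw [h, zpow_natCast] at h3
    exact h3
  · rw [h, zpow_neg, inv_eq_one, zpow_natCast] at h3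
    exact h3

/-- the argument on the exponents -/
theorem exps (R : AddSubgroup (Fin 2 → ℤ)) (e : Fin 2 → ℤ)
    (hsat : ∀ (n : ℤ) (x : Fin 2 → ℤ), n ≠ 0 → n • x ∈ R → x ∈ R) (s : Fin 2 → ℤ)
    (hs : ∀ i, s i = 1 ∨ s i = -1)
    (hact : ∀ x ∈ R, (fun i => s i * x (Equiv.swap (0 : Fin 2) 1 i)) ∈ R)
    (hE : Exo (fun x => x ∈ R) e) : False := by
  have heven : Even (e 0 + e 1) := by
    have h := hE.even
    rwa [Fin.sum_univ_two] at h
  have hrel : e ∈ R := hE.rel
  by_cases h0 : e 0 = 0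
  · have h1 : e 1 ≠ 0 := by
      intro h1
      obtain ⟨i, hi⟩ := hE.ne
      fin_cases i
      · exact hi h0
      · exact hi h1
    have h2 : 2 ≤ |e 1| := by
      rw [h0, zero_add] at heven
      obtain ⟨r, hr⟩ := heven
      rcases abs_cases (e 1) with h3 | h3 <;> omega
    refine hE.two 1 h2 (hsat (e 1) _ h1 ?_)
    have h3 : e 1 • (Pi.single 1 1 : Fin 2 → ℤ) = e := by
      funext i
      fin_cases i
      · simp [h0]
      · simp
    rw [h3]
    exact hrel
  by_cases h1 : e 1 = 0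
  · have h2 : 2 ≤ |e 0| := by
      rw [h1, add_zero] at heven
      obtain ⟨r, hr⟩ := heven
      rcases abs_cases (e 0) with h3 | h3 <;> omega
    refine hE.two 0 h2 (hsat (e 0) _ h0 ?_)
    have h3 : e 0 • (Pi.single 0 1 : Fin 2 → ℤ) = e := by
      funext i
      fin_cases i
      · simp
      · simp [h1]
    rw [h3]
    exact hrel
  refine hE.pair 0 1 (by decide) h0 h1 ?_
  set w : Fin 2 → ℤ := fun i => s i * e (Equiv.swap (0 : Fin 2) 1 i) with hw
  have hwR : w ∈ R := hact e hrel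
  have hw0 : w 0 = s 0 * e 1 := by
    simp [hw]
  have hw1 : w 1 = s 1 * e 0 := by
    simp [hw]
  by_cases hdet : s 1 * e 0 ^ 2 - s 0 * e 1 ^ 2 = 0
  · have habs : e 0 = e 1 ∨ e 0 = -e 1 := by
      rw [← sq_eq_sq_iff_eq_or_eq_neg]
      have hp0 : 0 < e 0 ^ 2 := by positivity
      have hp1 : 0 < e 1 ^ 2 := by positivity
      rcases hs 0 with h2 | h2 <;> rcases hs 1 with h3 | h3 <;> rw [h2, h3] at hdet <;> linarith
    refine hsat |e 0| _ (abs_ne_zero.2 h0) ?_
    have h2 : |e 0| • (Pi.single 0 (e 0).sign + Pi.single 1 (e 1).sign : Fin 2 → ℤ) = e := by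
      have h3 : |e 1| = |e 0| := by
        rcases habs with h4 | h4
        · rw [h4]
        · rw [h4, abs_neg]
      funext i
      fin_cases i
      · simp only [Pi.smul_apply, Pi.add_apply, smul_eq_mul, Fin.zero_eta, Pi.single_eq_same]
        rw [Pi.single_eq_of_ne (by decide), add_zero, mul_comm]
        exact Int.sign_mul_abs (e 0)
      · simp only [Pi.smul_apply, Pi.add_apply, smul_eq_mul, Fin.mk_one, Pi.single_eq_same]
        rw [Pi.single_eq_of_ne (by decide), zero_add, mul_comm, ← h3]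
        exact Int.sign_mul_abs (e 1)
    rw [h2]
    exact hrel
  · have hA : (Pi.single 0 1 : Fin 2 → ℤ) ∈ R := by
      refine hsat _ _ hdet ?_
      have h2 : (s 1 * e 0 ^ 2 - s 0 * e 1 ^ 2) • (Pi.single 0 1 : Fin 2 → ℤ) =
          (s 1 * e 0) • e - (e 1) • w := by
        funext i
        fin_cases i
        · simp only [Pi.smul_apply, Pi.sub_apply, smul_eq_mul, Fin.zero_eta, Pi.single_eq_same,
            hw0]
          ring
        · simp only [Pi.smul_apply, Pi.sub_apply, smul_eq_mul, Fin.mk_one, hw1]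
          rw [Pi.single_eq_of_ne (by decide)]
          ring
      rw [h2]
      exact R.sub_mem (R.zsmul_mem hrel _) (R.zsmul_mem hwR _)
    have hB : (Pi.single 1 1 : Fin 2 → ℤ) ∈ R := by
      refine hsat _ _ hdet ?_
      have h2 : (s 1 * e 0 ^ 2 - s 0 * e 1 ^ 2) • (Pi.single 1 1 : Fin 2 → ℤ) =
          (e 0) • w - (s 0 * e 1) • e := by
        funext i
        fin_cases i
        · simp only [Pi.smul_apply, Pi.sub_apply, smul_eq_mul, Fin.zero_eta, hw0]
          rw [Pi.single_eq_of_ne (by decide)]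
          ring
        · simp only [Pi.smul_apply, Pi.sub_apply, smul_eq_mul, Fin.mk_one, Pi.single_eq_same,
            hw1]
          ring
      rw [h2]
      exact R.sub_mem (R.zsmul_mem hwR _) (R.zsmul_mem hrel _)
    have h3 : (Pi.single 0 (e 0).sign + Pi.single 1 (e 1).sign : Fin 2 → ℤ) =
        (e 0).sign • (Pi.single 0 1 : Fin 2 → ℤ) + (e 1).sign • (Pi.single 1 1 : Fin 2 → ℤ) := by
      rw [← Pi.single_smul, ← Pi.single_smul, smul_eq_mul, smul_eq_mul, mul_one, mul_one]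
    rw [h3]
    exact R.add_mem (R.zsmul_mem hA _) (R.zsmul_mem hB _)

theorem normalQB : Normal ℚ QB := by
  have h := algebraicClosure.isAlgClosure ℚ ℂ
  exact @IsAlgClosure.normal ℚ (algebraicClosure ℚ ℂ) _ _ (algebraicClosure ℚ ℂ).algebra' h

/-- the sum of the roots -/
theorem sum_coeff {K : Type} [Field K] (a b : K) (y : Fin 2 → ℤ)
    (h : (mkPoly 2 y).map (algebraMap ℤ K) = (X - C a) * (X - C b)) :
    a + b = -((y 1 : ℤ) : K) := by
  have h1 := congrArg (fun P : K[X] => P.coeff 1) h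
  have h2 : ((X - C a) * (X - C b) : K[X]) = X ^ 2 + (C (-(a + b)) * X + C (a * b)) := by
    rw [map_neg, map_add, map_mul]
    ring
  have h3 : (mkPoly 2 y).map (algebraMap ℤ K) = X ^ 2 + (C ((y 1 : ℤ) : K) * X +
      C ((y 0 : ℤ) : K)) := by
    rw [← hp_eq_map]
    unfold hp
    rw [Fin.sum_univ_two]
    simp
    ring
  rw [h2, h3] at h1
  simp only [coeff_add, coeff_X_pow, coeff_C_mul, coeff_X_one, coeff_C, mul_one] at h1
  norm_num at h1
  linear_combination h1

/-- P10 -/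
theorem p10 : P10 := by
  intro q y e hq hf hirr hE
  have hq0 : q ≠ 0 := by omega
  have hqB := qne hq
  have hroot : ∀ i, aeval (labA q 2 y i) (wp q 2 y) = 0 := fun i =>
    (lab_root hq0 y _).2 ⟨i, Or.inl rfl⟩
  have hwp0 : wp q 2 y ≠ 0 := (wp_monic q 2 y).ne_zero
  -- the roots as algebraic numbers
  have hmem : ∀ i, labA q 2 y i ∈ algebraicClosure ℚ ℂ := by
    intro i
    rw [mem_algebraicClosure_iff]
    refine ⟨(wp q 2 y).map (Int.castRingHom ℚ), ?_, ?_⟩
    · exact (Polynomial.map_ne_zero_iff (RingHom.injective_int _)).2 hwp0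
    · have h1 := hroot i
      rw [aeval_def, eval₂_map]
      rw [aeval_def] at h1
      rw [← h1]
      congr 1
  obtain ⟨α, hα⟩ : ∃ α : Fin 2 → QB, ∀ i, (α i : ℂ) = labA q 2 y i :=
    ⟨fun i => ⟨labA q 2 y i, hmem i⟩, fun i => rfl⟩
  have hlab : (labA q 2 y) = fun i => (α i : ℂ) := funext fun i => (hα i).symm
  have hnorm : ∀ i, ‖(α i : ℂ)‖ ^ 2 = q := by
    intro i
    rw [hα]
    exact hf.2.2.2 _ (hroot i)
  have hα0 : ∀ i, α i ≠ 0 := by
    intro i h0
    have h1 := hnorm i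
    rw [h0] at h1
    have h3 : (q : ℝ) ≠ 0 := by exact_mod_cast hq0
    apply h3
    rw [← h1]
    simp
  have hB : ∀ i, labB q 2 y i = (q : ℂ) / (α i : ℂ) := by
    intro i
    have h1 := lab_mul q 2 y i
    have h2 : (α i : ℂ) ≠ 0 := by
      intro h
      apply hα0 i
      exact (algebraMap QB ℂ).injective (h.trans (map_zero _).symm)
    rw [eq_div_iff h2, mul_comm, hα]
    exact h1
  set θ : Fin 2 → QB := fun i => α i + (q : QB) / α i with hθ
  have hθC : ∀ i, algebraMap QB ℂ (θ i) = labA q 2 y i + labB q 2 y i := by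
    intro i
    rw [hB, ← hα, hθ]
    simp only [map_add, map_div₀, map_natCast]
    rfl
  -- the polynomial of the `θ i`
  have hpol : (mkPoly 2 y).map (algebraMap ℤ QB) = (X - C (θ 0)) * (X - C (θ 1)) := by
    apply Polynomial.map_injective (algebraMap QB ℂ) (algebraMap QB ℂ).injective
    have h1 := lab_hp q 2 y
    rw [hp_eq_map] at h1
    rw [Polynomial.map_map, RingHom.ext_int ((algebraMap QB ℂ).comp (algebraMap ℤ QB))
      (algebraMap ℤ ℂ), h1, Fin.prod_univ_two, Polynomial.map_mul, Polynomial.map_sub,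
      Polynomial.map_sub, map_X, map_C, map_C, hθC, hθC]
  have hm : (mkPoly 2 y).Monic := mkPoly_monic 2 y
  have hirrQ : Irreducible ((mkPoly 2 y).map (Int.castRingHom ℚ)) :=
    (Polynomial.IsPrimitive.Int.irreducible_iff_irreducible_map_cast hm.isPrimitive).1 hirr
  have hmQ : ((mkPoly 2 y).map (Int.castRingHom ℚ)).Monic := hm.map _
  have hpolQ : ((mkPoly 2 y).map (Int.castRingHom ℚ)).map (algebraMap ℚ QB) =
      (X - C (θ 0)) * (X - C (θ 1)) := by
    rw [Polynomial.map_map, RingHom.ext_int ((algebraMap ℚ QB).comp (Int.castRingHom ℚ))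
      (algebraMap ℤ QB), hpol]
  have hmin : ∀ i, minpoly ℚ (θ i) = (mkPoly 2 y).map (Int.castRingHom ℚ) := by
    intro i
    refine (minpoly.eq_of_irreducible_of_monic hirrQ ?_ hmQ).symm
    rw [aeval_def, ← eval_map, hpolQ, eval_mul]
    fin_cases i
    · simp
    · simp
  -- the automorphism
  have hnor : Normal ℚ QB := normalQB
  obtain ⟨σ, hσ⟩ := (isConjRoot_iff_exists_algEquiv (K := ℚ) (L := QB) (x := θ 1) (y := θ 0)).1
    ((hmin 1).trans (hmin 0).symm)
  have hsum : θ 0 + θ 1 = -(((y 1 : ℤ)) : QB) := sum_coeff _ _ y hpol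
  have hσ1 : σ (θ 1) = θ 0 := by
    have h1 : θ 1 = -(((y 1 : ℤ)) : QB) - θ 0 := by linear_combination hsum
    have h2 : σ (-(((y 1 : ℤ)) : QB) - θ 0) = -(((y 1 : ℤ)) : QB) - σ (θ 0) := by
      rw [map_sub, map_neg, map_intCast]
    rw [h1, h2, hσ]
    linear_combination -hsum
  have hs : ∀ i, ∃ s : ℤ, (s = 1 ∨ s = -1) ∧
      σ (α i) = ac q s (α (Equiv.swap (0 : Fin 2) 1 i)) := by
    intro i
    have h1 : σ (α i) + (q : QB) / σ (α i) = α (Equiv.swap (0 : Fin 2) 1 i) +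
        (q : QB) / α (Equiv.swap (0 : Fin 2) 1 i) := by
      have h2 : σ (θ i) = θ (Equiv.swap (0 : Fin 2) 1 i) := by
        fin_cases i
        · exact hσ
        · exact hσ1
      rw [hθ] at h2
      simp only [map_add, map_div₀, map_natCast] at h2
      exact h2
    rcases eq_or (by simpa using hα0 i) (hα0 _) h1 with h3 | h3
    · exact ⟨1, Or.inl rfl, by rw [ac_one]; exact h3⟩
    · exact ⟨-1, Or.inr rfl, by rw [ac_neg]; exact h3⟩
  choose s hs1 hs2 using hs
  rw [hlab] at hE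
  have hrel : (fun x : Fin 2 → ℤ => RelZ q (fun i => (α i : ℂ)) x) =
      fun x => x ∈ RG hq α hα0 :=
    funext fun x => propext (relZ_iff hq α x)
  rw [hrel] at hE
  exact exps (RG hq α hα0) e (fun n x hn h => sat hq α hα0 hn h) s hs1
    (fun x hx => act_mem hq α hα0 σ (Equiv.swap 0 1) s hs1 hs2 hx) hE

end Pool.Agent.H722.PDP10
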