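import Pool.Agent.H857.PD.Core

/-!
# P17: the factors of the polynomials of odd Weil type
-/

set_option autoImplicit false

namespace Pool.Agent.H790.PDp17

open Module Polynomial Pool.Agent.W521.Descent Pool.Agent.H857.WT Pool.Agent.H857.PD

/-- Rational algebraic integers are integers. -/
lemma int_of_rat {r : ℚ} (h : IsIntegral ℤ (r : ℂ)) : ∃ n : ℤ, (r : ℂ) = n := by
  have h1 : IsIntegral ℤ r := by
    have := (isIntegral_algebraMap_iff (R := ℤ) (A := ℚ) (B := ℂ) (x := r)
      (algebraMap ℚ ℂ).injective)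
    exact this.1 (by simpa using h)
  obtain ⟨n, hn⟩ := IsIntegrallyClosed.isIntegral_iff.1 h1
  exact ⟨n, by rw [← hn]; simp⟩

lemma quad_repr {D : ℕ} {z : ℂ} (h : z ∈ quadField D) : ∃ x y : ℚ,
    z = x + y * (Real.sqrt D * Complex.I) ∧
    (starRingEnd ℂ) z = x - y * (Real.sqrt D * Complex.I) := by
  obtain ⟨x, y, rfl⟩ := h
  refine ⟨x, y, rfl, ?_⟩
  simp only [map_add, map_mul, map_ratCast, Complex.conj_ofReal, Complex.conj_I]
  ring

lemma conj_int {z : ℂ} (h : IsIntegral ℤ z) : IsIntegral ℤ ((starRingEnd ℂ) z) :=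
  map_isIntegral_int (starRingEnd ℂ) h

lemma re_int {D : ℕ} {z : ℂ} (h : z ∈ quadField D) (hz : IsIntegral ℤ z) :
    ∃ n : ℤ, z + (starRingEnd ℂ) z = n := by
  obtain ⟨x, y, h1, h2⟩ := quad_repr h
  have h3 : z + (starRingEnd ℂ) z = ((2 * x : ℚ) : ℂ) := by
    rw [h2]; nth_rw 1 [h1]; push_cast; ring
  obtain ⟨n, hn⟩ := int_of_rat (r := 2 * x) (by rw [← h3]; exact hz.add (conj_int hz))
  exact ⟨n, by rw [h3, hn]⟩

lemma im_int {D : ℕ} {z w : ℂ} (h : z ∈ quadField D) (hz : IsIntegral ℤ z)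
    (h' : w ∈ quadField D) (hw : IsIntegral ℤ w) :
    ∃ n : ℤ, (z - (starRingEnd ℂ) z) * (w - (starRingEnd ℂ) w) = n := by
  obtain ⟨x, y, h1, h2⟩ := quad_repr h
  obtain ⟨x', y', h1', h2'⟩ := quad_repr h'
  have hs : ((Real.sqrt D : ℝ) : ℂ) * ((Real.sqrt D : ℝ) : ℂ) = (D : ℂ) := by
    rw [← Complex.ofReal_mul, Real.mul_self_sqrt (Nat.cast_nonneg D)]
    simp
  have h3 : (z - (starRingEnd ℂ) z) * (w - (starRingEnd ℂ) w) =
      ((-4 * y * y' * D : ℚ) : ℂ) := by
    rw [h2, h2']; nth_rw 1 [h1]; nth_rw 1 [h1']; push_cast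
    have : (x + y * (Real.sqrt D * Complex.I) - (x - y * (Real.sqrt D * Complex.I)) : ℂ) *
        (x' + y' * (Real.sqrt D * Complex.I) - (x' - y' * (Real.sqrt D * Complex.I))) =
        4 * y * y' * (((Real.sqrt D : ℝ) : ℂ) * ((Real.sqrt D : ℝ) : ℂ)) *
          (Complex.I * Complex.I) := by ring
    rw [this, hs, Complex.I_mul_I]; ring
  obtain ⟨n, hn⟩ := int_of_rat (r := -4 * y * y' * D) (by
    rw [← h3]; exact (hz.sub (conj_int hz)).mul (hw.sub (conj_int hw)))
  exact ⟨n, by rw [h3, hn]⟩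

/-- The functional equation for the coefficients. -/
lemma func {h : ℂ[X]} (hm : h.Monic) {n q : ℕ} (hdeg : h.natDegree = n)
    (hr : ∀ z, h.IsRoot z → ‖z‖ ^ 2 = q) (i : ℕ) (hi : i ≤ n) :
    h.coeff i * (q : ℂ) ^ i = h.coeff 0 * (starRingEnd ℂ) (h.coeff (n - i)) := by
  have hprod : h = (h.roots.map (fun a => X - C a)).prod :=
    (IsAlgClosed.splits h).eq_prod_roots_of_monic hm
  have hcard : Multiset.card h.roots = n := by
    rw [← (IsAlgClosed.splits h).natDegree_eq_card_roots, hdeg]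
  have hz : ∀ z ∈ h.roots, z * (starRingEnd ℂ) z = q := by
    intro z hz
    rw [Complex.mul_conj, Complex.normSq_eq_norm_sq, hr z (isRoot_of_mem_roots hz)]
    simp
  have hev : ∀ x : ℂ, h.eval x = (h.roots.map (fun a => x - a)).prod := by
    intro x
    conv_lhs => rw [hprod]
    rw [eval_multiset_prod, Multiset.map_map]
    simp
  have hevb : ∀ x : ℂ, (h.map (starRingEnd ℂ)).eval x =
      (h.roots.map (fun a => x - (starRingEnd ℂ) a)).prod := by
    intro x
    conv_lhs => rw [hprod]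
    rw [Polynomial.map_multiset_prod, eval_multiset_prod, Multiset.map_map, Multiset.map_map]
    simp
  have hc0 : (starRingEnd ℂ) (h.coeff 0) =
      (h.roots.map (fun a => -(starRingEnd ℂ) a)).prod := by
    rw [coeff_zero_eq_eval_zero, hev, map_multiset_prod, Multiset.map_map]
    simp
  have hfe : ∀ x : ℂ, x ≠ 0 → x ^ n * (h.map (starRingEnd ℂ)).eval ((q : ℂ) / x) =
      (starRingEnd ℂ) (h.coeff 0) * h.eval x := by
    intro x hx
    rw [hevb, hc0, hev, ← hcard, ← Multiset.prod_replicate, ← Multiset.map_const',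
      ← Multiset.prod_map_mul, ← Multiset.prod_map_mul]
    congr 1
    refine Multiset.map_congr rfl fun a ha => ?_
    rw [← hz a ha]
    field_simp
    ring
  set P : ℂ[X] := ∑ j ∈ Finset.range (n + 1),
    C ((starRingEnd ℂ) (h.coeff j) * (q : ℂ) ^ j) * X ^ (n - j) with hP
  have hPe : ∀ x : ℂ, x ≠ 0 → P.eval x = x ^ n * (h.map (starRingEnd ℂ)).eval ((q : ℂ) / x) := by
    intro x hx
    rw [eval_eq_sum_range' (p := h.map (starRingEnd ℂ)) (n := n + 1) (by
      rw [natDegree_map, hdeg]; exact Nat.lt_succ_self n), hP, eval_finsetSum, Finset.mul_sum]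
    refine Finset.sum_congr rfl fun j hj => ?_
    have hj' : j ≤ n := Nat.lt_succ_iff.1 (Finset.mem_range.1 hj)
    rw [eval_mul, eval_C, eval_pow, eval_X, coeff_map, div_pow]
    have : x ^ n = x ^ (n - j) * x ^ j := by rw [← pow_add, Nat.sub_add_cancel hj']
    rw [this]
    field_simp
  have hPh : P = C ((starRingEnd ℂ) (h.coeff 0)) * h := by
    have h1 : X * P = X * (C ((starRingEnd ℂ) (h.coeff 0)) * h) := by
      refine Polynomial.funext fun x => ?_
      by_cases hx : x = 0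
      · subst hx; simp
      · rw [eval_mul, eval_mul, hPe x hx, hfe x hx, eval_mul, eval_C]
    exact mul_left_cancel₀ X_ne_zero h1
  have h2 : P.coeff (n - i) = (starRingEnd ℂ) (h.coeff i) * (q : ℂ) ^ i := by
    rw [hP, finsetSum_coeff, Finset.sum_eq_single i]
    · rw [coeff_C_mul, coeff_X_pow]; simp
    · intro j hj hji
      have hj' : j ≤ n := Nat.lt_succ_iff.1 (Finset.mem_range.1 hj)
      rw [coeff_C_mul, coeff_X_pow, if_neg (by omega), mul_zero]
    · intro hni
      exact absurd (Finset.mem_range.2 (Nat.lt_succ_iff.2 hi)) hni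
  have h3 : P.coeff (n - i) = (starRingEnd ℂ) (h.coeff 0) * h.coeff (n - i) := by
    rw [hPh, coeff_C_mul]
  have h4 := congrArg (starRingEnd ℂ) (h2.symm.trans h3)
  simpa using h4

/-- A monic polynomial with the functional equation is `opol`. -/
lemma eq_opol {r q : ℕ} {h : ℂ[X]} (hm : h.Monic) (hdeg : h.natDegree = 2 * r + 1)
    (a : Fin r → ℂ) (ha : ∀ j : Fin r, a j = h.coeff (2 * r - (j : ℕ)))
    (hb : ∀ j : Fin r, h.coeff ((j : ℕ) + 1) =
      h.coeff 0 * ((q : ℂ) ^ ((j : ℕ) + 1))⁻¹ * (starRingEnd ℂ) (a j)) :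
    h = opol r q (h.coeff 0) a := by
  have h1 : opol r q (h.coeff 0) a = X ^ (2 * r + 1) + (∑ j ∈ Finset.range r,
      C (h.coeff (2 * r - j)) * X ^ (2 * r - j) +
      ∑ j ∈ Finset.range r, C (h.coeff (j + 1)) * X ^ (j + 1)) + C (h.coeff 0) := by
    rw [← Finset.sum_add_distrib, ← Fin.sum_univ_eq_sum_range
      (fun j => C (h.coeff (2 * r - j)) * X ^ (2 * r - j) +
        C (h.coeff (j + 1)) * X ^ (j + 1)) r, opol]
    congr 2
    refine Finset.sum_congr rfl fun j _ => ?_
    rw [← hb j, ha j]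
  rw [h1]
  have h3 := hm.as_sum
  rw [hdeg] at h3
  have h4 : ∑ i ∈ Finset.range (2 * r + 1), C (h.coeff i) * X ^ i =
      (∑ j ∈ Finset.range r, C (h.coeff (2 * r - j)) * X ^ (2 * r - j) +
      ∑ j ∈ Finset.range r, C (h.coeff (j + 1)) * X ^ (j + 1)) + C (h.coeff 0) := by
    have h5 : ∑ j ∈ Finset.range r, C (h.coeff (2 * r - j)) * X ^ (2 * r - j) =
        ∑ j ∈ Finset.range r, C (h.coeff (r + j + 1)) * X ^ (r + j + 1) := by
      rw [← Finset.sum_range_reflect (fun j => C (h.coeff (r + j + 1)) * X ^ (r + j + 1)) r]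
      refine Finset.sum_congr rfl fun j hj => ?_
      have hj' := Finset.mem_range.1 hj
      have e1 : 2 * r - j = r + (r - 1 - j) + 1 := by omega
      rw [e1]
    rw [h5, Finset.sum_range_succ', two_mul r, Finset.sum_range_add]
    simp only [pow_zero, mul_one]
    ring
  rw [h4, ← add_assoc] at h3
  exact h3

/-- Roots of unity in an imaginary quadratic field. -/
lemma root_unity {D N : ℕ} {z : ℂ} (hN : 0 < N) (hz : z ∈ quadField D) (h : z ^ N = 1) :
    z ^ 12 = 1 := by
  have hint : IsIntegral ℤ z := by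
    refine ⟨X ^ N - C 1, monic_X_pow_sub_C _ hN.ne', ?_⟩
    simp [h]
  have hn : ‖z‖ = 1 := by
    have h1 : ‖z‖ ^ N = 1 := by rw [← norm_pow, h, norm_one]
    exact (pow_eq_one_iff_of_nonneg (norm_nonneg _) hN.ne').1 h1
  obtain ⟨n, hn1⟩ := re_int hz hint
  have hprod : z * (starRingEnd ℂ) z = 1 := by
    rw [Complex.mul_conj, Complex.normSq_eq_norm_sq, hn]
    simp
  have hle : |(n : ℝ)| ≤ 2 := by
    have h1 : ‖((n : ℤ) : ℂ)‖ = |(n : ℝ)| := by
      rw [Complex.norm_intCast]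
    rw [← h1, ← hn1]
    refine (norm_add_le _ _).trans ?_
    rw [Complex.norm_conj, hn]
    norm_num
  have hle2 : -2 ≤ n ∧ n ≤ 2 := by
    have h1 := abs_le.1 hle
    constructor
    · exact_mod_cast h1.1
    · exact_mod_cast h1.2
  have hq : z ^ 2 = n * z - 1 := by
    have h1 : (starRingEnd ℂ) z = n - z := by rw [← hn1]; ring
    rw [h1] at hprod
    linear_combination -hprod
  obtain ⟨hl, hu⟩ := hle2
  have hcases : n = -2 ∨ n = -1 ∨ n = 0 ∨ n = 1 ∨ n = 2 := by omega
  rcases hcases with rfl | rfl | rfl | rfl | rfl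
  · have h2 : (z + 1) ^ 2 = 0 := by
      push_cast at hq
      linear_combination hq
    have h3 : z = -1 := by
      have := pow_eq_zero_iff (two_ne_zero) |>.1 h2
      linear_combination this
    rw [h3]
    norm_num
  · push_cast at hq
    have h3 : z ^ 3 = 1 := by linear_combination (z - 1) * hq
    calc z ^ 12 = (z ^ 3) ^ 4 := by ring
      _ = 1 := by rw [h3, one_pow]
  · push_cast at hq
    have h3 : z ^ 2 = -1 := by linear_combination hq
    calc z ^ 12 = (z ^ 2) ^ 6 := by ring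
      _ = 1 := by rw [h3]; norm_num
  · push_cast at hq
    have h3 : z ^ 3 = -1 := by linear_combination (z + 1) * hq
    calc z ^ 12 = (z ^ 3) ^ 4 := by ring
      _ = 1 := by rw [h3]; norm_num
  · have h2 : (z - 1) ^ 2 = 0 := by
      push_cast at hq
      linear_combination hq
    have h3 : z = 1 := by
      have := pow_eq_zero_iff (two_ne_zero) |>.1 h2
      linear_combination this
    rw [h3]
    norm_num

theorem p17 : P17 := by
  intro r q f hr hq hf hW
  obtain ⟨D, h, hD, hh, hquad, hfac, -, N, hN, h0N⟩ := hW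
  obtain ⟨hfm, hfdeg, -, hfr⟩ := hf
  have hhc : (h.map (starRingEnd ℂ)).Monic := hh.map _
  have hdeg : h.natDegree = 2 * r + 1 := by
    have h1 : (f.map (Int.castRingHom ℂ)).natDegree = h.natDegree + h.natDegree := by
      rw [hfac, hh.natDegree_mul hhc, natDegree_map]
    rw [hfm.natDegree_map, hfdeg] at h1
    omega
  have hq0 : (q : ℂ) ≠ 0 := by exact_mod_cast hq.ne'
  have hroot : ∀ z, h.IsRoot z → ‖z‖ ^ 2 = q := by
    intro z hz
    refine hfr z ?_
    have h1 : (f.map (Int.castRingHom ℂ)).eval z = 0 := by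
      rw [hfac, eval_mul, hz.eq_zero, zero_mul]
    rw [eval_map] at h1
    exact h1
  have hint : ∀ i, IsIntegral ℤ (h.coeff i) := fun i =>
    isIntegral_coeff_of_dvd f h hfm hh (Dvd.intro _ hfac.symm) i
  have hfun := func hh hdeg hroot
  have hqg : (q : ℂ) ^ (2 * r + 1) ≠ 0 := pow_ne_zero _ hq0
  have homega : h.coeff 0 ^ 24 = (q : ℂ) ^ (12 * (2 * r + 1)) := by
    have hζN : (h.coeff 0 ^ 2 / (q : ℂ) ^ (2 * r + 1)) ^ N = 1 := by
      rw [div_pow, ← pow_mul, h0N, div_self (pow_ne_zero _ hqg)]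
    have hζq : h.coeff 0 ^ 2 / (q : ℂ) ^ (2 * r + 1) ∈ quadField D := by
      obtain ⟨x, y, hxy⟩ := hquad 0
      have hs : ((Real.sqrt D : ℝ) : ℂ) * ((Real.sqrt D : ℝ) : ℂ) = (D : ℂ) := by
        rw [← Complex.ofReal_mul, Real.mul_self_sqrt (Nat.cast_nonneg D)]
        simp
      refine ⟨(x ^ 2 - D * y ^ 2) / (q : ℚ) ^ (2 * r + 1), 2 * x * y / (q : ℚ) ^ (2 * r + 1), ?_⟩
      have h1 : h.coeff 0 ^ 2 = (x ^ 2 - D * y ^ 2 : ℂ) +
          2 * x * y * (Real.sqrt D * Complex.I) := by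
        rw [hxy, ← hs]
        have := Complex.I_mul_I
        linear_combination (y : ℂ) ^ 2 * ((Real.sqrt D : ℝ) : ℂ) ^ 2 * this
      rw [h1]
      push_cast
      field_simp
    have h1 := root_unity hN hζq hζN
    rw [div_pow, div_eq_one_iff_eq (pow_ne_zero _ hqg), ← pow_mul, ← pow_mul] at h1
    rw [show 12 * (2 * r + 1) = (2 * r + 1) * 12 by ring]
    exact h1
  refine ⟨h.coeff 0, fun j => h.coeff (2 * r - (j : ℕ)), ⟨?_, ?_, ?_, homega⟩, ?_⟩
  · exact fun j => re_int (hquad _) (hint _)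
  · exact fun i j => im_int (hquad _) (hint _) (hquad _) (hint _)
  · intro j
    have h1 := coeff_le_of_roots_le (p := h) (f := RingHom.id ℂ) (B := Real.sqrt q)
      (2 * r - (j : ℕ)) hh (IsAlgClosed.splits _) (by
        intro z hz
        rw [Polynomial.map_id] at hz
        have := hroot z (isRoot_of_mem_roots hz)
        exact Real.le_sqrt_of_sq_le this.le)
    rw [Polynomial.map_id, hdeg] at h1
    have hj := j.2
    have e1 : 2 * r + 1 - (2 * r - (j : ℕ)) = (j : ℕ) + 1 := by omega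
    rw [e1] at h1
    refine h1.trans ?_
    rw [mul_comm]
    refine mul_le_mul_of_nonneg_right ?_ (by positivity)
    have h2 : (2 * r + 1).choose (2 * r - (j : ℕ)) ≤ 4 ^ (r + 1) := by
      have h3 : (4 : ℕ) ^ (r + 1) = 2 ^ (2 * r + 2) := by
        rw [show 2 * r + 2 = 2 * (r + 1) by ring, pow_mul]
        norm_num
      rw [h3]
      exact (Nat.choose_le_two_pow _ _).trans (Nat.pow_le_pow_right (by norm_num) (by omega))
    exact_mod_cast h2
  · have h1 : h = opol r q (h.coeff 0) (fun j => h.coeff (2 * r - (j : ℕ))) := by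
      refine eq_opol hh hdeg _ (fun j => rfl) (fun j => ?_)
      have hj := j.2
      have h1 := hfun ((j : ℕ) + 1) (by omega)
      have e1 : 2 * r + 1 - ((j : ℕ) + 1) = 2 * r - (j : ℕ) := by omega
      rw [e1] at h1
      have hqj : (q : ℂ) ^ ((j : ℕ) + 1) ≠ 0 := pow_ne_zero _ hq0
      refine mul_right_cancel₀ hqj ?_
      rw [h1]
      field_simp
    rw [← h1]
    exact hfac

end Pool.Agent.H790.PDp17
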