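import Pool.Agent.H857.PD.Core

/-! P2: groups of signed permutations, transitive of prime degree (helper199 for helper857; the
last part follows helper344's B2). -/

set_option autoImplicit false

namespace Pool.Agent.H199.PDP2

open Pool.Agent.H857.SG Pool.Agent.H857.PD Equiv Polynomial

/-! ### Subgroups stable under a cycle -/

section cycle

variable {g : ℕ} {π : Equiv.Perm (Fin g)}

theorem cyc (h : ∀ i j, ∃ n : ℕ, (π ^ n) i = j) (z : Fin g) (m n : ℕ) :
    (π ^ m) z = (π ^ n) z ↔ m ≡ n [MOD g] := by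
  have h1 : π.IsCycleOn (↑(Finset.univ : Finset (Fin g)) : Set (Fin g)) := by
    refine ⟨?_, fun x _ y _ => ?_⟩
    · rw [Finset.coe_univ]
      exact Set.bijOn_univ.2 π.bijective
    · obtain ⟨n, hn⟩ := h x y
      exact ⟨n, by rw [zpow_natCast]; exact hn⟩
  have h2 := h1.pow_apply_eq_pow_apply (Finset.mem_univ z) (m := m) (n := n)
  rwa [Finset.card_univ, Fintype.card_fin] at h2

theorem pow_g (h : ∀ i j, ∃ n : ℕ, (π ^ n) i = j) (z : Fin g) : (π ^ g) z = z := by
  have h1 := (cyc h z g 0).2 (by simp [Nat.ModEq])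
  rwa [pow_zero, Equiv.Perm.one_apply] at h1

/-- the shift -/
noncomputable def T (π : Equiv.Perm (Fin g)) : Module.End ℤ (Fin g → ℤ) :=
  LinearMap.funLeft ℤ ℤ π

theorem T_pow (π : Equiv.Perm (Fin g)) (k : ℕ) (x : Fin g → ℤ) (i : Fin g) :
    ((T π) ^ k) x i = x ((π ^ k) i) := by
  induction k generalizing i with
  | zero => simp
  | succ k ih =>
    rw [pow_succ', Module.End.mul_apply, pow_succ, Equiv.Perm.mul_apply]
    show ((T π ^ k) x) (π i) = _
    rw [ih]

theorem mem_aeval {R : AddSubgroup (Fin g → ℤ)} (hR : ∀ e ∈ R, (fun i => e (π i)) ∈ R)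
    (A : ℤ[X]) {x : Fin g → ℤ} (hx : x ∈ R) : aeval (T π) A x ∈ R := by
  have hk : ∀ k : ℕ, ((T π) ^ k) x ∈ R := by
    intro k
    induction k with
    | zero => simpa using hx
    | succ k ih =>
      rw [pow_succ', Module.End.mul_apply]
      exact hR _ ih
  rw [aeval_eq_sum_range, LinearMap.sum_apply]
  refine R.sum_mem fun k _ => ?_
  rw [LinearMap.smul_apply]
  exact R.zsmul_mem (hk k) _

/-- the polynomial of `x` -/
noncomputable def XP (π : Equiv.Perm (Fin g)) (z : Fin g) (x : Fin g → ℤ) : ℤ[X] :=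
  ∑ k ∈ Finset.range g, C (x ((π ^ k) z)) * X ^ (g - 1 - k)

theorem XP_apply (h : ∀ i j, ∃ n : ℕ, (π ^ n) i = j) (z : Fin g) (x : Fin g → ℤ) :
    aeval (T π) (XP π z x) (Pi.single ((π ^ (g - 1)) z) 1) = x := by
  funext i
  obtain ⟨n, hn⟩ := h z i
  have hg : 0 < g := lt_of_le_of_lt (Nat.zero_le _) z.2
  obtain ⟨l, hl, hli⟩ : ∃ l < g, (π ^ l) z = i := by
    refine ⟨n % g, Nat.mod_lt _ hg, ?_⟩
    rw [← hn]
    exact (cyc h z _ _).2 (Nat.mod_modEq _ _)
  have h1 : aeval (T π) (XP π z x) (Pi.single ((π ^ (g - 1)) z) 1) i =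
      ∑ k ∈ Finset.range g, x ((π ^ k) z) *
        (Pi.single ((π ^ (g - 1)) z) (1 : ℤ) : Fin g → ℤ) ((π ^ (g - 1 - k)) i) := by
    unfold XP
    rw [map_sum, LinearMap.sum_apply, Finset.sum_apply]
    refine Finset.sum_congr rfl fun k _ => ?_
    rw [map_mul, aeval_C, map_pow, aeval_X, Module.End.mul_apply,
      Module.algebraMap_end_apply, Pi.smul_apply, smul_eq_mul, T_pow]
  rw [h1, Finset.sum_eq_single l]
  · have h2 : (π ^ (g - 1 - l)) i = (π ^ (g - 1)) z := by
      rw [← hli, ← Equiv.Perm.mul_apply, ← pow_add]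
      congr 2
      omega
    rw [h2, Pi.single_eq_same, mul_one, hli]
  · intro k hk hkl
    have hk' := Finset.mem_range.1 hk
    have h2 : (π ^ (g - 1 - k)) i ≠ (π ^ (g - 1)) z := by
      intro h3
      rw [← hli, ← Equiv.Perm.mul_apply, ← pow_add] at h3
      have h4 := (cyc h z _ _).1 h3
      have h5 : (g - 1 - k) + l ≡ (g - 1 - k) + k [MOD g] := by
        have e : (g - 1 - k) + k = g - 1 := by omega
        rw [e]
        exact h4
      have h6 : l ≡ k [MOD g] := Nat.ModEq.add_left_cancel' _ h5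
      exact hkl (Nat.ModEq.eq_of_lt_of_lt h6 hl hk').symm
    rw [Pi.single_eq_of_ne h2, mul_zero]
  · intro h2
    exact absurd (Finset.mem_range.2 hl) h2

theorem XP_coeff (z : Fin g) (x : Fin g → ℤ) {k : ℕ} (hk : k < g) :
    (XP π z x).coeff (g - 1 - k) = x ((π ^ k) z) := by
  unfold XP
  rw [finsetSum_coeff, Finset.sum_eq_single k]
  · rw [coeff_C_mul, coeff_X_pow, if_pos rfl, mul_one]
  · intro l hl hlk
    have hl' := Finset.mem_range.1 hl
    rw [coeff_C_mul, coeff_X_pow, if_neg (by omega), mul_zero]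
  · intro h2
    exact absurd (Finset.mem_range.2 hk) h2

theorem XP_deg (z : Fin g) (x : Fin g → ℤ) : (XP π z x).natDegree ≤ g - 1 := by
  unfold XP
  refine natDegree_sum_le_of_forall_le _ _ fun k _ => ?_
  refine (natDegree_C_mul_X_pow_le _ _).trans ?_
  omega

theorem not_dvd (hg : g.Prime) (h : ∀ i j, ∃ n : ℕ, (π ^ n) i = j) (z : Fin g) {x : Fin g → ℤ}
    (hx : ∃ i j, x i ≠ x j) : ¬ cyclotomic g ℚ ∣ (XP π z x).map (Int.castRingHom ℚ) := by
  intro hd
  have : Fact g.Prime := ⟨hg⟩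
  obtain ⟨Q, hQ⟩ := hd
  have hg0 : 0 < g := hg.pos
  have hdc : (cyclotomic g ℚ).natDegree = g - 1 := by
    rw [natDegree_cyclotomic, Nat.totient_prime hg]
  have hQd : Q.natDegree = 0 ∨ Q = 0 := by
    by_cases hQ0 : Q = 0
    · exact Or.inr hQ0
    · left
      have h1 := natDegree_mul (cyclotomic_ne_zero g ℚ) hQ0
      rw [← hQ, hdc] at h1
      have h2 : ((XP π z x).map (Int.castRingHom ℚ)).natDegree ≤ g - 1 :=
        natDegree_map_le.trans (XP_deg z x)
      omega
  have hQ1 : Q = C (Q.coeff 0) := by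
    rcases hQd with h1 | h1
    · exact eq_C_of_natDegree_eq_zero h1
    · rw [h1]; simp
  have h1 : ∀ k < g, (x ((π ^ k) z) : ℚ) = Q.coeff 0 := by
    intro k hk
    have h2 := XP_coeff (π := π) z x hk
    have h3 : ((XP π z x).map (Int.castRingHom ℚ)).coeff (g - 1 - k) = (x ((π ^ k) z) : ℚ) := by
      rw [coeff_map, h2]
      rfl
    rw [← h3, hQ, hQ1, mul_comm, coeff_C_mul, cyclotomic_prime, finsetSum_coeff,
      Finset.sum_eq_single (g - 1 - k)]
    · simp
    · intro l _ hl
      rw [coeff_X_pow, if_neg (Ne.symm hl)]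
    · intro h4
      exact absurd (Finset.mem_range.2 (by omega)) h4
  obtain ⟨i, j, hij⟩ := hx
  have h2 : ∀ i, (x i : ℚ) = Q.coeff 0 := by
    intro i
    obtain ⟨n, hn⟩ := h z i
    rw [← h1 (n % g) (Nat.mod_lt _ hg0)]
    rw [← hn, (cyc h z _ _).2 (Nat.mod_modEq n g)]
  apply hij
  have h3 : (x i : ℚ) = x j := by rw [h2, h2]
  exact_mod_cast h3

theorem clear (P : ℚ[X]) : ∃ (b : ℤ) (A : ℤ[X]), b ≠ 0 ∧
    A.map (Int.castRingHom ℚ) = C (b : ℚ) * P := by
  obtain ⟨b, hb, hb2⟩ := IsLocalization.integerNormalization_spec (nonZeroDivisors ℤ) P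
  refine ⟨b, IsLocalization.integerNormalization (nonZeroDivisors ℤ) P,
    nonZeroDivisors.ne_zero hb, ?_⟩
  have h1 : (b • P : ℚ[X]) = C (b : ℚ) * P := by
    rw [zsmul_eq_mul]
    congr 1
  rw [← h1, ← hb2]
  rfl

theorem bez (hg : g.Prime) (h : ∀ i j, ∃ n : ℕ, (π ^ n) i = j) (z : Fin g) {x : Fin g → ℤ}
    (hx : ∃ i j, x i ≠ x j) : ∃ (N : ℤ) (A B : ℤ[X]), N ≠ 0 ∧
      A * cyclotomic g ℤ + B * XP π z x = C N := by
  have h1 : IsCoprime (cyclotomic g ℚ) ((XP π z x).map (Int.castRingHom ℚ)) :=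
    (Irreducible.coprime_iff_not_dvd (cyclotomic.irreducible_rat hg.pos)).2 (not_dvd hg h z hx)
  obtain ⟨u, v, huv⟩ := h1
  obtain ⟨b, A, hb, hA⟩ := clear u
  obtain ⟨b', B, hb', hB⟩ := clear v
  refine ⟨b * b', C b' * A, C b * B, mul_ne_zero hb hb', ?_⟩
  apply map_injective (Int.castRingHom ℚ) (RingHom.injective_int _)
  rw [Polynomial.map_add, Polynomial.map_mul, Polynomial.map_mul, Polynomial.map_mul,
    Polynomial.map_mul, hA, hB, map_cyclotomic, map_C, map_C, map_C]
  have e1 : (Int.castRingHom ℚ) b' = (b' : ℚ) := rfl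
  have e2 : (Int.castRingHom ℚ) b = (b : ℚ) := rfl
  have e3 : (Int.castRingHom ℚ) (b * b') = (b : ℚ) * b' := by
    rw [map_mul]
    rfl
  rw [e1, e2, e3, C_mul]
  linear_combination (C (b : ℚ) * C (b' : ℚ)) * huv

theorem o6 (hg : g.Prime) (h : ∀ i j, ∃ n : ℕ, (π ^ n) i = j) {R : AddSubgroup (Fin g → ℤ)}
    (hR : ∀ e ∈ R, (fun i => e (π i)) ∈ R) {x : Fin g → ℤ} (hxR : x ∈ R)
    (hx : ∃ i j, x i ≠ x j) : ∃ N : ℤ, N ≠ 0 ∧
      ∀ i j, N • ((Pi.single i 1 : Fin g → ℤ) - Pi.single j 1) ∈ R := by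
  have : Fact g.Prime := ⟨hg⟩
  obtain ⟨z, hz⟩ : ∃ z : Fin g, True := ⟨hx.choose, trivial⟩
  obtain ⟨N, A, B, hN, hAB⟩ := bez hg h z hx
  refine ⟨N, hN, ?_⟩
  obtain ⟨d, hd⟩ : ∃ d : Fin g → ℤ, d = Pi.single ((π ^ (g - 1)) z) 1 := ⟨_, rfl⟩
  have h1 : C N * (X - 1) = A * (X ^ g - 1) + (B * (X - 1)) * XP π z x := by
    have h2 := cyclotomic_prime_mul_X_sub_one ℤ g
    rw [← hAB, ← h2]
    ring
  have h2 : aeval (T π) (XP π z x) d = x := by rw [hd]; exact XP_apply h z x
  have h3 : ((T π) ^ g) d = d := by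
    funext i
    rw [T_pow, pow_g h]
  have h4 : aeval (T π) (C N * (X - 1)) d ∈ R := by
    rw [h1, map_add, LinearMap.add_apply, map_mul, Module.End.mul_apply, map_sub, map_pow,
      aeval_X, map_one, LinearMap.sub_apply, h3, Module.End.one_apply, sub_self, map_zero,
      zero_add, map_mul, Module.End.mul_apply, h2]
    exact mem_aeval hR _ hxR
  have h5 : N • ((T π) d - d) ∈ R := by
    rw [map_mul, aeval_C, map_sub, aeval_X, map_one, Module.End.mul_apply,
      Module.algebraMap_end_apply, LinearMap.sub_apply, Module.End.one_apply] at h4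
    exact h4
  have h6 : ∀ k : ℕ, N • (((T π) ^ k) d - d) ∈ R := by
    intro k
    induction k with
    | zero =>
      rw [pow_zero, Module.End.one_apply, sub_self, smul_zero]
      exact R.zero_mem
    | succ k ih =>
      have h7 := hR _ ih
      have h8 := R.add_mem h7 h5
      have h9 : (fun i => (N • (((T π) ^ k) d - d)) (π i)) + N • ((T π) d - d) =
          N • (((T π) ^ (k + 1)) d - d) := by
        funext i
        simp only [Pi.add_apply, Pi.smul_apply, Pi.sub_apply, smul_eq_mul]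
        have e1 : ((T π) ^ (k + 1)) d i = ((T π) ^ k) d (π i) := by
          rw [T_pow, T_pow, pow_succ, Equiv.Perm.mul_apply]
        have e2 : (T π) d i = d (π i) := rfl
        rw [e1, e2]
        ring
      rw [h9] at h8
      exact h8
  have h7 : ∀ i, N • ((Pi.single i 1 : Fin g → ℤ) - d) ∈ R := by
    intro i
    obtain ⟨k, hk⟩ := h i ((π ^ (g - 1)) z)
    have h8 : ((T π) ^ k) d = Pi.single i 1 := by
      funext m
      rw [T_pow, hd]
      by_cases hm : m = i
      · rw [hm, hk, Pi.single_eq_same, Pi.single_eq_same]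
      · rw [Pi.single_eq_of_ne hm, Pi.single_eq_of_ne]
        intro h9
        rw [← hk] at h9
        exact hm ((π ^ k).injective h9)
    rw [← h8]
    exact h6 k
  intro i j
  have h8 := R.sub_mem (h7 i) (h7 j)
  have h9 : N • ((Pi.single i 1 : Fin g → ℤ) - d) - N • ((Pi.single j 1 : Fin g → ℤ) - d) =
      N • ((Pi.single i 1 : Fin g → ℤ) - Pi.single j 1) := by
    rw [← smul_sub, sub_sub_sub_cancel_right]
  rw [h9] at h8
  exact h8

end cycle

/-! ### The group -/

/-- the hypotheses on the group -/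
structure Grp {g : ℕ} (G : Set (Equiv.Perm (Fin g) × (Fin g → ℤ))) : Prop where
  prime : g.Prime
  hg : 3 ≤ g
  sgn : ∀ t ∈ G, ∀ i, t.2 i = 1 ∨ t.2 i = -1
  mul : ∀ t ∈ G, ∀ u ∈ G, (u.1 * t.1, fun i => t.2 i * u.2 (t.1 i)) ∈ G
  tra : ∀ i j, ∃ t ∈ G, t.1 i = j
  neg : (1, fun _ => -1) ∈ G

variable {g : ℕ} {G : Set (Equiv.Perm (Fin g) × (Fin g → ℤ))}

theorem sq (h : Grp G) {π : Equiv.Perm (Fin g)} {s : Fin g → ℤ} (ht : (π, s) ∈ G) (i : Fin g) :
    s i * s i = 1 := by
  have h1 := h.sgn _ ht i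
  simp only at h1
  rcases h1 with h1 | h1 <;> rw [h1] <;> norm_num

theorem pw (h : Grp G) {π : Equiv.Perm (Fin g)} {s : Fin g → ℤ} (ht : (π, s) ∈ G) (n : ℕ) :
    ∃ u, (π ^ (n + 1), u) ∈ G := by
  induction n with
  | zero => exact ⟨s, by simpa using ht⟩
  | succ n ih =>
    obtain ⟨u, hu⟩ := ih
    have h1 := h.mul _ ht _ hu
    refine ⟨fun i => s i * u (π i), ?_⟩
    rw [pow_succ]
    exact h1

/-- the group of the permutations -/
def H (h : Grp G) : Subgroup (Equiv.Perm (Fin g)) where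
  carrier := {π | ∃ s, (π, s) ∈ G}
  mul_mem' := by
    rintro a b ⟨s, hs⟩ ⟨u, hu⟩
    exact ⟨_, h.mul _ hu _ hs⟩
  one_mem' := ⟨_, h.neg⟩
  inv_mem' := by
    rintro a ⟨s, hs⟩
    have h1 : 0 < orderOf a := orderOf_pos a
    have h2 : a⁻¹ = a ^ (orderOf a - 1) := by
      rw [inv_eq_iff_mul_eq_one, ← pow_succ', Nat.sub_add_cancel h1, pow_orderOf_eq_one]
    by_cases h3 : orderOf a = 1
    · rw [orderOf_eq_one_iff] at h3
      rw [h3, inv_one]
      exact ⟨_, h.neg⟩
    · obtain ⟨u, hu⟩ := pw h hs (orderOf a - 2)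
      refine ⟨u, ?_⟩
      rw [h2]
      have h4 : orderOf a - 1 = orderOf a - 2 + 1 := by omega
      rw [h4]
      exact hu

theorem ex_cyc (h : Grp G) : ∃ (π : Equiv.Perm (Fin g)) (s : Fin g → ℤ), (π, s) ∈ G ∧
    ∀ i j, ∃ n : ℕ, (π ^ n) i = j := by
  have : Fact g.Prime := ⟨h.prime⟩
  obtain ⟨z⟩ : Nonempty (Fin g) := ⟨⟨0, h.prime.pos⟩⟩
  have h1 : g ∣ Nat.card (H h) := by
    have h3 : MulAction.orbit (H h) z = Set.univ := by
      rw [Set.eq_univ_iff_forall]
      intro j
      obtain ⟨t, ht, htj⟩ := h.tra z j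
      exact ⟨⟨t.1, ⟨t.2, ht⟩⟩, htj⟩
    have h2 := MulAction.index_stabilizer (H h) z
    rw [h3, Set.ncard_univ, Nat.card_eq_fintype_card, Fintype.card_fin] at h2
    have h4 := (MulAction.stabilizer (H h) z).index_dvd_card
    rw [h2] at h4
    exact h4
  obtain ⟨σ, hσ⟩ := exists_prime_orderOf_dvd_card' g h1
  obtain ⟨s, hs⟩ := σ.2
  refine ⟨σ.1, s, hs, ?_⟩
  have h2 : orderOf (σ : Equiv.Perm (Fin g)) = g := by
    rw [Subgroup.orderOf_coe]
    exact hσ
  have h3 : (σ : Equiv.Perm (Fin g)).IsCycle :=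
    Equiv.Perm.isCycle_of_prime_order'' (by rw [Fintype.card_fin]; exact h.prime)
      (by rw [Fintype.card_fin]; exact h2)
  have h4 : (σ : Equiv.Perm (Fin g)).support = Finset.univ := by
    refine Finset.eq_univ_of_card _ ?_
    rw [← h3.orderOf, h2, Fintype.card_fin]
  intro i j
  refine h3.exists_pow_eq ?_ ?_
  · exact Equiv.Perm.mem_support.1 (h4 ▸ Finset.mem_univ i)
  · exact Equiv.Perm.mem_support.1 (h4 ▸ Finset.mem_univ j)

/-- the invariant signs -/
theorem ex_c (h : Grp G) : ∃ (π : Equiv.Perm (Fin g)) (s c : Fin g → ℤ), (π, s) ∈ G ∧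
    (∀ i j, ∃ n : ℕ, (π ^ n) i = j) ∧ (∀ i, c i = 1 ∨ c i = -1) ∧
    ∀ i, s i * c (π i) = c i := by
  obtain ⟨π, s₀, hs₀, hπ⟩ := ex_cyc h
  obtain ⟨z⟩ : Nonempty (Fin g) := ⟨⟨0, h.prime.pos⟩⟩
  obtain ⟨s, hs, hs1⟩ : ∃ s, (π, s) ∈ G ∧ ∏ i, s i = 1 := by
    have h1 : ∏ i, s₀ i = 1 ∨ ∏ i, s₀ i = -1 := by
      have h2 : (∏ i, s₀ i) * (∏ i, s₀ i) = 1 := by
        rw [← Finset.prod_mul_distrib]
        exact Finset.prod_eq_one fun i _ => sq h hs₀ i
      exact mul_self_eq_one_iff.1 h2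
    rcases h1 with h1 | h1
    · exact ⟨s₀, hs₀, h1⟩
    · have h3 := h.mul _ hs₀ _ h.neg
      refine ⟨fun i => s₀ i * -1, by simpa only [one_mul] using h3, ?_⟩
      rw [Finset.prod_mul_distrib, h1, Finset.prod_const, Finset.card_univ, Fintype.card_fin]
      have h4 : Odd g := h.prime.odd_of_ne_two (by have := h.hg; omega)
      rw [h4.neg_one_pow]
      norm_num
  -- the products along the cycle
  obtain ⟨P, hP⟩ : ∃ P : ℕ → ℤ, ∀ n, P n = ∏ l ∈ Finset.range n, s ((π ^ l) z) :=
    ⟨_, fun _ => rfl⟩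
  have hP1 : ∀ n, P (n + 1) = P n * s ((π ^ n) z) := fun n => by
    rw [hP, hP, Finset.prod_range_succ]
  have hPg : P g = 1 := by
    rw [hP, ← hs1]
    refine Finset.prod_bij (fun l _ => (π ^ l) z) (fun _ _ => Finset.mem_univ _) ?_ ?_
      (fun _ _ => rfl)
    · intro a ha b hb hab
      exact Nat.ModEq.eq_of_lt_of_lt ((cyc hπ z _ _).1 hab) (Finset.mem_range.1 ha)
        (Finset.mem_range.1 hb)
    · intro j _
      obtain ⟨n, hn⟩ := hπ z j
      refine ⟨n % g, Finset.mem_range.2 (Nat.mod_lt _ h.prime.pos), ?_⟩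
      rw [← hn]
      exact (cyc hπ z _ _).2 (Nat.mod_modEq _ _)
  have hPper : ∀ n, P (n + g) = P n := by
    intro n
    induction n with
    | zero =>
      rw [zero_add, hPg, hP, Finset.prod_range_zero]
    | succ n ih =>
      have e : n + 1 + g = (n + g) + 1 := by ring
      have e2 : (π ^ (n + g)) z = (π ^ n) z := (cyc hπ z _ _).2 (by simp [Nat.ModEq])
      rw [e, hP1, hP1, ih, e2]
  have hPmod : ∀ n, P (n % g) = P n := fun n => Function.Periodic.map_mod_nat hPper n
  have hPeq : ∀ m n, (π ^ m) z = (π ^ n) z → P m = P n := by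
    intro m n hmn
    have h1 : m % g = n % g := (cyc hπ z m n).1 hmn
    rw [← hPmod m, ← hPmod n, h1]
  choose nn hnn using hπ z
  refine ⟨π, s, fun i => P (nn i), hs, hπ, fun i => ?_, fun i => ?_⟩
  · have h1 : P (nn i) * P (nn i) = 1 := by
      rw [hP, ← Finset.prod_mul_distrib]
      exact Finset.prod_eq_one fun l _ => sq h hs _
    exact mul_self_eq_one_iff.1 h1
  · have h1 : P (nn (π i)) = P (nn i + 1) := by
      apply hPeq
      rw [hnn, pow_succ', Equiv.Perm.mul_apply, hnn]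
    show s i * P (nn (π i)) = P (nn i)
    rw [h1, hP1, hnn]
    calc s i * (P (nn i) * s i) = P (nn i) * (s i * s i) := by ring
      _ = P (nn i) := by rw [sq h hs, mul_one]

section R

variable {R : AddSubgroup (Fin g → ℤ)}

/-- the hypotheses on the relations -/
structure Rel (G : Set (Equiv.Perm (Fin g) × (Fin g → ℤ))) (R : AddSubgroup (Fin g → ℤ)) :
    Prop where
  act : ∀ t ∈ G, ∀ x ∈ R, (fun i => t.2 i * x (t.1 i)) ∈ R
  sat : ∀ (n : ℤ) (x : Fin g → ℤ), n ≠ 0 → n • x ∈ R → x ∈ R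

theorem all_single (h : Grp G) (hR : Rel G R) {i : Fin g}
    (hi : (Pi.single i 1 : Fin g → ℤ) ∈ R) (j : Fin g) : (Pi.single j 1 : Fin g → ℤ) ∈ R := by
  obtain ⟨t, ht, htj⟩ := h.tra j i
  have h1 := hR.act _ ht _ hi
  have h2 : (fun k => t.2 k * (Pi.single i 1 : Fin g → ℤ) (t.1 k)) =
      t.2 j • (Pi.single j 1 : Fin g → ℤ) := by
    funext k
    by_cases hk : k = j
    · subst hk
      rw [htj, Pi.single_eq_same, Pi.smul_apply, Pi.single_eq_same, smul_eq_mul]
    · have h3 : t.1 k ≠ i := by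
        intro h4
        rw [← htj] at h4
        exact hk (t.1.injective h4)
      rw [Pi.single_eq_of_ne h3, Pi.smul_apply, Pi.single_eq_of_ne hk, smul_eq_mul]
      simp
  rw [h2] at h1
  have h3 := sq h (show (t.1, t.2) ∈ G from ht) j
  exact hR.sat _ _ (fun h4 => by rw [h4] at h3; simp at h3) h1

theorem not_all {e : Fin g → ℤ} (he : Exo (fun x => x ∈ R) e)
    (h : ∀ j, (Pi.single j 1 : Fin g → ℤ) ∈ R) : False := by
  have h1 : ∀ (j : Fin g) (n : ℤ), (Pi.single j n : Fin g → ℤ) ∈ R := by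
    intro j n
    have h2 : (Pi.single j n : Fin g → ℤ) = n • Pi.single j 1 := by
      rw [← Pi.single_smul, smul_eq_mul, mul_one]
    rw [h2]
    exact R.zsmul_mem (h j) n
  obtain ⟨i, hi⟩ := he.ne
  by_cases h2 : ∃ j, j ≠ i ∧ e j ≠ 0
  · obtain ⟨j, hji, hj⟩ := h2
    exact he.pair i j hji.symm hi hj (R.add_mem (h1 _ _) (h1 _ _))
  · push Not at h2
    have h3 : ∑ k, e k = e i := Finset.sum_eq_single i (fun k _ hk => h2 k hk)
      (fun h4 => absurd (Finset.mem_univ i) h4)
    have h4 := he.even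
    rw [h3] at h4
    obtain ⟨r, hr⟩ := h4
    refine he.two i ?_ (h i)
    rcases abs_cases (e i) with ⟨h5, h6⟩ | ⟨h5, h6⟩ <;> rw [h5] <;> omega

end R

theorem p2 : P2 := by
  intro g hgp hg G R e hsg hmul htra hneg hact hsat he
  have h : Grp G := ⟨hgp, hg, hsg, hmul, htra, hneg⟩
  have hR : Rel G R := ⟨hact, hsat⟩
  obtain ⟨z⟩ : Nonempty (Fin g) := ⟨⟨0, hgp.pos⟩⟩
  obtain ⟨π, s, c, hs, hπ, hc1, hsc⟩ := ex_c h
  have hcc : ∀ i, c i * c i = 1 := fun i => by rcases hc1 i with h1 | h1 <;> rw [h1] <;> norm_num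
  have hc0 : ∀ i, c i ≠ 0 := fun i h7 => by have := hcc i; rw [h7] at this; simp at this
  -- the twisted group
  obtain ⟨R', hR'⟩ : ∃ R' : AddSubgroup (Fin g → ℤ), ∀ y, y ∈ R' ↔ (fun k => c k * y k) ∈ R := by
    refine ⟨{ carrier := {y | (fun k => c k * y k) ∈ R}, zero_mem' := ?_, add_mem' := ?_,
              neg_mem' := ?_ }, fun y => Iff.rfl⟩
    · intro a b ha hb
      have h1 := R.add_mem ha hb
      have h2 : ((fun k => c k * a k) + fun k => c k * b k) = fun k => c k * (a + b) k := by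
        funext k
        simp only [Pi.add_apply]
        ring
      rw [h2] at h1
      exact h1
    · have h2 : (fun k => c k * (0 : Fin g → ℤ) k) = 0 := by
        funext k
        simp
      show (fun k => c k * (0 : Fin g → ℤ) k) ∈ R
      rw [h2]
      exact R.zero_mem
    · intro a ha
      have h1 := R.neg_mem ha
      have h2 : (-(fun k => c k * a k)) = fun k => c k * (-a) k := by
        funext k
        simp only [Pi.neg_apply]
        ring
      rw [h2] at h1
      exact h1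
  have hst : ∀ y ∈ R', (fun i => y (π i)) ∈ R' := by
    intro y hy
    rw [hR'] at hy ⊢
    have h1 := hact _ hs _ hy
    have h2 : (fun i => s i * (c (π i) * y (π i))) = fun k => c k * y (π k) := by
      funext k
      rw [← mul_assoc, hsc]
    simp only at h1
    rw [h2] at h1
    exact h1
  have hsat' : ∀ (n : ℤ) (y : Fin g → ℤ), n ≠ 0 → (fun k => c k * (n * y k)) ∈ R →
      (fun k => c k * y k) ∈ R := by
    intro n y hn hy
    refine hsat n _ hn ?_
    have h2 : (n • fun k => c k * y k) = fun k => c k * (n * y k) := by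
      funext k
      simp only [Pi.smul_apply, smul_eq_mul]
      ring
    rw [h2]
    exact hy
  have hsing : ∀ i, (fun k => c k * (Pi.single i 1 : Fin g → ℤ) k) ∈ R →
      (Pi.single i 1 : Fin g → ℤ) ∈ R := by
    intro i hi
    refine hsat (c i) _ (hc0 i) ?_
    have h2 : (c i • (Pi.single i 1 : Fin g → ℤ)) =
        fun k => c k * (Pi.single i 1 : Fin g → ℤ) k := by
      funext k
      by_cases hk : k = i
      · subst hk; rw [Pi.smul_apply, smul_eq_mul]
      · rw [Pi.smul_apply, Pi.single_eq_of_ne hk, smul_eq_mul, mul_zero, mul_zero]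
    rw [h2]
    exact hi
  have hconst : ∀ x ∈ R, ∀ i j, c i * x i = c j * x j := by
    intro x hx i j
    by_contra hne
    have hx' : (fun k => c k * (c k * x k)) ∈ R := by
      have h2 : (fun k => c k * (c k * x k)) = x := by
        funext k
        rw [← mul_assoc, hcc, one_mul]
      rw [h2]
      exact hx
    obtain ⟨N, hN, hN2⟩ := o6 hgp hπ hst (x := fun k => c k * x k) ((hR' _).2 hx') ⟨i, j, hne⟩
    have h4 : ∀ k l, k ≠ l →
        (fun m => c m * ((Pi.single k 1 : Fin g → ℤ) m - (Pi.single l 1 : Fin g → ℤ) m)) ∈ R := by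
      intro k l _
      have h5 := (hR' _).1 (hN2 k l)
      refine hsat' N (fun m => (Pi.single k 1 : Fin g → ℤ) m - (Pi.single l 1 : Fin g → ℤ) m)
        hN ?_
      exact h5
    -- the signs
    have h5 : ∀ k l, k ≠ l → e k ≠ 0 → e l ≠ 0 → 0 < (c k * e k) * (c l * e l) := by
      intro k l hkl hek hel
      by_contra h6
      have hck := hc0 k
      have hcl := hc0 l
      have h7 : (c k * e k) * (c l * e l) < 0 :=
        lt_of_le_of_ne (not_lt.1 h6) (mul_ne_zero (mul_ne_zero hck hek) (mul_ne_zero hcl hel))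
      have h8 : (e k).sign * c k = -((e l).sign * c l) := by
        have h9 : (c k * e k * (c l * e l)).sign = -1 := Int.sign_eq_neg_one_of_neg h7
        rw [Int.sign_mul, Int.sign_mul, Int.sign_mul] at h9
        rcases hc1 k with a | a <;> rcases hc1 l with b | b <;>
          rcases Int.sign_trichotomy (e k) with c' | c' | c' <;>
          rcases Int.sign_trichotomy (e l) with d | d | d <;>
          rw [a, b, c', d] at h9 ⊢ <;> simp at h9 ⊢
      refine he.pair k l hkl hek hel ?_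
      have h9 := R.zsmul_mem (h4 k l hkl) ((e k).sign * c k)
      have h10 : ((e k).sign * c k) • (fun m => c m * ((Pi.single k 1 : Fin g → ℤ) m -
          (Pi.single l 1 : Fin g → ℤ) m)) = Pi.single k (e k).sign + Pi.single l (e l).sign := by
        funext m
        simp only [Pi.smul_apply, smul_eq_mul, Pi.add_apply]
        by_cases hm : m = k
        · subst hm
          rw [Pi.single_eq_same, Pi.single_eq_of_ne hkl, Pi.single_eq_same,
            Pi.single_eq_of_ne hkl]
          have := hcc m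
          linear_combination ((e m).sign) * this
        · by_cases hm' : m = l
          · subst hm'
            rw [Pi.single_eq_same, Pi.single_eq_of_ne hm, Pi.single_eq_of_ne hm,
              Pi.single_eq_same]
            have := hcc m
            rw [h8]
            linear_combination ((e m).sign) * this
          · rw [Pi.single_eq_of_ne hm, Pi.single_eq_of_ne hm', Pi.single_eq_of_ne hm,
              Pi.single_eq_of_ne hm']
            ring
      rw [h10] at h9
      exact h9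
    have h6 : ∑ k, c k * e k ≠ 0 := by
      obtain ⟨i0, hi0⟩ := he.ne
      have hci := hc0 i0
      intro h7
      have h8 : (c i0 * e i0) * ∑ k, c k * e k = 0 := by rw [h7, mul_zero]
      rw [Finset.mul_sum] at h8
      have h9 : ∀ k ∈ (Finset.univ : Finset (Fin g)), 0 ≤ c i0 * e i0 * (c k * e k) := by
        intro k _
        by_cases hk : k = i0
        · rw [hk]; exact mul_self_nonneg _
        · by_cases hek : e k = 0
          · rw [hek]; simp
          · exact (h5 i0 k (Ne.symm hk) hi0 hek).le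
      have h10 := (Finset.sum_eq_zero_iff_of_nonneg h9).1 h8 i0 (Finset.mem_univ _)
      exact (mul_ne_zero (mul_ne_zero hci hi0) (mul_ne_zero hci hi0)) h10
    -- so `d_z` is in `R`
    have h7 : (fun k => c k * (c k * e k)) ∈ R := by
      have h8 : (fun k => c k * (c k * e k)) = e := by
        funext k
        rw [← mul_assoc, hcc, one_mul]
      rw [h8]
      exact he.rel
    have h8 : ∀ k ∈ (Finset.univ : Finset (Fin g)), (c k * e k) • (fun m => c m *
        ((Pi.single k 1 : Fin g → ℤ) m - (Pi.single z 1 : Fin g → ℤ) m)) ∈ R := by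
      intro k _
      refine R.zsmul_mem ?_ _
      by_cases hk : k = z
      · rw [hk]
        have : (fun m => c m * ((Pi.single z 1 : Fin g → ℤ) m - (Pi.single z 1 : Fin g → ℤ) m)) =
            0 := by
          funext m
          simp
        rw [this]
        exact R.zero_mem
      · exact h4 k z hk
    have h9 := R.sub_mem h7 (R.sum_mem h8)
    have h10 : ((fun k => c k * (c k * e k)) - ∑ k, (c k * e k) • (fun m => c m *
        ((Pi.single k 1 : Fin g → ℤ) m - (Pi.single z 1 : Fin g → ℤ) m))) =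
        fun m => c m * ((∑ k, c k * e k) * (Pi.single z 1 : Fin g → ℤ) m) := by
      funext m
      simp only [Pi.sub_apply, Finset.sum_apply, Pi.smul_apply, smul_eq_mul]
      have h11 : ∑ k, c k * e k * (c m * ((Pi.single k 1 : Fin g → ℤ) m -
          (Pi.single z 1 : Fin g → ℤ) m)) = c m * (c m * e m) -
          c m * ((∑ k, c k * e k) * (Pi.single z 1 : Fin g → ℤ) m) := by
        have h12 : ∀ k, c k * e k * (c m * ((Pi.single k 1 : Fin g → ℤ) m -
          (Pi.single z 1 : Fin g → ℤ) m)) = c m * ((c k * e k) * (Pi.single k 1 : Fin g → ℤ) m) -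
            c m * ((c k * e k) * (Pi.single z 1 : Fin g → ℤ) m) := fun k => by ring
        rw [Finset.sum_congr rfl fun k _ => h12 k, Finset.sum_sub_distrib, ← Finset.mul_sum,
          ← Finset.mul_sum, ← Finset.sum_mul]
        congr 2
        rw [Finset.sum_eq_single m]
        · rw [Pi.single_eq_same, mul_one]
        · intro k _ hk
          rw [Pi.single_eq_of_ne (Ne.symm hk), mul_zero]
        · intro h13; exact absurd (Finset.mem_univ m) h13
      rw [h11]
      ring
    rw [h10] at h9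
    have h11 := hsing z (hsat' _ _ h6 h9)
    exact not_all he (all_single h hR h11)
  have hmul' : ∀ x ∈ R, ∃ n : ℤ, x = n • c := by
    intro x hx
    refine ⟨c z * x z, ?_⟩
    funext k
    rw [Pi.smul_apply, smul_eq_mul, hconst x hx z k]
    calc x k = (c k * c k) * x k := by rw [hcc, one_mul]
      _ = c k * x k * c k := by ring
  have hcR : c ∈ R := by
    obtain ⟨n, hn⟩ := hmul' e he.rel
    obtain ⟨i, hi⟩ := he.ne
    have hn0 : n ≠ 0 := by
      intro h1
      rw [h1, zero_smul] at hn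
      rw [hn] at hi
      exact hi rfl
    have h1 := he.rel
    rw [hn] at h1
    exact hsat n c hn0 h1
  refine ⟨c, hc1, ?_, hcR, hmul'⟩
  intro t ht
  obtain ⟨n, hn⟩ := hmul' _ (hact t ht c hcR)
  have h1 : ∀ i, t.2 i * c (t.1 i) = n * c i := fun i => by
    have := congrFun hn i
    simpa using this
  have h2 : n = 1 ∨ n = -1 := by
    have h3 := h1 z
    rcases hsg t ht z with a | a <;> rcases hc1 (t.1 z) with b | b <;>
      rcases hc1 z with c' | c' <;> rw [a, b, c'] at h3 <;> omega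
  rcases h2 with h2 | h2
  · left
    intro i
    rw [h1 i, h2, one_mul]
  · right
    intro i
    rw [h1 i, h2, neg_one_mul]

end Pool.Agent.H199.PDP2
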