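import Pool.Agent.H857.PD.Core

/-!
# PD P4: exotic relations in prime dimension come from Weil classes (helper795)

Variation of `Pool/Agent/H857/SG/P/B4.lean` (helper980).
-/

set_option autoImplicit false

namespace Pool.Agent.H795.PD4

open Module Polynomial Pool.Agent.W521.Descent Pool.Agent.W521.Density Pool.Agent.W521.Count
  Pool.Agent.X297.UB Pool.Agent.H857.PB Pool.Agent.H857.PA Pool.Agent.H857.HK Pool.Agent.H857.EF
  Pool.Agent.H857.WT Pool.Agent.H857.SG Pool.Agent.H857.PD
open scoped ComplexConjugate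

lemma isGal : IsGalois ℚ QB := by
  have h := algebraicClosure.isAlgClosure ℚ ℂ
  have h2 : (algebraicClosure ℚ ℂ).algebra' = (inferInstance : Algebra ℚ QB) :=
    Subsingleton.elim _ _
  rw [h2] at h
  exact @IsAlgClosure.isGalois ℚ QB _ _ _ h _

/-- a number fixed by all automorphisms is rational -/
lemma rat_of_fixed {t : QB} (h : ∀ σ : QB ≃ₐ[ℚ] QB, σ t = t) : ∃ r : ℚ, (t : ℂ) = r := by
  have := isGal
  have h1 := (InfiniteGalois.mem_bot_iff_fixed (k := ℚ) (K := QB) t).2 h
  rw [IntermediateField.mem_bot] at h1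
  obtain ⟨r, hr⟩ := h1
  refine ⟨r, ?_⟩
  rw [← hr]
  exact map_ratCast (algebraMap QB ℂ) r

theorem ne_zero_of_weil {n q : ℕ} {z : Fin n → QB} (hz : Weil q n z) (hq : 0 < q) (i : Fin n) :
    (z i : ℂ) ≠ 0 := by
  intro h0
  have := hz.norm i
  rw [h0, norm_zero] at this
  have h1 : (q : ℝ) = 0 := by rw [← this]; norm_num
  exact hq.ne' (by exact_mod_cast h1)

/-- an imaginary number with rational square -/
theorem quad_of {δ : ℂ} (hre : δ.re = 0) (h0 : δ ≠ 0) {r : ℚ} (hr : δ ^ 2 = r) :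
    ∃ (D : ℕ) (t : ℚ), 0 < D ∧ r ≠ 0 ∧ δ = t * (Real.sqrt D * Complex.I) := by
  have hδ : δ = δ.im * Complex.I := by
    apply Complex.ext
    · simp [hre]
    · simp
  have him : δ.im ≠ 0 := by
    intro h
    apply h0
    rw [hδ, h]
    simp
  have hsq : δ.im ^ 2 = ((-r : ℚ) : ℝ) := by
    have h1 : ((δ.im : ℝ) : ℂ) ^ 2 = ((-r : ℚ) : ℂ) := by
      push_cast
      rw [← hr]
      conv_rhs => rw [hδ]
      rw [mul_pow, Complex.I_sq]
      ring
    exact_mod_cast h1
  have hpos : 0 < -r := by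
    have h1 : (0 : ℝ) < ((-r : ℚ) : ℝ) := by
      rw [← hsq]
      positivity
    exact_mod_cast h1
  set s : ℚ := -r with hs
  have hnum : 0 < s.num := Rat.num_pos.2 hpos
  obtain ⟨n, hn⟩ := Int.eq_ofNat_of_zero_le hnum.le
  have hn0 : 0 < n := by
    have h2 : (0 : ℤ) < n := by rw [← hn]; exact hnum
    exact_mod_cast h2
  have hd0 : 0 < s.den := s.den_pos
  have hsnd : s = (n : ℚ) / (s.den : ℚ) := by
    have h3 := Rat.num_div_den s
    rw [hn] at h3
    push_cast at h3
    exact h3.symm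
  have hDr : Real.sqrt ((n * s.den : ℕ) : ℝ) ^ 2 = (n : ℝ) * s.den := by
    rw [Real.sq_sqrt (Nat.cast_nonneg _)]
    push_cast
    rfl
  have hdr : (s.den : ℝ) ≠ 0 := by exact_mod_cast hd0.ne'
  have hkey : (δ.im * s.den) ^ 2 = Real.sqrt ((n * s.den : ℕ) : ℝ) ^ 2 := by
    rw [hDr, mul_pow, hsq]
    have h4 := congrArg (fun w : ℚ => (w : ℝ)) hsnd
    simp only [Rat.cast_div, Rat.cast_natCast] at h4
    rw [h4]
    field_simp
  have hr0 : r ≠ 0 := by
    intro h
    rw [hs, h, neg_zero] at hpos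
    exact lt_irrefl _ hpos
  rcases sq_eq_sq_iff_eq_or_eq_neg.1 hkey with h5 | h5
  · refine ⟨n * s.den, 1 / (s.den : ℚ), Nat.mul_pos hn0 hd0, hr0, ?_⟩
    have h6 : δ.im = 1 / (s.den : ℝ) * Real.sqrt ((n * s.den : ℕ) : ℝ) := by
      rw [← h5]
      field_simp
    rw [hδ, h6]
    push_cast
    ring
  · refine ⟨n * s.den, -(1 / (s.den : ℚ)), Nat.mul_pos hn0 hd0, hr0, ?_⟩
    have h6 : δ.im = -(1 / (s.den : ℝ)) * Real.sqrt ((n * s.den : ℕ) : ℝ) := by
      have h7 : Real.sqrt ((n * s.den : ℕ) : ℝ) = -(δ.im * s.den) := by rw [h5, neg_neg]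
      rw [h7]
      field_simp
    rw [hδ, h6]
    push_cast
    ring

/-- **P4** -/
theorem p4 : P4 := by
  intro q g f β hq hg hR hw
  have hqB : (q : QB) ≠ 0 := by exact_mod_cast (by omega : q ≠ 0)
  have hq0 : (q : ℂ) ≠ 0 := by exact_mod_cast (by omega : q ≠ 0)
  have hβC : ∀ i, (β i : ℂ) ≠ 0 := ne_zero_of_weil hw (by omega)
  have hβ : ∀ i, β i ≠ 0 := by
    intro i h0
    apply hβC i
    rw [h0]
    rfl
  have hconj : ∀ i, (q : ℂ) / (β i : ℂ) = conj (β i : ℂ) := by
    intro i
    rw [div_eq_iff (hβC i), mul_comm, Complex.mul_conj, Complex.normSq_eq_norm_sq, hw.norm i]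
    simp
  -- the two factors over the algebraic numbers
  set H : QB[X] := ∏ i, (X - C (β i)) with hH
  set H' : QB[X] := ∏ i, (X - C ((q : QB) / β i)) with hH'
  have hHm : H.map (algebraMap QB ℂ) = ∏ i, (X - C (β i : ℂ)) := by
    rw [hH, Polynomial.map_prod]
    refine Finset.prod_congr rfl fun i _ => ?_
    rw [Polynomial.map_sub, map_X, map_C]
    rfl
  have hcc : ∀ i, algebraMap QB ℂ ((q : QB) / β i) = (q : ℂ) / (β i : ℂ) := by
    intro i
    rw [map_div₀, map_natCast]
    rfl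
  have hHm' : H'.map (algebraMap QB ℂ) = ∏ i, (X - C ((q : ℂ) / (β i : ℂ))) := by
    rw [hH', Polynomial.map_prod]
    refine Finset.prod_congr rfl fun i _ => ?_
    rw [Polynomial.map_sub, map_X, map_C, hcc]
  set h : ℂ[X] := ∏ i, (X - C (β i : ℂ)) with hh
  have hhc : h.map (starRingEnd ℂ) = ∏ i, (X - C ((q : ℂ) / (β i : ℂ))) := by
    rw [hh, Polynomial.map_prod]
    refine Finset.prod_congr rfl fun i _ => ?_
    rw [Polynomial.map_sub, map_X, map_C, hconj]
  have hmonic : h.Monic := monic_prod_of_monic _ _ fun i _ => monic_X_sub_C _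
  have hdeg : h.natDegree = g := by
    rw [hh, natDegree_prod_of_monic _ _ fun i _ => monic_X_sub_C _]
    simp
  have hA : ∀ k, h.coeff k = ((H.coeff k : QB) : ℂ) := by
    intro k
    rw [← hHm, coeff_map]
    rfl
  have hB : ∀ k, conj (h.coeff k) = ((H'.coeff k : QB) : ℂ) := by
    intro k
    rw [← coeff_map, hhc, ← hHm', coeff_map]
    rfl
  -- the action of the automorphisms
  have hact : ∀ σ : QB ≃ₐ[ℚ] QB, (∀ k, σ (H.coeff k) = H.coeff k ∧ σ (H'.coeff k) = H'.coeff k) ∨
      (∀ k, σ (H.coeff k) = H'.coeff k ∧ σ (H'.coeff k) = H.coeff k) := by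
    intro σ
    have hm1 : H.map (σ : QB →+* QB) = ∏ i, (X - C (σ (β i))) := by
      rw [hH, Polynomial.map_prod]
      refine Finset.prod_congr rfl fun i _ => ?_
      rw [Polynomial.map_sub, map_X, map_C]
      rfl
    have hm2 : H'.map (σ : QB →+* QB) = ∏ i, (X - C ((q : QB) / σ (β i))) := by
      rw [hH', Polynomial.map_prod]
      refine Finset.prod_congr rfl fun i _ => ?_
      rw [Polynomial.map_sub, map_X, map_C, map_div₀, map_natCast]
      rfl
    rcases hw.gal σ with ⟨π, hπ⟩ | ⟨π, hπ⟩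
    · left
      have e1 : H.map (σ : QB →+* QB) = H := by
        rw [hm1, hH, ← Equiv.prod_comp π (fun i => X - C (β i))]
        refine Finset.prod_congr rfl fun i _ => ?_
        rw [hπ]
      have e2 : H'.map (σ : QB →+* QB) = H' := by
        rw [hm2, hH', ← Equiv.prod_comp π (fun i => X - C ((q : QB) / β i))]
        refine Finset.prod_congr rfl fun i _ => ?_
        rw [hπ]
      intro k
      constructor
      · have := congrArg (fun p : QB[X] => p.coeff k) e1
        simp only [coeff_map] at this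
        exact this
      · have := congrArg (fun p : QB[X] => p.coeff k) e2
        simp only [coeff_map] at this
        exact this
    · right
      have e1 : H.map (σ : QB →+* QB) = H' := by
        rw [hm1, hH', ← Equiv.prod_comp π (fun i => X - C ((q : QB) / β i))]
        refine Finset.prod_congr rfl fun i _ => ?_
        rw [hπ]
      have e2 : H'.map (σ : QB →+* QB) = H := by
        rw [hm2, hH, ← Equiv.prod_comp π (fun i => X - C (β i))]
        refine Finset.prod_congr rfl fun i _ => ?_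
        rw [hπ, div_div_cancel₀ hqB]
      intro k
      constructor
      · have := congrArg (fun p : QB[X] => p.coeff k) e1
        simp only [coeff_map] at this
        exact this
      · have := congrArg (fun p : QB[X] => p.coeff k) e2
        simp only [coeff_map] at this
        exact this
  have hsum : ∀ k, ∃ r : ℚ, h.coeff k + conj (h.coeff k) = r := by
    intro k
    have hfix : ∀ σ : QB ≃ₐ[ℚ] QB, σ (H.coeff k + H'.coeff k) = H.coeff k + H'.coeff k := by
      intro σ
      rw [map_add]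
      rcases hact σ with h1 | h1
      · rw [(h1 k).1, (h1 k).2]
      · rw [(h1 k).1, (h1 k).2, add_comm]
    obtain ⟨r, hr⟩ := rat_of_fixed hfix
    refine ⟨r, ?_⟩
    rw [hB k, hA k, ← hr]
    push_cast
    rfl
  have hprod : ∀ k l, ∃ r : ℚ,
      (h.coeff k - conj (h.coeff k)) * (h.coeff l - conj (h.coeff l)) = r := by
    intro k l
    have hfix : ∀ σ : QB ≃ₐ[ℚ] QB,
        σ ((H.coeff k - H'.coeff k) * (H.coeff l - H'.coeff l)) =
          (H.coeff k - H'.coeff k) * (H.coeff l - H'.coeff l) := by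
      intro σ
      rw [map_mul, map_sub, map_sub]
      rcases hact σ with h1 | h1
      · rw [(h1 k).1, (h1 k).2, (h1 l).1, (h1 l).2]
      · rw [(h1 k).1, (h1 k).2, (h1 l).1, (h1 l).2]
        ring
    obtain ⟨r, hr⟩ := rat_of_fixed hfix
    refine ⟨r, ?_⟩
    rw [hB k, hA k, hB l, hA l, ← hr]
    push_cast
    rfl
  -- coprimality
  have hne : ∀ i j, (β i : ℂ) ≠ (q : ℂ) / (β j : ℂ) := by
    intro i j hij
    have h1 : (β i : ℂ) * (β j : ℂ) = q := by
      rw [hij]
      exact div_mul_cancel₀ _ (hβC j)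
    have hrel : RelZ q (fun i => (β i : ℂ)) (Pi.single i 1 + Pi.single j 1) := by
      refine ⟨1, one_pos, ?_⟩
      have e1 : ∀ i : Fin g, ∏ k, (β k : ℂ) ^ (2 * (Pi.single i (1 : ℤ) : Fin g → ℤ) k)
          = (β i : ℂ) ^ 2 := by
        intro i
        rw [Finset.prod_eq_single i]
        · rw [Pi.single_eq_same]
          exact_mod_cast rfl
        · intro k _ hk
          rw [Pi.single_eq_of_ne hk]
          simp
        · intro hi
          exact absurd (Finset.mem_univ i) hi
      have e2 : ∏ k, (β k : ℂ) ^ (2 * (Pi.single i (1 : ℤ) + Pi.single j 1 : Fin g → ℤ) k)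
          = (β i : ℂ) ^ 2 * (β j : ℂ) ^ 2 := by
        rw [← e1 i, ← e1 j, ← Finset.prod_mul_distrib]
        refine Finset.prod_congr rfl fun k _ => ?_
        rw [Pi.add_apply, mul_add, zpow_add₀ (hβC k)]
      have e3 : ∑ k, (Pi.single i (1 : ℤ) + Pi.single j 1 : Fin g → ℤ) k = 2 := by
        simp only [Pi.add_apply]
        rw [Finset.sum_add_distrib, Finset.sum_pi_single', Finset.sum_pi_single']
        simp
      rw [pow_one, pow_one, e2, e3, ← mul_pow, h1]
      exact_mod_cast rfl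
    obtain ⟨n, hn⟩ := hw.rel _ hrel
    have h2 : ∑ k, (Pi.single i (1 : ℤ) + Pi.single j 1 : Fin g → ℤ) k = g * n := by
      rw [Finset.sum_congr rfl fun k _ => hn k, Finset.sum_const, Finset.card_univ,
        Fintype.card_fin, nsmul_eq_mul]
    have e3 : ∑ k, (Pi.single i (1 : ℤ) + Pi.single j 1 : Fin g → ℤ) k = 2 := by
      simp only [Pi.add_apply]
      rw [Finset.sum_add_distrib, Finset.sum_pi_single', Finset.sum_pi_single']
      simp
    rw [e3] at h2
    have h3 : (g : ℤ) ∣ 2 := ⟨n, h2⟩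
    have h4 : (g : ℤ) ≤ 2 := Int.le_of_dvd two_pos h3
    omega
  have hcop : IsCoprime h (h.map (starRingEnd ℂ)) := by
    rw [hhc, hh]
    refine IsCoprime.prod_left fun i _ => IsCoprime.prod_right fun j _ => ?_
    exact isCoprime_X_sub_C_of_isUnit_sub (sub_ne_zero.2 (hne i j)).isUnit
  have hk0 : ∃ k, conj (h.coeff k) ≠ h.coeff k := by
    by_contra hcon
    push Not at hcon
    have h1 : h.map (starRingEnd ℂ) = h := by
      ext k
      rw [coeff_map, hcon k]
    rw [h1, isCoprime_self] at hcop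
    have h2 := natDegree_eq_zero_of_isUnit hcop
    omega
  obtain ⟨k0, hk0⟩ := hk0
  set δ : ℂ := h.coeff k0 - conj (h.coeff k0) with hδ
  have hδ0 : δ ≠ 0 := sub_ne_zero.2 hk0.symm
  have hδre : δ.re = 0 := by rw [hδ]; simp
  obtain ⟨r, hr⟩ := hprod k0 k0
  obtain ⟨D, t, hD, hr0, hDt⟩ := quad_of hδre hδ0 (r := r) (by rw [pow_two]; exact hr)
  refine ⟨D, h, hD, hmonic, ?_, ?_, hcop, ?_⟩
  · intro k
    obtain ⟨a, ha⟩ := hsum k
    obtain ⟨b, hb⟩ := hprod k k0
    have hrC : (r : ℂ) ≠ 0 := by exact_mod_cast hr0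
    have h1 : h.coeff k - conj (h.coeff k) = b / r * δ := by
      have h2 : (h.coeff k - conj (h.coeff k)) * r = b * δ := by
        rw [← hr, ← hb, ← hδ]
        ring
      field_simp
      linear_combination h2
    refine ⟨a / 2, b / r * t / 2, ?_⟩
    have h3 : h.coeff k = (a + b / r * δ) / 2 := by
      linear_combination (ha + h1) / 2
    rw [h3, hDt]
    push_cast
    ring
  · rw [hR.map, Finset.prod_mul_distrib, hhc]
  · obtain ⟨N, hN, h1⟩ := hw.one
    refine ⟨N, hN, ?_⟩
    have e1 : ∏ i, (β i : ℂ) ^ (2 * (1 : ℤ)) = (∏ i, (β i : ℂ)) ^ 2 := by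
      rw [← Finset.prod_pow]
      refine Finset.prod_congr rfl fun i _ => ?_
      exact_mod_cast rfl
    have e2 : ((q : ℂ) ^ (∑ i : Fin g, (1 : ℤ))) = (q : ℂ) ^ g := by
      rw [Finset.sum_const, Finset.card_univ, Fintype.card_fin, nsmul_eq_mul, mul_one,
        zpow_natCast]
    have e3 : h.coeff 0 ^ 2 = (∏ i, (β i : ℂ)) ^ 2 := by
      rw [coeff_zero_eq_eval_zero, hh, eval_prod]
      simp only [eval_sub, eval_X, eval_C, zero_sub]
      rw [Finset.prod_neg, mul_pow, ← pow_mul, mul_comm _ 2, pow_mul, neg_one_sq, one_pow,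
        one_mul]
    rw [pow_mul, e3, ← e1, ← e2]
    exact h1

end Pool.Agent.H795.PD4
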