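import Pool.Agent.H857.PD.Core

/-!
# PD P6: the structure of the Tate classes in the exotic case, odd dimension (helper289, after
helper980's B6 and helper643's W12)
-/

set_option autoImplicit false

namespace Pool.Agent.H289.PDp6

open Module Polynomial Pool.Agent.W521.Descent Pool.Agent.W521.Density Pool.Agent.W521.Count
  Pool.Agent.X297.UB Pool.Agent.H857.PB Pool.Agent.H857.PA Pool.Agent.H857.HK Pool.Agent.H857.EF
  Pool.Agent.H857.WT Pool.Agent.H857.SG Pool.Agent.H857.PD

/-- the number of occurrences -/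
def cn {α : Type} [DecidableEq α] (p : α) (L : List α) : ℕ := L.count p

theorem cn_pos {α : Type} [DecidableEq α] {p : α} {L : List α} : 0 < cn p L ↔ p ∈ L :=
  List.count_pos_iff

theorem prod_cn {α : Type} [DecidableEq α] [Fintype α] (L : List α) (g : α → ℂ) :
    (L.map g).prod = ∏ p, g p ^ cn p L := by
  rw [Finset.prod_list_map_count, Finset.prod_subset (Finset.subset_univ _)]
  · rfl
  · intro p _ hp
    rw [List.count_eq_zero_of_not_mem (fun h => hp (List.mem_toFinset.2 h)), pow_zero]

theorem sum_cn {α : Type} [DecidableEq α] [Fintype α] (L : List α) :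
    L.length = ∑ p, cn p L := by
  rw [← List.sum_toFinset_count_eq_length L]
  refine Finset.sum_subset (Finset.subset_univ _) ?_
  intro p _ hp
  exact List.count_eq_zero_of_not_mem (fun h => hp (List.mem_toFinset.2 h))

/-- the labelled roots -/
noncomputable def gg (q : ℕ) {n : ℕ} (z : Fin n → QB) (p : Fin n × Bool) : ℂ :=
  if p.2 then (z p.1 : ℂ) else (q : ℂ) / (z p.1 : ℂ)

theorem norm_gg {n q : ℕ} {z : Fin n → QB} (hz : Weil q n z) (hq : 0 < q)
    (p : Fin n × Bool) : ‖gg q z p‖ ^ 2 = q := by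
  have hq' : (q : ℝ) ≠ 0 := by exact_mod_cast hq.ne'
  unfold gg
  split_ifs
  · exact hz.norm _
  · rw [norm_div, div_pow, hz.norm]
    simp only [Complex.norm_natCast]
    field_simp

theorem norm_prod {n q : ℕ} {z : Fin n → QB} (hz : Weil q n z) (hq : 0 < q)
    (L : List (Fin n × Bool)) : ‖(L.map (gg q z)).prod‖ ^ 2 = (q : ℝ) ^ L.length := by
  induction L with
  | nil => simp
  | cons a L ih =>
    rw [List.map_cons, List.prod_cons, norm_mul, mul_pow, ih, norm_gg hz hq, List.length_cons,
      pow_succ]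
    ring

theorem len_eq {n q M : ℕ} {z : Fin n → QB} (hz : Weil q n z) (hq : 1 < q) (hM : 0 < M)
    (L : List (Fin n × Bool)) (c : ℤ)
    (h : ((L.map (gg q z)).prod) ^ M = ((q : ℂ) ^ c) ^ M) : (L.length : ℤ) = 2 * c := by
  have h1 := congrArg (fun w : ℂ => ‖w‖ ^ 2) h
  simp only [norm_pow, norm_zpow, Complex.norm_natCast] at h1
  have h2 : ((q : ℝ) ^ L.length) ^ M = ((q : ℝ) ^ c) ^ (M * 2) := by
    rw [← norm_prod hz (by omega) L]
    rw [← pow_mul, mul_comm 2 M, pow_mul, h1, ← pow_mul]
  have hq1 : (1 : ℝ) < q := by exact_mod_cast hq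
  have h3 : (q : ℝ) ^ ((L.length : ℤ) * M) = (q : ℝ) ^ (c * (M * 2)) := by
    have e1 : (q : ℝ) ^ ((L.length : ℤ) * M) = ((q : ℝ) ^ L.length) ^ M := by
      rw [zpow_mul, zpow_natCast, zpow_natCast]
    have e2 : (q : ℝ) ^ (c * (M * 2)) = ((q : ℝ) ^ c) ^ (M * 2) := by
      rw [zpow_mul]
      exact_mod_cast rfl
    rw [e1, e2, h2]
  have h4 := (zpow_right_injective₀ (by linarith) hq1.ne') h3
  have hM' : (M : ℤ) ≠ 0 := by exact_mod_cast hM.ne'
  have h5 : ((L.length : ℤ) - 2 * c) * M = 0 := by linear_combination h4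
  rcases mul_eq_zero.mp h5 with h6 | h6
  · linarith
  · exact absurd h6 hM'

theorem ne_zero_of_weil {n q : ℕ} {z : Fin n → QB} (hz : Weil q n z) (hq : 0 < q) (i : Fin n) :
    (z i : ℂ) ≠ 0 := by
  intro h0
  have := hz.norm i
  rw [h0, norm_zero] at this
  have h1 : (q : ℝ) = 0 := by rw [← this]; norm_num
  exact hq.ne' (by exact_mod_cast h1)

theorem rel_of {n q M : ℕ} {z : Fin n → QB} (hz : Weil q n z) (hq : 1 < q) (hM : 0 < M)
    (L : List (Fin n × Bool)) (c : ℤ)
    (h : ((L.map (gg q z)).prod) ^ M = ((q : ℂ) ^ c) ^ M) :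
    RelZ q (fun i => (z i : ℂ)) (fun i => (cn (i, true) L : ℤ) - cn (i, false) L) := by
  have hq0 : (q : ℂ) ≠ 0 := by exact_mod_cast (by omega : q ≠ 0)
  have hz0 : ∀ i, (z i : ℂ) ≠ 0 := ne_zero_of_weil hz (by omega)
  have hlen := len_eq hz hq hM L c h
  have hprod : (L.map (gg q z)).prod =
      ∏ i, ((z i : ℂ) ^ (cn (i, true) L) * ((q : ℂ) / z i) ^ (cn (i, false) L)) := by
    rw [prod_cn, ← Finset.univ_product_univ, Finset.prod_product]
    refine Finset.prod_congr rfl fun i _ => ?_
    simp [gg]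
  have hcount : L.length = ∑ i, (cn (i, true) L + cn (i, false) L) := by
    rw [sum_cn, ← Finset.univ_product_univ, Finset.sum_product]
    refine Finset.sum_congr rfl fun i _ => ?_
    simp
  set n₁ : Fin n → ℤ := fun i => cn (i, true) L with hn
  set n' : Fin n → ℤ := fun i => cn (i, false) L with hn'
  have hprod2 : (L.map (gg q z)).prod =
      (∏ i, (z i : ℂ) ^ (n₁ i - n' i)) * (q : ℂ) ^ (∑ i, n' i) := by
    rw [hprod, Finset.prod_mul_distrib]
    have e1 : ∏ i, ((q : ℂ) / z i) ^ (cn (i, false) L) =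
        (q : ℂ) ^ (∑ i, n' i) * ∏ i, (z i : ℂ) ^ (- n' i) := by
      have e3 : (q : ℂ) ^ (∑ i, n' i) = ∏ i, (q : ℂ) ^ (n' i) := by
        rw [hn']
        have : ∀ s : Finset (Fin n), (q : ℂ) ^ (∑ i ∈ s, ((cn (i, false) L : ℕ) : ℤ)) =
            ∏ i ∈ s, (q : ℂ) ^ ((cn (i, false) L : ℕ) : ℤ) := by
          intro s
          induction s using Finset.induction_on with
          | empty => simp
          | insert a s ha ih =>
            rw [Finset.sum_insert ha, Finset.prod_insert ha, zpow_add₀ hq0, ih]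
        exact this _
      rw [e3, ← Finset.prod_mul_distrib]
      refine Finset.prod_congr rfl fun i _ => ?_
      rw [div_pow, zpow_neg, hn']
      simp only [zpow_natCast]
      rfl
    rw [e1, mul_comm ((q : ℂ) ^ _), ← mul_assoc, ← Finset.prod_mul_distrib]
    congr 1
    refine Finset.prod_congr rfl fun i _ => ?_
    rw [sub_eq_add_neg, zpow_add₀ (hz0 i)]
    simp [hn]
  refine ⟨M, hM, ?_⟩
  have hsum : ∑ i, (n₁ i - n' i) = 2 * c - 2 * ∑ i, n' i := by
    have h1 : (L.length : ℤ) = ∑ i, (n₁ i + n' i) := by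
      rw [hcount]; push_cast; rfl
    rw [Finset.sum_sub_distrib]
    rw [Finset.sum_add_distrib] at h1
    linarith
  show (∏ i, (z i : ℂ) ^ (2 * (n₁ i - n' i))) ^ M = ((q : ℂ) ^ (∑ i, (n₁ i - n' i))) ^ M
  have e5 : ∏ i, (z i : ℂ) ^ (2 * (n₁ i - n' i)) = (∏ i, (z i : ℂ) ^ (n₁ i - n' i)) ^ 2 := by
    rw [← Finset.prod_pow]
    refine Finset.prod_congr rfl fun i _ => ?_
    rw [mul_comm, zpow_mul]
    exact_mod_cast rfl
  rw [e5, hsum]
  have hqs : (q : ℂ) ^ (∑ i, n' i) ≠ 0 := zpow_ne_zero _ hq0
  have e6 : (q : ℂ) ^ (2 * c - 2 * ∑ i, n' i) =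
      ((q : ℂ) ^ c) ^ 2 / ((q : ℂ) ^ (∑ i, n' i)) ^ 2 := by
    rw [zpow_sub₀ hq0, mul_comm 2 c, mul_comm 2 (∑ i, n' i), zpow_mul, zpow_mul]
    exact_mod_cast rfl
  rw [e6, div_pow, eq_div_iff (pow_ne_zero _ (pow_ne_zero _ hqs)), ← pow_mul, ← pow_mul, ← pow_mul,
    mul_comm 2 M, pow_mul, pow_mul, pow_mul, ← mul_pow, ← mul_pow, ← hprod2, h]

theorem perm_of_mem {α : Type} [DecidableEq α] {a b : α} {L : List α} (hab : a ≠ b) (ha : a ∈ L)
    (hb : b ∈ L) : ∃ L', L.Perm (a :: b :: L') := by
  refine ⟨(L.erase a).erase b, ?_⟩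
  have h1 := List.perm_cons_erase ha
  have h2 : b ∈ L.erase a := (List.mem_erase_of_ne hab.symm).2 hb
  exact h1.trans ((List.perm_cons_erase h2).cons a)

theorem perm_of_block {α : Type} [DecidableEq α] {B L : List α} (hB : B.Nodup)
    (h : ∀ p ∈ B, 2 ≤ cn p L) : ∃ L', L.Perm ((B ++ B) ++ L') := by
  have hsub : (B ++ B).Subperm L := by
    rw [List.subperm_ext_iff]
    intro p hp
    have hpB : p ∈ B := by
      rcases List.mem_append.1 hp with h1 | h1 <;> exact h1
    rw [List.count_append, List.count_eq_one_of_mem hB hpB]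
    exact h p hpB
  obtain ⟨l, hl1, hl2⟩ := hsub
  obtain ⟨l', hl'⟩ := hl2.exists_perm_append
  exact ⟨l', hl'.trans (hl1.append_right _)⟩

/-- the labelled powers of the roots -/
noncomputable def gM (q M : ℕ) {n : ℕ} (z : Fin n → QB) (p : Fin n × Bool) : ℂ := gg q z p ^ M

theorem prod_gM {n : ℕ} (q M : ℕ) (z : Fin n → QB) (L : List (Fin n × Bool)) :
    (L.map (gM q M z)).prod = (L.map (gg q z)).prod ^ M := by
  induction L with
  | nil => simp
  | cons a L ih =>
    rw [List.map_cons, List.map_cons, List.prod_cons, List.prod_cons, ih, gM, mul_pow]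

theorem matched_aux {g q M N : ℕ} {z : Fin g → QB} (hz : Weil q g z) (hq : 1 < q)
    (hodd : Odd g) (hM : 0 < M) (hN : 0 < N)
    (hblk : ((∏ i, (z i : ℂ)) ^ 2) ^ M = ((q : ℂ) ^ g) ^ M) :
    ∀ (len : ℕ) (L : List (Fin g × Bool)), L.length ≤ len → ∀ c : ℤ,
      ((L.map (gM q M z)).prod) ^ N = (((q : ℂ) ^ M) ^ c) ^ N →
      MatchedM g ((q : ℂ) ^ M) (L.map (gM q M z)) := by
  have hq0 : (q : ℂ) ≠ 0 := by exact_mod_cast (by omega : q ≠ 0)
  have hQ0 : (q : ℂ) ^ M ≠ 0 := pow_ne_zero _ hq0
  have hz0 : ∀ i, (z i : ℂ) ≠ 0 := ne_zero_of_weil hz (by omega)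
  intro len
  induction len with
  | zero =>
    intro L hL c _
    have : L = [] := List.eq_nil_of_length_eq_zero (by omega)
    subst this
    exact MatchedM.nil
  | succ len ih =>
    intro L hL c hc
    by_cases hA : ∃ i, (i, true) ∈ L ∧ (i, false) ∈ L
    · obtain ⟨i, h1, h2⟩ := hA
      obtain ⟨L', hL'⟩ := perm_of_mem (by simp) h1 h2
      have hab : gM q M z (i, true) * gM q M z (i, false) = (q : ℂ) ^ M := by
        simp only [gM, gg]
        simp only [if_true, Bool.false_eq_true, if_false]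
        rw [← mul_pow, mul_div_cancel₀ _ (hz0 i)]
      refine MatchedM.pair hab (ih L' ?_ (c - 1) ?_) (hL'.map _)
      · have := hL'.length_eq
        simp only [List.length_cons] at this
        omega
      · have e := (hL'.map (gM q M z)).prod_eq
        rw [List.map_cons, List.map_cons, List.prod_cons, List.prod_cons, ← mul_assoc, hab] at e
        rw [e, mul_pow] at hc
        have e2 : ((q : ℂ) ^ M) ^ c = (q : ℂ) ^ M * ((q : ℂ) ^ M) ^ (c - 1) := by
          rw [← zpow_one_add₀ hQ0]; congr 1; ring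
        rw [e2, mul_pow] at hc
        exact mul_left_cancel₀ (pow_ne_zero _ hQ0) hc
    · have hA' : ∀ i, cn (i, true) L = 0 ∨ cn (i, false) L = 0 := by
        intro i
        by_contra hcon
        push Not at hcon
        exact hA ⟨i, cn_pos.1 (Nat.pos_of_ne_zero hcon.1),
          cn_pos.1 (Nat.pos_of_ne_zero hcon.2)⟩
      have hc' : ((L.map (gg q z)).prod) ^ (M * N) = ((q : ℂ) ^ c) ^ (M * N) := by
        rw [pow_mul, ← prod_gM, hc, pow_mul]
        congr 1
        rw [← zpow_natCast, ← zpow_natCast, ← zpow_mul, ← zpow_mul, mul_comm]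
      obtain ⟨k, hrel⟩ := hz.rel _ (rel_of hz hq (Nat.mul_pos hM hN) L c hc')
      have hlen := len_eq hz hq (Nat.mul_pos hM hN) L c hc'
      -- `k` is even
      have hkeven : Even k := by
        have hcount : (L.length : ℤ) = ∑ i, ((cn (i, true) L : ℤ) + cn (i, false) L) := by
          rw [sum_cn, ← Finset.univ_product_univ, Finset.sum_product]
          push_cast
          refine Finset.sum_congr rfl fun i _ => ?_
          simp
        have h1 : ∑ i : Fin g, ((cn (i, true) L : ℤ) + cn (i, false) L) =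
            g * k + 2 * ∑ i : Fin g, (cn (i, false) L : ℤ) := by
          have h2 : ∀ i : Fin g, ((cn (i, true) L : ℤ) + cn (i, false) L) =
              k + 2 * (cn (i, false) L : ℤ) := by
            intro i
            have this : (cn (i, true) L : ℤ) - cn (i, false) L = k := hrel i
            linarith
          rw [Finset.sum_congr rfl fun i _ => h2 i, Finset.sum_add_distrib, Finset.sum_const,
            Finset.card_univ, Fintype.card_fin, nsmul_eq_mul, Finset.mul_sum]
        have h3 : (g : ℤ) * k = 2 * (c - ∑ i : Fin g, (cn (i, false) L : ℤ)) := by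
          rw [hcount, h1] at hlen
          linarith
        have h4 : Even ((g : ℤ) * k) := by rw [h3]; exact even_two_mul _
        rcases Int.even_mul.1 h4 with h5 | h5
        · exfalso
          have h6 : Even g := by exact_mod_cast h5
          exact (Nat.not_even_iff_odd.2 hodd) h6
        · exact h5
      -- removing a block
      have hblock : ∀ β : Bool, (∀ i, 2 ≤ cn (i, β) L) →
          ((∏ i, gg q z (i, β)) ^ 2) ^ M = ((q : ℂ) ^ M) ^ g →
          MatchedM g ((q : ℂ) ^ M) (L.map (gM q M z)) := by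
        intro β hβ hp
        obtain ⟨L', hL'⟩ := perm_of_block (B := (List.finRange g).map fun i => (i, β))
          (L := L) ((List.nodup_finRange _).map fun i j h => (Prod.mk.inj h).1) (by
            intro p hp
            obtain ⟨i, _, rfl⟩ := List.mem_map.1 hp
            exact hβ i)
        have hB1 : (((List.finRange g).map fun i => (i, β)).map (gM q M z)).prod =
            (∏ i, gg q z (i, β)) ^ M := by
          rw [prod_gM, List.map_map, ← List.prod_ofFn]
          congr 2
          rw [List.ofFn_eq_map]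
          rfl
        have hBp : ((((List.finRange g).map fun i => (i, β)) ++
            ((List.finRange g).map fun i => (i, β))).map (gM q M z)).prod =
            ((q : ℂ) ^ M) ^ g := by
          rw [List.map_append, List.prod_append, hB1, ← hp, ← pow_mul, mul_comm 2 M, pow_mul,
            pow_two]
        refine MatchedM.block (B := (((List.finRange g).map fun i => (i, β)) ++
            ((List.finRange g).map fun i => (i, β))).map (gM q M z))
          (L := L'.map (gM q M z)) ?_ hBp (ih L' ?_ (c - g) ?_) ?_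
        · simp only [List.length_map, List.length_append, List.length_finRange]
          ring
        · have := hL'.length_eq
          simp only [List.length_append, List.length_map, List.length_finRange] at this
          have hg0 : 0 < g := hodd.pos
          omega
        · have e := (hL'.map (gM q M z)).prod_eq
          rw [List.map_append, List.prod_append, hBp] at e
          rw [e, mul_pow] at hc
          have e2 : ((q : ℂ) ^ M) ^ c = ((q : ℂ) ^ M) ^ g * ((q : ℂ) ^ M) ^ (c - g) := by
            have : ((q : ℂ) ^ M) ^ g = ((q : ℂ) ^ M) ^ (g : ℤ) := by rw [zpow_natCast]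
            rw [this, ← zpow_add₀ hQ0]; congr 1; ring
          rw [e2, mul_pow] at hc
          exact mul_left_cancel₀ (pow_ne_zero _ (pow_ne_zero _ hQ0)) hc
        · rw [← List.map_append]
          exact hL'.map _
      rcases lt_trichotomy k 0 with h0 | h0 | h0
      · -- negative
        refine hblock false (fun i => ?_) ?_
        · have h2 : (cn (i, true) L : ℤ) - cn (i, false) L = k := hrel i
          obtain ⟨r, hr⟩ := hkeven
          have h3 := hA' i
          omega
        · simp only [gg, Bool.false_eq_true, if_false]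
          rw [Finset.prod_div_distrib, div_pow, div_pow, hblk, Finset.prod_const, Finset.card_univ,
            Fintype.card_fin, div_eq_iff (pow_ne_zero _ (pow_ne_zero _ hq0)), ← pow_mul, ← pow_mul,
            ← pow_mul, ← pow_mul, ← pow_add]
          congr 1; ring
      · -- zero
        have hnil : L = [] := by
          by_contra hne
          obtain ⟨⟨i, β⟩, hi⟩ := List.exists_mem_of_ne_nil L hne
          have h1 := hrel i
          simp only [h0] at h1
          have h2 : cn (i, β) L ≠ 0 := (cn_pos.2 hi).ne'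
          rcases hA' i with h3 | h3
          · rw [h3] at h1
            have h4 : cn (i, false) L = 0 := by omega
            cases β
            · exact h2 h4
            · exact h2 h3
          · rw [h3] at h1
            have h4 : cn (i, true) L = 0 := by omega
            cases β
            · exact h2 h3
            · exact h2 h4
        subst hnil
        exact MatchedM.nil
      · -- positive
        refine hblock true (fun i => ?_) ?_
        · have h2 : (cn (i, true) L : ℤ) - cn (i, false) L = k := hrel i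
          obtain ⟨r, hr⟩ := hkeven
          have h3 := hA' i
          omega
        · simp only [gg, if_true]
          rw [hblk, ← pow_mul, ← pow_mul, mul_comm]

lemma isGal : IsGalois ℚ QB := by
  have h := algebraicClosure.isAlgClosure ℚ ℂ
  have h2 : (algebraicClosure ℚ ℂ).algebra' = (inferInstance : Algebra ℚ QB) :=
    Subsingleton.elim _ _
  rw [h2] at h
  exact @IsAlgClosure.isGalois ℚ QB _ _ _ h _

/-- a number fixed by all automorphisms is rational -/
lemma rat_of_fixed {t : QB} (h : ∀ σ : QB ≃ₐ[ℚ] QB, σ t = t) : ∃ r : ℚ, t = r := by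
  have := isGal
  have h1 := (InfiniteGalois.mem_bot_iff_fixed (k := ℚ) (K := QB) t).2 h
  rw [IntermediateField.mem_bot] at h1
  obtain ⟨r, hr⟩ := h1
  exact ⟨r, hr.symm⟩

/-- a root of unity whose conjugates are itself and its inverse -/
theorem rou_twelve (z : QB) {K : ℕ} (hK : 0 < K) (h : z ^ K = 1)
    (hg : ∀ σ : QB ≃ₐ[ℚ] QB, σ z = z ∨ σ z = z⁻¹) : z ^ 12 = 1 := by
  have hz : z ≠ 0 := by
    intro h0
    rw [h0, zero_pow hK.ne'] at h
    exact zero_ne_one h
  have hiz : IsIntegral ℤ z := IsIntegral.of_pow hK (by rw [h]; exact isIntegral_one)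
  have hizi : IsIntegral ℤ z⁻¹ :=
    IsIntegral.of_pow hK (by rw [inv_pow, h, inv_one]; exact isIntegral_one)
  have hfix : ∀ σ : QB ≃ₐ[ℚ] QB, σ (z + z⁻¹) = z + z⁻¹ := by
    intro σ
    rw [map_add, map_inv₀]
    rcases hg σ with h1 | h1
    · rw [h1]
    · rw [h1, inv_inv, add_comm]
  obtain ⟨r, hr⟩ := rat_of_fixed hfix
  have hir : IsIntegral ℤ r := by
    have h1 : IsIntegral ℤ (algebraMap ℚ QB r) := by
      have h2 : algebraMap ℚ QB r = z + z⁻¹ := by
        rw [hr]
        exact (eq_ratCast (algebraMap ℚ QB) r)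
      rw [h2]
      exact hiz.add hizi
    exact (isIntegral_algebraMap_iff (algebraMap ℚ QB).injective).1 h1
  obtain ⟨n, hn⟩ := IsIntegrallyClosed.isIntegral_iff.1 hir
  have hn' : z + z⁻¹ = n := by
    rw [hr, ← hn]
    simp
  -- the bound
  have hnorm : ‖(z : ℂ)‖ = 1 := by
    have h1 : (z : ℂ) ^ K = 1 := by exact_mod_cast congrArg (fun w : QB => (w : ℂ)) h
    exact Complex.norm_eq_one_of_pow_eq_one h1 hK.ne'
  have hb : |(n : ℝ)| ≤ 2 := by
    have h1 : ((n : ℤ) : ℂ) = (z : ℂ) + (z : ℂ)⁻¹ := by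
      have := congrArg (fun w : QB => (w : ℂ)) hn'
      push_cast at this
      exact this.symm
    have h2 : ‖((n : ℤ) : ℂ)‖ ≤ 1 + 1 := by
      rw [h1]
      refine (norm_add_le _ _).trans ?_
      rw [norm_inv, hnorm]
      norm_num
    rw [Complex.norm_intCast] at h2
    linarith
  have hb2 : -2 ≤ n ∧ n ≤ 2 := by
    rw [abs_le] at hb
    constructor
    · have := hb.1
      exact_mod_cast this
    · have := hb.2
      exact_mod_cast this
  have hquad : z ^ 2 = n * z - 1 := by
    rw [← hn']
    field_simp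
    ring
  obtain ⟨hl, hu⟩ := hb2
  have h12 : z ^ 12 = (z ^ 2) ^ 6 := by rw [← pow_mul]
  interval_cases n
  · -- -2
    have h1 : (z + 1) ^ 2 = 0 := by push_cast at hquad; linear_combination hquad
    have h2 : z = -1 := by
      have := pow_eq_zero_iff (two_ne_zero) |>.1 h1
      linear_combination this
    rw [h2]; norm_num
  · -- -1
    have h1 : z ^ 3 = 1 := by
      push_cast at hquad
      linear_combination (z - 1) * hquad
    calc z ^ 12 = (z ^ 3) ^ 4 := by rw [← pow_mul]
      _ = 1 := by rw [h1, one_pow]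
  · -- 0
    have h1 : z ^ 2 = -1 := by
      push_cast at hquad
      linear_combination hquad
    rw [h12, h1]; norm_num
  · -- 1
    have h1 : z ^ 3 = -1 := by
      push_cast at hquad
      linear_combination (z + 1) * hquad
    calc z ^ 12 = (z ^ 3) ^ 4 := by rw [← pow_mul]
      _ = 1 := by rw [h1]; norm_num
  · -- 2
    have h1 : (z - 1) ^ 2 = 0 := by push_cast at hquad; linear_combination hquad
    have h2 : z = 1 := by
      have := pow_eq_zero_iff (two_ne_zero) |>.1 h1
      linear_combination this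
    rw [h2]; norm_num

theorem prod_block {q g M : ℕ} {β : Fin g → QB} (hq : 1 < q)
    (h12 : 12 ∣ M) (hw : Weil q g β) :
    ((∏ i, (β i : ℂ)) ^ 2) ^ M = ((q : ℂ) ^ g) ^ M := by
  have hqB : (q : QB) ≠ 0 := by exact_mod_cast (by omega : q ≠ 0)
  have hq0 : (q : ℂ) ≠ 0 := by exact_mod_cast (by omega : q ≠ 0)
  have hβ : ∀ i, β i ≠ 0 := by
    intro i h0
    apply ne_zero_of_weil hw (by omega) i
    rw [h0]
    rfl
  have hP0 : (∏ i, β i) ≠ 0 := Finset.prod_ne_zero_iff.2 fun i _ => hβ i
  obtain ⟨N, hN, h1⟩ := hw.one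
  have hcoe : ((∏ i, β i : QB) : ℂ) = ∏ i, (β i : ℂ) := by
    exact map_prod (algebraMap QB ℂ) _ _
  have h2 : ((∏ i, β i) ^ 2) ^ N = (((q : QB)) ^ g) ^ N := by
    apply (algebraMap QB ℂ).injective
    rw [map_pow, map_pow, map_pow, map_pow, map_natCast]
    have h3 : algebraMap QB ℂ (∏ i, β i) = ∏ i, (β i : ℂ) := hcoe
    rw [h3]
    have e1 : ∏ i, (β i : ℂ) ^ (2 * (1 : ℤ)) = (∏ i, (β i : ℂ)) ^ 2 := by
      rw [← Finset.prod_pow]
      refine Finset.prod_congr rfl fun i _ => ?_
      exact_mod_cast rfl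
    have e2 : ((q : ℂ) ^ (∑ i : Fin g, (1 : ℤ))) = (q : ℂ) ^ g := by
      rw [Finset.sum_const, Finset.card_univ, Fintype.card_fin, nsmul_eq_mul, mul_one,
        zpow_natCast]
    rw [← e1, ← e2]
    exact h1
  have hz12 : ((∏ i, β i) ^ 2 / (q : QB) ^ g) ^ 12 = 1 := by
    refine rou_twelve _ (K := N) hN ?_ ?_
    · rw [div_pow, h2]
      exact div_self (pow_ne_zero _ (pow_ne_zero _ hqB))
    · intro σ
      rw [map_div₀, map_pow, map_pow, map_natCast, map_prod]
      rcases hw.gal σ with ⟨π, hπ⟩ | ⟨π, hπ⟩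
      · left
        congr 2
        rw [← Equiv.prod_comp π β]
        exact Finset.prod_congr rfl fun i _ => hπ i
      · right
        have e3 : ∏ i, σ (β i) = (q : QB) ^ g / ∏ i, β i := by
          rw [← Equiv.prod_comp π β]
          have e4 : (q : QB) ^ g = ∏ _i : Fin g, (q : QB) := by
            rw [Finset.prod_const, Finset.card_univ, Fintype.card_fin]
          rw [e4, ← Finset.prod_div_distrib]
          exact Finset.prod_congr rfl fun i _ => hπ i
        rw [e3, inv_div]
        field_simp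
  obtain ⟨K, hK⟩ := h12
  have h5 : ((∏ i, β i) ^ 2) ^ 12 = ((q : QB) ^ g) ^ 12 := by
    rw [div_pow, div_eq_one_iff_eq (pow_ne_zero _ (pow_ne_zero _ hqB))] at hz12
    exact hz12
  have h6 : ((∏ i, (β i : ℂ)) ^ 2) ^ 12 = ((q : ℂ) ^ g) ^ 12 := by
    rw [← hcoe]
    have := congrArg (fun w : QB => (w : ℂ)) h5
    push_cast at this ⊢
    exact this
  rw [hK, pow_mul, h6, ← pow_mul ((q : ℂ) ^ g)]

/-- **P6** -/
theorem p6 : P6 := by
  intro q m M f g β hq hm hodd hM h12 hf hroots hw hg
  refine ⟨hg.1, ?_⟩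
  intro s hs L hL c N hN h
  have hq0 : (q : ℂ) ≠ 0 := by exact_mod_cast (by omega : q ≠ 0)
  have hfm : f.Monic := hf.1
  have hf0 : f.map (Int.castRingHom ℂ) ≠ 0 := (hfm.map _).ne_zero
  have hg0 : g.map (Int.castRingHom ℂ) ≠ 0 := (hg.1.map _).ne_zero
  -- the roots
  have hroot : ∀ w : ℂ, aeval w g = 0 → ∃ p : Fin m × Bool, gM q M β p = w := by
    intro w hw
    have h1 : w ∈ (g.map (Int.castRingHom ℂ)).roots := by
      rw [mem_roots hg0, IsRoot, eval_map, ← algebraMap_int_eq, ← aeval_def]; exact hw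
    rw [hg.2, Multiset.mem_map] at h1
    obtain ⟨v, hv, rfl⟩ := h1
    rw [mem_roots hf0, IsRoot, hroots.map, eval_prod, Finset.prod_eq_zero_iff] at hv
    obtain ⟨i, _, hi⟩ := hv
    rw [eval_mul, eval_sub, eval_sub, eval_X, eval_C, eval_C] at hi
    rcases mul_eq_zero.1 hi with h2 | h2
    · refine ⟨(i, true), ?_⟩
      rw [gM, gg]
      simp only [if_true]
      rw [← sub_eq_zero.1 h2]
    · refine ⟨(i, false), ?_⟩
      rw [gM, gg]
      simp only [Bool.false_eq_true, if_false]
      rw [← sub_eq_zero.1 h2]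
  have hex : ∃ L0 : List (Fin m × Bool), L0.map (gM q M β) = L := by
    have : L ∈ Set.range (List.map (gM q M β)) := by
      rw [Set.range_list_map]
      intro w hw
      exact hroot w (hL w hw)
    exact this
  obtain ⟨L0, rfl⟩ := hex
  have hcast : ((q ^ M : ℕ) : ℂ) = (q : ℂ) ^ M := by push_cast; rfl
  rw [hcast] at h ⊢
  refine matched_aux hw hq hodd hM (Nat.mul_pos hs hN) (prod_block hq h12 hw) L0.length L0
    le_rfl c ?_
  have e1 : ((L0.map (gM q M β)).map (· ^ s)).prod = (L0.map (gM q M β)).prod ^ s := by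
    have := map_list_prod (powMonoidHom s : ℂ →* ℂ) (L0.map (gM q M β))
    exact this.symm
  rw [e1, ← pow_mul] at h
  rw [h, pow_mul]
  congr 1
  rw [← zpow_natCast (((q : ℂ) ^ M) ^ c), ← zpow_natCast ((q : ℂ) ^ M), ← zpow_mul, ← zpow_mul,
    mul_comm]

end Pool.Agent.H289.PDp6
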