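import Pool.Agent.H857.PD.Core

/-!
# P8: the number of the reducible Weil polynomials
-/

set_option autoImplicit false

namespace Pool.Agent.H599.PDp8

open Module Polynomial Pool.Agent.W521.Descent Pool.Agent.W521.Density Pool.Agent.W521.Count
  Pool.Agent.X297.UB Pool.Agent.H857.PB Pool.Agent.H857.PA Pool.Agent.H857.HK Pool.Agent.H857.EF
  Pool.Agent.H857.WT Pool.Agent.H857.SG Pool.Agent.H857.PD

lemma tot_add {n m : ℕ} (hn : 1 ≤ n) (hm : 1 ≤ m) :
    tot n + tot m ≤ (n + m) * (n + m - 1) / 2 + 1 := by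
  obtain ⟨k, rfl⟩ : ∃ k, n = k + 1 := ⟨n - 1, by omega⟩
  obtain ⟨l, rfl⟩ : ∃ l, m = l + 1 := ⟨m - 1, by omega⟩
  unfold tot
  have e : k + 1 + (l + 1) - 1 = k + l + 1 := by omega
  rw [e]
  have h : (k + 1) * (k + 1 + 1) + (l + 1) * (l + 1 + 1) ≤
      (k + 1 + (l + 1)) * (k + l + 1) + 2 := by
    nlinarith [Nat.zero_le (k * l)]
  omega

/-- P8 -/
theorem p8 (h8 : P8a) : P8 := by
  intro g hg
  obtain ⟨K, hK⟩ : ∃ K : ℕ → ℝ, K = fun n => (3 * 4 ^ n) ^ n := ⟨_, rfl⟩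
  have hK0 : ∀ n, 0 ≤ K n := by
    intro n
    rw [hK]
    positivity
  refine ⟨1 + ∑ n ∈ Finset.Icc 1 (g / 2), K n * K (g - n), ?_, ?_⟩
  · have : 0 ≤ ∑ n ∈ Finset.Icc 1 (g / 2), K n * K (g - n) :=
      Finset.sum_nonneg fun n _ => mul_nonneg (hK0 n) (hK0 _)
    linarith
  intro p hp a ha
  have hq : 0 < p ^ a := pow_pos hp.out.pos a
  obtain ⟨q, hqdef⟩ : ∃ q : ℕ, q = p ^ a := ⟨_, rfl⟩
  have hcast : ((p : ℝ) ^ a) = (q : ℝ) := by
    rw [hqdef]
    push_cast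
    rfl
  rw [hcast]
  rw [← hqdef] at hq
  have hsq : (1 : ℝ) ≤ Real.sqrt q := by
    rw [Real.one_le_sqrt]
    exact_mod_cast hq
  classical
  let B : ∀ n : ℕ, Finset (Fin n → ℤ) := fun n => Fintype.piFinset (box q n)
  let P : ℕ → Finset ℤ[X] := fun n =>
    (B n ×ˢ B (g - n)).image fun yz => wp q n yz.1 * wp q (g - n) yz.2
  have hsub : {f ∈ newtonWeil p a g | ¬ Irreducible f} ⊆
      (((Finset.Icc 1 (g / 2)).biUnion P : Finset ℤ[X]) : Set ℤ[X]) := by
    rintro f ⟨⟨hf, -⟩, hirr⟩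
    rw [← hqdef] at hf
    obtain ⟨x, hx, -⟩ := exists_point hq.ne' hf
    have hx' : f = wp q g x := hx
    subst hx'
    obtain ⟨n, m, y, z, h1, h2, h3, h4, h5, h6⟩ := h8 q g hq hg x hf hirr
    obtain rfl : m = g - n := by omega
    rw [Finset.mem_coe, Finset.mem_biUnion]
    refine ⟨n, Finset.mem_Icc.2 ⟨h1, by omega⟩, ?_⟩
    rw [Finset.mem_image]
    exact ⟨(y, z), Finset.mem_product.2 ⟨mem_box hq.ne' h5, mem_box hq.ne' h6⟩, h4.symm⟩
  have hcard := Set.ncard_le_ncard hsub (Finset.finite_toSet _)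
  rw [Set.ncard_coe_finset] at hcard
  have h1 : ((Finset.Icc 1 (g / 2)).biUnion P).card ≤
      ∑ n ∈ Finset.Icc 1 (g / 2), (B n).card * (B (g - n)).card := by
    refine Finset.card_biUnion_le.trans (Finset.sum_le_sum fun n _ => ?_)
    refine Finset.card_image_le.trans ?_
    rw [Finset.card_product]
  have h2 : ({f ∈ newtonWeil p a g | ¬ Irreducible f}.ncard : ℝ) ≤
      ∑ n ∈ Finset.Icc 1 (g / 2), ((B n).card : ℝ) * (B (g - n)).card := by
    exact_mod_cast hcard.trans h1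
  have hB : ∀ n, ((B n).card : ℝ) ≤ K n * Real.sqrt q ^ tot n := by
    intro n
    rw [hK]
    exact card_all_box (g := n) hq
  have hs0 : 0 ≤ Real.sqrt q ^ (g * (g - 1) / 2 + 1) := by positivity
  refine h2.trans ?_
  rw [add_mul, one_mul, Finset.sum_mul]
  refine le_trans ?_ (le_add_of_nonneg_left hs0)
  refine Finset.sum_le_sum fun n hn => ?_
  rw [Finset.mem_Icc] at hn
  calc ((B n).card : ℝ) * (B (g - n)).card ≤
      (K n * Real.sqrt q ^ tot n) * (K (g - n) * Real.sqrt q ^ tot (g - n)) :=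
        mul_le_mul (hB n) (hB _) (Nat.cast_nonneg _) (mul_nonneg (hK0 n) (by positivity))
    _ = K n * K (g - n) * Real.sqrt q ^ (tot n + tot (g - n)) := by
        rw [pow_add]
        ring
    _ ≤ K n * K (g - n) * Real.sqrt q ^ (g * (g - 1) / 2 + 1) := by
        refine mul_le_mul_of_nonneg_left ?_ (mul_nonneg (hK0 _) (hK0 _))
        refine pow_le_pow_right₀ hsq ?_
        have h3 := tot_add (n := n) (m := g - n) hn.1 (by omega)
        rwa [show n + (g - n) = g by omega] at h3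

end Pool.Agent.H599.PDp8
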