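import Pool.Agent.H857.PD.Core

/-!
# Reducible Weil polynomials are products (general dimension), task P8a

Generalises the proofs for dimension four in `EF/P/S32.lean` and `EF/P/S8.lean`.
-/

set_option autoImplicit false

namespace Pool.Agent.H277.PDp8a

open Module Polynomial Pool.Agent.W521.Frob Pool.Agent.W521.Descent Pool.Agent.W521.Density
  Pool.Agent.W521.Count
  Pool.Agent.X297.UB Pool.Agent.H857.PB Pool.Agent.H857.PA Pool.Agent.H857.HK
  Pool.Agent.H857.PD

theorem weil_mul (q : ℕ) {h h' : ℤ[X]} (hm : h.Monic) (hm' : h'.Monic) :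
    weil q (h * h') = weil q h * weil q h' := by
  apply Polynomial.map_injective (Int.castRingHom ℂ) (RingHom.injective_int (Int.castRingHom ℂ))
  have key : ∀ α : ℂ, α ≠ 0 → aeval α (weil q (h * h')) = aeval α (weil q h * weil q h') := by
    intro α hα
    have hθ : α ^ 2 + q = ((α ^ 2 + q) / α) * α := by rw [div_mul_cancel₀ _ hα]
    rw [map_mul, aeval_weil q (h * h') α _ hθ, aeval_weil q h α _ hθ, aeval_weil q h' α _ hθ,
      map_mul, hm.natDegree_mul hm', pow_add]
    ring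
  refine Polynomial.eq_of_infinite_eval_eq _ _ ?_
  refine Set.Infinite.mono (s := {α : ℂ | α ≠ 0}) (fun α hα => ?_) ?_
  · have h1 := key α hα
    rw [aeval_def, aeval_def, eval₂_eq_eval_map, eval₂_eq_eval_map] at h1
    exact h1
  · exact (Set.finite_singleton (0 : ℂ)).infinite_compl

open IntermediateField in
theorem irr {q g : ℕ} (hq : 0 < q) (hg : 3 ≤ g) (x : Fin g → ℤ) (hW : wp q g x ∈ weilPolys q g)
    (hirr : Irreducible (mkPoly g x)) : Irreducible (wp q g x) := by
  have hq0 : q ≠ 0 := hq.ne'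
  have hm : (mkPoly g x).Monic := mkPoly_monic g x
  have hfm : (wp q g x).Monic := wp_monic q g x
  have hfd : (wp q g x).natDegree = 2 * g := wp_natDegree q g x
  -- a root
  obtain ⟨α, hα⟩ : ∃ α : ℂ, aeval α (wp q g x) = 0 := by
    obtain ⟨α, hα⟩ := IsAlgClosed.exists_aeval_eq_zero ℂ ((wp q g x).map (algebraMap ℤ ℚ)) (by
      rw [hfm.degree_map, degree_eq_natDegree hfm.ne_zero, hfd]
      have : 2 * g ≠ 0 := by omega
      exact_mod_cast this)
    rw [aeval_map_algebraMap] at hα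
    exact ⟨α, hα⟩
  have hnorm : ‖α‖ ^ 2 = q := hW.2.2.2 α hα
  obtain ⟨hα0, hs⟩ := (root_iff hq0 hm α).1 hα
  have hconj : (q : ℂ) / α = (starRingEnd ℂ) α := by
    rw [div_eq_iff hα0, mul_comm, Complex.mul_conj, Complex.normSq_eq_norm_sq, hnorm]
    push_cast
    rfl
  obtain ⟨s, hsdef⟩ : ∃ s : ℂ, s = α + q / α := ⟨_, rfl⟩
  rw [← hsdef] at hs
  -- the minimal polynomial of `s`
  have hirrQ : Irreducible ((mkPoly g x).map (algebraMap ℤ ℚ)) :=
    (hm.irreducible_iff_irreducible_map_fraction_map).1 hirr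
  have hsQ : aeval s ((mkPoly g x).map (algebraMap ℤ ℚ)) = 0 := by
    rw [aeval_map_algebraMap]
    exact hs
  have hmin : (mkPoly g x).map (algebraMap ℤ ℚ) = minpoly ℚ s :=
    minpoly.eq_of_irreducible_of_monic hirrQ hsQ (hm.map _)
  have hsint : IsIntegral ℚ s := ⟨_, hm.map (algebraMap ℤ ℚ), by
    rw [← aeval_def]
    exact hsQ⟩
  have hsdeg : (minpoly ℚ s).natDegree = g := by
    rw [← hmin, hm.natDegree_map, mkPoly_natDegree]
  -- `α` is not real
  have hreal : ∀ r : ℝ, α ≠ (r : ℂ) := by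
    intro r hr
    have h1 : s = 2 * α := by
      rw [hsdef, hconj, hr, Complex.conj_ofReal]
      ring
    have h2 : α ^ 2 = q := by
      have h3 : α * (starRingEnd ℂ) α = q := by
        rw [← hconj, mul_div_cancel₀ _ hα0]
      rw [hr, Complex.conj_ofReal] at h3
      rw [hr, sq, h3]
    have h4 : aeval s (X ^ 2 - C (4 * q : ℚ)) = 0 := by
      simp only [map_sub, map_pow, aeval_X, aeval_C, h1]
      rw [mul_pow, h2]
      simp only [eq_ratCast]
      push_cast
      ring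
    have h5 : (X ^ 2 - C (4 * q : ℚ)).Monic := monic_X_pow_sub_C _ two_ne_zero
    have h6 := natDegree_le_of_dvd (minpoly.dvd ℚ s h4) h5.ne_zero
    rw [hsdeg, natDegree_X_pow_sub_C] at h6
    omega
  -- degrees
  have hαQ : aeval α ((wp q g x).map (algebraMap ℤ ℚ)) = 0 := by
    rw [aeval_map_algebraMap]
    exact hα
  have hαint : IsIntegral ℚ α := ⟨_, hfm.map (algebraMap ℤ ℚ), by
    rw [← aeval_def]
    exact hαQ⟩
  have hle : ℚ⟮s⟯ ≤ ℚ⟮α⟯ := by
    rw [adjoin_simple_le_iff, hsdef]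
    have h1 : α ∈ ℚ⟮α⟯ := mem_adjoin_simple_self ℚ α
    exact add_mem h1 (div_mem (_root_.natCast_mem _ q) h1)
  have hfin : FiniteDimensional ℚ ℚ⟮α⟯ := adjoin.finiteDimensional hαint
  have hd1 : finrank ℚ ℚ⟮s⟯ = g := by rw [adjoin.finrank hsint, hsdeg]
  have hd2 := finrank_dvd_of_le_right hle
  rw [hd1] at hd2
  have hd3 : finrank ℚ ℚ⟮α⟯ ≤ 2 * g := by
    rw [adjoin.finrank hαint]
    refine (natDegree_le_of_dvd (minpoly.dvd ℚ α hαQ) (hfm.map _).ne_zero).trans ?_
    rw [hfm.natDegree_map, hfd]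
  have hd4 : finrank ℚ ℚ⟮α⟯ ≠ g := by
    intro h
    have h1 : ℚ⟮s⟯ = ℚ⟮α⟯ := eq_of_le_of_finrank_eq hle (by rw [hd1, h])
    have h2 : α ∈ ℚ⟮s⟯ := by
      rw [h1]
      exact mem_adjoin_simple_self ℚ α
    have h3 : ℚ⟮s⟯ ≤ (Complex.ofRealAm.restrictScalars ℚ).fieldRange := by
      rw [adjoin_simple_le_iff]
      refine ⟨2 * α.re, ?_⟩
      have h4 : s = ((2 * α.re : ℝ) : ℂ) := by
        rw [hsdef, hconj, Complex.add_conj]
      rw [h4]
      rfl
    obtain ⟨r, hr⟩ := h3 h2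
    exact hreal r hr.symm
  have hd5 : finrank ℚ ℚ⟮α⟯ = 2 * g := by
    obtain ⟨c, hc⟩ := hd2
    have hpos : 0 < finrank ℚ ℚ⟮α⟯ := finrank_pos
    rw [hc] at hd3 hd4 hpos ⊢
    have h1 : c ≤ 2 := by
      have : g * c ≤ g * 2 := by linarith
      exact Nat.le_of_mul_le_mul_left this (by omega)
    interval_cases c
    · omega
    · omega
    · ring
  rw [adjoin.finrank hαint] at hd5
  have heq : (wp q g x).map (algebraMap ℤ ℚ) = minpoly ℚ α := by
    refine (eq_of_monic_of_dvd_of_natDegree_le (minpoly.monic hαint) (hfm.map _)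
      (minpoly.dvd ℚ α hαQ) ?_)
    rw [hfm.natDegree_map, hfd, hd5]
  refine (hfm.irreducible_iff_irreducible_map_fraction_map (K := ℚ)).2 ?_
  rw [heq]
  exact minpoly.irreducible hαint

theorem p8a : P8a := by
  intro q g hq hg x hx hnirr
  have hirr : ¬ Irreducible (mkPoly g x) := fun h => hnirr (irr hq hg x hx h)
  obtain ⟨P, hP⟩ : ∃ P, P = mkPoly g x := ⟨_, rfl⟩
  have hPm : P.Monic := by rw [hP]; exact mkPoly_monic g x
  have hPd : P.natDegree = g := by rw [hP]; exact mkPoly_natDegree g x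
  have hP1 : P ≠ 1 := by
    intro h
    rw [h, natDegree_one] at hPd
    omega
  rw [← hP, hPm.irreducible_iff_natDegree] at hirr
  have hex : ∃ f h : ℤ[X], f.Monic ∧ h.Monic ∧ f * h = P ∧ f.natDegree ≠ 0 ∧
      h.natDegree ≠ 0 := by
    by_contra hno
    refine hirr ⟨hP1, fun f h hf hh hfh => ?_⟩
    by_contra h0
    rw [not_or] at h0
    exact hno ⟨f, h, hf, hh, hfh, h0.1, h0.2⟩
  obtain ⟨f, h, hf, hh, hfh, hf0, hh0⟩ := hex
  have hdeg : f.natDegree + h.natDegree = g := by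
    rw [← hf.natDegree_mul hh, hfh, hPd]
  -- the general splitting
  have key : ∀ (a b : ℕ) (u v : ℤ[X]), u.Monic → v.Monic → u.natDegree = a → v.natDegree = b →
      u * v = P → ∃ (y : Fin a → ℤ) (z : Fin b → ℤ), wp q g x = wp q a y * wp q b z ∧
        wp q a y ∈ weilPolys q a ∧ wp q b z ∈ weilPolys q b := by
    intro a b u v hu hv hua hvb huv
    have hw : wp q g x = weil q u * weil q v := by
      unfold wp
      rw [← hP, ← huv, weil_mul q hu hv]
    refine ⟨fun k => u.coeff k, fun k => v.coeff k, ?_, ?_, ?_⟩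
    · rw [hw]
      unfold wp
      rw [eq_mkPoly hu hua, eq_mkPoly hv hvb]
    · unfold wp
      rw [eq_mkPoly hu hua]
      refine ⟨weil_monic q hu, by rw [weil_natDegree q hu, hua], ?_, fun z hz => ?_⟩
      · rw [Pool.Agent.W521.Lower.weil_coeff_zero q hu, hua]
      · refine hx.2.2.2 z ?_
        rw [hw, map_mul, hz, zero_mul]
    · unfold wp
      rw [eq_mkPoly hv hvb]
      refine ⟨weil_monic q hv, by rw [weil_natDegree q hv, hvb], ?_, fun z hz => ?_⟩
      · rw [Pool.Agent.W521.Lower.weil_coeff_zero q hv, hvb]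
      · refine hx.2.2.2 z ?_
        rw [hw, map_mul, hz, mul_zero]
  rcases le_total f.natDegree h.natDegree with hle | hle
  · obtain ⟨y, z, h1, h2, h3⟩ := key f.natDegree h.natDegree f h hf hh rfl rfl hfh
    exact ⟨f.natDegree, h.natDegree, y, z, by omega, hle, hdeg, h1, h2, h3⟩
  · obtain ⟨y, z, h1, h2, h3⟩ := key h.natDegree f.natDegree h f hh hf rfl rfl
      (by rw [mul_comm]; exact hfh)
    exact ⟨h.natDegree, f.natDegree, y, z, by omega, hle, by omega, h1, h2, h3⟩

end Pool.Agent.H277.PDp8a
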