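import Pool.Agent.H857.PD.Core

/-!
# P9: the number of the reducible Weil polynomials with exotic relations, in dimensions 3 and 5

Task of helper997 for helper857; the lemmas of the first section are those of `EF/P/S9.lean`.
-/

set_option autoImplicit false
set_option linter.unusedSectionVars false

namespace Pool.Agent.H997.PDp9

open Module Polynomial Pool.Agent.W521.Frob Pool.Agent.W521.Descent Pool.Agent.W521.Density
  Pool.Agent.W521.Count Pool.Agent.X297.UB Pool.Agent.H857.PB Pool.Agent.H857.PA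
  Pool.Agent.H857.HK Pool.Agent.H857.EF Pool.Agent.H857.WT Pool.Agent.H857.SG
  Pool.Agent.H857.PD

section rel

variable {ι κ : Type} [Fintype ι] [Fintype κ]

lemma prod_single [DecidableEq ι] (α : ι → ℂ) (i : ι) (m : ℤ) :
    ∏ j, α j ^ (2 * (Pi.single i m : ι → ℤ) j) = α i ^ (2 * m) := by
  rw [Finset.prod_eq_single i]
  · rw [Pi.single_eq_same]
  · intro j _ hj
    rw [Pi.single_eq_of_ne hj, mul_zero, zpow_zero]
  · intro h
    exact absurd (Finset.mem_univ i) h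

lemma sum_single [DecidableEq ι] (i : ι) (m : ℤ) : ∑ j, (Pi.single i m : ι → ℤ) j = m := by
  rw [Finset.sum_eq_single i]
  · rw [Pi.single_eq_same]
  · intro j _ hj
    rw [Pi.single_eq_of_ne hj]
  · intro h
    exact absurd (Finset.mem_univ i) h

lemma relZ_single [DecidableEq ι] {q : ℕ} (hq : 0 < q) {α : ι → ℂ} (hα : ∀ i, α i ≠ 0) {i : ι}
    {m : ℤ} (hm : m ≠ 0) (h : RelZ q α (Pi.single i m)) : RelZ q α (Pi.single i 1) := by
  obtain ⟨N, hN, h1⟩ := h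
  rw [prod_single, sum_single] at h1
  have hq' : (q : ℂ) ≠ 0 := by exact_mod_cast hq.ne'
  refine ⟨m.natAbs * N, Nat.mul_pos (Int.natAbs_pos.2 hm) hN, ?_⟩
  rw [prod_single, sum_single]
  set u : ℂ := α i ^ 2 / q with hu
  have hu0 : u ≠ 0 := div_ne_zero (pow_ne_zero 2 (hα i)) hq'
  have h2 : u ^ (m * N) = 1 := by
    have h3 : (α i ^ (2 * m)) ^ N = (α i ^ 2) ^ (m * N) := by
      rw [← zpow_natCast (α i ^ (2 * m)) N, ← zpow_mul, ← zpow_natCast (α i) 2, ← zpow_mul]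
      congr 1
      push_cast
      ring
    have h4 : ((q : ℂ) ^ m) ^ N = (q : ℂ) ^ (m * N) := by
      rw [← zpow_natCast ((q : ℂ) ^ m) N, ← zpow_mul]
    rw [h3, h4] at h1
    rw [hu, div_zpow, h1]
    exact div_self (zpow_ne_zero _ hq')
  have h5 : u ^ (m.natAbs * N) = 1 := by
    rcases Int.natAbs_eq m with h | h
    · rw [← zpow_natCast]
      push_cast
      rw [← Int.natCast_natAbs, ← h]
      exact h2
    · rw [← zpow_natCast]
      push_cast
      rw [← Int.natCast_natAbs]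
      have h6 : ((m.natAbs : ℕ) : ℤ) * N = -(m * N) := by
        rw [show ((m.natAbs : ℕ) : ℤ) = -m by omega]
        ring
      rw [h6, zpow_neg, h2, inv_one]
  have h7 : α i ^ (2 * (1 : ℤ)) = u * (q : ℂ) ^ (1 : ℤ) := by
    rw [mul_one, zpow_one, hu, div_mul_cancel₀ _ hq']
    norm_cast
  rw [h7, mul_pow, h5, one_mul]

lemma relZ_split {q : ℕ} {α : ι → ℂ} {β : κ → ℂ} {e : ι ⊕ κ → ℤ} (h : RelZ q (Sum.elim α β) e) :
    RelZ q (Sum.elim α β) (Sum.elim (fun i => e (Sum.inl i)) (fun i => e (Sum.inr i))) := by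
  have h1 : Sum.elim (fun i => e (Sum.inl i)) (fun i => e (Sum.inr i)) = e := by
    funext i
    rcases i with i | i <;> rfl
  rw [h1]
  exact h

lemma relZ_swap {q : ℕ} {α : ι → ℂ} {β : κ → ℂ} {e : ι ⊕ κ → ℤ} (h : RelZ q (Sum.elim α β) e) :
    RelZ q (Sum.elim β α) (Sum.elim (fun i => e (Sum.inr i)) (fun i => e (Sum.inl i))) := by
  obtain ⟨N, hN, h1⟩ := h
  refine ⟨N, hN, ?_⟩
  rw [Fintype.prod_sum_type, Fintype.sum_sum_type] at h1 ⊢
  simp only [Sum.elim_inl, Sum.elim_inr] at h1 ⊢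
  rw [mul_comm, h1, add_comm]

end rel

/-- the set of S7 -/
def TS (p : ℕ) [Fact p.Prime] (a D g : ℕ) {κ : Type} [Fintype κ] (ρ : κ → ℂ) :
    Set (Fin g → ℤ) :=
  {y : Fin g → ℤ | wp (p ^ a) g y ∈ weilPolys (p ^ a) g ∧
      (∀ z : ℂ, aeval z (wp (p ^ a) g y) = 0 → IsWeilNum p a D 1 z) ∧
      ∃ (e : Fin g → ℤ) (e' : κ → ℤ), (∃ j, e j ≠ 0) ∧
        RelZ (p ^ a) (Sum.elim (labA (p ^ a) g y) ρ) (Sum.elim e e')}

lemma TS_finite (p : ℕ) [hp : Fact p.Prime] (a D g : ℕ) {κ : Type} [Fintype κ] (ρ : κ → ℂ) :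
    (TS p a D g ρ).Finite := by
  refine (Finset.finite_toSet (Fintype.piFinset (box (p ^ a) g))).subset ?_
  rintro y ⟨h1, -⟩
  exact mem_box (pow_ne_zero _ hp.out.ne_zero) h1

lemma union_bound {A B E : Type} (Y : Finset A) (T : A → Set B) (hfin : ∀ y, (T y).Finite)
    (F : A → B → E) {b : ℝ} (hb : ∀ y ∈ Y, ((T y).ncard : ℝ) ≤ b) :
    {f : E | ∃ y ∈ Y, ∃ z ∈ T y, f = F y z}.Finite ∧
      ({f : E | ∃ y ∈ Y, ∃ z ∈ T y, f = F y z}.ncard : ℝ) ≤ Y.card * b := by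
  classical
  have h0 : {f : E | ∃ y ∈ Y, ∃ z ∈ T y, f = F y z} = ⋃ y ∈ Y, F y '' T y := by
    ext f
    simp only [Set.mem_ofPred_eq, Set.mem_iUnion, Set.mem_image, exists_prop]
    constructor
    · rintro ⟨y, hy, z, hz, rfl⟩
      exact ⟨y, hy, z, hz, rfl⟩
    · rintro ⟨y, hy, z, hz, rfl⟩
      exact ⟨y, hy, z, hz, rfl⟩
  rw [h0]
  refine ⟨Y.finite_toSet.biUnion fun y _ => (hfin y).image _, ?_⟩
  have h1 : ((⋃ y ∈ Y, F y '' T y).ncard : ℝ) ≤ ∑ y ∈ Y, ((F y '' T y).ncard : ℝ) := by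
    exact_mod_cast Finset.set_ncard_biUnion_le Y (fun y => F y '' T y)
  refine h1.trans ?_
  have h2 : ∑ y ∈ Y, ((F y '' T y).ncard : ℝ) ≤ ∑ _y ∈ Y, b := by
    refine Finset.sum_le_sum fun y hy => le_trans ?_ (hb y hy)
    exact_mod_cast Set.ncard_image_le (hfin y)
  refine h2.trans ?_
  rw [Finset.sum_const, nsmul_eq_mul]

section rel2

variable {ι κ : Type} [Fintype ι] [Fintype κ]

lemma relZ_inr {q : ℕ} (α : ι → ℂ) (β : κ → ℂ) (e : ι ⊕ κ → ℤ) (h : ∀ i, e (Sum.inl i) = 0) :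
    RelZ q (Sum.elim α β) e ↔ RelZ q β (fun j => e (Sum.inr j)) := by
  have h1 : ∏ i, (Sum.elim α β) i ^ (2 * e i) = ∏ j, β j ^ (2 * e (Sum.inr j)) := by
    rw [Fintype.prod_sum_type]
    simp only [Sum.elim_inl, Sum.elim_inr]
    rw [Finset.prod_eq_one (fun i _ => by rw [h i, mul_zero, zpow_zero]), one_mul]
  have h2 : ∑ i, e i = ∑ j, e (Sum.inr j) := by
    rw [Fintype.sum_sum_type, Finset.sum_eq_zero (fun i _ => h i), zero_add]
  unfold RelZ
  rw [h1, h2]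

lemma single_inr [DecidableEq ι] [DecidableEq κ] (i : κ) (m : ℤ) (j : κ) :
    (Pi.single (Sum.inr i) m : ι ⊕ κ → ℤ) (Sum.inr j) = (Pi.single i m : κ → ℤ) j := by
  by_cases h : j = i
  · rw [h, Pi.single_eq_same, Pi.single_eq_same]
  · rw [Pi.single_eq_of_ne h, Pi.single_eq_of_ne (fun h' => h (Sum.inr_injective h'))]

lemma single_inl [DecidableEq ι] [DecidableEq κ] (i : κ) (m : ℤ) (j : ι) :
    (Pi.single (Sum.inr i) m : ι ⊕ κ → ℤ) (Sum.inl j) = 0 :=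
  Pi.single_eq_of_ne Sum.inl_ne_inr _

end rel2

/-- the factorisations of Weil polynomials which come from those of the real ones -/
lemma weil_mul (q : ℕ) {h h' : ℤ[X]} (hm : h.Monic) (hm' : h'.Monic) :
    weil q (h * h') = weil q h * weil q h' := by
  apply Polynomial.map_injective (Int.castRingHom ℂ) (RingHom.injective_int (Int.castRingHom ℂ))
  have key : ∀ α : ℂ, α ≠ 0 → aeval α (weil q (h * h')) = aeval α (weil q h * weil q h') := by
    intro α hα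
    have hθ : α ^ 2 + q = ((α ^ 2 + q) / α) * α := by rw [div_mul_cancel₀ _ hα]
    rw [map_mul, aeval_weil q (h * h') α _ hθ, aeval_weil q h α _ hθ, aeval_weil q h' α _ hθ,
      map_mul, hm.natDegree_mul hm', pow_add]
    ring
  refine Polynomial.eq_of_infinite_eval_eq _ _ ?_
  refine Set.Infinite.mono (s := {α : ℂ | α ≠ 0}) (fun α hα => ?_) ?_
  · have h1 := key α hα
    rw [aeval_def, aeval_def, eval₂_eq_eval_map, eval₂_eq_eval_map] at h1
    exact h1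
  · exact (Set.finite_singleton (0 : ℂ)).infinite_compl

lemma split {q g a b : ℕ} {P u v : ℤ[X]} (hx : weil q P ∈ weilPolys q g) (hu : u.Monic)
    (hv : v.Monic) (hua : u.natDegree = a) (hvb : v.natDegree = b) (huv : u * v = P) :
    ∃ (y : Fin a → ℤ) (z : Fin b → ℤ), weil q P = wp q a y * wp q b z ∧
      wp q a y ∈ weilPolys q a ∧ wp q b z ∈ weilPolys q b := by
  have hw : weil q P = weil q u * weil q v := by
    rw [← huv, weil_mul q hu hv]
  refine ⟨fun k => u.coeff k, fun k => v.coeff k, ?_, ?_, ?_⟩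
  · rw [hw]
    unfold wp
    rw [eq_mkPoly hu hua, eq_mkPoly hv hvb]
  · unfold wp
    rw [eq_mkPoly hu hua]
    refine ⟨weil_monic q hu, by rw [weil_natDegree q hu, hua], ?_, fun z hz => ?_⟩
    · rw [Pool.Agent.W521.Lower.weil_coeff_zero q hu, hua]
    · refine hx.2.2.2 z ?_
      rw [hw, map_mul, hz, zero_mul]
  · unfold wp
    rw [eq_mkPoly hv hvb]
    refine ⟨weil_monic q hv, by rw [weil_natDegree q hv, hvb], ?_, fun z hz => ?_⟩
    · rw [Pool.Agent.W521.Lower.weil_coeff_zero q hv, hvb]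
    · refine hx.2.2.2 z ?_
      rw [hw, map_mul, hz, mul_zero]

open Classical in
/-- the small factors -/
noncomputable def YY (p : ℕ) [Fact p.Prime] (a D n : ℕ) : Finset (Fin n → ℤ) :=
  (Fintype.piFinset (box (p ^ a) n)).filter fun y => ∀ k, IsWeilNum p a D 1 (labA (p ^ a) n y k)

/-- the products -/
def FF (p : ℕ) [Fact p.Prime] (a D n m : ℕ) : Set ℤ[X] :=
  {f : ℤ[X] | ∃ y ∈ YY p a D n, ∃ z ∈ TS p a D m (labA (p ^ a) n y),
    f = wp (p ^ a) n y * wp (p ^ a) m z}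

lemma FF_bound (h7 : S7) (D n m : ℕ) (hD : 0 < D) (hm : 0 < m) :
    ∃ C : ℝ, 0 < C ∧ ∀ (p : ℕ) [Fact p.Prime] (a : ℕ), 0 < a → (FF p a D n m).Finite ∧
      ((FF p a D n m).ncard : ℝ) ≤ C * Real.sqrt ((p : ℝ) ^ a) ^ (tot n + expo m) := by
  obtain ⟨C, hC, hT⟩ := h7 m hm (Fin n) D hD
  refine ⟨(3 * 4 ^ n) ^ n * C, by positivity, fun p hp a ha => ?_⟩
  classical
  obtain ⟨hA1, hA2⟩ := union_bound (YY p a D n) (fun y => TS p a D m (labA (p ^ a) n y))
    (fun y => TS_finite p a _ m _) (fun y z => wp (p ^ a) n y * wp (p ^ a) m z)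
    (b := C * Real.sqrt ((p : ℝ) ^ a) ^ expo m)
    (fun y hy => hT p a ha (labA (p ^ a) n y) (Finset.mem_filter.1 hy).2)
  refine ⟨hA1, hA2.trans ?_⟩
  have hq0 : 0 < p ^ a := Nat.pow_pos hp.out.pos
  have h1 := card_all_box (q := p ^ a) (g := n) hq0
  have h2 : ((YY p a D n).card : ℝ) ≤ ((Fintype.piFinset (box (p ^ a) n)).card : ℝ) := by
    exact_mod_cast Finset.card_filter_le _ _
  have hqR : ((p ^ a : ℕ) : ℝ) = (p : ℝ) ^ a := by push_cast; rfl
  rw [hqR] at h1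
  have h3 := h2.trans h1
  calc ((YY p a D n).card : ℝ) * (C * Real.sqrt ((p : ℝ) ^ a) ^ expo m) ≤
        ((3 * 4 ^ n) ^ n * Real.sqrt ((p : ℝ) ^ a) ^ tot n) *
          (C * Real.sqrt ((p : ℝ) ^ a) ^ expo m) :=
        mul_le_mul_of_nonneg_right h3 (by positivity)
    _ = (3 * 4 ^ n) ^ n * C * Real.sqrt ((p : ℝ) ^ a) ^ (tot n + expo m) := by
        rw [pow_add]; ring

section prod

variable {p : ℕ} [hp : Fact p.Prime] {a g1 g2 : ℕ}

lemma lab_ne (hq : p ^ a ≠ 0) {g : ℕ} (y : Fin g → ℤ) (j : Fin g) : labA (p ^ a) g y j ≠ 0 := by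
  intro h0
  have := lab_mul (p ^ a) g y j
  rw [h0, zero_mul] at this
  have hqc : ((p ^ a : ℕ) : ℂ) ≠ 0 := by exact_mod_cast hq
  exact hqc this.symm

/-- the exponents for a product -/
lemma key (h3 : S3) (ha : 0 < a) {f : ℤ[X]} {y : Fin g1 → ℤ} {z : Fin g2 → ℤ}
    (hf : f = wp (p ^ a) g1 y * wp (p ^ a) g2 z)
    (hy : wp (p ^ a) g1 y ∈ weilPolys (p ^ a) g1) (hz : wp (p ^ a) g2 z ∈ weilPolys (p ^ a) g2)
    (hE : ExL (p ^ a) f) :
    ∃ e : Fin g1 ⊕ Fin g2 → ℤ, (∃ i, e i ≠ 0) ∧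
      RelZ (p ^ a) (Sum.elim (labA (p ^ a) g1 y) (labA (p ^ a) g2 z)) e ∧ Even (∑ i, e i) ∧
      (∀ i j, i ≠ j → e i ≠ 0 → e j ≠ 0 →
        ¬ RelZ (p ^ a) (Sum.elim (labA (p ^ a) g1 y) (labA (p ^ a) g2 z))
          (Pi.single i (e i).sign + Pi.single j (e j).sign)) ∧
      ∀ i, 2 ≤ |e i| →
        ¬ RelZ (p ^ a) (Sum.elim (labA (p ^ a) g1 y) (labA (p ^ a) g2 z)) (Pi.single i 1) := by
  have hq1 : 1 < p ^ a := Nat.one_lt_pow ha.ne' hp.out.one_lt
  have hq0 : p ^ a ≠ 0 := by omega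
  obtain ⟨L, hL0, hLr, hLN, hLp⟩ := hE
  have hn1 : ∀ j, ‖labA (p ^ a) g1 y j‖ ^ 2 = ((p ^ a : ℕ) : ℝ) := fun j =>
    hy.2.2.2 _ ((lab_root hq0 y _).2 ⟨j, Or.inl rfl⟩)
  have hn2 : ∀ j, ‖labA (p ^ a) g2 z j‖ ^ 2 = ((p ^ a : ℕ) : ℝ) := fun j =>
    hz.2.2.2 _ ((lab_root hq0 z _).2 ⟨j, Or.inl rfl⟩)
  have hB : ∀ {g : ℕ} (x : Fin g → ℤ) (j : Fin g),
      labB (p ^ a) g x j = ((p ^ a : ℕ) : ℂ) / labA (p ^ a) g x j := by
    intro g x j
    rw [eq_div_iff (lab_ne hq0 x j), mul_comm]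
    exact lab_mul (p ^ a) g x j
  exact h3 (Fin g1 ⊕ Fin g2) (p ^ a) hq1
    (Sum.elim (labA (p ^ a) g1 y) (labA (p ^ a) g2 z))
    (by rintro (j | j); exacts [hn1 j, hn2 j]) L hL0 (by
      intro w hw
      have h1 := hLr w hw
      rw [hf, map_mul, mul_eq_zero] at h1
      rcases h1 with h1 | h1
      · obtain ⟨j, hj⟩ := (lab_root hq0 y w).1 h1
        refine ⟨Sum.inl j, ?_⟩
        rw [Sum.elim_inl, ← hB y j]
        exact hj
      · obtain ⟨j, hj⟩ := (lab_root hq0 z w).1 h1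
        refine ⟨Sum.inr j, ?_⟩
        rw [Sum.elim_inr, ← hB z j]
        exact hj) hLN hLp

lemma mem_FF (ha : 0 < a) {g n m : ℕ} {f : ℤ[X]} (hf : f ∈ newtonWeil p a g) {y : Fin n → ℤ}
    {z : Fin m → ℤ} (hfyz : f = wp (p ^ a) m z * wp (p ^ a) n y)
    (hy : wp (p ^ a) n y ∈ weilPolys (p ^ a) n) (hz : wp (p ^ a) m z ∈ weilPolys (p ^ a) m)
    {e : Fin m ⊕ Fin n → ℤ} (he : ∃ j : Fin m, e (Sum.inl j) ≠ 0)
    (heR : RelZ (p ^ a) (Sum.elim (labA (p ^ a) m z) (labA (p ^ a) n y)) e) :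
    f ∈ FF p a (2 * g).factorial n m := by
  have hq1 : 1 < p ^ a := Nat.one_lt_pow ha.ne' hp.out.one_lt
  have hq0 : p ^ a ≠ 0 := by omega
  have hroot : ∀ w : ℂ, aeval w f = 0 → IsWeilNum p a (2 * g).factorial 1 w :=
    fun w hw => isWeilNum_of_root ha hf hw
  have hry : ∀ w : ℂ, aeval w (wp (p ^ a) n y) = 0 → aeval w f = 0 := by
    intro w hw
    rw [hfyz, map_mul, hw, mul_zero]
  have hrz : ∀ w : ℂ, aeval w (wp (p ^ a) m z) = 0 → aeval w f = 0 := by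
    intro w hw
    rw [hfyz, map_mul, hw, zero_mul]
  refine ⟨y, ?_, z, ⟨hz, fun w hw => hroot w (hrz w hw), fun j => e (Sum.inl j),
    fun j => e (Sum.inr j), he, relZ_split heR⟩, by rw [hfyz, mul_comm]⟩
  classical
  unfold YY
  refine Finset.mem_filter.2 ⟨mem_box hq0 hy, fun k => hroot _ (hry _ ?_)⟩
  exact (lab_root hq0 y _).2 ⟨k, Or.inl rfl⟩

/-- case A: a factor of degree two -/
lemma caseA (h3 : S3) (ha : 0 < a) {g m : ℕ} {f : ℤ[X]} (hf : f ∈ newtonWeil p a g)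
    (hE : ExL (p ^ a) f) {y : Fin 1 → ℤ} {z : Fin m → ℤ}
    (hfyz : f = wp (p ^ a) 1 y * wp (p ^ a) m z)
    (hy : wp (p ^ a) 1 y ∈ weilPolys (p ^ a) 1) (hz : wp (p ^ a) m z ∈ weilPolys (p ^ a) m) :
    f ∈ FF p a (2 * g).factorial 1 m := by
  have hq1 : 1 < p ^ a := Nat.one_lt_pow ha.ne' hp.out.one_lt
  have hq0 : p ^ a ≠ 0 := by omega
  have hfyz' : f = wp (p ^ a) m z * wp (p ^ a) 1 y := by rw [hfyz, mul_comm]
  obtain ⟨e, he0, heR, heE, -, he2⟩ := key h3 ha hfyz' hz hy hE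
  refine mem_FF ha hf hfyz' hy hz ?_ heR
  by_contra hz0
  push Not at hz0
  have he : e = Pi.single (Sum.inr 0) (e (Sum.inr 0)) := by
    funext i
    rcases i with i | i
    · rw [hz0 i, Pi.single_eq_of_ne (by simp)]
    · have : i = 0 := Subsingleton.elim _ _
      rw [this, Pi.single_eq_same]
  have hm : e (Sum.inr 0) ≠ 0 := by
    obtain ⟨i, hi⟩ := he0
    rcases i with i | i
    · exact absurd (hz0 i) hi
    · have : i = 0 := Subsingleton.elim _ _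
      rw [← this]; exact hi
  have hev : Even (e (Sum.inr 0)) := by
    rw [he, sum_single] at heE
    exact heE
  have habs : 2 ≤ |e (Sum.inr 0)| := by
    obtain ⟨r, hr⟩ := hev
    have hr0 : r ≠ 0 := by
      rintro rfl
      exact hm (by rw [hr]; ring)
    have : 1 ≤ |r| := Int.one_le_abs hr0
    rw [hr, ← two_mul, abs_mul, abs_two]
    linarith
  refine he2 (Sum.inr 0) habs ?_
  have hα : ∀ i, (Sum.elim (labA (p ^ a) m z) (labA (p ^ a) 1 y)) i ≠ 0 := by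
    rintro (j | j)
    · exact lab_ne hq0 z j
    · exact lab_ne hq0 y j
  refine relZ_single (by omega) hα hm ?_
  rw [← he]
  exact heR

/-- case B: a factor of degree four -/
lemma caseB (h3 : S3) (h10 : P10) (ha : 0 < a) {g m : ℕ} {f : ℤ[X]} (hf : f ∈ newtonWeil p a g)
    (hE : ExL (p ^ a) f) {y : Fin 2 → ℤ} {z : Fin m → ℤ}
    (hfyz : f = wp (p ^ a) 2 y * wp (p ^ a) m z)
    (hy : wp (p ^ a) 2 y ∈ weilPolys (p ^ a) 2) (hz : wp (p ^ a) m z ∈ weilPolys (p ^ a) m)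
    (hirr : Irreducible (mkPoly 2 y)) :
    f ∈ FF p a (2 * g).factorial 2 m := by
  have hq1 : 1 < p ^ a := Nat.one_lt_pow ha.ne' hp.out.one_lt
  have hfyz' : f = wp (p ^ a) m z * wp (p ^ a) 2 y := by rw [hfyz, mul_comm]
  obtain ⟨e, he0, heR, heE, heP, he2⟩ := key h3 ha hfyz' hz hy hE
  refine mem_FF ha hf hfyz' hy hz ?_ heR
  by_contra hz0
  push Not at hz0
  refine h10 (p ^ a) y (fun j => e (Sum.inr j)) hq1 hy hirr ⟨?_, ?_, ?_, ?_, ?_⟩
  · obtain ⟨i, hi⟩ := he0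
    rcases i with i | i
    · exact absurd (hz0 i) hi
    · exact ⟨i, hi⟩
  · exact (relZ_inr _ _ e hz0).1 heR
  · rw [Fintype.sum_sum_type, Finset.sum_eq_zero (fun i _ => hz0 i), zero_add] at heE
    exact heE
  · intro i j hij hi hj hR
    refine heP (Sum.inr i) (Sum.inr j) (fun h => hij (Sum.inr_injective h)) hi hj ?_
    refine (relZ_inr _ _ _ fun k => ?_).2 ?_
    · rw [Pi.add_apply, single_inl, single_inl, add_zero]
    · have h1 : (fun k : Fin 2 => (Pi.single (Sum.inr i) (e (Sum.inr i)).sign +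
          Pi.single (Sum.inr j) (e (Sum.inr j)).sign : Fin m ⊕ Fin 2 → ℤ) (Sum.inr k)) =
          Pi.single i (e (Sum.inr i)).sign + Pi.single j (e (Sum.inr j)).sign := by
        funext k
        rw [Pi.add_apply, Pi.add_apply, single_inr, single_inr]
      rw [h1]
      exact hR
  · intro i hi hR
    refine he2 (Sum.inr i) hi ?_
    refine (relZ_inr _ _ _ fun k => single_inl _ _ _).2 ?_
    have h1 : (fun k : Fin 2 => (Pi.single (Sum.inr i) 1 : Fin m ⊕ Fin 2 → ℤ) (Sum.inr k)) =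
        Pi.single i 1 := by
      funext k
      rw [single_inr]
    rw [h1]
    exact hR

/-- a reducible real Weil polynomial of degree two has linear factors -/
lemma exists_lin {y : Fin 2 → ℤ} (hirr : ¬ Irreducible (mkPoly 2 y)) :
    ∃ u v : ℤ[X], u.Monic ∧ v.Monic ∧ u * v = mkPoly 2 y ∧ u.natDegree = 1 ∧
      v.natDegree = 1 := by
  obtain ⟨P, hP⟩ : ∃ P, P = mkPoly 2 y := ⟨_, rfl⟩
  have hPm : P.Monic := by rw [hP]; exact mkPoly_monic 2 y
  have hPd : P.natDegree = 2 := by rw [hP]; exact mkPoly_natDegree 2 y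
  have hP1 : P ≠ 1 := by
    intro h
    rw [h, natDegree_one] at hPd
    omega
  rw [← hP, hPm.irreducible_iff_natDegree] at hirr
  have hex : ∃ f g : ℤ[X], f.Monic ∧ g.Monic ∧ f * g = P ∧ f.natDegree ≠ 0 ∧
      g.natDegree ≠ 0 := by
    by_contra hno
    refine hirr ⟨hP1, fun f g hf hg hfg => ?_⟩
    by_contra h0
    rw [not_or] at h0
    exact hno ⟨f, g, hf, hg, hfg, h0.1, h0.2⟩
  obtain ⟨f, g, hf, hg, hfg, hf0, hg0⟩ := hex
  have hdeg : f.natDegree + g.natDegree = 2 := by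
    rw [← hf.natDegree_mul hg, hfg, hPd]
  exact ⟨f, g, hf, hg, by rw [hfg, hP], by omega, by omega⟩

/-- the factorisations of a reducible Weil polynomial -/
lemma exists_fac (h8 : P8a) (ha : 0 < a) {g : ℕ} (hg : 3 ≤ g) {f : ℤ[X]}
    (hf : f ∈ newtonWeil p a g) (hirr : ¬ Irreducible f) :
    ∃ (n m : ℕ) (y : Fin n → ℤ) (z : Fin m → ℤ), 1 ≤ n ∧ n ≤ m ∧ n + m = g ∧
      f = wp (p ^ a) n y * wp (p ^ a) m z ∧ wp (p ^ a) n y ∈ weilPolys (p ^ a) n ∧
      wp (p ^ a) m z ∈ weilPolys (p ^ a) m := by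
  have hq0 : 0 < p ^ a := Nat.pow_pos hp.out.pos
  obtain ⟨h, hm, hd, hfh⟩ := exists_real hq0.ne' hf.1
  have hw : f = wp (p ^ a) g (fun k => h.coeff k) := by
    unfold wp
    rw [eq_mkPoly hm hd]
    exact hfh
  obtain ⟨n, m, y, z, h1, h2, h3, h4, h5, h6⟩ := h8 (p ^ a) g hq0 hg (fun k => h.coeff k)
    (by rw [← hw]; exact hf.1) (by rw [← hw]; exact hirr)
  exact ⟨n, m, y, z, h1, h2, h3, by rw [hw]; exact h4, h5, h6⟩

end prod

theorem p9 (h3 : S3) (h7 : S7) (h8 : P8a) (h10 : P10) : P9 := by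
  intro g hg
  have e3 : expo 3 = 3 := by unfold expo; norm_num
  have e2 : expo 2 = 2 := by unfold expo; norm_num
  have e4 : expo 4 = 6 := by unfold expo; norm_num
  have t1 : tot 1 = 1 := rfl
  have t2 : tot 2 = 3 := rfl
  rcases hg with rfl | rfl
  · obtain ⟨C, hC, hF⟩ := FF_bound h7 (2 * 3).factorial 1 2 (Nat.factorial_pos _) (by norm_num)
    refine ⟨C, hC, fun p hp a ha => ?_⟩
    obtain ⟨hA1, hA2⟩ := hF p a ha
    have hsub : {f ∈ newtonWeil p a 3 | ¬ Irreducible f ∧ ExL (p ^ a) f} ⊆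
        FF p a (2 * 3).factorial 1 2 := by
      rintro f ⟨hf, hirr, hE⟩
      obtain ⟨n, m, y, z, h1, h2, h4, h5, h6, h9⟩ := exists_fac h8 ha le_rfl hf hirr
      obtain rfl : n = 1 := by omega
      obtain rfl : m = 2 := by omega
      exact caseA h3 ha hf hE h5 h6 h9
    have h1 : ({f ∈ newtonWeil p a 3 | ¬ Irreducible f ∧ ExL (p ^ a) f}.ncard : ℝ) ≤
        ((FF p a (2 * 3).factorial 1 2).ncard : ℝ) := by
      exact_mod_cast Set.ncard_le_ncard hsub hA1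
    have h2 : oddOrder 3 = tot 1 + expo 2 := by
      rw [t1, e2]
      rfl
    rw [h2]
    exact h1.trans hA2
  · obtain ⟨C, hC, hF⟩ := FF_bound h7 (2 * 5).factorial 1 4 (Nat.factorial_pos _) (by norm_num)
    obtain ⟨C', hC', hF'⟩ := FF_bound h7 (2 * 5).factorial 2 3 (Nat.factorial_pos _)
      (by norm_num)
    refine ⟨C + C', by positivity, fun p hp a ha => ?_⟩
    obtain ⟨hA1, hA2⟩ := hF p a ha
    obtain ⟨hB1, hB2⟩ := hF' p a ha
    have hsub : {f ∈ newtonWeil p a 5 | ¬ Irreducible f ∧ ExL (p ^ a) f} ⊆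
        FF p a (2 * 5).factorial 1 4 ∪ FF p a (2 * 5).factorial 2 3 := by
      rintro f ⟨hf, hirr, hE⟩
      obtain ⟨n, m, y, z, h1, h2, h4, h5, h6, h9⟩ := exists_fac h8 ha (by norm_num) hf hirr
      have hn : n = 1 ∨ n = 2 := by omega
      rcases hn with rfl | rfl
      · left
        obtain rfl : m = 4 := by omega
        exact caseA h3 ha hf hE h5 h6 h9
      · obtain rfl : m = 3 := by omega
        by_cases hy : Irreducible (mkPoly 2 y)
        · right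
          exact caseB h3 h10 ha hf hE h5 h6 h9 hy
        · left
          obtain ⟨u, v, hu, hv, huv, hud, hvd⟩ := exists_lin hy
          have hzm : (mkPoly 3 z).Monic := mkPoly_monic 3 z
          have h10' : f = weil (p ^ a) (u * (v * mkPoly 3 z)) := by
            rw [← mul_assoc, huv, weil_mul (p ^ a) (mkPoly_monic 2 y) hzm]
            exact h5
          have hf' : weil (p ^ a) (u * (v * mkPoly 3 z)) ∈ weilPolys (p ^ a) 5 := by
            rw [← h10']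
            exact hf.1
          obtain ⟨y', z', h11, h12, h13⟩ := split (a := 1) (b := 4) hf' hu (hv.mul hzm) hud (by
            rw [hv.natDegree_mul hzm, hvd, mkPoly_natDegree]) rfl
          exact caseA h3 ha hf hE (by rw [h10', h11]) h12 h13
    have h1 : ({f ∈ newtonWeil p a 5 | ¬ Irreducible f ∧ ExL (p ^ a) f}.ncard : ℝ) ≤
        ((FF p a (2 * 5).factorial 1 4).ncard : ℝ) +
          ((FF p a (2 * 5).factorial 2 3).ncard : ℝ) := by
      exact_mod_cast (Set.ncard_le_ncard hsub (hA1.union hB1)).trans (Set.ncard_union_le _ _)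
    have hs1 : (1 : ℝ) ≤ Real.sqrt ((p : ℝ) ^ a) := by
      rw [Real.one_le_sqrt]
      exact one_le_pow₀ (by exact_mod_cast hp.out.one_lt.le)
    have h2 : oddOrder 5 = 7 := rfl
    rw [t1, e4] at hA2
    rw [t2, e3] at hB2
    rw [h2]
    have h6 : Real.sqrt ((p : ℝ) ^ a) ^ (3 + 3) ≤ Real.sqrt ((p : ℝ) ^ a) ^ 7 :=
      pow_le_pow_right₀ hs1 (by norm_num)
    have h9 : C' * Real.sqrt ((p : ℝ) ^ a) ^ (3 + 3) ≤ C' * Real.sqrt ((p : ℝ) ^ a) ^ 7 :=
      mul_le_mul_of_nonneg_left h6 hC'.le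
    have h12 : (1 + 6 : ℕ) = 7 := rfl
    rw [h12] at hA2
    rw [add_mul]
    linarith

end Pool.Agent.H997.PDp9
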