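import Pool.Agent.H857.PD.Core
import Mathlib.NumberTheory.LegendreSymbol.QuadraticChar.Basic

/-!
# O15b: many good parameters for `g = 3, 5`
-/

set_option autoImplicit false

namespace Pool.Agent.H344.PDo15b

open Module Polynomial Pool.Agent.H857.WT Pool.Agent.H857.PD

/-- Chinese remainders with a representative in `[1, l₁ l₂]` -/
theorem crt {l₁ l₂ : ℕ} (h : Nat.Coprime l₁ l₂) (h1 : 0 < l₁) (h2 : 0 < l₂) (u : ZMod l₁)
    (v : ZMod l₂) : ∃ c : ℕ, 1 ≤ c ∧ c ≤ l₁ * l₂ ∧ (c : ZMod l₁) = u ∧ (c : ZMod l₂) = v := by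
  have : NeZero (l₁ * l₂) := ⟨(Nat.mul_pos h1 h2).ne'⟩
  obtain ⟨z, hz⟩ : ∃ z, z = (ZMod.chineseRemainder h).symm (u, v) := ⟨_, rfl⟩
  have hc1 : ((z.val : ZMod (l₁ * l₂))) = z := ZMod.natCast_zmod_val z
  have h3 : ZMod.chineseRemainder h (z.val : ZMod (l₁ * l₂)) = (u, v) := by
    rw [hc1, hz, RingEquiv.apply_symm_apply]
  rw [map_natCast] at h3
  have h4 : (z.val : ZMod l₁) = u := by
    have := congrArg Prod.fst h3
    rwa [Prod.fst_natCast] at this
  have h5 : (z.val : ZMod l₂) = v := by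
    have := congrArg Prod.snd h3
    rwa [Prod.snd_natCast] at this
  by_cases h0 : z.val = 0
  · refine ⟨l₁ * l₂, Nat.mul_pos h1 h2, le_rfl, ?_, ?_⟩
    · rw [h0] at h4
      rw [Nat.cast_mul, ZMod.natCast_self, zero_mul, ← h4, Nat.cast_zero]
    · rw [h0] at h5
      rw [Nat.cast_mul, ZMod.natCast_self, mul_zero, ← h5, Nat.cast_zero]
  · exact ⟨z.val, by omega, (ZMod.val_lt z).le, h4, h5⟩

theorem cast_ne {p l : ℕ} (hp : p.Prime) (hl : l.Prime) (h : l ≠ p) (a : ℕ) :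
    ((p ^ a : ℕ) : ZMod l) ≠ 0 := by
  have : Fact l.Prime := ⟨hl⟩
  rw [Nat.cast_pow]
  refine pow_ne_zero _ fun h0 => ?_
  rw [ZMod.natCast_eq_zero_iff] at h0
  exact h ((Nat.prime_dvd_prime_iff_eq hl hp).1 h0)

/-- the nonresidues modulo an odd prime -/
theorem nonres {p : ℕ} [hpf : Fact p.Prime] (hp : p ≠ 2) : ∃ A : Finset (ZMod p),
    p ≤ 8 * A.card ∧ ∀ a ∈ A, ∀ w : ZMod p, w ^ 2 ≠ -a := by
  classical
  have hch : ringChar (ZMod p) ≠ 2 := by
    rw [ZMod.ringChar_zmod_n]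
    exact hp
  have h1 := quadraticChar_sum_zero hch
  obtain ⟨B, hB⟩ : ∃ B : Finset (ZMod p),
      B = Finset.univ.filter (fun a => quadraticChar (ZMod p) a = -1) := ⟨_, rfl⟩
  have h2 : ∀ a : ZMod p, quadraticChar (ZMod p) a =
      1 - 2 * (if a ∈ B then 1 else 0) - (if a = 0 then 1 else 0) := by
    intro a
    by_cases h0 : a = 0
    · have h3 : a ∉ B := by
        rw [hB, Finset.mem_filter, h0, quadraticChar_zero]
        norm_num
      rw [if_neg h3, if_pos h0, h0, quadraticChar_zero]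
      norm_num
    · rcases quadraticChar_dichotomy h0 with h3 | h3
      · have h4 : a ∉ B := by
          rw [hB, Finset.mem_filter, h3]
          norm_num
        rw [if_neg h4, if_neg h0, h3]
        norm_num
      · have h4 : a ∈ B := by
          rw [hB, Finset.mem_filter]
          exact ⟨Finset.mem_univ _, h3⟩
        rw [if_pos h4, if_neg h0, h3]
        norm_num
  have h5 : (0 : ℤ) = (p : ℤ) - 2 * B.card - 1 := by
    rw [← h1, Finset.sum_congr rfl fun a _ => h2 a, Finset.sum_sub_distrib,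
      Finset.sum_sub_distrib, ← Finset.mul_sum, Finset.sum_ite_mem, Finset.sum_ite_eq' ]
    simp [ZMod.card]
  have hp2 := hpf.out.two_le
  refine ⟨B.image (fun a => -a), ?_, ?_⟩
  · rw [Finset.card_image_of_injective _ neg_injective]
    omega
  · intro a ha w hw
    obtain ⟨b, hb, rfl⟩ := Finset.mem_image.1 ha
    rw [hB, Finset.mem_filter] at hb
    have h6 := quadraticChar_neg_one_iff_not_isSquare.1 hb.2
    apply h6
    rw [neg_neg] at hw
    exact ⟨w, by rw [← hw, sq]⟩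

/-- the classes of the good discriminants -/
theorem classes {p : ℕ} [hpf : Fact p.Prime] : ∃ (Q : ℕ) (A : Finset (ZMod Q)), 0 < Q ∧
    Q ≤ 4 * p ∧ Q ≤ 8 * A.card ∧ (∀ l : ℕ, l.Prime → l ≠ 2 → l ≠ p → Nat.Coprime l Q) ∧
    ∀ d : ℕ, (d : ZMod Q) ∈ A → (p = 2 ∧ d % 8 = 3) ∨
      (p ≠ 2 ∧ ∀ w : ZMod p, w ^ 2 ≠ -(d : ZMod p)) := by
  classical
  by_cases hp : p = 2
  · refine ⟨8, {3}, by norm_num, by omega, by simp, ?_, ?_⟩
    · intro l hl h2 _
      have : Nat.Coprime l (2 ^ 3) :=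
        Nat.Coprime.pow_right 3 ((Nat.coprime_primes hl Nat.prime_two).2 h2)
      exact this
    · intro d hd
      refine Or.inl ⟨hp, ?_⟩
      rw [Finset.mem_singleton] at hd
      have h1 : ((d : ℕ) : ZMod 8) = ((3 : ℕ) : ZMod 8) := by rw [hd]; rfl
      have h2 := (ZMod.natCast_eq_natCast_iff' d 3 8).1 h1
      omega
  · obtain ⟨A, hA1, hA2⟩ := nonres hp
    refine ⟨p, A, hpf.out.pos, by omega, hA1, ?_, ?_⟩
    · intro l hl _ h
      exact (Nat.coprime_primes hl hpf.out).2 h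
    · intro d hd
      exact Or.inr ⟨hp, hA2 _ hd⟩

theorem coeff1 (s : ℂ) (u v : Fin 1 → ℂ) : (hpolyO 1 s u v).coeff 2 = u 0 := by
  unfold hpolyO
  rw [Fin.sum_univ_one]
  simp only [coeff_add, coeff_C_mul, coeff_X_pow, coeff_C, Fin.val_zero]
  norm_num

theorem coeff2 (s : ℂ) (u v : Fin 2 → ℂ) : (hpolyO 2 s u v).coeff 4 = u 0 ∧
    (hpolyO 2 s u v).coeff 3 = u 1 := by
  unfold hpolyO
  rw [Fin.sum_univ_two]
  refine ⟨?_, ?_⟩
  · simp only [coeff_add, coeff_C_mul, coeff_X_pow, coeff_C, Fin.val_zero, Fin.val_one]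
    norm_num
  · simp only [coeff_add, coeff_C_mul, coeff_X_pow, coeff_C, Fin.val_zero, Fin.val_one]
    norm_num

/-- the coefficients determine the parameters -/
theorem inj_hO {r : ℕ} (hr : r = 1 ∨ r = 2) {s d d' : ℕ} {x x' y : Fin r → ℤ}
    (hy : ∀ j : Fin r, (j : ℕ) + 1 = r → y j = 1)
    (h : hO r s d x y = hO r s d' x' y) : d = d' ∧ x = x' := by
  have key : ∀ j, al d x y j = al d' x' y j := by
    unfold hO at h
    rcases hr with rfl | rfl
    · have c2 := congrArg (fun P : ℂ[X] => P.coeff 2) h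
      simp only [coeff1] at c2
      intro j
      fin_cases j
      exact c2
    · have c4 := congrArg (fun P : ℂ[X] => P.coeff 4) h
      have c3 := congrArg (fun P : ℂ[X] => P.coeff 3) h
      simp only [(coeff2 _ _ _).1, (coeff2 _ _ _).2] at c4 c3
      intro j
      fin_cases j
      · exact c4
      · exact c3
  have hre : ∀ j, x j = x' j := by
    intro j
    have h3 := congrArg Complex.re (key j)
    unfold al at h3
    simp at h3
    exact_mod_cast h3
  have hr0 : 0 < r := by rcases hr with rfl | rfl <;> norm_num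
  have him := congrArg Complex.im (key ⟨r - 1, by omega⟩)
  unfold al at him
  rw [hy ⟨r - 1, by omega⟩ (by show r - 1 + 1 = r; omega)] at him
  simp at him
  have hd : (d : ℝ) = d' := by
    have e1 := Real.sq_sqrt (Nat.cast_nonneg d : (0 : ℝ) ≤ d)
    have e2 := Real.sq_sqrt (Nat.cast_nonneg d' : (0 : ℝ) ≤ d')
    rw [← e1, ← e2, him]
  exact ⟨by exact_mod_cast hd, funext hre⟩

theorem fl {t : ℝ} (ht : 1 ≤ t) : t / 2 ≤ (⌊t⌋₊ : ℝ) := by
  have h1 : 1 ≤ ⌊t⌋₊ := Nat.le_floor (by simpa using ht)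
  have h2 := Nat.lt_floor_add_one t
  have h3 : (1 : ℝ) ≤ ⌊t⌋₊ := by exact_mod_cast h1
  linarith

theorem o15b (h4 : O4S) (h14 : O14) : O15b := by
  classical
  intro r hr
  have hr1 : 1 ≤ r := by rcases hr with rfl | rfl <;> norm_num
  have hr2 : r ≤ 2 := by rcases hr with rfl | rfl <;> norm_num
  refine ⟨50000000, by norm_num, ?_⟩
  intro p hpf b hb hC0
  have hp := hpf.out
  obtain ⟨l, hl, hl35, hl2, hlp, hl5⟩ : ∃ l : ℕ, l.Prime ∧ (l = 3 ∨ l = 5) ∧ l ≠ 2 ∧ l ≠ p ∧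
      l ≤ 5 := by
    by_cases h3 : p = 3
    · exact ⟨5, by norm_num, Or.inr rfl, by norm_num, by omega, by norm_num⟩
    · exact ⟨3, by norm_num, Or.inl rfl, by norm_num, by omega, by norm_num⟩
  have : Fact l.Prime := ⟨hl⟩
  have hsl := cast_ne hp hl hlp b
  obtain ⟨t, xt, ht, hP⟩ := h4 r hr l hl35 _ hsl
  obtain ⟨Q, A, hQ0, hQ4, hQ8, hcop, hgood⟩ := @classes p hpf
  have hcopQ := hcop l hl hl2 hlp
  have hcop2 : Nat.Coprime l 2 := (Nat.coprime_primes hl Nat.prime_two).2 hl2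
  obtain ⟨y, hy⟩ : ∃ y : Fin r → ℤ,
      y = (fun j : Fin r => if (j : ℕ) + 1 = r then (1 : ℤ) else 0) :=
    ⟨_, rfl⟩
  have hy1 : ∀ j : Fin r, (j : ℕ) + 1 = r → y j = 1 := fun j hj => by rw [hy]; exact if_pos hj
  have hy0 : ∀ j : Fin r, (j : ℕ) + 1 ≠ r → y j = 0 := fun j hj => by rw [hy]; exact if_neg hj
  choose d₀ hd1 hd2 hdl hdQ using fun a : ZMod Q => crt hcopQ hl.pos hQ0 (-(t ^ 2)) a
  choose x₀ hx1 hx2 hxl hxe using fun j : Fin r => crt hcop2 hl.pos Nat.two_pos (xt j)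
    (0 : ZMod 2)
  -- the size
  obtain ⟨s, hs⟩ : ∃ s : ℝ, s = (p : ℝ) ^ b := ⟨_, rfl⟩
  rw [← hs] at hC0 ⊢
  have hs0 : 0 ≤ s := by linarith
  have hps : (p : ℝ) ≤ s := by
    rw [hs]
    calc (p : ℝ) = (p : ℝ) ^ 1 := (pow_one _).symm
      _ ≤ (p : ℝ) ^ b := pow_le_pow_right₀ (by exact_mod_cast hp.one_lt.le) hb
  have hscast : ((p ^ b : ℕ) : ℝ) = s := by rw [hs]; push_cast; rfl
  have hpow : ∀ e : ℕ, 1 ≤ e → 50000000 ≤ s ^ e := by
    intro e he
    calc (50000000 : ℝ) ≤ s := hC0.le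
      _ = s ^ 1 := (pow_one s).symm
      _ ≤ s ^ e := pow_le_pow_right₀ (by linarith) he
  obtain ⟨M, hM⟩ : ∃ M : ℕ → ℕ, M = (fun e : ℕ => ⌊s ^ e / 60⌋₊) := ⟨_, rfl⟩
  have hMle : ∀ e, (M e : ℝ) ≤ s ^ e / 60 := fun e => by
    rw [hM]
    exact Nat.floor_le (by positivity)
  have hMge : ∀ e, 1 ≤ e → s ^ e / 120 ≤ (M e : ℝ) := fun e he => by
    rw [hM]
    have h1 : (1 : ℝ) ≤ s ^ e / 60 := by
      rw [le_div_iff₀ (by norm_num)]
      linarith [hpow e he]
    have h2 := fl h1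
    have h3 : s ^ e / 60 / 2 = s ^ e / 120 := by ring
    rw [h3] at h2
    exact h2
  have hNM : ∀ e, ((l * 2 : ℕ) : ℝ) * M e ≤ s ^ e / 6 := fun e => by
    have h1 : ((l * 2 : ℕ) : ℝ) ≤ 10 := by
      have : l * 2 ≤ 10 := by omega
      exact_mod_cast this
    calc ((l * 2 : ℕ) : ℝ) * M e ≤ 10 * (s ^ e / 60) :=
          mul_le_mul h1 (hMle e) (Nat.cast_nonneg _) (by norm_num)
      _ = s ^ e / 6 := by ring
  have hQR : (0 : ℝ) < (Q : ℝ) := by exact_mod_cast hQ0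
  obtain ⟨D, hD⟩ : ∃ D : ℕ, D = ⌊s ^ (2 * r) / (180 * Q)⌋₊ := ⟨_, rfl⟩
  have hDle : (D : ℝ) ≤ s ^ (2 * r) / (180 * Q) := by
    rw [hD]
    exact Nat.floor_le (by positivity)
  have hDge : s ^ (2 * r) / (360 * Q) ≤ (D : ℝ) := by
    rw [hD]
    have h1 : (1 : ℝ) ≤ s ^ (2 * r) / (180 * Q) := by
      rw [le_div_iff₀ (by positivity), one_mul]
      have h2 : (Q : ℝ) ≤ 4 * s := by
        have : (Q : ℝ) ≤ 4 * p := by exact_mod_cast hQ4
        linarith
      have h3 : s ^ 2 ≤ s ^ (2 * r) := pow_le_pow_right₀ (by linarith) (by omega)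
      nlinarith
    have h2 := fl h1
    have h3 : s ^ (2 * r) / (180 * Q) / 2 = s ^ (2 * r) / (360 * Q) := by
      rw [div_div]
      ring
    rw [h3] at h2
    exact h2
  have hAD : s ^ (2 * r) / 2880 ≤ (A.card : ℝ) * D := by
    have h1 : (Q : ℝ) / 8 ≤ A.card := by
      have : (Q : ℝ) ≤ 8 * A.card := by exact_mod_cast hQ8
      linarith
    calc s ^ (2 * r) / 2880 = (Q : ℝ) / 8 * (s ^ (2 * r) / (360 * Q)) := by
          field_simp
          norm_num
      _ ≤ (A.card : ℝ) * D := mul_le_mul h1 hDge (by positivity) (by positivity)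
  have hlQD : ((l * Q : ℕ) : ℝ) * D ≤ s ^ (2 * r) / 36 := by
    have h1 : ((l * Q : ℕ) : ℝ) ≤ 5 * Q := by
      have : l * Q ≤ 5 * Q := Nat.mul_le_mul_right _ hl5
      exact_mod_cast this
    calc ((l * Q : ℕ) : ℝ) * D ≤ (5 * Q) * (s ^ (2 * r) / (180 * Q)) :=
          mul_le_mul h1 hDle (Nat.cast_nonneg _) (by positivity)
      _ = s ^ (2 * r) / 36 := by
          field_simp
          norm_num
  have hlQ0 : 0 < l * Q := Nat.mul_pos hl.pos hQ0
  have hl20 : 0 < l * 2 := Nat.mul_pos hl.pos Nat.two_pos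
  -- the parameters
  obtain ⟨φ, hφ⟩ : ∃ φ : (ZMod Q × ℕ) × (Fin r → ℕ) → ℕ × (Fin r → ℤ) × (Fin r → ℤ),
      φ = (fun u : (ZMod Q × ℕ) × (Fin r → ℕ) =>
        (d₀ u.1.1 + l * Q * u.1.2, fun j => ((x₀ j + l * 2 * u.2 j : ℕ) : ℤ), y)) := ⟨_, rfl⟩
  obtain ⟨S₀, hS₀⟩ : ∃ S₀ : Finset ((ZMod Q × ℕ) × (Fin r → ℕ)),
      S₀ = (A ×ˢ Finset.range D) ×ˢ
      Fintype.piFinset (fun j : Fin r => Finset.range (M ((j : ℕ) + 1))) := ⟨_, rfl⟩
  have hdQ' : ∀ (a : ZMod Q) (m : ℕ), ((d₀ a + l * Q * m : ℕ) : ZMod Q) = a := by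
    intro a m
    rw [Nat.cast_add, Nat.cast_mul, Nat.cast_mul, ZMod.natCast_self, mul_zero, zero_mul,
      add_zero, hdQ]
  have hφinj : Function.Injective φ := by
    rintro ⟨⟨a, m1⟩, m2⟩ ⟨⟨a', m1'⟩, m2'⟩ h
    rw [hφ] at h
    simp only [Prod.mk.injEq, and_true] at h
    obtain ⟨e1, e2⟩ := h
    have f0 : a = a' := by
      rw [← hdQ' a m1, ← hdQ' a' m1', e1]
    subst f0
    have f1 : m1 = m1' := Nat.eq_of_mul_eq_mul_left hlQ0 (by omega)
    have f2 : m2 = m2' := by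
      funext j
      have e4 := congrFun e2 j
      have e5 : x₀ j + l * 2 * m2 j = x₀ j + l * 2 * m2' j := by exact_mod_cast e4
      exact Nat.eq_of_mul_eq_mul_left hl20 (by omega)
    rw [f1, f2]
  refine ⟨S₀.image φ, ?_, ?_, ?_⟩
  · rw [Finset.card_image_of_injective _ hφinj, hS₀, Finset.card_product, Finset.card_product,
      Fintype.card_piFinset, Finset.card_range]
    simp only [Finset.card_range]
    rcases hr with rfl | rfl
    · have o : oddOrder (2 * 1 + 1) = 3 := rfl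
      rw [o]
      simp only [Finset.univ_unique, Finset.prod_singleton]
      have h2 := hMge 1 (by norm_num)
      have h4 : s ^ (2 * 1) / 2880 * (s ^ 1 / 120) ≤ ((A.card : ℝ) * D) * (M 1 : ℝ) :=
        mul_le_mul hAD h2 (by positivity) (by positivity)
      have h5 : s ^ (2 * 1) / 2880 * (s ^ 1 / 120) = s ^ 3 / 345600 := by
        ring
      rw [h5, div_le_iff₀ (by norm_num)] at h4
      push_cast
      have h6 : (0 : ℝ) ≤ ((A.card : ℝ) * D) * (M 1 : ℝ) := by positivity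
      refine h4.trans ?_
      show ((A.card : ℝ) * D) * (M 1 : ℝ) * 345600 ≤
        50000000 * (((A.card : ℝ) * D) * (M 1 : ℝ))
      nlinarith
    · have o : oddOrder (2 * 2 + 1) = 7 := rfl
      rw [o, Fin.prod_univ_two]
      have h2 := hMge 1 (by norm_num)
      have h2' := hMge 2 (by norm_num)
      have h4 : s ^ (2 * 2) / 2880 * (s ^ 1 / 120 * (s ^ 2 / 120)) ≤
          ((A.card : ℝ) * D) * (M 1 * M 2) :=
        mul_le_mul hAD (mul_le_mul h2 h2' (by positivity) (by positivity))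
          (by positivity) (by positivity)
      have h5 : s ^ (2 * 2) / 2880 * (s ^ 1 / 120 * (s ^ 2 / 120)) = s ^ 7 / 41472000 := by
        ring
      rw [h5, div_le_iff₀ (by norm_num)] at h4
      push_cast
      have h6 : (0 : ℝ) ≤ ((A.card : ℝ) * D) * ((M 1 : ℝ) * M 2) := by positivity
      refine h4.trans ?_
      show ((A.card : ℝ) * D) * (M 1 * M 2) * 41472000 ≤
        50000000 * (((A.card : ℝ) * D) * (M 1 * M 2))
      nlinarith
  · intro u hu
    obtain ⟨⟨⟨a, m1⟩, m2⟩, hm, rfl⟩ := Finset.mem_image.1 hu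
    rw [hS₀, Finset.mem_product, Finset.mem_product, Fintype.mem_piFinset,
      Finset.mem_range] at hm
    obtain ⟨⟨hma, hm1⟩, hm2⟩ := hm
    simp only [Finset.mem_range] at hma hm1 hm2
    rw [hφ]
    simp only []
    have hxle : ∀ j, ((x₀ j + l * 2 * m2 j : ℕ) : ℝ) ≤ s ^ ((j : ℕ) + 1) / 6 := by
      intro j
      have h1 : x₀ j + l * 2 * m2 j ≤ l * 2 * M ((j : ℕ) + 1) := by
        calc x₀ j + l * 2 * m2 j ≤ l * 2 + l * 2 * m2 j := Nat.add_le_add_right (hx2 j) _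
          _ = l * 2 * (m2 j + 1) := by ring
          _ ≤ l * 2 * M ((j : ℕ) + 1) := Nat.mul_le_mul_left _ (hm2 j)
      have h2 : ((x₀ j + l * 2 * m2 j : ℕ) : ℝ) ≤ ((l * 2 : ℕ) : ℝ) * M ((j : ℕ) + 1) := by
        exact_mod_cast h1
      exact h2.trans (hNM _)
    have hdle : ((d₀ a + l * Q * m1 : ℕ) : ℝ) ≤ s ^ (2 * r) / 36 := by
      have h1 : d₀ a + l * Q * m1 ≤ l * Q * D := by
        calc d₀ a + l * Q * m1 ≤ l * Q + l * Q * m1 := Nat.add_le_add_right (hd2 a) _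
          _ = l * Q * (m1 + 1) := by ring
          _ ≤ l * Q * D := Nat.mul_le_mul_left _ hm1
      have h2 : ((d₀ a + l * Q * m1 : ℕ) : ℝ) ≤ ((l * Q : ℕ) : ℝ) * D := by exact_mod_cast h1
      exact h2.trans hlQD
    have hsd : Real.sqrt ((d₀ a + l * Q * m1 : ℕ) : ℝ) ≤ s ^ r / 6 := by
      apply Real.sqrt_le_iff.2
      refine ⟨by positivity, hdle.trans (le_of_eq ?_)⟩
      rw [div_pow, ← pow_mul, mul_comm r 2]
      norm_num
    have hrR : (r : ℝ) ≤ 2 := by exact_mod_cast hr2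
    have hr0 : (0 : ℝ) ≤ (r : ℝ) := Nat.cast_nonneg r
    have hdmem : ((d₀ a + l * Q * m1 : ℕ) : ZMod Q) ∈ A := by
      rw [hdQ']
      exact hma
    have hdg := hgood _ hdmem
    refine ⟨?_, h14 p _ hdg, ?_, ?_, ?_⟩
    · have := hd1 a
      omega
    · intro j
      rw [hscast]
      have hrj : 0 ≤ s ^ ((j : ℕ) + 1) := by positivity
      have h1 : ‖al (d₀ a + l * Q * m1) (fun j => ((x₀ j + l * 2 * m2 j : ℕ) : ℤ)) y j‖ ≤
          s ^ ((j : ℕ) + 1) / 6 + s ^ ((j : ℕ) + 1) / 6 := by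
        unfold al
        refine (norm_add_le _ _).trans (add_le_add ?_ ?_)
        · rw [Int.cast_natCast, Complex.norm_natCast]
          exact hxle j
        · by_cases hj : (j : ℕ) + 1 = r
          · rw [hy1 j hj, Int.cast_one, one_mul, norm_mul, Complex.norm_I, mul_one,
              Complex.norm_real, Real.norm_eq_abs, abs_of_nonneg (Real.sqrt_nonneg _), hj]
            exact hsd
          · rw [hy0 j hj, Int.cast_zero, zero_mul, norm_zero]
            positivity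
      calc ((r : ℝ) + 1) * ‖al (d₀ a + l * Q * m1) (fun j => ((x₀ j + l * 2 * m2 j : ℕ) : ℤ)) y j‖
          ≤ 3 * (s ^ ((j : ℕ) + 1) / 6 + s ^ ((j : ℕ) + 1) / 6) :=
            mul_le_mul (by linarith) h1 (norm_nonneg _) (by norm_num)
        _ ≤ s ^ ((j : ℕ) + 1) := by linarith
    · intro j hj hdiv
      rw [hy1 j hj] at hdiv
      rcases hdg with ⟨hp2, hd8⟩ | ⟨hp2, hdn⟩
      · have hxe' : 2 ∣ x₀ j := (ZMod.natCast_eq_zero_iff _ _).1 (hxe j)
        rw [hp2] at hdiv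
        obtain ⟨c, hc⟩ := hxe'
        obtain ⟨c', hc'⟩ := hdiv
        obtain ⟨d, hd⟩ : ∃ d : ℕ, d = d₀ a + l * Q * m1 := ⟨_, rfl⟩
        rw [← hd] at hd8 hc'
        have e1 : ((x₀ j + l * 2 * m2 j : ℕ) : ℤ) = 2 * (c + l * m2 j) := by
          rw [hc]
          push_cast
          ring
        have e2 : ((x₀ j + l * 2 * m2 j : ℕ) : ℤ) ^ 2 = 2 * (2 * (c + l * m2 j) ^ 2) := by
          rw [e1]
          ring
        rw [e2] at hc'
        omega
      · apply hdn (((x₀ j + l * 2 * m2 j : ℕ) : ZMod p))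
        have h1 := (ZMod.intCast_zmod_eq_zero_iff_dvd _ p).2 hdiv
        push_cast at h1 ⊢
        rw [mul_one] at h1
        exact eq_neg_of_add_eq_zero_left h1
    · refine ⟨l, inferInstance, t, hl2, hsl, ht, ?_, ?_⟩
      · rw [Nat.cast_add, Nat.cast_mul, Nat.cast_mul, ZMod.natCast_self, zero_mul, zero_mul,
          add_zero, hdl, neg_neg]
      · have e1 : (fun j => (((x₀ j + l * 2 * m2 j : ℕ) : ℤ) : ZMod l) + t * (y j : ZMod l)) =
            fun j => xt j + t * (if (j : ℕ) + 1 = r then 1 else 0) := by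
          funext j
          rw [Int.cast_natCast, Nat.cast_add, Nat.cast_mul, Nat.cast_mul, ZMod.natCast_self,
            zero_mul, zero_mul, add_zero, hxl, hy]
          simp
        have e2 : (fun j => (((x₀ j + l * 2 * m2 j : ℕ) : ℤ) : ZMod l) - t * (y j : ZMod l)) =
            fun j => xt j - t * (if (j : ℕ) + 1 = r then 1 else 0) := by
          funext j
          rw [Int.cast_natCast, Nat.cast_add, Nat.cast_mul, Nat.cast_mul, ZMod.natCast_self,
            zero_mul, zero_mul, add_zero, hxl, hy]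
          simp
        rw [e1, e2]
        exact hP
  · intro t ht t' ht' h
    rw [Finset.mem_coe, Finset.mem_image] at ht ht'
    obtain ⟨u, -, rfl⟩ := ht
    obtain ⟨u', -, rfl⟩ := ht'
    rw [hφ] at h ⊢
    simp only [] at h ⊢
    obtain ⟨e1, e2⟩ := inj_hO hr hy1 h
    rw [e1, e2]

end Pool.Agent.H344.PDo15b
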