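import Pool.Agent.H857.PD.Core

/-!
# O3: small parameters give Weil polynomials (helper747)
-/

set_option autoImplicit false

namespace Pool.Agent.H747.PDo3

open Module Polynomial Pool.Agent.W521.Descent Pool.Agent.W521.Density Pool.Agent.W521.Count
  Pool.Agent.X297.UB Pool.Agent.H857.PB Pool.Agent.H857.PA Pool.Agent.H857.HK Pool.Agent.H857.EF
  Pool.Agent.H857.WT Pool.Agent.H857.SG Pool.Agent.H857.PD

theorem eval_conj (h : ℂ[X]) (z : ℂ) :
    (h.map (starRingEnd ℂ)).eval z = (starRingEnd ℂ) (h.eval ((starRingEnd ℂ) z)) := by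
  have h2 := eval₂_at_apply (p := h) (starRingEnd ℂ) ((starRingEnd ℂ) z)
  rw [Complex.conj_conj] at h2
  rw [eval_map]
  exact h2

theorem o3 (h1 : O1) (h2 : O2) : O3 := by
  intro r s d x y hr hs hS
  obtain ⟨z, hzi, hzn, hzp⟩ := h1 r s (al d x y) hs hS
  obtain ⟨f, hfm, hfd, hf0, hfc, hfc2, hfmap⟩ := h2 r s d x y hr
  have hzp' : ∏ i, (X - C (z i)) = hO r s d x y := hzp
  have hzn2 : ∀ i, ‖z i‖ ^ 2 = ((s ^ 2 : ℕ) : ℝ) := by
    intro i
    rw [hzn i]
    push_cast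
    rfl
  have haev : ∀ w : ℂ, aeval w f = (hO r s d x y).eval w *
      (starRingEnd ℂ) ((hO r s d x y).eval ((starRingEnd ℂ) w)) := by
    intro w
    have h3 : aeval w f = (f.map (Int.castRingHom ℂ)).eval w := by
      rw [eval_map]
      rfl
    rw [h3, hfmap, eval_mul, eval_conj]
  have hroot : ∀ w : ℂ, (hO r s d x y).eval w = 0 → ∃ i, w = z i := by
    intro w hw
    rw [← hzp', eval_prod, Finset.prod_eq_zero_iff] at hw
    obtain ⟨i, _, hi⟩ := hw
    rw [eval_sub, eval_X, eval_C, sub_eq_zero] at hi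
    exact ⟨i, hi⟩
  have hzr : ∀ i, (hO r s d x y).eval (z i) = 0 := by
    intro i
    rw [← hzp', eval_prod]
    refine Finset.prod_eq_zero (Finset.mem_univ i) ?_
    rw [eval_sub, eval_X, eval_C, sub_self]
  have hf0' : f ≠ 0 := hfm.ne_zero
  have halg : ∀ i, IsAlgebraic ℚ (z i) := by
    intro i
    have h3 : aeval (z i) f = 0 := by
      rw [haev, hzr, zero_mul]
    have h4 : IsAlgebraic ℤ (z i) := ⟨f, hf0', h3⟩
    exact h4.extendScalars (R := ℤ) (S := ℚ) (RingHom.injective_int (algebraMap ℤ ℚ))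
  refine ⟨f, fun i => ⟨z i, mem_algebraicClosure_iff.2 (halg i)⟩, ⟨hfmap, hzp', hzn2, ?_⟩, ?_,
    hfc, hfc2⟩
  · intro i j hij
    exact hzi (congrArg Subtype.val hij)
  · refine ⟨hfm, hfd, hf0, ?_⟩
    intro w hw
    rw [haev, mul_eq_zero] at hw
    rcases hw with hw | hw
    · obtain ⟨i, rfl⟩ := hroot w hw
      exact hzn2 i
    · rw [map_eq_zero] at hw
      obtain ⟨i, hi⟩ := hroot _ hw
      have h5 : ‖(starRingEnd ℂ) w‖ ^ 2 = ((s ^ 2 : ℕ) : ℝ) := by rw [hi]; exact hzn2 i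
      rwa [Complex.norm_conj] at h5

end Pool.Agent.H747.PDo3
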